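import Pool.Agent.DMO.Tool

/-!
# DMN: the negative answer to the Downey-Moses question (S14718), ideas row 2497

Definitions.  See `Targets.lean` for the plan.
-/

set_option autoImplicit false

namespace Pool.Agent.DMN

/-! ### Strict linear orders on `ℕ` and counting -/

/-- strict linear order on `ℕ` -/
structure SLO (A : ℕ → ℕ → Prop) : Prop where
  irr : ∀ x, ¬ A x x
  tr : ∀ x y z, A x y → A y z → A x z
  tri : ∀ x y, A x y ∨ x = y ∨ A y x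

open Classical in
/-- number of labels `< m` in the closed interval `[c, d]` of the order `A` -/
noncomputable def num (A : ℕ → ℕ → Prop) (m c d : ℕ) : ℕ :=
  ((Finset.range m).filter fun x => (c = x ∨ A c x) ∧ (x = d ∨ A x d)).card

open Classical in
/-- number of labels `< n` which are `≤ v` -/
noncomputable def below (X : ℕ → ℕ → Prop) (n v : ℕ) : ℕ :=
  ((Finset.range n).filter fun w => w = v ∨ X w v).card

open Classical in
/-- number of labels `< n` which are `≥ v` -/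
noncomputable def above (X : ℕ → ℕ → Prop) (n v : ℕ) : ℕ :=
  ((Finset.range n).filter fun w => w = v ∨ X v w).card

/-- `x < y` are neighbours among the labels `< n` -/
def Adj (X : ℕ → ℕ → Prop) (n x y : ℕ) : Prop := X x y ∧ ∀ w < n, ¬ (X x w ∧ X w y)

/-- infinitely many elements strictly between `x` and `y` -/
def Far (X : ℕ → ℕ → Prop) (x y : ℕ) : Prop := {w | X x w ∧ X w y}.Infinite

/-- the closed interval `[x, y]` of `X` -/
def Icc' (X : ℕ → ℕ → Prop) (x y : ℕ) : Set ℕ := {w | (x = w ∨ X x w) ∧ (w = y ∨ X w y)}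

/-! ### The partial self-embedding of a frame -/

/-- `u` is waiting: between the first and the last element of the domain of `f`, not in it -/
def Wait (A : ℕ → ℕ → Prop) (f : List (ℕ × ℕ)) (u : ℕ) : Prop :=
  (∀ p ∈ f, p.1 ≠ u) ∧ (∃ p ∈ f, A p.1 u) ∧ ∃ p ∈ f, A u p.1

/-- `y` is a good value for a new element between `z` and `z'` with `f z = v`, `f z' = v'` -/
def Good (A : ℕ → ℕ → Prop) (m g v v' y : ℕ) : Prop :=
  A v y ∧ A y v' ∧ g + 2 ≤ num A m v y ∧ g + 2 ≤ num A m y v'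

/-- invariant of the list `f` of a frame: `f` is strictly increasing, has a first pair `(x0, x1)`
with `x0 < x1` and a last pair `(b1, b1)`, lives in `[a, b]`, and has large windows -/
structure FI (A : ℕ → ℕ → Prop) (a b m t lp rp : ℕ) (f : List (ℕ × ℕ)) : Prop where
  mono : ∀ p ∈ f, ∀ q ∈ f, (A p.1 q.1 ↔ A p.2 q.2)
  ends : ∃ x0 x1 b1, (x0, x1) ∈ f ∧ (b1, b1) ∈ f ∧ A x0 x1 ∧ A x1 b1 ∧
    ∀ p ∈ f, (x0 = p.1 ∨ A x0 p.1) ∧ (p.1 = b1 ∨ A p.1 b1)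
  rng1 : ∀ p ∈ f, p.1 < m ∧ (a = p.1 ∨ A a p.1) ∧ (p.1 = b ∨ A p.1 b)
  rng2 : ∀ p ∈ f, p.2 < m ∧ (a = p.2 ∨ A a p.2) ∧ (p.2 = b ∨ A p.2 b)
  par : ∀ p ∈ f, lp ≤ num A m a p.2 ∧ rp ≤ num A m p.2 b
  win : ∀ i j p q, f[i]? = some p → f[j]? = some q → A p.1 q.1 →
    (∀ y ∈ f, ¬ (A p.1 y.1 ∧ A y.1 q.1)) →
    t + 2 + i ≤ num A m p.2 q.2 ∧ t + 2 + j ≤ num A m p.2 q.2

/-! ### The infinite game of one permanent frame -/

/-- The record of a frame which attacks infinitely often.  `A` is the order of the opponent, `X` is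
our order; the data with index `k` belong to the `k`-th attack. -/
structure Game (A X : ℕ → ℕ → Prop) (a b t : ℕ) where
  m : ℕ → ℕ
  n : ℕ → ℕ
  E : ℕ → ℕ
  f : ℕ → List (ℕ × ℕ)
  u : ℕ → ℕ
  z : ℕ → ℕ
  v : ℕ → ℕ
  z' : ℕ → ℕ
  v' : ℕ → ℕ
  gx : ℕ → ℕ
  gy : ℕ → ℕ
  Cut : ℕ → ℕ → ℕ → Prop
  hA : SLO A
  hX : SLO X
  lo : ∃ x, ∀ y, x = y ∨ X x y
  hi : ∃ x, ∀ y, x = y ∨ X y x
  hm : ∀ k, num A (m k) a b = E k
  hE : ∀ k, E (k + 1) = 3 * n k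
  hEn : ∀ k, E k ≤ n k
  hn : ∀ k, n k < n (k + 1)
  fi : ∃ lp rp, FI A a b (m 0) t lp rp (f 0)
  hz : ∀ k, (z k, v k) ∈ f k
  hz' : ∀ k, (z' k, v' k) ∈ f k
  hzu : ∀ k, A (z k) (u k)
  huz : ∀ k, A (u k) (z' k)
  hu : ∀ k, u k < m k
  nb : ∀ k, ∀ p ∈ f k, ¬ (A (z k) p.1 ∧ A p.1 (z' k))
  least : ∀ k, ∀ x < u k, ¬ Wait A (f k) x
  step : ∀ k, (∃ y < m k, Good A (m k) (t + (f k).length) (v k) (v' k) y ∧
      f (k + 1) = f k ++ [(u k, y)]) ∨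
    ((∀ y < m k, ¬ Good A (m k) (t + (f k).length) (v k) (v' k) y) ∧ f (k + 1) = f k)
  hg : ∀ k, gx k < n k ∧ gy k < n k ∧ Adj X (n k) (gx k) (gy k)
  ins : ∀ k w, n k ≤ w → w < n (k + 1) → X (gx k) w ∧ X w (gy k)
  hP : ∀ k, num A (m k) a (v k) ≤ below X (n k) (gx k)
  hQ : ∀ k, num A (m k) (v' k) b ≤ above X (n k) (gy k)
  cut : ∀ k, Cut k (gx k) (gy k)
  cutmono : ∀ k x y, Cut k x y → Cut (k + 1) x y
  key : ∀ k x y, x < n k → y < n k → Adj X (n k) x y → Cut k x y →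
    num A (m k) a (v k) ≤ below X (n k) x → num A (m k) (v' k) b ≤ above X (n k) y →
    Nat.pair (gx k) (gy k) ≤ Nat.pair x y
  small : ∀ k x y, x < n k → y < n k → X x y → num A (m k) (v k) (v' k) ≤ num X (n k) x y →
    ∃ x' y', x' < n k ∧ y' < n k ∧ Adj X (n k) x' y' ∧ (x = x' ∨ X x x') ∧ (y' = y ∨ X y' y) ∧
      Cut k x' y'

/-- The combinatorial core of a stuck frame (Claim 2 of the ideas row). -/
structure Stk (X : ℕ → ℕ → Prop) where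
  n : ℕ → ℕ
  P : ℕ → ℕ
  Q : ℕ → ℕ
  N : ℕ
  gx : ℕ → ℕ
  gy : ℕ → ℕ
  Cut : ℕ → ℕ → ℕ → Prop
  ky : ℕ → ℕ → ℕ
  hX : SLO X
  lo : ∃ x, ∀ y, x = y ∨ X x y
  hi : ∃ x, ∀ y, x = y ∨ X y x
  hN : 2 ≤ N
  hn : ∀ k, n k < n (k + 1)
  hP : ∀ k, P k ≤ P (k + 1)
  hQ : ∀ k, Q k ≤ Q (k + 1)
  hPQ : ∀ k, n k < P (k + 1) + Q (k + 1)
  hg : ∀ k, gx k < n k ∧ gy k < n k ∧ Adj X (n k) (gx k) (gy k)
  ins : ∀ k w, n k ≤ w → w < n (k + 1) → X (gx k) w ∧ X w (gy k)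
  pL : ∀ k, P k ≤ below X (n k) (gx k)
  pR : ∀ k, Q k ≤ above X (n k) (gy k)
  cut : ∀ k, Cut k (gx k) (gy k)
  cutmono : ∀ k x y, Cut k x y → Cut (k + 1) x y
  kyinj : ∀ x y x' y', ky x y = ky x' y' → x = x' ∧ y = y'
  key : ∀ k x y, x < n k → y < n k → Adj X (n k) x y → Cut k x y →
    P k ≤ below X (n k) x → Q k ≤ above X (n k) y → ky (gx k) (gy k) ≤ ky x y
  small : ∀ k x y, x < n k → y < n k → X x y → N ≤ num X (n k) x y →
    ∃ x' y', x' < n k ∧ y' < n k ∧ Adj X (n k) x' y' ∧ (x = x' ∨ X x x') ∧ (y' = y ∨ X y' y) ∧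
      Cut k x' y'

end Pool.Agent.DMN
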