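import Pool.Agent.DMN.Defs

/-!
# DMN: definitions, part B (the construction of one region)

Region `k` deals with the `k`-th program.  A state is `(X, C, stack)`: `X` is the list of the
labels `0, .., n - 1` in the order of the region, `C` is the set of the cuts, and the frames of the
stack are `(t, l, r, f)`.
-/

set_option autoImplicit false

namespace Pool.Agent.DMN

/-! ### The opponent -/

/-- value of the `k`-th program at `(x, y)` after `s` steps -/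
def opv (k s x y : ℕ) : Option ℕ :=
  Nat.Partrec.Code.evaln s (Denumerable.ofNat Nat.Partrec.Code k) (Nat.pair x y)

/-- `x < y` after `s` steps -/
def olt (k s x y : ℕ) : Prop := opv k s x y = some 1 ∧ x ≠ y

/-- the opponent is known on the labels `< M` after `s` steps, and is a strict linear order -/
def Ok (k s M : ℕ) : Prop :=
  (∀ x < M, ∀ y < M, (opv k s x y).isSome = true) ∧
  (∀ x < M, ∀ y < M, x = y ∨ olt k s x y ∨ olt k s y x) ∧
  (∀ x < M, ∀ y < M, ¬ (olt k s x y ∧ olt k s y x)) ∧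
  ∀ x < M, ∀ y < M, ∀ z < M, olt k s x y → olt k s y z → olt k s x z

/-- the opponent number `k` is the order `A` -/
def Real (k : ℕ) (A : ℕ → ℕ → Prop) : Prop :=
  (∀ M, ∃ s, Ok k s M) ∧ ∀ s M x y, Ok k s M → x < M → y < M → (olt k s x y ↔ A x y)

/-! ### Frames, states, candidates, witnesses -/

/-- frames `(t, l, r, f)` -/
abbrev Fr : Type := ℕ × ℕ × ℕ × List (ℕ × ℕ)

def ft (a : Fr) : ℕ := a.1
def fl (a : Fr) : ℕ := a.2.1
def fR (a : Fr) : ℕ := a.2.2.1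
def ff (a : Fr) : List (ℕ × ℕ) := a.2.2.2

/-- states `(X, C, stack)` -/
abbrev St : Type := List ℕ × List ℕ × List Fr

/-- the frame number `i` of a state -/
def fr (st : St) (i : ℕ) : Fr := st.2.2.getD i (0, 0, 0, [])

/-- candidates `(m1, m2, a, b, m3, m4)` -/
abbrev Cd : Type := ℕ × ℕ × ℕ × ℕ × ℕ × ℕ

def cm1 (c : Cd) : ℕ := c.1
def cm2 (c : Cd) : ℕ := c.2.1
def ca (c : Cd) : ℕ := c.2.2.1
def cb (c : Cd) : ℕ := c.2.2.2.1
def cm3 (c : Cd) : ℕ := c.2.2.2.2.1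
def cm4 (c : Cd) : ℕ := c.2.2.2.2.2

/-- the candidate of the frames with index `i` (for `i = 0` it is not used) -/
def cd (i : ℕ) : Cd := Denumerable.ofNat Cd (i - 1)

/-- witnesses `((m, M), (x0, x1, b1), (u, z, v, z', v'))` -/
abbrev Wi : Type := (ℕ × ℕ) × (ℕ × ℕ × ℕ) × (ℕ × ℕ × ℕ × ℕ × ℕ)

def wm (w : Wi) : ℕ := w.1.1
def wM (w : Wi) : ℕ := w.1.2
def wx0 (w : Wi) : ℕ := w.2.1.1
def wx1 (w : Wi) : ℕ := w.2.1.2.1
def wb1 (w : Wi) : ℕ := w.2.1.2.2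
def wu (w : Wi) : ℕ := w.2.2.1
def wz (w : Wi) : ℕ := w.2.2.2.1
def wv (w : Wi) : ℕ := w.2.2.2.2.1
def wz' (w : Wi) : ℕ := w.2.2.2.2.2.1
def wv' (w : Wi) : ℕ := w.2.2.2.2.2.2

/-- the witness with number `c` -/
def wi (c : ℕ) : Wi := Denumerable.ofNat Wi c

/-- the list `f` of a frame, after its initialisation -/
def f0 (a : Fr) (w : Wi) : List (ℕ × ℕ) :=
  if ff a = [] then [(wx0 w, wx1 w), (wb1 w, wb1 w)] else ff a

/-! ### When does a frame require attention -/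

/-- the evidence for the candidate `c` on the labels `< M`, up to `E` -/
def Ev (A : ℕ → ℕ → Prop) (k M E : ℕ) (c : Cd) : Prop :=
  (cm1 c < M ∧ cm2 c < M ∧ ca c < M ∧ cb c < M ∧ cm3 c < M ∧ cm4 c < M) ∧
  ((cm1 c = cm2 c ∨ A (cm1 c) (cm2 c)) ∧ A (cm2 c) (ca c) ∧ A (ca c) (cb c) ∧ A (cb c) (cm3 c) ∧
    (cm3 c = cm4 c ∨ A (cm3 c) (cm4 c))) ∧
  (num A M (cm1 c) (cm2 c) = 2 * k + 1 ∧ num A M (cm3 c) (cm4 c) = 2 * k + 3) ∧
  ∀ x < E, (A x (cm1 c) → ∃ w < M, A x w ∧ A w (cm1 c)) ∧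
    (A (cm2 c) x → ∃ w < M, A (cm2 c) w ∧ A w x) ∧
    (A x (cm3 c) → ∃ w < M, A x w ∧ A w (cm3 c)) ∧
    (A (cm4 c) x → ∃ w < M, A (cm4 c) w ∧ A w x) ∧
    (A x (ca c) → ∃ w < M, A x w ∧ A w (ca c)) ∧
    (A (cb c) x → ∃ w < M, A (cb c) w ∧ A w x)

/-- `w` is the data for an attack of the frame `a` (with the frame `a'` below it) and candidate
`c`, where `A` is the order of the opponent -/
def Dat (A : ℕ → ℕ → Prop) (k : ℕ) (c : Cd) (a a' : Fr) (w : Wi) : Prop :=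
  (wm w ≤ wM w ∧ Ev A k (wM w) (3 * (fl a + fR a)) c ∧
    num A (wm w) (ca c) (cb c) = 3 * (fl a + fR a)) ∧
  (ff a = [] → wx0 w < wm w ∧ wx1 w < wm w ∧ wb1 w < wm w ∧
    num A (wm w) (ca c) (wx0 w) = fl a + 1 ∧ num A (wm w) (ca c) (wx1 w) = fl a + 2 ∧
    num A (wm w) (wb1 w) (cb c) = fR a + 1) ∧
  (∀ p ∈ f0 a w, p.1 < wm w ∧ p.2 < wm w) ∧
  ((wz w, wv w) ∈ f0 a w ∧ (wz' w, wv' w) ∈ f0 a w ∧ A (wz w) (wu w) ∧ A (wu w) (wz' w) ∧
    wu w < wm w ∧ (∀ p ∈ f0 a w, ¬ (A (wz w) p.1 ∧ A p.1 (wz' w))) ∧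
    ∀ x < wu w, ¬ Wait A (f0 a w) x) ∧
  (A (wv w) (wv' w) ∧ fl a' ≤ num A (wm w) (ca c) (wv w) ∧
    fR a' ≤ num A (wm w) (wv' w) (cb c) ∧ ft a + 3 ≤ num A (wm w) (wv w) (wv' w) ∧
    num A (wm w) (ca c) (wv w) + num A (wm w) (wv w) (wv' w) + num A (wm w) (wv' w) (cb c) =
      num A (wm w) (ca c) (cb c) + 2)

/-- the frame number `(Nat.unpair s).1` requires attention at stage `s`, with witness `w` -/
def Req (k s : ℕ) (st : St) (w : Wi) : Prop :=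
  1 ≤ (Nat.unpair s).1 ∧ (Nat.unpair s).1 < st.2.2.length ∧ Ok k s (wM w) ∧
    Dat (olt k s) k (cd (Nat.unpair s).1) (fr st (Nat.unpair s).1)
      (fr st ((Nat.unpair s).1 - 1)) w

/-! ### The step -/

/-- position `l` (between the element number `l` and the element number `l + 1`) is a cut -/
def Pos (X C : List ℕ) (l : ℕ) : Prop := 1 ≤ l ∧ l ≤ X.length ∧ X.getD (l - 1) 0 ∈ C

/-- the new set of cuts `C'`: all cells are `< N`, the new cells are long, all cuts are even -/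
def Split (X C : List ℕ) (N : ℕ) (C' : List ℕ) : Prop :=
  (∀ x ∈ C, x ∈ C') ∧ (∀ x ∈ C', x ∈ X) ∧
  (∀ a ≤ X.length, a + N ≤ X.length → ∃ l < a + N, a < l ∧ Pos X C' l) ∧
  (∀ l ≤ X.length, ∀ l' ≤ X.length, Pos X C' l → ¬ Pos X C l → (l' = 0 ∨ Pos X C' l') →
    (l < l' → N ≤ 2 * (l' - l) + 2) ∧ (l' < l → N ≤ 2 * (l - l') + 2)) ∧
  ∀ l ≤ X.length, Pos X C' l → l % 2 = 0

/-- `l` is the cut position with at least `P` elements to the left and `Q` to the right for which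
the pair of its neighbours has the least code -/
def Gap (X C : List ℕ) (P Q l : ℕ) : Prop :=
  P ≤ l ∧ l + Q ≤ X.length ∧ Pos X C l ∧
  ∀ l' ≤ X.length, P ≤ l' → l' + Q ≤ X.length → Pos X C l' →
    Nat.pair (X.getD (l - 1) 0) (X.getD l 0) ≤ Nat.pair (X.getD (l' - 1) 0) (X.getD l' 0)

/-- the new list `f'` -/
def NewF (A : ℕ → ℕ → Prop) (m g u v v' : ℕ) (f f' : List (ℕ × ℕ)) : Prop :=
  (∃ y < m, Good A m g v v' y ∧ f' = f ++ [(u, y)]) ∨ ((∀ y < m, ¬ Good A m g v v' y) ∧ f' = f)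

/-- insert a new cell at position `l` and push a new frame -/
def insAt (s l : ℕ) (X C : List ℕ) (stk : List Fr) : St :=
  (X.take l ++ List.range' X.length (2 * X.length) ++ X.drop l, C ++ [3 * X.length - 1],
    stk ++ [(s + 1, l, X.length - l, [])])

/-- the attack at stage `s` -/
def Att (k s : ℕ) (st : St) (w : Wi) (st' : St) : Prop :=
  ∃ (C' : List ℕ) (l : ℕ) (f' : List (ℕ × ℕ)),
    Split st.1 st.2.1 (num (olt k s) (wm w) (wv w) (wv' w)) C' ∧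
    Gap st.1 C' (num (olt k s) (wm w) (ca (cd (Nat.unpair s).1)) (wv w))
      (num (olt k s) (wm w) (wv' w) (cb (cd (Nat.unpair s).1))) l ∧
    NewF (olt k s) (wm w) (ft (fr st (Nat.unpair s).1) + (f0 (fr st (Nat.unpair s).1) w).length)
      (wu w) (wv w) (wv' w) (f0 (fr st (Nat.unpair s).1) w) f' ∧
    st' = insAt s l st.1 C' (st.2.2.take (Nat.unpair s).1 ++
      [(ft (fr st (Nat.unpair s).1), l, st.1.length - l, f')])

/-- no attack at stage `s` -/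
def Psh (s : ℕ) (st st' : St) : Prop :=
  st' = insAt s (fl (fr st (st.2.2.length - 1))) st.1 st.2.1 st.2.2

/-- stage `s` of region `k` -/
def R (k s : ℕ) (st st' : St) : Prop :=
  (∃ c < s, Req k s st (wi c) ∧ Att k s st (wi c) st') ∨
    ((∀ c < s, ¬ Req k s st (wi c)) ∧ Psh s st st')

/-- the initial state -/
def init : St := ([0, 1, 2, 3], [1, 3], [(0, 2, 2, [])])

/-- number of labels after `s` stages -/
def nn (s : ℕ) : ℕ := 4 * 3 ^ s

/-- invariant of the states -/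
structure Inv (s : ℕ) (st : St) : Prop where
  len : st.1.length = nn s
  nodup : st.1.Nodup
  mem : ∀ x, x ∈ st.1 ↔ x < nn s
  cmem : ∀ x ∈ st.2.1, x < nn s
  even : ∀ l, Pos st.1 st.2.1 l → l % 2 = 0
  last : Pos st.1 st.2.1 (nn s)
  len2 : 1 ≤ st.2.2.length
  root : fr st 0 = (0, 2, 2, [])
  lmono : ∀ i j, i ≤ j → j < st.2.2.length →
    fl (fr st i) ≤ fl (fr st j) ∧ fR (fr st i) ≤ fR (fr st j)
  tmono : ∀ i j, i < j → j < st.2.2.length → ft (fr st i) < ft (fr st j)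
  tle : ∀ i < st.2.2.length, ft (fr st i) ≤ s
  sum : ∀ i < st.2.2.length, fl (fr st i) + fR (fr st i) ≤ nn s
  sum' : ∀ i < st.2.2.length, 1 ≤ i → 3 * (fl (fr st i) + fR (fr st i)) ≤ nn s
  pos : ∀ i < st.2.2.length, Pos st.1 st.2.1 (fl (fr st i))

/-- a run of region `k` -/
structure Run (k : ℕ) (σ : ℕ → St) : Prop where
  zero : σ 0 = init
  step : ∀ s, R k s (σ s) (σ (s + 1))
  inv : ∀ s, Inv s (σ s)

/-- facts on stage `s`: the new cell is inserted at position `l` -/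
structure SF (σ : ℕ → St) (s l : ℕ) : Prop where
  eqX : (σ (s + 1)).1 = (σ s).1.take l ++ List.range' (nn s) (2 * nn s) ++ (σ s).1.drop l
  lo : 2 ≤ l
  hi : l + 2 ≤ nn s
  cut : Pos (σ s).1 (σ (s + 1)).2.1 l
  cmono : ∀ x ∈ (σ s).2.1, x ∈ (σ (s + 1)).2.1
  cnew : ∀ x, nn s ≤ x → x ∈ (σ (s + 1)).2.1 → x = nn (s + 1) - 1
  cnew' : nn (s + 1) - 1 ∈ (σ (s + 1)).2.1
  gap : ∀ i < (σ (s + 1)).2.2.length, fl (fr (σ (s + 1)) i) ≤ l ∧
    fR (fr (σ (s + 1)) i) ≤ nn s - l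

/-- facts on an attack of frame `i` at stage `s` with witness `w`: the new set of cuts is `C'`, the
new gap is at position `l`, and the new list is `f'` -/
structure AF (k : ℕ) (σ : ℕ → St) (i s : ℕ) (w : Wi) (C' : List ℕ) (l : ℕ)
    (f' : List (ℕ × ℕ)) : Prop where
  i1 : 1 ≤ i
  i2 : i < (σ s).2.2.length
  ok : Ok k s (wM w)
  dat : Dat (olt k s) k (cd i) (fr (σ s) i) (fr (σ s) (i - 1)) w
  split : Split (σ s).1 (σ s).2.1 (num (olt k s) (wm w) (wv w) (wv' w)) C'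
  gap : Gap (σ s).1 C' (num (olt k s) (wm w) (ca (cd i)) (wv w))
    (num (olt k s) (wm w) (wv' w) (cb (cd i))) l
  newf : NewF (olt k s) (wm w) (ft (fr (σ s) i) + (f0 (fr (σ s) i) w).length) (wu w) (wv w)
    (wv' w) (f0 (fr (σ s) i) w) f'
  sf : SF σ s l
  frm : fr (σ (s + 1)) i = (ft (fr (σ s) i), l, nn s - l, f')
  len : (σ (s + 1)).2.2.length = i + 2
  top : fr (σ (s + 1)) (i + 1) = (s + 1, l, nn s - l, [])
  old : ∀ j < i, fr (σ (s + 1)) j = fr (σ s) j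
  ceq : ∀ x < nn s, x ∈ C' ↔ x ∈ (σ (s + 1)).2.1

/-- facts on a stage `s` without attack -/
structure PF (σ : ℕ → St) (s l : ℕ) : Prop where
  sf : SF σ s l
  len : (σ (s + 1)).2.2.length = (σ s).2.2.length + 1
  top : fr (σ (s + 1)) (σ s).2.2.length = (s + 1, l, nn s - l, [])
  old : ∀ j < (σ s).2.2.length, fr (σ (s + 1)) j = fr (σ s) j
  ceq : ∀ x < nn s, x ∈ (σ s).2.1 ↔ x ∈ (σ (s + 1)).2.1

/-- the order of a run -/
def xo (σ : ℕ → St) (x y : ℕ) : Prop :=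
  (σ (x + y + 1)).1.idxOf x < (σ (x + y + 1)).1.idxOf y

/-- the frame number `i` which was pushed with time stamp `T` is on the stack after `s` stages -/
def On (σ : ℕ → St) (i T s : ℕ) : Prop := i < (σ s).2.2.length ∧ ft (fr (σ s) i) = T

/-- the frame number `i` attacks at stage `s` -/
def AttAt (k : ℕ) (σ : ℕ → St) (i s : ℕ) : Prop :=
  (Nat.unpair s).1 = i ∧ ∃ w, Req k s (σ s) w ∧ Att k s (σ s) w (σ (s + 1))

/-- stage `s` has no attack with a window smaller than `B` -/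
def Long (k : ℕ) (σ : ℕ → St) (B s : ℕ) : Prop :=
  Psh s (σ s) (σ (s + 1)) ∨ ∃ w, Req k s (σ s) w ∧ Att k s (σ s) w (σ (s + 1)) ∧
    B ≤ num (olt k s) (wm w) (wv w) (wv' w)

/-- a block at stage `s`: positions `p < q` which are cuts, no cut between them, at least `B`
elements, all of them strictly between `x` and `y` -/
def Blk (σ : ℕ → St) (x y B s p q : ℕ) : Prop :=
  p + B ≤ q ∧ p < q ∧ Pos (σ s).1 (σ s).2.1 p ∧ Pos (σ s).1 (σ s).2.1 q ∧
    (∀ l, p < l → l < q → ¬ Pos (σ s).1 (σ s).2.1 l) ∧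
    ∀ i, p ≤ i → i < q → xo σ x ((σ s).1.getD i 0) ∧ xo σ ((σ s).1.getD i 0) y

/-- invariant of the frames with respect to the total order `A` -/
def FrInv (A : ℕ → ℕ → Prop) (c : Cd) (a a' : Fr) : Prop :=
  (ff a = [] ∧ 1 ≤ ft a ∧ fl a + fR a = nn (ft a - 1)) ∨
  (ff a ≠ [] ∧ ∃ m, num A m (ca c) (cb c) ≤ 3 * (fl a + fR a) ∧
    FI A (ca c) (cb c) m (ft a) (fl a') (fR a') (ff a))

/-- the evidence for the candidate `c` in the limit -/
def EvLim (A : ℕ → ℕ → Prop) (k : ℕ) (c : Cd) : Prop :=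
  ((cm1 c = cm2 c ∨ A (cm1 c) (cm2 c)) ∧ A (cm2 c) (ca c) ∧ A (ca c) (cb c) ∧ A (cb c) (cm3 c) ∧
    (cm3 c = cm4 c ∨ A (cm3 c) (cm4 c))) ∧
  (∃ M0, ∀ M ≥ M0, num A M (cm1 c) (cm2 c) = 2 * k + 1 ∧
    num A M (cm3 c) (cm4 c) = 2 * k + 3) ∧
  ∀ x, (A x (cm1 c) → ∃ w, A x w ∧ A w (cm1 c)) ∧
    (A (cm2 c) x → ∃ w, A (cm2 c) w ∧ A w x) ∧
    (A x (cm3 c) → ∃ w, A x w ∧ A w (cm3 c)) ∧
    (A (cm4 c) x → ∃ w, A (cm4 c) w ∧ A w x) ∧
    (A x (ca c) → ∃ w, A x w ∧ A w (ca c)) ∧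
    (A (cb c) x → ∃ w, A (cb c) w ∧ A w x)

end Pool.Agent.DMN
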