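import Pool.Agent.DMN.DefsB

/-!
# DMN: definitions, part D (the attack sequence of a permanent frame)
-/

set_option autoImplicit false

namespace Pool.Agent.DMN

/-- the attack sequence of the permanent frame `i` with time stamp `T`: `τ j` is the stage of the
`j`-th attack, with witness `ws j`, cuts `C j`, gap position `l j` and new list `g j` -/
structure AS (k : ℕ) (σ : ℕ → St) (i T : ℕ) where
  τ : ℕ → ℕ
  ws : ℕ → Wi
  C : ℕ → List ℕ
  l : ℕ → ℕ
  g : ℕ → List (ℕ × ℕ)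
  mono : StrictMono τ
  idx : ∀ j, (Nat.unpair (τ j)).1 = i
  req : ∀ j, Req k (τ j) (σ (τ j)) (ws j)
  att : ∀ j, Att k (τ j) (σ (τ j)) (ws j) (σ (τ j + 1))
  af : ∀ j, AF k σ i (τ j) (ws j) (C j) (l j) (g j)
  on : ∀ s, τ 0 ≤ s → On σ i T s
  all : ∀ s, τ 0 ≤ s → AttAt k σ i s → ∃ j, τ j = s

/-- left and right neighbour of the gap of the `j`-th attack -/
def AS.gx {k : ℕ} {σ : ℕ → St} {i T : ℕ} (D : AS k σ i T) (j : ℕ) : ℕ :=
  (σ (D.τ j)).1.getD (D.l j - 1) 0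

def AS.gy {k : ℕ} {σ : ℕ → St} {i T : ℕ} (D : AS k σ i T) (j : ℕ) : ℕ :=
  (σ (D.τ j)).1.getD (D.l j) 0

end Pool.Agent.DMN
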