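import Pool.Agent.DMN.EOrd

/-!
# DMN, part E: blocks of `L`
-/

set_option autoImplicit false

namespace Pool.Agent.DMN

/-- `x` has no immediate predecessor -/
def NP (A : ℕ → ℕ → Prop) (x : ℕ) : Prop := ∀ w, A w x → ∃ w', A w w' ∧ A w' x

/-- `x` has no immediate successor -/
def NS (A : ℕ → ℕ → Prop) (x : ℕ) : Prop := ∀ w, A x w → ∃ w', A x w' ∧ A w' w

/-- facts on the orders of the regions -/
structure RF (X : ℕ → ℕ → ℕ → Prop) : Prop where
  slo : ∀ k, SLO (X k)
  lo : ∀ k y, 0 = y ∨ X k 0 y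
  hi : ∀ k y, 3 = y ∨ X k y 3
  even : ∀ k c d, (c = d ∨ X k c d) → (Icc' (X k) c d).Finite → NP (X k) c → NS (X k) d →
    (Icc' (X k) c d).ncard % 2 = 0
  ri : ∀ k d0 d1 d2 d3, Far (X k) d0 d1 → Far (X k) d1 d2 → Far (X k) d2 d3 → ∀ B : ℕ,
    ∃ x' y', x' ∈ Icc' (X k) d0 d3 ∧ y' ∈ Icc' (X k) d0 d3 ∧ (Icc' (X k) x' y').Finite ∧
      B ≤ (Icc' (X k) x' y').ncard

section

variable {X : ℕ → ℕ → ℕ → Prop}

/-! ### Comparison of elements -/

theorem LL_mk {k t i k' t' i' : ℕ} (h : VT k t i) (h' : VT k' t' i') :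
    LL X (mk k t i) (mk k' t' i') ↔
      k < k' ∨ (k = k' ∧ (t < t' ∨ (t = t' ∧ BL X k t i i'))) := by
  unfold LL
  rw [kk_mk, kk_mk, tt_mk h, tt_mk h', ii_mk h, ii_mk h']

/-- an element between two elements of one block is in the block -/
theorem mid_block {x y w : ℕ} (h1 : x = w ∨ LL X x w) (h2 : w = y ∨ LL X w y)
    (hk : kk x = kk y) (ht : tt x = tt y) : kk w = kk x ∧ tt w = tt x := by
  rcases h1 with rfl | h1
  · exact ⟨rfl, rfl⟩
  rcases h2 with rfl | h2
  · exact ⟨hk.symm, ht.symm⟩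
  rcases h1 with h1 | ⟨h1, h1 | ⟨h1', _⟩⟩ <;> rcases h2 with h2 | ⟨h2, h2 | ⟨h2', _⟩⟩ <;> omega

theorem BL_zeta {k t i j : ℕ} (ht : t = 1 ∨ t = 3) : BL X k t i j ↔ zlt i j := by
  unfold BL
  constructor
  · rintro (h | h | h)
    · omega
    · exact h.2
    · omega
  · intro h
    exact Or.inr (Or.inl ⟨ht, h⟩)

theorem BL_two {k i j : ℕ} : BL X k 2 i j ↔ X k i j := by
  unfold BL
  constructor
  · rintro (h | h | h)
    · omega
    · omega
    · exact h.2
  · intro h
    exact Or.inr (Or.inr ⟨rfl, h⟩)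

theorem BL_zero {k i j : ℕ} : BL X k 0 i j ↔ i < j := by
  unfold BL
  constructor
  · rintro (h | h | h)
    · exact h.2
    · omega
    · omega
  · intro h
    exact Or.inl ⟨rfl, h⟩

/-! ### Elements without predecessor or successor -/

theorem zlt_pred (i : ℕ) : ∃ j, zlt j i ∧ ∀ l, ¬ (zlt j l ∧ zlt l i) := by
  unfold zlt
  rcases Nat.even_or_odd i with h | h
  · rcases Nat.eq_zero_or_pos i with h0 | h0
    · exact ⟨1, by omega, fun l => by omega⟩
    · have := Nat.even_iff.1 h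
      exact ⟨i - 2, by omega, fun l => by omega⟩
  · have := Nat.odd_iff.1 h
    exact ⟨i + 2, by omega, fun l => by omega⟩

theorem zlt_succ (i : ℕ) : ∃ j, zlt i j ∧ ∀ l, ¬ (zlt i l ∧ zlt l j) := by
  unfold zlt
  rcases Nat.even_or_odd i with h | h
  · have := Nat.even_iff.1 h
    exact ⟨i + 2, by omega, fun l => by omega⟩
  · have := Nat.odd_iff.1 h
    rcases Nat.lt_or_ge i 2 with h0 | h0
    · exact ⟨0, by omega, fun l => by omega⟩
    · exact ⟨i - 2, by omega, fun l => by omega⟩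

/-- if the block contains an immediate predecessor then `NP` fails -/
theorem not_NP_of {k t i j : ℕ} (hi : VT k t i) (hj : VT k t j) (hji : BL X k t j i)
    (hn : ∀ l, VT k t l → ¬ (BL X k t j l ∧ BL X k t l i)) : ¬ NP (LL X) (mk k t i) := by
  intro h
  have h1 : LL X (mk k t j) (mk k t i) :=
    (LL_mk hj hi).2 (Or.inr ⟨rfl, Or.inr ⟨rfl, hji⟩⟩)
  obtain ⟨w, hw1, hw2⟩ := h _ h1
  obtain ⟨h2, h3⟩ := mid_block (Or.inr hw1) (Or.inr hw2) (by rw [kk_mk, kk_mk])
    (by rw [tt_mk hi, tt_mk hj])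
  rw [kk_mk] at h2
  rw [tt_mk hj] at h3
  have hw := mk_eq w
  have hvt := vt w
  rw [h2, h3] at hw hvt
  rw [← hw, LL_mk hj hvt] at hw1
  rw [← hw, LL_mk hvt hi] at hw2
  refine hn _ hvt ⟨?_, ?_⟩
  · rcases hw1 with h | ⟨_, h | ⟨_, h⟩⟩
    · omega
    · omega
    · exact h
  · rcases hw2 with h | ⟨_, h | ⟨_, h⟩⟩
    · omega
    · omega
    · exact h

theorem not_NS_of {k t i j : ℕ} (hi : VT k t i) (hj : VT k t j) (hij : BL X k t i j)
    (hn : ∀ l, VT k t l → ¬ (BL X k t i l ∧ BL X k t l j)) : ¬ NS (LL X) (mk k t i) := by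
  intro h
  have h1 : LL X (mk k t i) (mk k t j) :=
    (LL_mk hi hj).2 (Or.inr ⟨rfl, Or.inr ⟨rfl, hij⟩⟩)
  obtain ⟨w, hw1, hw2⟩ := h _ h1
  obtain ⟨h2, h3⟩ := mid_block (Or.inr hw1) (Or.inr hw2) (by rw [kk_mk, kk_mk])
    (by rw [tt_mk hi, tt_mk hj])
  rw [kk_mk] at h2
  rw [tt_mk hi] at h3
  have hw := mk_eq w
  have hvt := vt w
  rw [h2, h3] at hw hvt
  rw [← hw, LL_mk hi hvt] at hw1
  rw [← hw, LL_mk hvt hj] at hw2
  refine hn _ hvt ⟨?_, ?_⟩
  · rcases hw1 with h | ⟨_, h | ⟨_, h⟩⟩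
    · omega
    · omega
    · exact h
  · rcases hw2 with h | ⟨_, h | ⟨_, h⟩⟩
    · omega
    · omega
    · exact h

/-- an element without predecessor is the first one of a chain `M` or in a block `X` -/
theorem NP_type {x : ℕ} (h : NP (LL X) x) : (tt x = 0 ∧ ii x = 0) ∨ tt x = 2 := by
  have hx := mk_eq x
  have hv := vt x
  rcases Nat.lt_or_ge (tt x) 1 with h0 | h0
  · have h1 : tt x = 0 := by omega
    left
    refine ⟨h1, ?_⟩
    by_contra hi
    rw [h1] at hx hv
    rw [← hx] at h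
    have hb : ii x < 2 * kk x + 1 := by
      rcases hv with hv | hv
      · exact hv.2
      · omega
    refine not_NP_of (j := ii x - 1) hv (Or.inl ⟨rfl, by omega⟩) (BL_zero.2 (by omega)) ?_ h
    intro l _ hl
    rw [BL_zero, BL_zero] at hl
    omega
  · by_cases h2 : tt x = 2
    · exact Or.inr h2
    · exfalso
      have h3 := tt_le x
      have h13 : tt x = 1 ∨ tt x = 3 := by omega
      rw [← hx] at h
      obtain ⟨j, hj, hn⟩ := zlt_pred (ii x)
      refine not_NP_of (j := j) hv (Or.inr ⟨h0, h3⟩) ((BL_zeta h13).2 hj) ?_ h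
      intro l _ hl
      rw [BL_zeta h13, BL_zeta h13] at hl
      exact hn l hl

/-- an element without successor is the last one of a chain `M` or in a block `X` -/
theorem NS_type {x : ℕ} (h : NS (LL X) x) : (tt x = 0 ∧ ii x = 2 * kk x) ∨ tt x = 2 := by
  have hx := mk_eq x
  have hv := vt x
  rcases Nat.lt_or_ge (tt x) 1 with h0 | h0
  · have h1 : tt x = 0 := by omega
    left
    refine ⟨h1, ?_⟩
    by_contra hi
    rw [h1] at hx hv
    rw [← hx] at h
    have hb : ii x < 2 * kk x + 1 := by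
      rcases hv with hv | hv
      · exact hv.2
      · omega
    refine not_NS_of (j := ii x + 1) hv (Or.inl ⟨rfl, by omega⟩) (BL_zero.2 (by omega)) ?_ h
    intro l _ hl
    rw [BL_zero, BL_zero] at hl
    omega
  · by_cases h2 : tt x = 2
    · exact Or.inr h2
    · exfalso
      have h3 := tt_le x
      have h13 : tt x = 1 ∨ tt x = 3 := by omega
      rw [← hx] at h
      obtain ⟨j, hj, hn⟩ := zlt_succ (ii x)
      refine not_NS_of (j := j) hv (Or.inr ⟨h0, h3⟩) ((BL_zeta h13).2 hj) ?_ h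
      intro l _ hl
      rw [BL_zeta h13, BL_zeta h13] at hl
      exact hn l hl

theorem VT2 (k i : ℕ) : VT k 2 i := Or.inr ⟨by norm_num, by norm_num⟩

theorem LL_two {k i j : ℕ} : LL X (mk k 2 i) (mk k 2 j) ↔ X k i j := by
  rw [LL_mk (VT2 k i) (VT2 k j)]
  constructor
  · rintro (h | ⟨_, h | ⟨_, h⟩⟩)
    · omega
    · omega
    · exact BL_two.1 h
  · intro h
    exact Or.inr ⟨rfl, Or.inr ⟨rfl, BL_two.2 h⟩⟩

theorem eq_mk_two {k x : ℕ} (h1 : kk x = k) (h2 : tt x = 2) : x = mk k 2 (ii x) := by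
  rw [← h1, ← h2]
  exact (mk_eq x).symm

/-- elements between two elements of `X_k` -/
theorem mid_two {k i j w : ℕ} (h1 : mk k 2 i = w ∨ LL X (mk k 2 i) w)
    (h2 : w = mk k 2 j ∨ LL X w (mk k 2 j)) : w = mk k 2 (ii w) := by
  obtain ⟨h3, h4⟩ := mid_block h1 h2 (by rw [kk_mk, kk_mk]) (by rw [tt_mk (VT2 _ _),
    tt_mk (VT2 _ _)])
  rw [kk_mk] at h3
  rw [tt_mk (VT2 _ _)] at h4
  exact eq_mk_two h3 h4

theorem NP_two {k i : ℕ} (h : NP (LL X) (mk k 2 i)) : NP (X k) i := by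
  intro w hw
  obtain ⟨w', h1, h2⟩ := h (mk k 2 w) (LL_two.2 hw)
  have h3 := mid_two (Or.inr h1) (Or.inr h2)
  rw [h3, LL_two] at h1 h2
  exact ⟨_, h1, h2⟩

theorem NS_two {k i : ℕ} (h : NS (LL X) (mk k 2 i)) : NS (X k) i := by
  intro w hw
  obtain ⟨w', h1, h2⟩ := h (mk k 2 w) (LL_two.2 hw)
  have h3 := mid_two (Or.inr h1) (Or.inr h2)
  rw [h3, LL_two] at h1 h2
  exact ⟨_, h1, h2⟩

/-- intervals of `X_k` inside `L` -/
theorem Icc_two (k i j : ℕ) :
    Icc' (LL X) (mk k 2 i) (mk k 2 j) = (fun w => mk k 2 w) '' Icc' (X k) i j := by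
  ext w
  simp only [Icc', Set.mem_ofPred_eq, Set.mem_image]
  constructor
  · rintro ⟨h1, h2⟩
    have h3 := mid_two h1 h2
    refine ⟨ii w, ⟨?_, ?_⟩, h3.symm⟩
    · rcases h1 with h1 | h1
      · left
        rw [← h1, ii_mk (VT2 _ _)]
      · right
        rw [h3, LL_two] at h1
        exact h1
    · rcases h2 with h2 | h2
      · left
        rw [h2, ii_mk (VT2 _ _)]
      · right
        rw [h3, LL_two] at h2
        exact h2
  · rintro ⟨l, ⟨h1, h2⟩, rfl⟩
    constructor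
    · rcases h1 with h1 | h1
      · exact Or.inl (by rw [h1])
      · exact Or.inr (LL_two.2 h1)
    · rcases h2 with h2 | h2
      · exact Or.inl (by rw [h2])
      · exact Or.inr (LL_two.2 h2)

theorem mk_two_inj (k : ℕ) : Function.Injective fun w => mk k 2 w := by
  intro a b h
  have h1 : ii (mk k 2 a) = ii (mk k 2 b) := congrArg ii h
  rwa [ii_mk (VT2 _ _), ii_mk (VT2 _ _)] at h1

/-! ### The endpoints of the blocks -/

theorem zlt_top (i : ℕ) : ∃ j, zlt i j := (zlt_succ i).imp fun _ h => h.1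

theorem zlt_bot (i : ℕ) : ∃ j, zlt j i := (zlt_pred i).imp fun _ h => h.1

/-- the first element of a block which is preceded by a `ζ` has no predecessor -/
theorem NP_first {k t i k' t' : ℕ} (hi : VT k t i) (ht' : t' = 1 ∨ t' = 3)
    (hlt : k' < k ∨ (k' = k ∧ t' < t))
    (hn : ∀ k'' t'', ((k'' < k ∨ (k'' = k ∧ t'' < t)) → t'' ≤ 3 →
      (k'' < k' ∨ (k'' = k' ∧ t'' ≤ t'))))
    (hmin : ∀ l, ¬ BL X k t l i) : NP (LL X) (mk k t i) := by
  intro w hw
  have hvt : ∀ j, VT k' t' j := fun j => Or.inr (by omega)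
  have hup : ∀ j, LL X (mk k' t' j) (mk k t i) := fun j =>
    (LL_mk (hvt j) hi).2 (by
      rcases hlt with h | h
      · exact Or.inl h
      · exact Or.inr ⟨h.1, Or.inl h.2⟩)
  have hw' := mk_eq w
  have hvw := vt w
  rw [← hw', LL_mk hvw hi] at hw
  have h1 : kk w < k ∨ (kk w = k ∧ tt w < t) := by
    rcases hw with h | ⟨h, h' | ⟨h', h''⟩⟩
    · exact Or.inl h
    · exact Or.inr ⟨h, h'⟩
    · rw [h, h'] at h''
      exact absurd h'' (hmin _)
  have h2 := hn _ _ h1 (tt_le w)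
  rcases h2 with h2 | ⟨h2, h3⟩
  · refine ⟨mk k' t' 0, ?_, hup 0⟩
    rw [← hw', LL_mk hvw (hvt 0)]
    exact Or.inl h2
  · rcases lt_or_eq_of_le h3 with h3 | h3
    · refine ⟨mk k' t' 0, ?_, hup 0⟩
      rw [← hw', LL_mk hvw (hvt 0)]
      exact Or.inr ⟨h2, Or.inl h3⟩
    · obtain ⟨j, hj⟩ := zlt_top (ii w)
      refine ⟨mk k' t' j, ?_, hup j⟩
      rw [← hw', LL_mk hvw (hvt j)]
      refine Or.inr ⟨h2, Or.inr ⟨h3, ?_⟩⟩
      rw [h2, h3]
      exact (BL_zeta ht').2 hj

/-- the last element of a block which is followed by a `ζ` has no successor -/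
theorem NS_last {k t i k' t' : ℕ} (hi : VT k t i) (ht' : t' = 1 ∨ t' = 3)
    (hlt : k < k' ∨ (k = k' ∧ t < t'))
    (hn : ∀ k'' t'', ((k < k'' ∨ (k = k'' ∧ t < t'')) → t'' ≤ 3 →
      (k' < k'' ∨ (k' = k'' ∧ t' ≤ t''))))
    (hmax : ∀ l, VT k t l → ¬ BL X k t i l) : NS (LL X) (mk k t i) := by
  intro w hw
  have hvt : ∀ j, VT k' t' j := fun j => Or.inr (by omega)
  have hup : ∀ j, LL X (mk k t i) (mk k' t' j) := fun j =>
    (LL_mk hi (hvt j)).2 (by
      rcases hlt with h | h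
      · exact Or.inl h
      · exact Or.inr ⟨h.1, Or.inl h.2⟩)
  have hw' := mk_eq w
  have hvw := vt w
  rw [← hw', LL_mk hi hvw] at hw
  have h1 : k < kk w ∨ (k = kk w ∧ t < tt w) := by
    rcases hw with h | ⟨h, h' | ⟨h', h''⟩⟩
    · exact Or.inl h
    · exact Or.inr ⟨h, h'⟩
    · exfalso
      refine hmax (ii w) ?_ h''
      rw [h, h']
      exact hvw
  have h2 := hn _ _ h1 (tt_le w)
  rcases h2 with h2 | ⟨h2, h3⟩
  · refine ⟨mk k' t' 0, hup 0, ?_⟩
    rw [← hw', LL_mk (hvt 0) hvw]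
    exact Or.inl h2
  · rcases lt_or_eq_of_le h3 with h3 | h3
    · refine ⟨mk k' t' 0, hup 0, ?_⟩
      rw [← hw', LL_mk (hvt 0) hvw]
      exact Or.inr ⟨h2, Or.inl h3⟩
    · obtain ⟨j, hj⟩ := zlt_bot (ii w)
      refine ⟨mk k' t' j, hup j, ?_⟩
      rw [← hw', LL_mk (hvt j) hvw]
      exact Or.inr ⟨h2, Or.inr ⟨h3, (BL_zeta ht').2 hj⟩⟩

theorem VT0 {k i : ℕ} (h : i < 2 * k + 1) : VT k 0 i := Or.inl ⟨rfl, h⟩

/-- the first element of `M_k` -/
theorem NP_M (k : ℕ) : NP (LL X) (mk k 0 0) := by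
  rcases Nat.eq_zero_or_pos k with h | h
  · subst h
    intro w hw
    exfalso
    rw [← mk_eq w, LL_mk (vt w) (VT0 (by omega))] at hw
    rcases hw with h | ⟨h, h' | ⟨h', h''⟩⟩
    · omega
    · omega
    · rw [h, h', BL_zero] at h''
      omega
  · refine NP_first (k' := k - 1) (t' := 3) (VT0 (by omega)) (Or.inr rfl) (Or.inl (by omega)) ?_ ?_
    · intro k'' t'' h1 h2
      omega
    · intro l hl
      rw [BL_zero] at hl
      omega

/-- the last element of `M_k` -/
theorem NS_M (k : ℕ) : NS (LL X) (mk k 0 (2 * k)) := by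
  refine NS_last (k' := k) (t' := 1) (VT0 (by omega)) (Or.inl rfl)
    (Or.inr ⟨rfl, by norm_num⟩) ?_ ?_
  · intro k'' t'' h1 h2
    omega
  · intro l hv hl
    rw [BL_zero] at hl
    rcases hv with h | h
    · omega
    · omega

/-- the first element of `X_k` -/
theorem NP_X (hX : RF X) (k : ℕ) : NP (LL X) (mk k 2 0) := by
  refine NP_first (k' := k) (t' := 1) (VT2 _ _) (Or.inl rfl)
    (Or.inr ⟨rfl, by norm_num⟩) ?_ ?_
  · intro k'' t'' h1 h2
    omega
  · intro l hl
    rw [BL_two] at hl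
    rcases hX.lo k l with h | h
    · rw [← h] at hl
      exact (hX.slo k).irr _ hl
    · exact (hX.slo k).irr _ ((hX.slo k).tr _ _ _ h hl)

/-- the last element of `X_k` -/
theorem NS_X (hX : RF X) (k : ℕ) : NS (LL X) (mk k 2 3) := by
  refine NS_last (k' := k) (t' := 3) (VT2 _ _) (Or.inr rfl)
    (Or.inr ⟨rfl, by norm_num⟩) ?_ ?_
  · intro k'' t'' h1 h2
    omega
  · intro l _ hl
    rw [BL_two] at hl
    rcases hX.hi k l with h | h
    · rw [← h] at hl
      exact (hX.slo k).irr _ hl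
    · exact (hX.slo k).irr _ ((hX.slo k).tr _ _ _ h hl)

/-- the chain `M_k` as an interval -/
theorem Icc_M (k : ℕ) : Icc' (LL X) (mk k 0 0) (mk k 0 (2 * k)) =
    (fun i => mk k 0 i) '' (Finset.range (2 * k + 1) : Finset ℕ) := by
  ext w
  simp only [Icc', Set.mem_ofPred_eq, Set.mem_image, Finset.coe_range, Set.mem_Iio]
  constructor
  · rintro ⟨h1, h2⟩
    obtain ⟨h3, h4⟩ := mid_block h1 h2 (by rw [kk_mk, kk_mk]) (by
      rw [tt_mk (VT0 (by omega)), tt_mk (VT0 (by omega))])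
    rw [kk_mk] at h3
    rw [tt_mk (VT0 (by omega))] at h4
    have h5 := vt w
    rw [h3, h4] at h5
    have h6 := mk_eq w
    rw [h3, h4] at h6
    refine ⟨ii w, ?_, h6⟩
    rcases h5 with h5 | h5
    · exact h5.2
    · omega
  · rintro ⟨i, hi, rfl⟩
    constructor
    · rcases Nat.eq_zero_or_pos i with h | h
      · exact Or.inl (by rw [h])
      · right
        rw [LL_mk (VT0 (by omega)) (VT0 hi)]
        exact Or.inr ⟨rfl, Or.inr ⟨rfl, BL_zero.2 h⟩⟩
    · rcases Nat.lt_or_ge i (2 * k) with h | h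
      · right
        rw [LL_mk (VT0 hi) (VT0 (by omega))]
        exact Or.inr ⟨rfl, Or.inr ⟨rfl, BL_zero.2 h⟩⟩
      · exact Or.inl (by rw [show i = 2 * k by omega])

theorem card_M (k : ℕ) : (Icc' (LL X) (mk k 0 0) (mk k 0 (2 * k))).Finite ∧
    (Icc' (LL X) (mk k 0 0) (mk k 0 (2 * k))).ncard = 2 * k + 1 := by
  have hinj : Set.InjOn (fun i => mk k 0 i) (Finset.range (2 * k + 1) : Finset ℕ) := by
    intro a ha b hb h
    simp only [Finset.coe_range, Set.mem_Iio] at ha hb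
    have h1 : ii (mk k 0 a) = ii (mk k 0 b) := congrArg ii h
    rwa [ii_mk (VT0 ha), ii_mk (VT0 hb)] at h1
  rw [Icc_M]
  constructor
  · exact (Finset.finite_toSet _).image _
  · rw [Set.InjOn.ncard_image hinj, Set.ncard_coe_finset, Finset.card_range]

/-- F5. An interval with `2k+1` elements whose ends have no predecessor and no successor is
`M_k`. -/
theorem F5 (hX : RF X) {c d k : ℕ} (hc : NP (LL X) c) (hd : NS (LL X) d)
    (hcd : c = d ∨ LL X c d) (hfin : (Icc' (LL X) c d).Finite)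
    (hcard : (Icc' (LL X) c d).ncard = 2 * k + 1) : c = mk k 0 0 ∧ d = mk k 0 (2 * k) := by
  have h1 := NP_type hc
  have h2 := NS_type hd
  -- same block
  have hsame : kk c = kk d ∧ tt c = tt d := by
    rcases hcd with rfl | hcd
    · exact ⟨rfl, rfl⟩
    by_contra hne
    have hlt : kk c < kk d ∨ (kk c = kk d ∧ tt c < tt d) := by
      rcases hcd with h | ⟨h, h' | ⟨h', _⟩⟩
      · exact Or.inl h
      · exact Or.inr ⟨h, h'⟩
      · exact absurd ⟨h, h'⟩ hne
    have hv : ∀ i, VT (kk c) (tt c + 1) i := fun i => Or.inr (by omega)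
    have hsub : Set.range (fun i => mk (kk c) (tt c + 1) i) ⊆ Icc' (LL X) c d := by
      rintro _ ⟨i, rfl⟩
      constructor
      · right
        have h3 : LL X (mk (kk c) (tt c) (ii c)) (mk (kk c) (tt c + 1) i) := by
          rw [LL_mk (vt c) (hv i)]
          exact Or.inr ⟨rfl, Or.inl (by omega)⟩
        rwa [mk_eq] at h3
      · right
        have h3 : LL X (mk (kk c) (tt c + 1) i) (mk (kk d) (tt d) (ii d)) := by
          rw [LL_mk (hv i) (vt d)]
          rcases hlt with h | ⟨h, h'⟩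
          · exact Or.inl h
          · exact Or.inr ⟨h, Or.inl (by omega)⟩
        rwa [mk_eq] at h3
    have hinf : (Set.range fun i => mk (kk c) (tt c + 1) i).Infinite := by
      apply Set.infinite_range_of_injective
      intro a b h
      have h3 : ii (mk (kk c) (tt c + 1) a) = ii (mk (kk c) (tt c + 1) b) := congrArg ii h
      rwa [ii_mk (hv a), ii_mk (hv b)] at h3
    exact hinf (hfin.subset hsub)
  obtain ⟨hk, ht⟩ := hsame
  rcases h1 with ⟨h1, h1'⟩ | h1
  · rcases h2 with ⟨h2, h2'⟩ | h2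
    · have e1 : c = mk (kk c) 0 0 := by
        have := mk_eq c
        rw [h1, h1'] at this
        exact this.symm
      have e2 : d = mk (kk c) 0 (2 * kk c) := by
        have := mk_eq d
        rw [h2, h2', ← hk] at this
        exact this.symm
      have h3 := (card_M (X := X) (kk c)).2
      rw [← e1, ← e2, hcard] at h3
      have h4 : kk c = k := by omega
      rw [h4] at e1 e2
      exact ⟨e1, e2⟩
    · omega
  · exfalso
    have e1 : c = mk (kk c) 2 (ii c) := eq_mk_two rfl h1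
    have e2 : d = mk (kk c) 2 (ii d) := eq_mk_two hk.symm (by omega)
    have h3 : Icc' (LL X) c d = (fun w => mk (kk c) 2 w) '' Icc' (X (kk c)) (ii c) (ii d) := by
      have := Icc_two (X := X) (kk c) (ii c) (ii d)
      rwa [← e1, ← e2] at this
    have h4 : (Icc' (X (kk c)) (ii c) (ii d)).Finite := by
      rw [h3] at hfin
      exact Set.Finite.of_finite_image hfin ((mk_two_inj _).injOn)
    have h5 : (Icc' (LL X) c d).ncard = (Icc' (X (kk c)) (ii c) (ii d)).ncard := by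
      rw [h3]
      exact Set.ncard_image_of_injective _ (mk_two_inj _)
    have h6 : NP (X (kk c)) (ii c) := NP_two (by rw [← e1]; exact hc)
    have h7 : NS (X (kk c)) (ii d) := NS_two (by rw [← e2]; exact hd)
    have h8 : ii c = ii d ∨ X (kk c) (ii c) (ii d) := by
      rcases hcd with h | h
      · exact Or.inl (by rw [h])
      · right
        rw [e1, e2, LL_two] at h
        exact h
    have h9 := hX.even _ _ _ h8 h4 h6 h7
    omega

end

end Pool.Agent.DMN
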