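import Pool.Agent.DMN.EIso

/-!
# DMN, part E: `L` is computable
-/

set_option autoImplicit false

namespace Pool.Agent.DMN

open Pool.Agent.CeerI Pool.Agent.DMO

theorem kk_primrec : Primrec kk := Primrec.fst.comp Primrec.unpair

theorem snd_primrec : Primrec fun n : ℕ => n.unpair.2 := Primrec.snd.comp Primrec.unpair

theorem len_primrec : Primrec fun n : ℕ => 2 * n.unpair.1 + 1 :=
  Primrec.succ.comp (Primrec.nat_mul.comp (Primrec.const 2) (Primrec.fst.comp Primrec.unpair))

theorem dif_primrec : Primrec fun n : ℕ => n.unpair.2 - (2 * n.unpair.1 + 1) :=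
  Primrec.nat_sub.comp snd_primrec len_primrec

theorem tt_primrec : Primrec tt := by
  unfold tt
  refine Primrec.ite (Primrec.nat_lt.comp snd_primrec len_primrec) (Primrec.const 0) ?_
  exact Primrec.nat_add.comp (Primrec.const 1)
    (Primrec.nat_mod.comp dif_primrec (Primrec.const 3))

theorem ii_primrec : Primrec ii := by
  unfold ii
  refine Primrec.ite (Primrec.nat_lt.comp snd_primrec len_primrec) snd_primrec ?_
  exact Primrec.nat_div.comp dif_primrec (Primrec.const 3)

section

variable {α : Type} [Primcodable α]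

theorem dec_mod2 {f : α → ℕ} (hf : Computable f) (c : ℕ) :
    ComputablePred fun a => f a % 2 = c :=
  DMO.dec_eq (Primrec.nat_mod.to_comp.comp hf (Computable.const 2)) (Computable.const c)

theorem dec_zlt {i j : α → ℕ} (hi : Computable i) (hj : Computable j) :
    ComputablePred fun a => zlt (i a) (j a) := by
  unfold zlt
  refine dec_or (dec_and (dec_mod2 hi 1) (dec_mod2 hj 0)) (dec_or ?_ ?_)
  · exact dec_and (dec_mod2 hi 0) (dec_and (dec_mod2 hj 0) (dec_lt hi hj))
  · exact dec_and (dec_mod2 hi 1) (dec_and (dec_mod2 hj 1) (dec_lt hj hi))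

theorem dec_xo {σ : ℕ → ℕ → St} (hσ : Computable₂ σ) {k x y : α → ℕ} (hk : Computable k)
    (hx : Computable x) (hy : Computable y) :
    ComputablePred fun a => xo (σ (k a)) (x a) (y a) := by
  have hs : Computable fun a => σ (k a) (x a + y a + 1) :=
    hσ.comp hk (Computable.succ.comp (Primrec.nat_add.to_comp.comp hx hy))
  have hl : Computable fun a => (σ (k a) (x a + y a + 1)).1 := Computable.fst.comp hs
  exact dec_lt (Primrec.list_idxOf.to_comp.comp hx hl) (Primrec.list_idxOf.to_comp.comp hy hl)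

theorem dec_LL {σ : ℕ → ℕ → St} (hσ : Computable₂ σ) {n m : α → ℕ} (hn : Computable n)
    (hm : Computable m) : ComputablePred fun a => LL (fun k => xo (σ k)) (n a) (m a) := by
  have k1 := kk_primrec.to_comp.comp hn
  have k2 := kk_primrec.to_comp.comp hm
  have t1 := tt_primrec.to_comp.comp hn
  have t2 := tt_primrec.to_comp.comp hm
  have i1 := ii_primrec.to_comp.comp hn
  have i2 := ii_primrec.to_comp.comp hm
  unfold LL BL
  refine dec_or (dec_lt k1 k2) (dec_and (DMO.dec_eq k1 k2) (dec_or (dec_lt t1 t2)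
    (dec_and (DMO.dec_eq t1 t2) (dec_or ?_ (dec_or ?_ ?_)))))
  · exact dec_and (DMO.dec_eq t1 (Computable.const 0)) (dec_lt i1 i2)
  · exact dec_and (dec_or (DMO.dec_eq t1 (Computable.const 1))
        (DMO.dec_eq t1 (Computable.const 3)))
      (dec_zlt i1 i2)
  · exact dec_and (DMO.dec_eq t1 (Computable.const 2)) (dec_xo hσ k1 i1 i2)

end

/-- the computable linear order `L` -/
theorem exists_L {σ : ℕ → ℕ → St} (hσ : Computable₂ σ) :
    ∃ r : ℕ → ℕ → Bool, Computable₂ r ∧
      ∀ a b, r a b = true ↔ (a = b ∨ LL (fun k => xo (σ k)) a b) := by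
  have h := dec_or (α := ℕ × ℕ) (DMO.dec_eq Computable.fst Computable.snd)
    (dec_LL hσ Computable.fst Computable.snd)
  obtain ⟨f, hf, h'⟩ := dec_iff.1 h
  exact ⟨fun a b => f (a, b), hf.comp (Computable.fst.pair Computable.snd),
    fun a b => (h' (a, b)).symm⟩

end Pool.Agent.DMN
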