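import Pool.Agent.DMN.EBlk
import Pool.Agent.DMN.DefsB

/-!
# DMN, part E: a copy of `L` satisfies the hypotheses of `RT`
-/

set_option autoImplicit false

namespace Pool.Agent.DMN

section

variable {A : ℕ → ℕ → Prop}

/-! ### Finite intervals and counting -/

theorem num_succ_of_mem {c d w : ℕ} (hw : w ∈ Icc' A c d) :
    num A (w + 1) c d = num A w c d + 1 := by
  classical
  have hw' : (c = w ∨ A c w) ∧ (w = d ∨ A w d) := hw
  unfold num
  rw [Finset.range_add_one, Finset.filter_insert, if_pos hw',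
    Finset.card_insert_of_notMem (by simp)]

theorem num_eq_ncard {c d M0 : ℕ} (h : ∀ w ∈ Icc' A c d, w < M0) (M : ℕ) (hM : M0 ≤ M) :
    num A M c d = (Icc' A c d).ncard := by
  classical
  unfold num
  rw [← Set.ncard_coe_finset]
  congr 1
  ext w
  simp only [Finset.coe_filter, Finset.mem_range, Set.mem_ofPred_eq, Icc']
  constructor
  · rintro ⟨_, h'⟩
    exact h'
  · intro h'
    exact ⟨(h w h').trans_le hM, h'⟩

theorem num_of_fin {c d : ℕ} (h : (Icc' A c d).Finite) :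
    ∃ M0, ∀ M ≥ M0, num A M c d = (Icc' A c d).ncard := by
  obtain ⟨M, hM⟩ := h.bddAbove
  exact ⟨M + 1, fun M' hM' => num_eq_ncard (M0 := M + 1)
    (fun w hw => Nat.lt_succ_of_le (hM hw)) M' hM'⟩

theorem fin_of_num {c d n : ℕ} (h : ∃ M0, ∀ M ≥ M0, num A M c d = n) :
    (Icc' A c d).Finite ∧ (Icc' A c d).ncard = n := by
  obtain ⟨M0, hM⟩ := h
  have h1 : ∀ w ∈ Icc' A c d, w < M0 := by
    intro w hw
    by_contra hc
    push Not at hc
    have h2 := num_succ_of_mem hw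
    rw [hM w hc, hM (w + 1) (by omega)] at h2
    omega
  refine ⟨(Set.finite_lt_nat M0).subset h1, ?_⟩
  rw [← num_eq_ncard h1 M0 le_rfl]
  exact hM M0 le_rfl

/-! ### Transport along an isomorphism -/

variable {B : ℕ → ℕ → Prop} {h : ℕ ≃ ℕ}

theorem iso_symm (hi : ∀ x y, A x y ↔ B (h x) (h y)) (x y : ℕ) :
    B x y ↔ A (h.symm x) (h.symm y) := by
  rw [hi]
  simp

theorem iso_NP (hi : ∀ x y, A x y ↔ B (h x) (h y)) {x : ℕ} (hx : NP A x) : NP B (h x) := by
  intro w hw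
  have h1 : A (h.symm w) x := by
    rw [hi]
    simpa using hw
  obtain ⟨w', h2, h3⟩ := hx _ h1
  refine ⟨h w', ?_, (hi _ _).1 h3⟩
  have := (hi _ _).1 h2
  simpa using this

theorem iso_NS (hi : ∀ x y, A x y ↔ B (h x) (h y)) {x : ℕ} (hx : NS A x) : NS B (h x) := by
  intro w hw
  have h1 : A x (h.symm w) := by
    rw [hi]
    simpa using hw
  obtain ⟨w', h2, h3⟩ := hx _ h1
  refine ⟨h w', (hi _ _).1 h2, ?_⟩
  have := (hi _ _).1 h3
  simpa using this

theorem iso_Icc (hi : ∀ x y, A x y ↔ B (h x) (h y)) (c d : ℕ) :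
    Icc' B (h c) (h d) = h '' Icc' A c d := by
  ext w
  simp only [Icc', Set.mem_ofPred_eq, Set.mem_image]
  constructor
  · rintro ⟨h1, h2⟩
    refine ⟨h.symm w, ⟨?_, ?_⟩, by simp⟩
    · rcases h1 with h1 | h1
      · left
        rw [← h1]
        simp
      · right
        rw [hi]
        simpa using h1
    · rcases h2 with h2 | h2
      · left
        rw [h2]
        simp
      · right
        rw [hi]
        simpa using h2
  · rintro ⟨l, ⟨h1, h2⟩, rfl⟩
    constructor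
    · rcases h1 with h1 | h1
      · exact Or.inl (by rw [h1])
      · exact Or.inr ((hi _ _).1 h1)
    · rcases h2 with h2 | h2
      · exact Or.inl (by rw [h2])
      · exact Or.inr ((hi _ _).1 h2)

theorem iso_card (hi : ∀ x y, A x y ↔ B (h x) (h y)) {c d n : ℕ}
    (hc : (Icc' A c d).Finite ∧ (Icc' A c d).ncard = n) :
    (Icc' B (h c) (h d)).Finite ∧ (Icc' B (h c) (h d)).ncard = n := by
  rw [iso_Icc hi]
  exact ⟨hc.1.image _, by rw [Set.ncard_image_of_injective _ h.injective, hc.2]⟩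

end

section

variable {X : ℕ → ℕ → ℕ → Prop} {A : ℕ → ℕ → Prop} {h : ℕ ≃ ℕ}

/-- every element of `[a, b]` of a candidate which is right in the limit is in `X_k` -/
theorem ev_block (hX : RF X) (hi : ∀ x y, A x y ↔ LL X (h x) (h y)) {k : ℕ} {c : Cd}
    (hE : EvLim A k c) : (h (ca c) = mk k 2 (ii (h (ca c))) ∧
      h (cb c) = mk k 2 (ii (h (cb c)))) := by
  obtain ⟨⟨h1, h2, h3, h4, h5⟩, ⟨M0, hM⟩, hev⟩ := hE
  have c1 := iso_card hi (fin_of_num ⟨M0, fun M hM' => (hM M hM').1⟩)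
  have c2 := iso_card hi (fin_of_num ⟨M0, fun M hM' => (hM M hM').2⟩)
  have n1 : NP (LL X) (h (cm1 c)) := iso_NP hi fun w => (hev w).1
  have n2 : NS (LL X) (h (cm2 c)) := iso_NS hi fun w => (hev w).2.1
  have n3 : NP (LL X) (h (cm3 c)) := iso_NP hi fun w => (hev w).2.2.1
  have n4 : NS (LL X) (h (cm4 c)) := iso_NS hi fun w => (hev w).2.2.2.1
  have n5 : NP (LL X) (h (ca c)) := iso_NP hi fun w => (hev w).2.2.2.2.1
  have n6 : NS (LL X) (h (cb c)) := iso_NS hi fun w => (hev w).2.2.2.2.2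
  have l1 : h (cm1 c) = h (cm2 c) ∨ LL X (h (cm1 c)) (h (cm2 c)) :=
    h1.imp (congrArg h) (hi _ _).1
  have l5 : h (cm3 c) = h (cm4 c) ∨ LL X (h (cm3 c)) (h (cm4 c)) :=
    h5.imp (congrArg h) (hi _ _).1
  obtain ⟨e1, e2⟩ := F5 hX n1 n2 l1 c1.1 c1.2
  obtain ⟨e3, e4⟩ := F5 (k := k + 1) hX n3 n4 l5 c2.1 (by rw [c2.2]; ring)
  have l2 := (hi _ _).1 h2
  have l3 := (hi _ _).1 h3
  have l4 := (hi _ _).1 h4
  rw [e2] at l2
  rw [e3] at l4
  have t5 := NP_type n5
  have t6 := NS_type n6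
  rw [← mk_eq (h (ca c)), LL_mk (VT0 (by omega)) (vt _)] at l2
  rw [← mk_eq (h (cb c)), LL_mk (vt _) (VT0 (by omega))] at l4
  -- `b` is in region `k`
  have hb1 : kk (h (cb c)) ≤ k := by
    rcases l4 with l | ⟨l, l' | ⟨l', l''⟩⟩
    · omega
    · omega
    · rw [l'] at l''
      rw [BL_zero] at l''
      omega
  have hab : kk (h (ca c)) ≤ kk (h (cb c)) := by
    rcases l3 with l | ⟨l, _⟩
    · omega
    · omega
  have ha1 : k ≤ kk (h (ca c)) := by
    rcases l2 with l | ⟨l, _⟩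
    · omega
    · omega
  have ka : kk (h (ca c)) = k := by omega
  have kb : kk (h (cb c)) = k := by omega
  have ta : tt (h (ca c)) = 2 := by
    rcases t5 with t | t
    · exfalso
      rcases l2 with l | ⟨l, l' | ⟨l', l''⟩⟩
      · omega
      · omega
      · rw [BL_zero] at l''
        omega
    · exact t
  have tb : tt (h (cb c)) = 2 := by
    rcases t6 with t | t
    · exfalso
      rcases l3 with l | ⟨l, l' | ⟨l', l''⟩⟩
      · omega
      · omega
      · omega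
    · exact t
  exact ⟨eq_mk_two ka ta, eq_mk_two kb tb⟩

/-- hF: a candidate which is right in the limit gives an embedding of `[a, b]` into `X_k` -/
theorem ev_phi (hX : RF X) (hi : ∀ x y, A x y ↔ LL X (h x) (h y)) {k : ℕ} {c : Cd}
    (hE : EvLim A k c) :
    (∀ x y, x ∈ Icc' A (ca c) (cb c) → y ∈ Icc' A (ca c) (cb c) →
      (A x y ↔ X k (ii (h x)) (ii (h y)))) ∧
    (∀ w, w ∈ Icc' (X k) (ii (h (ca c))) (ii (h (cb c))) →
      ∃ x ∈ Icc' A (ca c) (cb c), ii (h x) = w) ∧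
    (∀ w, X k w (ii (h (ca c))) → ∃ w', X k w w' ∧ X k w' (ii (h (ca c)))) ∧
    (∀ w, X k (ii (h (cb c))) w → ∃ w', X k (ii (h (cb c))) w' ∧ X k w' w) := by
  obtain ⟨ea, eb⟩ := ev_block hX hi hE
  have hev := hE.2.2
  have n5 : NP (LL X) (h (ca c)) := iso_NP hi fun w => (hev w).2.2.2.2.1
  have n6 : NS (LL X) (h (cb c)) := iso_NS hi fun w => (hev w).2.2.2.2.2
  have hIcc := iso_Icc hi (ca c) (cb c)
  rw [ea, eb, Icc_two] at hIcc
  -- elements of the interval
  have hel : ∀ x, x ∈ Icc' A (ca c) (cb c) → h x = mk k 2 (ii (h x)) := by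
    intro x hx
    have h1 : h x ∈ h '' Icc' A (ca c) (cb c) := ⟨x, hx, rfl⟩
    rw [← hIcc] at h1
    obtain ⟨w, hw, hw'⟩ := h1
    have h2 : mk k 2 w = h x := hw'
    rw [← h2, ii_mk (VT2 _ _)]
  refine ⟨?_, ?_, ?_, ?_⟩
  · intro x y hx hy
    rw [hi, hel x hx, hel y hy, LL_two, ii_mk (VT2 _ _), ii_mk (VT2 _ _)]
  · intro w hw
    have h1 : mk k 2 w ∈ h '' Icc' A (ca c) (cb c) := by
      rw [← hIcc]
      exact ⟨w, hw, rfl⟩
    obtain ⟨x, hx, hx'⟩ := h1
    exact ⟨x, hx, by rw [hx', ii_mk (VT2 _ _)]⟩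
  · have h1 : NP (X k) (ii (h (ca c))) := NP_two (by rw [← ea]; exact n5)
    exact h1
  · have h1 : NS (X k) (ii (h (cb c))) := NS_two (by rw [← eb]; exact n6)
    exact h1

/-- hT: the true candidate -/
theorem ev_true (hX : RF X) (hi : ∀ x y, A x y ↔ LL X (h x) (h y)) (k : ℕ) :
    ∃ c, EvLim A k c ∧ (Icc' A (ca c) (cb c)).Infinite := by
  have hi' := iso_symm hi
  have hM := iso_card hi' (card_M (X := X) k)
  have hM' := iso_card hi' (card_M (X := X) (k + 1))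
  obtain ⟨M1, h1⟩ := num_of_fin hM.1
  obtain ⟨M2, h2⟩ := num_of_fin hM'.1
  have hv1 : VT k 0 (2 * k) := VT0 (by omega)
  have hv2 : VT k 0 0 := VT0 (by omega)
  have hv3 : VT (k + 1) 0 0 := VT0 (by omega)
  have hv4 : VT (k + 1) 0 (2 * (k + 1)) := VT0 (by omega)
  refine ⟨(h.symm (mk k 0 0), h.symm (mk k 0 (2 * k)), h.symm (mk k 2 0), h.symm (mk k 2 3),
    h.symm (mk (k + 1) 0 0), h.symm (mk (k + 1) 0 (2 * (k + 1)))), ⟨?_, ?_, ?_⟩, ?_⟩
  · refine ⟨?_, ?_, ?_, ?_, ?_⟩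
    · show h.symm (mk k 0 0) = h.symm (mk k 0 (2 * k)) ∨ _
      rcases Nat.eq_zero_or_pos k with hk | hk
      · left
        rw [hk]
      · right
        refine (hi' _ _).1 ?_
        rw [LL_mk hv2 hv1]
        exact Or.inr ⟨rfl, Or.inr ⟨rfl, BL_zero.2 (by omega)⟩⟩
    · refine (hi' _ _).1 ?_
      rw [LL_mk hv1 (VT2 _ _)]
      exact Or.inr ⟨rfl, Or.inl (by norm_num)⟩
    · refine (hi' _ _).1 ?_
      rw [LL_two]
      rcases hX.lo k 3 with h3 | h3
      · omega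
      · exact h3
    · refine (hi' _ _).1 ?_
      rw [LL_mk (VT2 _ _) hv3]
      exact Or.inl (by omega)
    · right
      refine (hi' _ _).1 ?_
      rw [LL_mk hv3 hv4]
      exact Or.inr ⟨rfl, Or.inr ⟨rfl, BL_zero.2 (by omega)⟩⟩
  · refine ⟨max M1 M2, fun M hMM => ⟨?_, ?_⟩⟩
    · exact (h1 M (le_trans (le_max_left _ _) hMM)).trans hM.2
    · refine (h2 M (le_trans (le_max_right _ _) hMM)).trans ?_
      rw [hM'.2]
      ring
  · intro x
    exact ⟨iso_NP hi' (NP_M k) x, iso_NS hi' (NS_M k) x, iso_NP hi' (NP_M (k + 1)) x,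
      iso_NS hi' (NS_M (k + 1)) x, iso_NP hi' (NP_X hX k) x, iso_NS hi' (NS_X hX k) x⟩
  · show (Icc' A (h.symm (mk k 2 0)) (h.symm (mk k 2 3))).Infinite
    rw [iso_Icc hi', Icc_two]
    have huniv : Icc' (X k) 0 3 = Set.univ := by
      ext w
      simp only [Icc', Set.mem_ofPred_eq, Set.mem_univ, iff_true]
      exact ⟨hX.lo k w, (hX.hi k w).imp Eq.symm id⟩
    rw [huniv]
    exact (Set.infinite_univ.image (mk_two_inj k).injOn).image h.symm.injective.injOn

end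

end Pool.Agent.DMN
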