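import Pool.Agent.DMN.EIso

/-!
# DMN, part E: no convex subset of `L` is strongly `η`-like
-/

set_option autoImplicit false

namespace Pool.Agent.DMN

/-! ### Convex subsets which are sums of blocks of bounded size -/

/-- what is used of a strongly `η`-like convex subset: a map `Q` to the rationals -/
structure SE (L : ℕ → ℕ → Prop) (C : Set ℕ) (Q : ℕ → ℚ) (B : ℕ) : Prop where
  conv : ∀ a b c, a ∈ C → c ∈ C → (a = b ∨ L a b) → (b = c ∨ L b c) → b ∈ C
  mono : ∀ a ∈ C, ∀ b ∈ C, L a b → Q a ≤ Q b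
  anti : ∀ a ∈ C, ∀ b ∈ C, Q a < Q b → L a b
  surj : ∀ q, ∃ a ∈ C, Q a = q
  small : ∀ (q : ℚ) (S : Finset ℕ), (∀ a ∈ S, a ∈ C ∧ Q a = q) → S.card ≤ B

section

variable {L : ℕ → ℕ → Prop} {C : Set ℕ} {Q : ℕ → ℚ} {B : ℕ}

theorem SE.far (h : SE L C Q B) {x y : ℕ} (hx : x ∈ C) (hy : y ∈ C)
    (hq : Q x < Q y) : Far L x y := by
  choose a ha haq using h.surj
  have hinf : (a '' Set.Ioo (Q x) (Q y)).Infinite := by
    apply (Set.Ioo_infinite hq).image
    intro s _ t _ hst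
    rw [← haq s, ← haq t, hst]
  refine hinf.mono ?_
  rintro _ ⟨q, hq', rfl⟩
  exact ⟨h.anti x hx _ (ha q) (by rw [haq]; exact hq'.1),
    h.anti _ (ha q) y hy (by rw [haq]; exact hq'.2)⟩

theorem SE.bound (h : SE L C Q B) {x y : ℕ} (hx : x ∈ C) (hy : y ∈ C)
    (hfin : (Icc' L x y).Finite) : (Icc' L x y).ncard ≤ B := by
  classical
  have hsub : ∀ w ∈ Icc' L x y, w ∈ C := fun w hw => h.conv x w y hx hy hw.1 hw.2
  have hmono : ∀ a ∈ C, ∀ b ∈ C, (a = b ∨ L a b) → Q a ≤ Q b := by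
    intro a ha b hb hab
    rcases hab with rfl | hab
    · exact le_rfl
    · exact h.mono a ha b hb hab
  by_cases hq : Q x < Q y
  · exfalso
    refine (h.far hx hy hq).mono ?_ hfin
    rintro w ⟨h1, h2⟩
    exact ⟨Or.inr h1, Or.inr h2⟩
  · have hcard := h.small (Q x) hfin.toFinset (by
      intro a ha
      have ha' : a ∈ Icc' L x y := by simpa using ha
      have haC := hsub a ha'
      refine ⟨haC, le_antisymm ?_ (hmono x hx a haC ha'.1)⟩
      exact (hmono a haC y hy ha'.2).trans (not_lt.1 hq))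
    rwa [Set.ncard_eq_toFinset_card _ hfin]

end

/-- the structure `SE` from the frozen statement -/
theorem SE_of {L : ℕ → ℕ → Prop} {r : ℕ → ℕ → Bool}
    (hr : ∀ a b, r a b = true ↔ (a = b ∨ L a b)) {C : Set ℕ}
    (hC : ∀ a b c, a ∈ C → c ∈ C → r a b = true → r b c = true → b ∈ C) {f : ℚ → ℕ}
    (hf : ∀ q, 1 ≤ f q) (hb : BddAbove (Set.range f)) (e : C ≃ Lex (Σ q : ℚ, Fin (f q)))
    (he : ∀ a b : C, r a b = true ↔ e a ≤ e b) : ∃ Q B, SE L C Q B := by
  classical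
  obtain ⟨B, hB⟩ := hb
  let Q : ℕ → ℚ := fun a => if h : a ∈ C then (ofLex (e ⟨a, h⟩)).1 else 0
  have hQ : ∀ a (h : a ∈ C), Q a = (ofLex (e ⟨a, h⟩)).1 := fun a h => by simp only [Q, dif_pos h]
  refine ⟨Q, B, ?_, ?_, ?_, ?_, ?_⟩
  · intro a b c ha hc hab hbc
    exact hC a b c ha hc ((hr _ _).2 hab) ((hr _ _).2 hbc)
  · intro a ha b hb hab
    rw [hQ a ha, hQ b hb]
    have h1 : e ⟨a, ha⟩ ≤ e ⟨b, hb⟩ := (he _ _).1 ((hr _ _).2 (Or.inr hab))
    rcases Sigma.Lex.le_def.1 h1 with h2 | ⟨h2, _⟩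
    · exact le_of_lt h2
    · exact le_of_eq h2
  · intro a ha b hb hab
    rw [hQ a ha, hQ b hb] at hab
    have h1 : e ⟨a, ha⟩ ≤ e ⟨b, hb⟩ := Sigma.Lex.le_def.2 (Or.inl hab)
    rcases (hr _ _).1 ((he ⟨a, ha⟩ ⟨b, hb⟩).2 h1) with h2 | h2
    · exfalso
      have h3 : a = b := h2
      subst h3
      exact lt_irrefl _ hab
    · exact h2
  · intro q
    let z : Lex (Σ q : ℚ, Fin (f q)) := toLex ⟨q, ⟨0, hf q⟩⟩
    refine ⟨(e.symm z : ℕ), (e.symm z).2, ?_⟩
    rw [hQ _ (e.symm z).2]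
    have h1 : (⟨(e.symm z : ℕ), (e.symm z).2⟩ : C) = e.symm z := rfl
    rw [h1, Equiv.apply_symm_apply]
    rfl
  · intro q S hS
    have hcard : S.card ≤ (Finset.univ : Finset (Fin (f q))).card := by
      refine Finset.card_le_card_of_injOn
        (fun a => if h : a ∈ C ∧ Q a = q then
          ((hQ a h.1).symm.trans h.2) ▸ (ofLex (e ⟨a, h.1⟩)).2 else ⟨0, hf q⟩)
        (fun _ _ => Finset.mem_coe.2 (Finset.mem_univ _)) ?_
      intro a ha b hb hab
      have ha' := hS a ha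
      have hb' := hS b hb
      simp only [dif_pos ha', dif_pos hb'] at hab
      have h1 : ∀ (s t : Σ q : ℚ, Fin (f q)) (hs : s.1 = q) (ht : t.1 = q),
          (hs ▸ s.2 : Fin (f q)) = (ht ▸ t.2 : Fin (f q)) → s = t := by
        rintro ⟨s1, s2⟩ ⟨t1, t2⟩ hs ht hst
        simp only at hs ht
        subst hs
        subst ht
        simp only at hst
        rw [hst]
      have h2 := h1 _ _ _ _ hab
      have h3 : (⟨a, ha'.1⟩ : C) = ⟨b, hb'.1⟩ := e.injective (ofLex.injective h2)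
      exact congrArg Subtype.val h3
    rw [Finset.card_univ, Fintype.card_fin] at hcard
    exact hcard.trans (hB ⟨q, rfl⟩)

section

variable {X : ℕ → ℕ → ℕ → Prop}

/-! ### Intervals of `ζ` -/

/-- intervals inside one block -/
theorem Icc_block {k t i j : ℕ} (hi : VT k t i) (hj : VT k t j) {w : ℕ}
    (hw : w ∈ Icc' (LL X) (mk k t i) (mk k t j)) :
    ∃ l, VT k t l ∧ w = mk k t l ∧ (i = l ∨ BL X k t i l) ∧ (l = j ∨ BL X k t l j) := by
  obtain ⟨h1, h2⟩ := hw
  obtain ⟨h3, h4⟩ := mid_block h1 h2 (by rw [kk_mk, kk_mk]) (by rw [tt_mk hi, tt_mk hj])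
  rw [kk_mk] at h3
  rw [tt_mk hi] at h4
  have h5 := vt w
  rw [h3, h4] at h5
  have h6 := mk_eq w
  rw [h3, h4] at h6
  refine ⟨ii w, h5, h6.symm, ?_, ?_⟩
  · rcases h1 with h1 | h1
    · left
      rw [← h1, ii_mk hi]
    · right
      rw [← h6, LL_mk hi h5] at h1
      rcases h1 with h | ⟨_, h | ⟨_, h⟩⟩
      · omega
      · omega
      · exact h
  · rcases h2 with h2 | h2
    · left
      rw [h2, ii_mk hj]
    · right
      rw [← h6, LL_mk h5 hj] at h2
      rcases h2 with h | ⟨_, h | ⟨_, h⟩⟩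
      · omega
      · omega
      · exact h

theorem fin_block {k t i j : ℕ} (hi : VT k t i) (hj : VT k t j) (ht : t ≠ 2) :
    (Icc' (LL X) (mk k t i) (mk k t j)).Finite := by
  refine ((Set.finite_le_nat (max (max i j) (2 * k))).image fun l => mk k t l).subset ?_
  intro w hw
  obtain ⟨l, h1, h2, h3, h4⟩ := Icc_block hi hj hw
  refine ⟨l, ?_, h2.symm⟩
  show l ≤ max (max i j) (2 * k)
  rcases h1 with h1 | h1
  · have := le_max_right (max i j) (2 * k)
    omega
  · have h5 : t = 1 ∨ t = 3 := by omega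
    rw [BL_zeta h5] at h3 h4
    have h6 := le_max_left (max i j) (2 * k)
    have h7 := le_max_left i j
    have h8 := le_max_right i j
    unfold zlt at h3 h4
    omega

theorem VTz {t : ℕ} (ht : t = 1 ∨ t = 3) (k i : ℕ) : VT k t i := Or.inr (by omega)

theorem zeta_up {k t : ℕ} (ht : t = 1 ∨ t = 3) (a B : ℕ) :
    B + 1 ≤ (Icc' (LL X) (mk k t (2 * a)) (mk k t (2 * a + 2 * B))).ncard := by
  classical
  have hfin := fin_block (X := X) (VTz ht k (2 * a)) (VTz ht k (2 * a + 2 * B)) (by omega)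
  have hinj : Function.Injective fun i => mk k t (2 * a + 2 * i) := by
    intro x y h
    have h1 : ii (mk k t (2 * a + 2 * x)) = ii (mk k t (2 * a + 2 * y)) := congrArg ii h
    rw [ii_mk (VTz ht _ _), ii_mk (VTz ht _ _)] at h1
    omega
  have hsub : ((Finset.range (B + 1)).image fun i => mk k t (2 * a + 2 * i) : Set ℕ) ⊆
      Icc' (LL X) (mk k t (2 * a)) (mk k t (2 * a + 2 * B)) := by
    intro w hw
    simp only [Finset.coe_image, Finset.coe_range, Set.mem_image, Set.mem_Iio] at hw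
    obtain ⟨i, hi, rfl⟩ := hw
    constructor
    · rcases Nat.eq_zero_or_pos i with h | h
      · exact Or.inl (by rw [h]; rfl)
      · right
        rw [LL_mk (VTz ht _ _) (VTz ht _ _)]
        exact Or.inr ⟨rfl, Or.inr ⟨rfl, (BL_zeta ht).2 (by unfold zlt; omega)⟩⟩
    · rcases Nat.lt_or_ge i B with h | h
      · right
        rw [LL_mk (VTz ht _ _) (VTz ht _ _)]
        exact Or.inr ⟨rfl, Or.inr ⟨rfl, (BL_zeta ht).2 (by unfold zlt; omega)⟩⟩
      · exact Or.inl (by rw [show i = B by omega])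
  have h1 := Set.ncard_le_ncard hsub hfin
  rw [Set.ncard_coe_finset, Finset.card_image_of_injective _ hinj, Finset.card_range] at h1
  exact h1

theorem zeta_down {k t : ℕ} (ht : t = 1 ∨ t = 3) (a B : ℕ) :
    B + 1 ≤ (Icc' (LL X) (mk k t (2 * a + 2 * B + 1)) (mk k t (2 * a + 1))).ncard := by
  classical
  have hfin := fin_block (X := X) (VTz ht k (2 * a + 2 * B + 1)) (VTz ht k (2 * a + 1))
    (by omega)
  have hinj : Function.Injective fun i => mk k t (2 * a + 2 * i + 1) := by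
    intro x y h
    have h1 : ii (mk k t (2 * a + 2 * x + 1)) = ii (mk k t (2 * a + 2 * y + 1)) := congrArg ii h
    rw [ii_mk (VTz ht _ _), ii_mk (VTz ht _ _)] at h1
    omega
  have hsub : ((Finset.range (B + 1)).image fun i => mk k t (2 * a + 2 * i + 1) : Set ℕ) ⊆
      Icc' (LL X) (mk k t (2 * a + 2 * B + 1)) (mk k t (2 * a + 1)) := by
    intro w hw
    simp only [Finset.coe_image, Finset.coe_range, Set.mem_image, Set.mem_Iio] at hw
    obtain ⟨i, hi, rfl⟩ := hw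
    constructor
    · rcases Nat.lt_or_ge i B with h | h
      · right
        rw [LL_mk (VTz ht _ _) (VTz ht _ _)]
        exact Or.inr ⟨rfl, Or.inr ⟨rfl, (BL_zeta ht).2 (by unfold zlt; omega)⟩⟩
      · exact Or.inl (by rw [show i = B by omega])
    · rcases Nat.eq_zero_or_pos i with h | h
      · exact Or.inl (by rw [h])
      · right
        rw [LL_mk (VTz ht _ _) (VTz ht _ _)]
        exact Or.inr ⟨rfl, Or.inr ⟨rfl, (BL_zeta ht).2 (by unfold zlt; omega)⟩⟩
  have h1 := Set.ncard_le_ncard hsub hfin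
  rw [Set.ncard_coe_finset, Finset.card_image_of_injective _ hinj, Finset.card_range] at h1
  exact h1

/-- between elements of different blocks there are long finite intervals -/
theorem long_between {x y : ℕ} (hlt : kk x < kk y ∨ (kk x = kk y ∧ tt x < tt y)) (B : ℕ) :
    ∃ z z', z ∈ Icc' (LL X) x y ∧ z' ∈ Icc' (LL X) x y ∧ (Icc' (LL X) z z').Finite ∧
      B + 1 ≤ (Icc' (LL X) z z').ncard := by
  have hx := tt_le x
  have hy := tt_le y
  by_cases hx1 : tt x = 1 ∨ tt x = 3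
  · -- above `x` in its `ζ`
    have hup : ∀ i, LL X (mk (kk x) (tt x) i) y := by
      intro i
      have h3 : LL X (mk (kk x) (tt x) i) (mk (kk y) (tt y) (ii y)) := by
        rw [LL_mk (VTz hx1 _ _) (vt y)]
        rcases hlt with h | ⟨h, h'⟩
        · exact Or.inl h
        · exact Or.inr ⟨h, Or.inl h'⟩
      rwa [mk_eq] at h3
    have hxz : ∀ i, i % 2 = 0 → ii x ≤ i →
        (x = mk (kk x) (tt x) i ∨ LL X x (mk (kk x) (tt x) i)) := by
      intro i h2 hi
      have hor : ii x = i ∨ zlt (ii x) i := by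
        unfold zlt
        omega
      rcases hor with h | h
      · left
        rw [← h]
        exact (mk_eq x).symm
      · right
        have h3 : LL X (mk (kk x) (tt x) (ii x)) (mk (kk x) (tt x) i) := by
          rw [LL_mk (vt x) (VTz hx1 _ _)]
          exact Or.inr ⟨rfl, Or.inr ⟨rfl, (BL_zeta hx1).2 h⟩⟩
        rwa [mk_eq] at h3
    refine ⟨mk (kk x) (tt x) (2 * ii x), mk (kk x) (tt x) (2 * ii x + 2 * B),
      ⟨hxz _ (by omega) (by omega), Or.inr (hup _)⟩,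
      ⟨hxz _ (by omega) (by omega), Or.inr (hup _)⟩,
      fin_block (VTz hx1 _ _) (VTz hx1 _ _) (by omega), zeta_up hx1 _ _⟩
  by_cases hy1 : tt y = 1 ∨ tt y = 3
  · have hup : ∀ i, LL X x (mk (kk y) (tt y) i) := by
      intro i
      have h3 : LL X (mk (kk x) (tt x) (ii x)) (mk (kk y) (tt y) i) := by
        rw [LL_mk (vt x) (VTz hy1 _ _)]
        rcases hlt with h | ⟨h, h'⟩
        · exact Or.inl h
        · exact Or.inr ⟨h, Or.inl h'⟩
      rwa [mk_eq] at h3
    have hzy : ∀ i, i % 2 = 1 → ii y < i → LL X (mk (kk y) (tt y) i) y := by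
      intro i h2 hi
      have h3 : LL X (mk (kk y) (tt y) i) (mk (kk y) (tt y) (ii y)) := by
        rw [LL_mk (VTz hy1 _ _) (vt y)]
        exact Or.inr ⟨rfl, Or.inr ⟨rfl, (BL_zeta hy1).2 (by unfold zlt; omega)⟩⟩
      rwa [mk_eq] at h3
    refine ⟨mk (kk y) (tt y) (2 * ii y + 2 * B + 1), mk (kk y) (tt y) (2 * ii y + 1),
      ⟨Or.inr (hup _), Or.inr (hzy _ (by omega) (by omega))⟩,
      ⟨Or.inr (hup _), Or.inr (hzy _ (by omega) (by omega))⟩,
      fin_block (VTz hy1 _ _) (VTz hy1 _ _) (by omega), zeta_down hy1 _ _⟩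
  · have ht : tt x + 1 = 1 ∨ tt x + 1 = 3 := by omega
    have h1 : ∀ i, LL X x (mk (kk x) (tt x + 1) i) := by
      intro i
      have h3 : LL X (mk (kk x) (tt x) (ii x)) (mk (kk x) (tt x + 1) i) := by
        rw [LL_mk (vt x) (VTz ht _ _)]
        exact Or.inr ⟨rfl, Or.inl (by omega)⟩
      rwa [mk_eq] at h3
    have h2 : ∀ i, LL X (mk (kk x) (tt x + 1) i) y := by
      intro i
      have h3 : LL X (mk (kk x) (tt x + 1) i) (mk (kk y) (tt y) (ii y)) := by
        rw [LL_mk (VTz ht _ _) (vt y)]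
        rcases hlt with h | ⟨h, h'⟩
        · exact Or.inl h
        · exact Or.inr ⟨h, Or.inl (by omega)⟩
      rwa [mk_eq] at h3
    exact ⟨mk (kk x) (tt x + 1) (2 * 0), mk (kk x) (tt x + 1) (2 * 0 + 2 * B),
      ⟨Or.inr (h1 _), Or.inr (h2 _)⟩, ⟨Or.inr (h1 _), Or.inr (h2 _)⟩,
      fin_block (VTz ht _ _) (VTz ht _ _) (by omega), zeta_up ht _ _⟩

/-- (I): `L` has no strongly `η`-like convex subset. -/
theorem not_SE (hX : RF X) {C : Set ℕ} {Q : ℕ → ℚ} {B : ℕ} (h : SE (LL X) C Q B) : False := by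
  -- (1) all elements of `C` are in one block
  have hblock : ∀ x ∈ C, ∀ y ∈ C, LL X x y → kk x = kk y ∧ tt x = tt y := by
    intro x hx y hy hxy
    by_contra hne
    have hlt : kk x < kk y ∨ (kk x = kk y ∧ tt x < tt y) := by
      rcases hxy with h1 | ⟨h1, h2 | ⟨h2, _⟩⟩
      · exact Or.inl h1
      · exact Or.inr ⟨h1, h2⟩
      · exact absurd ⟨h1, h2⟩ hne
    obtain ⟨z, z', hz, hz', hfin, hcard⟩ := long_between (X := X) hlt B
    have h1 := h.bound (h.conv x z y hx hy hz.1 hz.2) (h.conv x z' y hx hy hz'.1 hz'.2) hfin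
    omega
  obtain ⟨d0, c0, q0⟩ := h.surj 0
  obtain ⟨d1, c1, q1⟩ := h.surj 1
  obtain ⟨d2, c2, q2⟩ := h.surj 2
  obtain ⟨d3, c3, q3⟩ := h.surj 3
  have f01 := h.far c0 c1 (by rw [q0, q1]; norm_num)
  have f12 := h.far c1 c2 (by rw [q1, q2]; norm_num)
  have f23 := h.far c2 c3 (by rw [q2, q3]; norm_num)
  have l01 := h.anti _ c0 _ c1 (by rw [q0, q1]; norm_num)
  have l12 := h.anti _ c1 _ c2 (by rw [q1, q2]; norm_num)
  have l23 := h.anti _ c2 _ c3 (by rw [q2, q3]; norm_num)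
  obtain ⟨k01, t01⟩ := hblock _ c0 _ c1 l01
  obtain ⟨k12, t12⟩ := hblock _ c1 _ c2 l12
  obtain ⟨k23, t23⟩ := hblock _ c2 _ c3 l23
  -- (2) the block is of type `X`
  have ht : tt d0 = 2 := by
    by_contra hne
    have e0 := mk_eq d0
    have e1 := mk_eq d1
    rw [← k01, ← t01] at e1
    have hv1 := vt d1
    rw [← k01, ← t01] at hv1
    have hfin := fin_block (X := X) (vt d0) hv1 hne
    rw [e0, e1] at hfin
    refine f01.mono ?_ hfin
    rintro w ⟨h1, h2⟩
    exact ⟨Or.inr h1, Or.inr h2⟩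
  have e0 : d0 = mk (kk d0) 2 (ii d0) := eq_mk_two rfl ht
  have e1 : d1 = mk (kk d0) 2 (ii d1) := eq_mk_two k01.symm (by omega)
  have e2 : d2 = mk (kk d0) 2 (ii d2) := eq_mk_two (by omega) (by omega)
  have e3 : d3 = mk (kk d0) 2 (ii d3) := eq_mk_two (by omega) (by omega)
  have hfar : ∀ i j, Far (LL X) (mk (kk d0) 2 i) (mk (kk d0) 2 j) → Far (X (kk d0)) i j := by
    intro i j hf
    have hsub : {w | LL X (mk (kk d0) 2 i) w ∧ LL X w (mk (kk d0) 2 j)} ⊆
        (fun w => mk (kk d0) 2 w) '' {w | X (kk d0) i w ∧ X (kk d0) w j} := by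
      rintro w ⟨h1, h2⟩
      have h3 := mid_two (Or.inr h1) (Or.inr h2)
      rw [h3, LL_two] at h1 h2
      exact ⟨ii w, ⟨h1, h2⟩, h3.symm⟩
    exact (hf.mono hsub).of_image _
  rw [e0, e1] at f01
  rw [e1, e2] at f12
  rw [e2, e3] at f23
  obtain ⟨x', y', hx', hy', hfin, hcard⟩ := hX.ri (kk d0) (ii d0) (ii d1) (ii d2) (ii d3)
    (hfar _ _ f01) (hfar _ _ f12) (hfar _ _ f23) (B + 1)
  have hin : ∀ w, w ∈ Icc' (X (kk d0)) (ii d0) (ii d3) → mk (kk d0) 2 w ∈ C := by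
    intro w hw
    have h1 : mk (kk d0) 2 w ∈
        Icc' (LL X) (mk (kk d0) 2 (ii d0)) (mk (kk d0) 2 (ii d3)) := by
      rw [Icc_two]
      exact ⟨w, hw, rfl⟩
    rw [← e0, ← e3] at h1
    exact h.conv d0 _ d3 c0 c3 h1.1 h1.2
  have hfin' : (Icc' (LL X) (mk (kk d0) 2 x') (mk (kk d0) 2 y')).Finite := by
    rw [Icc_two]
    exact hfin.image _
  have h1 := h.bound (hin x' hx') (hin y' hy') hfin'
  rw [Icc_two, Set.ncard_image_of_injective _ (mk_two_inj _)] at h1
  omega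

end

end Pool.Agent.DMN
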