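import Pool.Agent.DMN.P_FPS

/-!
# DMN: target FAT
-/

set_option autoImplicit false

namespace Pool.Agent.DMN

/-- FAT. Facts on an attack. -/
theorem FAT {k s : ℕ} {σ : ℕ → St} {w : Wi} (hI : Inv s (σ s)) (hR : Req k s (σ s) w)
    (hA : Att k s (σ s) w (σ (s + 1))) :
    ∃ C' l f', AF k σ (Nat.unpair s).1 s w C' l f' := by
  have hlen := hI.len
  have h4 := FPS_pos s
  have hnn := FPS_nn s
  obtain ⟨C', l, f', hS, hG, hN, hE⟩ := hA
  obtain ⟨hi1, hi2, hok, hdat⟩ := hR
  set i := (Nat.unpair s).1 with hi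
  have hprev : i - 1 < (σ s).2.2.length := by omega
  have hmono0 := hI.lmono 0 (i - 1) (Nat.zero_le _) hprev
  rw [hI.root] at hmono0
  have h2l : 2 ≤ fl (fr (σ s) (i - 1)) := hmono0.1
  have h2r : 2 ≤ fR (fr (σ s) (i - 1)) := hmono0.2
  obtain ⟨-, -, -, -, hd5⟩ := id hdat
  obtain ⟨-, hP, hQ, -, -⟩ := hd5
  have hPl := hG.1
  have hQl := hG.2.1
  rw [hlen] at hQl
  have hPl' : fl (fr (σ s) (i - 1)) ≤ l := le_trans hP hPl
  have hQl' : l + fR (fr (σ s) (i - 1)) ≤ nn s := by omega
  have e1 : (σ (s + 1)).1 = (σ s).1.take l ++ List.range' (nn s) (2 * nn s) ++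
      (σ s).1.drop l := by
    rw [hE, ← hlen]
    rfl
  have e2 : (σ (s + 1)).2.1 = C' ++ [3 * nn s - 1] := by
    rw [hE, ← hlen]
    rfl
  have e3 : (σ (s + 1)).2.2 = (σ s).2.2.take i ++ [(ft (fr (σ s) i), l, nn s - l, f')] ++
      [(s + 1, l, nn s - l, [])] := by
    rw [hE, ← hlen]
    rfl
  have htk : ((σ s).2.2.take i).length = i := by
    rw [List.length_take]
    omega
  have htk1 : ((σ s).2.2.take i ++ [(ft (fr (σ s) i), l, nn s - l, f')]).length = i + 1 := by
    rw [List.length_append, htk]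
    rfl
  have hold : ∀ j < i, fr (σ (s + 1)) j = fr (σ s) j := by
    intro j hj
    unfold fr
    rw [e3, List.getD_append _ _ _ _ (by rw [htk1]; omega),
      List.getD_append _ _ _ _ (by rw [htk]; omega)]
    rw [List.getD_eq_getElem?_getD, List.getD_eq_getElem?_getD, List.getElem?_take_of_lt hj]
  have hfrm : fr (σ (s + 1)) i = (ft (fr (σ s) i), l, nn s - l, f') := by
    have h1 : fr (σ (s + 1)) i = ((σ s).2.2.take i ++ [(ft (fr (σ s) i), l, nn s - l, f')] ++
      [(s + 1, l, nn s - l, [])]).getD i (0, 0, 0, []) := by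
      rw [← e3]
      rfl
    rw [h1, List.getD_append _ _ _ _ (by rw [htk1]; omega),
      List.getD_append_right _ _ _ _ (by rw [htk]), htk]
    simp
  have htop : fr (σ (s + 1)) (i + 1) = (s + 1, l, nn s - l, []) := by
    have h1 : fr (σ (s + 1)) (i + 1) =
      ((σ s).2.2.take i ++ [(ft (fr (σ s) i), l, nn s - l, f')] ++
      [(s + 1, l, nn s - l, [])]).getD (i + 1) (0, 0, 0, []) := by
      rw [← e3]
      rfl
    rw [h1, List.getD_append_right _ _ _ _ (by rw [htk1]), htk1]
    simp
  have hlen3 : (σ (s + 1)).2.2.length = i + 2 := by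
    rw [e3, List.length_append, htk1]
    rfl
  have hC'mem : ∀ x ∈ C', x < nn s := fun x hx => (hI.mem x).1 (hS.2.1 x hx)
  have hsf : SF σ s l := by
    refine ⟨e1, by omega, by omega, ?_, ?_, ?_, ?_, ?_⟩
    · obtain ⟨h1, h2, h3⟩ := hG.2.2.1
      refine ⟨h1, h2, ?_⟩
      rw [e2]
      exact List.mem_append_left _ h3
    · intro x hx
      rw [e2]
      exact List.mem_append_left _ (hS.1 x hx)
    · intro x hx hx2
      rw [e2, List.mem_append] at hx2
      rcases hx2 with h | h
      · exact absurd (hC'mem x h) (not_lt.2 hx)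
      · rw [hnn]
        simpa using h
    · rw [e2, hnn]
      simp
    · intro j hj
      rw [hlen3] at hj
      rcases Nat.lt_or_ge j i with h | h
      · rw [hold j h]
        have h5 := hI.lmono j (i - 1) (by omega) hprev
        refine ⟨le_trans h5.1 hPl', ?_⟩
        have := h5.2
        omega
      · rcases Nat.lt_or_ge i j with h' | h'
        · have : j = i + 1 := by omega
          rw [this, htop]
          exact ⟨le_rfl, le_rfl⟩
        · have : j = i := by omega
          rw [this, hfrm]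
          exact ⟨le_rfl, le_rfl⟩
  refine ⟨C', l, f', ⟨hi1, hi2, hok, hdat, hS, hG, hN, hsf, hfrm, hlen3, htop, hold, ?_⟩⟩
  intro x hx
  rw [e2]
  constructor
  · exact fun h => List.mem_append_left _ h
  · intro h
    rcases List.mem_append.1 h with h | h
    · exact h
    · exfalso
      simp at h
      omega

end Pool.Agent.DMN
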