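import Pool.Agent.DMN.Defs
import Pool.Agent.DMN.DefsB
import Pool.Agent.DMN.DefsD

/-!
# DMN: target FPS
-/

set_option autoImplicit false

namespace Pool.Agent.DMN

theorem FPS_nn (s : ℕ) : nn (s + 1) = 3 * nn s := by
  unfold nn
  rw [pow_succ]
  ring

theorem FPS_pos (s : ℕ) : 4 ≤ nn s := by
  unfold nn
  have : 0 < 3 ^ s := by positivity
  omega

/-- FPS. Facts on a stage without attack. -/
theorem FPS {s : ℕ} {σ : ℕ → St} (hI : Inv s (σ s)) (hP : Psh s (σ s) (σ (s + 1))) :
    ∃ l, PF σ s l := by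
  have hlen := hI.len
  have h4 := FPS_pos s
  have hnn := FPS_nn s
  have hlen2 := hI.len2
  have hlast : (σ s).2.2.length - 1 < (σ s).2.2.length := by omega
  set l := fl (fr (σ s) ((σ s).2.2.length - 1)) with hl
  have hmono0 := hI.lmono 0 ((σ s).2.2.length - 1) (Nat.zero_le _) hlast
  rw [hI.root] at hmono0
  have h2l : 2 ≤ l := hmono0.1
  have h2r : 2 ≤ fR (fr (σ s) ((σ s).2.2.length - 1)) := hmono0.2
  have hsum := hI.sum ((σ s).2.2.length - 1) hlast
  have e1 : (σ (s + 1)).1 = (σ s).1.take l ++ List.range' (nn s) (2 * nn s) ++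
      (σ s).1.drop l := by
    rw [hP, ← hlen]
    rfl
  have e2 : (σ (s + 1)).2.1 = (σ s).2.1 ++ [3 * nn s - 1] := by
    rw [hP, ← hlen]
    rfl
  have e3 : (σ (s + 1)).2.2 = (σ s).2.2 ++ [(s + 1, l, nn s - l, [])] := by
    rw [hP, ← hlen]
    rfl
  have hold : ∀ j < (σ s).2.2.length, fr (σ (s + 1)) j = fr (σ s) j := by
    intro j hj
    unfold fr
    rw [e3, List.getD_append _ _ _ _ hj]
  have htop : fr (σ (s + 1)) (σ s).2.2.length = (s + 1, l, nn s - l, []) := by
    unfold fr
    rw [e3, List.getD_append_right _ _ _ _ le_rfl]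
    simp
  have hlen3 : (σ (s + 1)).2.2.length = (σ s).2.2.length + 1 := by
    rw [e3]
    simp
  refine ⟨l, ⟨⟨e1, h2l, by omega, ?_, ?_, ?_, ?_, ?_⟩, hlen3, htop, hold, ?_⟩⟩
  · obtain ⟨h1, h2, h3⟩ := hI.pos _ hlast
    refine ⟨h1, h2, ?_⟩
    rw [e2]
    exact List.mem_append_left _ h3
  · intro x hx
    rw [e2]
    exact List.mem_append_left _ hx
  · intro x hx hx2
    rw [e2, List.mem_append] at hx2
    rcases hx2 with h | h
    · exact absurd (hI.cmem x h) (not_lt.2 hx)
    · rw [hnn]
      simpa using h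
  · rw [e2, hnn]
    simp
  · intro i hi
    rw [hlen3] at hi
    rcases Nat.lt_or_ge i (σ s).2.2.length with h | h
    · rw [hold i h]
      have h5 := hI.lmono i ((σ s).2.2.length - 1) (by omega) hlast
      refine ⟨h5.1, ?_⟩
      have := h5.2
      omega
    · have : i = (σ s).2.2.length := by omega
      rw [this, htop]
      exact ⟨le_rfl, le_rfl⟩
  · intro x hx
    rw [e2]
    constructor
    · exact fun h => List.mem_append_left _ h
    · intro h
      rcases List.mem_append.1 h with h | h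
      · exact h
      · exfalso
        simp at h
        omega

end Pool.Agent.DMN
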