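import Pool.Agent.DMN.Defs
import Pool.Agent.DMN.DefsB
import Pool.Agent.DMN.DefsD
import Pool.Agent.DMN.P_FPS
import Pool.Agent.DMN.P_FAT

/-!
# DMN: target SFE
-/

set_option autoImplicit false

namespace Pool.Agent.DMN

/-- SFE. Every stage has step facts. -/
theorem SFE {k : ℕ} {σ : ℕ → St} (h : Run k σ) (s : ℕ) : ∃ l, SF σ s l := by
  rcases h.step s with ⟨c, _, hR, hA⟩ | ⟨_, hP⟩
  · obtain ⟨C', l, f', hAF⟩ := FAT (h.inv s) hR hA
    exact ⟨l, hAF.sf⟩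
  · obtain ⟨l, hPF⟩ := FPS (h.inv s) hP
    exact ⟨l, hPF.sf⟩

end Pool.Agent.DMN
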