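import Pool.Agent.DMN.Defs
import Pool.Agent.DMN.DefsB
import Pool.Agent.DMN.DefsD
import Pool.Agent.DMN.P_SFE

/-!
# DMN: target ORD (the order of a run is a strict linear order)
-/

set_option autoImplicit false

namespace Pool.Agent.DMN

theorem ORD_cmp (A B D : List ℕ) (x y : ℕ) (hx : x ∉ B) (hy : y ∉ B) :
    (A ++ D).idxOf x < (A ++ D).idxOf y ↔ (A ++ B ++ D).idxOf x < (A ++ B ++ D).idxOf y := by
  have key : ∀ z : ℕ, z ∉ B → (A ++ D).idxOf z =
      (if z ∈ A then A.idxOf z else D.idxOf z + A.length) ∧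
      (A ++ B ++ D).idxOf z =
      (if z ∈ A then A.idxOf z else D.idxOf z + A.length + B.length) := by
    intro z hz
    by_cases h : z ∈ A
    · refine ⟨?_, ?_⟩
      · rw [if_pos h, List.idxOf_append_of_mem h]
      · rw [if_pos h, List.append_assoc, List.idxOf_append_of_mem h]
    · refine ⟨?_, ?_⟩
      · rw [if_neg h, List.idxOf_append_of_notMem h]
        omega
      · have h1 : z ∉ A ++ B := by simp [h, hz]
        rw [if_neg h, List.idxOf_append_of_notMem h1, List.length_append]
        omega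
  have hlt : ∀ z : ℕ, z ∈ A → A.idxOf z < A.length := fun z hz => List.idxOf_lt_length_iff.2 hz
  rw [(key x hx).1, (key x hx).2, (key y hy).1, (key y hy).2]
  by_cases h1 : x ∈ A <;> by_cases h2 : y ∈ A
  · simp [h1, h2]
  · have := hlt x h1
    simp only [h1, h2, if_true, if_false]
    omega
  · have := hlt y h2
    simp only [h1, h2, if_true, if_false]
    omega
  · simp only [h1, h2, if_false]
    omega

theorem ORD_nn (s : ℕ) : s < nn s := by
  unfold nn
  have : s < 3 ^ s := Nat.lt_pow_self (by norm_num)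
  omega

theorem ORD_nn_mono {s t : ℕ} (h : s ≤ t) : nn s ≤ nn t := by
  unfold nn
  exact Nat.mul_le_mul_left 4 (Nat.pow_le_pow_right (by norm_num) h)

theorem ORD_step {k : ℕ} {σ : ℕ → St} (h : Run k σ) (s x y : ℕ) (hx : x < nn s) (hy : y < nn s) :
    (σ s).1.idxOf x < (σ s).1.idxOf y ↔ (σ (s + 1)).1.idxOf x < (σ (s + 1)).1.idxOf y := by
  obtain ⟨l, hl⟩ := SFE h s
  have h1 := ORD_cmp ((σ s).1.take l) (List.range' (nn s) (2 * nn s)) ((σ s).1.drop l) x y
    (by rw [List.mem_range'_1]; omega) (by rw [List.mem_range'_1]; omega)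
  rw [List.take_append_drop, ← hl.eqX] at h1
  exact h1

theorem ORD_le {k : ℕ} {σ : ℕ → St} (h : Run k σ) (s x y : ℕ) (hx : x < nn s) (hy : y < nn s)
    (t : ℕ) (ht : s ≤ t) :
    (σ s).1.idxOf x < (σ s).1.idxOf y ↔ (σ t).1.idxOf x < (σ t).1.idxOf y := by
  induction t, ht using Nat.le_induction with
  | base => exact Iff.rfl
  | succ t ht ih =>
    have hm := ORD_nn_mono ht
    rw [ih]
    exact ORD_step h t x y (by omega) (by omega)

theorem ORD {k : ℕ} {σ : ℕ → St} (h : Run k σ) :
    SLO (xo σ) ∧ ∀ s x y, x < nn s → y < nn s →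
      (xo σ x y ↔ (σ s).1.idxOf x < (σ s).1.idxOf y) := by
  have key : ∀ s x y, x < nn s → y < nn s →
      (xo σ x y ↔ (σ s).1.idxOf x < (σ s).1.idxOf y) := by
    intro s x y hx hy
    have h1 := ORD_nn (x + y + 1)
    unfold xo
    rcases le_total s (x + y + 1) with hs | hs
    · exact (ORD_le h s x y hx hy _ hs).symm
    · exact ORD_le h (x + y + 1) x y (by omega) (by omega) _ hs
  refine ⟨⟨?_, ?_, ?_⟩, key⟩
  · intro x hx
    exact lt_irrefl _ hx
  · intro x y z hxy hyz
    have h1 := ORD_nn (x + y + z)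
    rw [key (x + y + z) x y (by omega) (by omega)] at hxy
    rw [key (x + y + z) y z (by omega) (by omega)] at hyz
    rw [key (x + y + z) x z (by omega) (by omega)]
    exact hxy.trans hyz
  · intro x y
    have h1 := ORD_nn (x + y)
    rw [key (x + y) x y (by omega) (by omega), key (x + y) y x (by omega) (by omega)]
    rcases lt_trichotomy ((σ (x + y)).1.idxOf x) ((σ (x + y)).1.idxOf y) with h2 | h2 | h2
    · exact Or.inl h2
    · right
      left
      have hx : x ∈ (σ (x + y)).1 := ((h.inv (x + y)).mem x).2 (by omega)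
      exact (List.idxOf_inj hx).1 h2
    · exact Or.inr (Or.inr h2)

end Pool.Agent.DMN
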