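import Pool.Agent.DMN.Defs
import Pool.Agent.DMN.DefsB
import Pool.Agent.DMN.DefsD
import Pool.Agent.DMN.P_ORD

/-!
# DMN: target ORB (counting in the list of a run)
-/

set_option autoImplicit false

namespace Pool.Agent.DMN

theorem ORB_idx {X : List ℕ} {n : ℕ} (hl : X.length = n) (hm : ∀ x, x ∈ X ↔ x < n) {x : ℕ}
    (hx : x < n) : X.idxOf x < n ∧ X.getD (X.idxOf x) 0 = x := by
  have h1 : X.idxOf x < X.length := List.idxOf_lt_length_iff.2 ((hm x).2 hx)
  refine ⟨by omega, ?_⟩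
  rw [List.getD_eq_getElem _ _ h1]
  exact List.getElem_idxOf h1

theorem ORB_get {X : List ℕ} {n : ℕ} (hl : X.length = n) (hn : X.Nodup)
    (hm : ∀ x, x ∈ X ↔ x < n) {i : ℕ} (hi : i < n) :
    X.getD i 0 < n ∧ X.idxOf (X.getD i 0) = i := by
  have h1 : i < X.length := by omega
  rw [List.getD_eq_getElem _ _ h1]
  exact ⟨(hm _).1 (List.getElem_mem h1), hn.idxOf_getElem i h1⟩

theorem ORB_inj {X : List ℕ} {n : ℕ} (hl : X.length = n) (hm : ∀ x, x ∈ X ↔ x < n) {x y : ℕ}
    (hx : x < n) (hy : y < n) : X.idxOf x = X.idxOf y ↔ x = y := by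
  constructor
  · intro h
    rw [← (ORB_idx hl hm hx).2, ← (ORB_idx hl hm hy).2, h]
  · rintro rfl
    rfl

theorem ORB_card {X : List ℕ} {n : ℕ} (hl : X.length = n) (hn : X.Nodup)
    (hm : ∀ x, x ∈ X ↔ x < n) (Q : ℕ → Prop) {hd : DecidablePred Q} (a b : ℕ) (hab : a ≤ b)
    (hb : b < n) (hQ : ∀ x < n, (Q x ↔ a ≤ X.idxOf x ∧ X.idxOf x ≤ b)) :
    ((Finset.range n).filter Q).card + a = b + 1 := by
  have h1 : ((Finset.range n).filter Q).card = (Finset.Icc a b).card := by
    refine Finset.card_bij (fun x _ => X.idxOf x) ?_ ?_ ?_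
    · intro x hx
      rw [Finset.mem_filter, Finset.mem_range] at hx
      rw [Finset.mem_Icc]
      exact (hQ x hx.1).1 hx.2
    · intro x hx y hy h
      rw [Finset.mem_filter, Finset.mem_range] at hx hy
      exact (ORB_inj hl hm hx.1 hy.1).1 h
    · intro i hi
      rw [Finset.mem_Icc] at hi
      have h1 := ORB_get hl hn hm (i := i) (by omega)
      refine ⟨X.getD i 0, ?_, h1.2⟩
      rw [Finset.mem_filter, Finset.mem_range]
      refine ⟨h1.1, (hQ _ h1.1).2 ?_⟩
      rw [h1.2]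
      exact hi
  rw [h1, Nat.card_Icc]
  omega

theorem ORB {k : ℕ} {σ : ℕ → St} (h : Run k σ) (s : ℕ) :
    (∀ x < nn s, below (xo σ) (nn s) x = (σ s).1.idxOf x + 1 ∧
      above (xo σ) (nn s) x + (σ s).1.idxOf x = nn s ∧ (σ s).1.idxOf x < nn s ∧
      (σ s).1.getD ((σ s).1.idxOf x) 0 = x) ∧
    (∀ i < nn s, (σ s).1.getD i 0 < nn s ∧ (σ s).1.idxOf ((σ s).1.getD i 0) = i) ∧
    (∀ x < nn s, ∀ y < nn s, (Adj (xo σ) (nn s) x y ↔ (σ s).1.idxOf y = (σ s).1.idxOf x + 1)) ∧
    ∀ x < nn s, ∀ y < nn s, (σ s).1.idxOf x ≤ (σ s).1.idxOf y →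
      num (xo σ) (nn s) x y + (σ s).1.idxOf x = (σ s).1.idxOf y + 1 := by
  have hI := h.inv s
  have hl := hI.len
  have hn := hI.nodup
  have hm := hI.mem
  have ho := (ORD h).2 s
  have hle : ∀ x < nn s, ∀ y < nn s,
      ((x = y ∨ xo σ x y) ↔ (σ s).1.idxOf x ≤ (σ s).1.idxOf y) := by
    intro x hx y hy
    rw [ho x y hx hy, ← ORB_inj hl hm hx hy]
    omega
  refine ⟨?_, fun i hi => ORB_get hl hn hm hi, ?_, ?_⟩
  · intro x hx
    have h1 := ORB_idx hl hm hx
    refine ⟨?_, ?_, h1⟩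
    · unfold below
      refine ORB_card hl hn hm _ 0 ((σ s).1.idxOf x) (Nat.zero_le _) h1.1 ?_
      intro w hw
      have := hle w hw x hx
      constructor
      · intro h4
        exact ⟨Nat.zero_le _, this.1 h4⟩
      · intro h4
        exact this.2 h4.2
    · unfold above
      have h8 : nn s - 1 + 1 = nn s := by omega
      rw [ORB_card hl hn hm _ ((σ s).1.idxOf x) (nn s - 1) (by omega) (by omega) ?_, h8]
      intro w hw
      have h5 := hle x hx w hw
      have h6 := ORB_idx hl hm hw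
      constructor
      · rintro (h4 | h4)
        · exact ⟨h5.1 (Or.inl h4.symm), by omega⟩
        · exact ⟨h5.1 (Or.inr h4), by omega⟩
      · intro h4
        rcases h5.2 h4.1 with h7 | h7
        · exact Or.inl h7.symm
        · exact Or.inr h7
  · intro x hx y hy
    unfold Adj
    constructor
    · rintro ⟨h1, h2⟩
      rw [ho x y hx hy] at h1
      by_contra h3
      have h4 := (ORB_idx hl hm hy).1
      have h5 := ORB_get hl hn hm (i := (σ s).1.idxOf x + 1) (by omega)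
      apply h2 _ h5.1
      rw [ho x _ hx h5.1, ho _ y h5.1 hy, h5.2]
      omega
    · intro h1
      refine ⟨(ho x y hx hy).2 (by omega), ?_⟩
      rintro w hw ⟨h2, h3⟩
      rw [ho x w hx hw] at h2
      rw [ho w y hw hy] at h3
      omega
  · intro x hx y hy hxy
    unfold num
    exact ORB_card hl hn hm _ ((σ s).1.idxOf x) ((σ s).1.idxOf y) hxy (ORB_idx hl hm hy).1
      fun w hw => and_congr (hle x hx w hw) (hle w hw y hy)

end Pool.Agent.DMN
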