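import Pool.Agent.DMN.Defs
import Pool.Agent.DMN.DefsB
import Pool.Agent.DMN.DefsD
import Pool.Agent.DMN.P_ORB
import Pool.Agent.DMN.P_SFE

/-!
# DMN: OCU
-/

set_option autoImplicit false

namespace Pool.Agent.DMN

theorem OCU_pos {k : ℕ} {σ : ℕ → St} (h : Run k σ) (s x : ℕ) (hx : x < nn s) :
    x ∈ (σ s).2.1 ↔ Pos (σ s).1 (σ s).2.1 ((σ s).1.idxOf x + 1) := by
  have hI := h.inv s
  have hmem : x ∈ (σ s).1 := (hI.mem x).mpr hx
  have hlt : (σ s).1.idxOf x < (σ s).1.length := List.idxOf_lt_length_iff.mpr hmem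
  have hget : (σ s).1.getD ((σ s).1.idxOf x + 1 - 1) 0 = x := by
    rw [Nat.add_sub_cancel, List.getD_eq_getElem _ _ hlt, List.getElem_idxOf]
  unfold Pos
  rw [hget]
  constructor
  · intro hc
    exact ⟨by omega, by omega, hc⟩
  · intro hc
    exact hc.2.2

/-- OCU. Cuts: `x` is a cut at stage `s` iff the position after it is a cut position; it is even;
once a cut, always a cut. -/
theorem OCU {k : ℕ} {σ : ℕ → St} (h : Run k σ) :
    (∀ s, ∀ x < nn s, (x ∈ (σ s).2.1 ↔ Pos (σ s).1 (σ s).2.1 ((σ s).1.idxOf x + 1))) ∧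
    (∀ s, ∀ x ∈ (σ s).2.1, below (xo σ) (nn s) x % 2 = 0) ∧
    (∀ s s', s ≤ s' → ∀ x ∈ (σ s).2.1, x ∈ (σ s').2.1) := by
  refine ⟨fun s x hx => OCU_pos h s x hx, ?_, ?_⟩
  · intro s x hx
    have hI := h.inv s
    have hlt : x < nn s := hI.cmem x hx
    rw [((ORB h s).1 x hlt).1]
    exact hI.even _ ((OCU_pos h s x hlt).mp hx)
  · intro s s' hs
    induction s', hs using Nat.le_induction with
    | base => exact fun x hx => hx
    | succ s' _ ih =>
      intro x hx
      obtain ⟨l, hl⟩ := SFE h s'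
      exact hl.cmono x (ih x hx)

end Pool.Agent.DMN
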