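import Pool.Agent.DMN.Defs
import Pool.Agent.DMN.DefsB
import Pool.Agent.DMN.DefsD
import Pool.Agent.DMN.P_ORD
import Pool.Agent.DMN.P_SFE

/-!
# DMN targets ORN, ORE: the new labels, the first and the last element
-/

set_option autoImplicit false

namespace Pool.Agent.DMN

/-- in a list without duplicates the position determines the index -/
theorem ORN_idx {L : List ℕ} (h : L.Nodup) {j x : ℕ} (hj : L[j]? = some x) :
    L.idxOf x = j := by
  obtain ⟨hlt, rfl⟩ := List.getElem?_eq_some_iff.mp hj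
  exact h.idxOf_getElem j hlt

theorem ORN_nn (s : ℕ) : nn (s + 1) = 3 * nn s := by
  unfold nn
  rw [pow_succ]
  ring

/-- the positions after the insertion -/
theorem ORN_pos {k : ℕ} {σ : ℕ → St} (h : Run k σ) {s l : ℕ} (hs : SF σ s l) :
    (∀ x < nn s, ((σ s).1.idxOf x < l → (σ (s + 1)).1.idxOf x = (σ s).1.idxOf x) ∧
      (l ≤ (σ s).1.idxOf x → (σ (s + 1)).1.idxOf x = (σ s).1.idxOf x + 2 * nn s)) ∧
    ∀ w, nn s ≤ w → w < nn (s + 1) → (σ (s + 1)).1.idxOf w = l + (w - nn s) := by
  have hn := (h.inv (s + 1)).nodup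
  have hlen := (h.inv s).len
  have hlo := hs.lo
  have hhi := hs.hi
  have htl : ((σ s).1.take l).length = l := by
    rw [List.length_take, hlen]
    omega
  have hrl : (List.range' (nn s) (2 * nn s)).length = 2 * nn s := List.length_range' ..
  have e1 : ∀ j < l, (σ (s + 1)).1[j]? = (σ s).1[j]? := by
    intro j hj
    rw [hs.eqX, List.append_assoc, List.getElem?_append_left (by omega), List.getElem?_take,
      if_pos hj]
  have e2 : ∀ j, l ≤ j → (σ (s + 1)).1[j + 2 * nn s]? = (σ s).1[j]? := by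
    intro j hj
    rw [hs.eqX, List.getElem?_append_right (by rw [List.length_append]; omega),
      List.length_append, htl, hrl, List.getElem?_drop]
    congr 1
    omega
  have e3 : ∀ j < 2 * nn s, (σ (s + 1)).1[l + j]? = some (nn s + j) := by
    intro j hj
    rw [hs.eqX, List.append_assoc, List.getElem?_append_right (by omega), htl,
      List.getElem?_append_left (by omega), List.getElem?_range' (by omega)]
    congr 1
    omega
  refine ⟨fun x hx => ?_, fun w hw hw' => ?_⟩
  · have hmem : x ∈ (σ s).1 := ((h.inv s).mem x).mpr hx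
    have hget : (σ s).1[(σ s).1.idxOf x]? = some x := List.getElem?_idxOf hmem
    refine ⟨fun hi => ORN_idx hn ?_, fun hi => ORN_idx hn ?_⟩
    · rw [e1 _ hi, hget]
    · rw [e2 _ hi, hget]
  · refine ORN_idx hn ?_
    rw [ORN_nn] at hw'
    rw [e3 _ (by omega)]
    congr 1
    omega

theorem ORN {k : ℕ} {σ : ℕ → St} (h : Run k σ) {s l : ℕ} (hs : SF σ s l) :
    (∀ x < nn s, ∀ w, nn s ≤ w → w < nn (s + 1) →
      (xo σ x w ↔ (σ s).1.idxOf x < l) ∧ (xo σ w x ↔ l ≤ (σ s).1.idxOf x)) ∧
    ∀ w w', nn s ≤ w → w < w' → w' < nn (s + 1) → xo σ w w' := by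
  obtain ⟨p1, p2⟩ := ORN_pos h hs
  have ho := (ORD h).2 (s + 1)
  have h3 := ORN_nn s
  refine ⟨fun x hx w hw hw' => ?_, fun w w' hw hww hw' => ?_⟩
  · have hx' : x < nn (s + 1) := by omega
    rw [ho x w hx' hw', ho w x hw' hx', p2 w hw hw']
    by_cases hi : (σ s).1.idxOf x < l
    · rw [(p1 x hx).1 hi]
      constructor <;> constructor <;> intro _ <;> omega
    · rw [(p1 x hx).2 (by omega)]
      constructor <;> constructor <;> intro _ <;> omega
  · rw [ho w w' (by omega) hw', p2 w hw (by omega), p2 w' (by omega) hw']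
    omega

/-- the first and the last element of the lists -/
theorem ORE_ends {k : ℕ} {σ : ℕ → St} (h : Run k σ) (s : ℕ) :
    (σ s).1.idxOf 0 = 0 ∧ (σ s).1.idxOf 3 = nn s - 1 := by
  induction s with
  | zero =>
    rw [h.zero]
    constructor <;> decide
  | succ s ih =>
    obtain ⟨l, hs⟩ := SFE h s
    obtain ⟨p1, -⟩ := ORN_pos h hs
    have h3 := ORN_nn s
    have hlo := hs.lo
    have hhi := hs.hi
    have a1 := (p1 0 (by omega)).1 (by omega)
    have a2 := (p1 3 (by omega)).2 (by omega)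
    rw [a1, a2]
    omega

theorem ORE_lt (y : ℕ) : y < nn y := by
  have h1 : y < 3 ^ y := Nat.lt_pow_self (by norm_num)
  unfold nn
  omega

theorem ORE {k : ℕ} {σ : ℕ → St} (h : Run k σ) :
    (∀ y, 0 = y ∨ xo σ 0 y) ∧ ∀ y, 3 = y ∨ xo σ y 3 := by
  have hn : ∀ s, 4 ≤ nn s := by
    intro s
    have h1 : 1 ≤ 3 ^ s := Nat.one_le_pow _ _ (by norm_num)
    unfold nn
    omega
  refine ⟨fun y => ?_, fun y => ?_⟩
  · by_cases hy : 0 = y
    · exact Or.inl hy
    right
    have h4 := hn y
    have hlt := ORE_lt y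
    rw [(ORD h).2 y 0 y (by omega) hlt, (ORE_ends h y).1]
    have hne : (σ y).1.idxOf 0 ≠ (σ y).1.idxOf y := by
      intro he
      exact hy ((List.idxOf_inj (((h.inv y).mem 0).mpr (by omega))).mp he)
    rw [(ORE_ends h y).1] at hne
    omega
  · by_cases hy : 3 = y
    · exact Or.inl hy
    right
    have h4 := hn y
    have hlt := ORE_lt y
    rw [(ORD h).2 y y 3 hlt (by omega), (ORE_ends h y).2]
    have hne : (σ y).1.idxOf 3 ≠ (σ y).1.idxOf y := by
      intro he
      exact hy ((List.idxOf_inj (((h.inv y).mem 3).mpr (by omega))).mp he)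
    rw [(ORE_ends h y).2] at hne
    have hl : (σ y).1.idxOf y < (σ y).1.length :=
      List.idxOf_lt_length_of_mem (((h.inv y).mem y).mpr hlt)
    rw [(h.inv y).len] at hl
    omega

end Pool.Agent.DMN
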