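import Pool.Agent.DMN.Defs
import Pool.Agent.DMN.DefsB
import Pool.Agent.DMN.DefsD
import Pool.Agent.DMN.P_OCU
import Pool.Agent.DMN.P_ORB
import Pool.Agent.DMN.P_ORD
import Pool.Agent.DMN.P_ORN
import Pool.Agent.DMN.P_SFE

/-!
# DMN, targets EVR and EVL: right and left ends of the maximal blocks (MP_55b29c_lc)
-/

set_option autoImplicit false

namespace Pool.Agent.DMN

lemma EVR_nn_mono {s s' : ℕ} (h : s ≤ s') : nn s ≤ nn s' := by
  unfold nn
  have : 3 ^ s ≤ 3 ^ s' := Nat.pow_le_pow_right (by norm_num) h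
  omega

lemma EVR_lt_nn (s : ℕ) : s < nn s := by
  unfold nn
  have : s < 3 ^ s := Nat.lt_pow_self (by norm_num)
  omega

lemma EVR_nn_succ (s : ℕ) : nn (s + 1) = 3 * nn s := by
  unfold nn
  rw [pow_succ]
  ring

/-- The step for two neighbours `e < c`: either they stay neighbours, or `e` becomes a cut and the
last new label becomes the left neighbour of `c` (and is a cut). -/
lemma EVR_step {k : ℕ} {σ : ℕ → St} (h : Run k σ) {s e c : ℕ} (he : e < nn s) (hc : c < nn s)
    (hadj : Adj (xo σ) (nn s) e c) :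
    Adj (xo σ) (nn (s + 1)) e c ∨ (e ∈ (σ (s + 1)).2.1 ∧ nn (s + 1) - 1 ∈ (σ (s + 1)).2.1 ∧
      Adj (xo σ) (nn (s + 1)) (nn (s + 1) - 1) c) := by
  obtain ⟨hX, hidx⟩ := ORD h
  obtain ⟨hb1, -, hb3, -⟩ := ORB h s
  obtain ⟨l, hl⟩ := SFE h s
  obtain ⟨hn1, hn2⟩ := ORN h hl
  have hs1 := EVR_nn_succ s
  have hpos := EVR_lt_nn s
  have hec : (σ s).1.idxOf c = (σ s).1.idxOf e + 1 := (hb3 e he c hc).mp hadj
  by_cases hle : l = (σ s).1.idxOf c
  · right
    refine ⟨?_, hl.cnew', ?_, ?_⟩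
    · have h1 := hl.cut.2.2
      have h2 : l - 1 = (σ s).1.idxOf e := by omega
      rw [h2, (hb1 e he).2.2.2] at h1
      exact h1
    · exact (hn1 c hc _ (by omega) (by omega)).2.mpr (by omega)
    · rintro w hw ⟨hw1, hw2⟩
      by_cases hws : w < nn s
      · have h1 := (hn1 w hws (nn (s + 1) - 1) (by omega) (by omega)).2.mp hw1
        have h2 := (hidx s w c hws hc).mp hw2
        omega
      · by_cases hwe : w = nn (s + 1) - 1
        · rw [hwe] at hw1
          exact hX.irr _ hw1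
        · have h1 := hn2 w (nn (s + 1) - 1) (by omega) (by omega) (by omega)
          exact hX.irr _ (hX.tr _ _ _ h1 hw1)
  · left
    refine ⟨hadj.1, ?_⟩
    rintro w hw ⟨hw1, hw2⟩
    by_cases hws : w < nn s
    · exact hadj.2 w hws ⟨hw1, hw2⟩
    · have h1 := (hn1 e he w (by omega) hw).1.mp hw1
      have h2 := (hn1 c hc w (by omega) hw).2.mp hw2
      omega

/-- EVR. If `d` has no immediate successor (and is not the greatest element) then `d` is finally a
cut. Otherwise `d ∉ (σ s).2.1` for all `s`; the right neighbour `w` of `d` at a stage where `d` is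
present stays the right neighbour for ever (an insertion at position `l = idxOf d + 1` would make
`d` a cut of stage `s + 1`: `SF.cut`), so nothing is between `d` and `w`, contradiction. -/
theorem EVR {k : ℕ} {σ : ℕ → St} (h : Run k σ) {d : ℕ} (h3 : d ≠ 3)
    (hd : ∀ w, xo σ d w → ∃ w', xo σ d w' ∧ xo σ w' w) : ∃ s, d ∈ (σ s).2.1 := by
  by_contra hcon
  push Not at hcon
  obtain ⟨-, hidx⟩ := ORD h
  obtain ⟨-, hhi⟩ := ORE h
  have hd3 : xo σ d 3 := by
    rcases hhi d with h1 | h1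
    · exact absurd h1.symm h3
    · exact h1
  have hdn : d < nn (d + 3) := lt_of_lt_of_le (EVR_lt_nn d) (EVR_nn_mono (by omega))
  have h3n : 3 < nn (d + 3) := lt_of_lt_of_le (EVR_lt_nn 3) (EVR_nn_mono (by omega))
  obtain ⟨hb1, hb2, hb3, -⟩ := ORB h (d + 3)
  have hlt : (σ (d + 3)).1.idxOf d < (σ (d + 3)).1.idxOf 3 := (hidx (d + 3) d 3 hdn h3n).mp hd3
  have hlt2 := (hb1 3 h3n).2.2.1
  obtain ⟨hwn, hwi⟩ := hb2 ((σ (d + 3)).1.idxOf d + 1) (by omega)
  set w := (σ (d + 3)).1.getD ((σ (d + 3)).1.idxOf d + 1) 0 with hw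
  have hadj : ∀ s, d + 3 ≤ s → Adj (xo σ) (nn s) d w := by
    intro s hs
    induction s, hs using Nat.le_induction with
    | base => exact (hb3 d hdn w hwn).mpr hwi
    | succ s hs ih =>
      rcases EVR_step h (lt_of_lt_of_le hdn (EVR_nn_mono hs)) (lt_of_lt_of_le hwn (EVR_nn_mono hs))
        ih with h1 | h1
      · exact h1
      · exact absurd h1.1 (hcon _)
  obtain ⟨w', hw1, hw2⟩ := hd w (hadj (d + 3) le_rfl).1
  exact (hadj (d + 3 + w') (by omega)).2 w'
    (lt_of_lt_of_le (EVR_lt_nn w') (EVR_nn_mono (by omega))) ⟨hw1, hw2⟩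

/-- EVL. If `c ≠ 0` has no immediate predecessor then finally the left neighbour of `c` is a cut, so
the number of labels `< c` is even. As long as the left neighbour `e` of `c` is not a cut nothing is
inserted between `e` and `c` (`SF.cut`), so once `e` must be a cut; then it stays so: either `e`
stays the left neighbour, or a cell is inserted between, and its last label `nn (s+1) - 1` is the
new left neighbour and a cut (`cnew'`). `below c = below e + 1` and `below e` is even (OCU). -/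
theorem EVL {k : ℕ} {σ : ℕ → St} (h : Run k σ) {c : ℕ} (h0 : c ≠ 0)
    (hc : ∀ w, xo σ w c → ∃ w', xo σ w w' ∧ xo σ w' c) :
    ∃ S, ∀ s ≥ S, below (xo σ) (nn s) c % 2 = 1 := by
  obtain ⟨-, hidx⟩ := ORD h
  obtain ⟨hlo, -⟩ := ORE h
  obtain ⟨-, hcut2, hcut3⟩ := OCU h
  -- once the left neighbour is a cut
  have hex : ∃ s e, c < nn s ∧ e < nn s ∧ e ∈ (σ s).2.1 ∧ Adj (xo σ) (nn s) e c := by
    by_contra hcon
    push Not at hcon
    have h0c : xo σ 0 c := by
      rcases hlo c with h1 | h1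
      · exact absurd h1.symm h0
      · exact h1
    have hcn : c < nn c := EVR_lt_nn c
    have h0n : 0 < nn c := by omega
    obtain ⟨hb1, hb2, hb3, -⟩ := ORB h c
    have hlt : (σ c).1.idxOf 0 < (σ c).1.idxOf c := (hidx c 0 c h0n hcn).mp h0c
    have hlt2 := (hb1 c hcn).2.2.1
    obtain ⟨hen, hei⟩ := hb2 ((σ c).1.idxOf c - 1) (by omega)
    set e := (σ c).1.getD ((σ c).1.idxOf c - 1) 0 with he
    have hadj : ∀ s, c ≤ s → Adj (xo σ) (nn s) e c := by
      intro s hs
      induction s, hs using Nat.le_induction with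
      | base => exact (hb3 e hen c hcn).mpr (by omega)
      | succ s hs ih =>
        rcases EVR_step h (lt_of_lt_of_le hen (EVR_nn_mono hs))
          (lt_of_lt_of_le hcn (EVR_nn_mono hs)) ih with h1 | h1
        · exact h1
        · have hm : nn (s + 1) = 3 * nn s := EVR_nn_succ s
          have hm2 : c < nn s := lt_of_lt_of_le hcn (EVR_nn_mono hs)
          exact absurd h1.2.2 (hcon (s + 1) (nn (s + 1) - 1) (by omega) (by omega) h1.2.1)
    obtain ⟨w', hw1, hw2⟩ := hc e (hadj c le_rfl).1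
    exact (hadj (c + w') (by omega)).2 w'
      (lt_of_lt_of_le (EVR_lt_nn w') (EVR_nn_mono (by omega))) ⟨hw1, hw2⟩
  obtain ⟨S, e0, hcS, he0, hcut, hadj0⟩ := hex
  refine ⟨S, ?_⟩
  have hall : ∀ s, S ≤ s → ∃ e, e < nn s ∧ e ∈ (σ s).2.1 ∧ Adj (xo σ) (nn s) e c := by
    intro s hs
    induction s, hs using Nat.le_induction with
    | base => exact ⟨e0, he0, hcut, hadj0⟩
    | succ s hs ih =>
      obtain ⟨e, he, hec, hadj⟩ := ih
      have hm : nn (s + 1) = 3 * nn s := EVR_nn_succ s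
      rcases EVR_step h he (lt_of_lt_of_le hcS (EVR_nn_mono hs)) hadj with h1 | h1
      · exact ⟨e, by omega, hcut3 s (s + 1) (by omega) e hec, h1⟩
      · exact ⟨nn (s + 1) - 1, by omega, h1.2.1, h1.2.2⟩
  intro s hs
  obtain ⟨e, he, hec, hadj⟩ := hall s hs
  have hcs : c < nn s := lt_of_lt_of_le hcS (EVR_nn_mono hs)
  obtain ⟨hb1, -, hb3, -⟩ := ORB h s
  have h1 := (hb3 e he c hcs).mp hadj
  have h2 := (hb1 c hcs).1
  have h3 := (hb1 e he).1
  have h4 := hcut2 s e hec
  omega

end Pool.Agent.DMN
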