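import Pool.Agent.DMN.Defs
import Pool.Agent.DMN.DefsB
import Pool.Agent.DMN.DefsD
import Pool.Agent.DMN.P_EVR
import Pool.Agent.DMN.P_OCU
import Pool.Agent.DMN.P_ORB
import Pool.Agent.DMN.P_ORD
import Pool.Agent.DMN.P_ORN

set_option autoImplicit false

/-!
# DMN, target EVB: finite maximal blocks are even (MP_55b29c_lc)
-/

namespace Pool.Agent.DMN

lemma EVB_nn_pos (s : ℕ) : 4 ≤ nn s := by
  unfold nn
  have : 1 ≤ 3 ^ s := Nat.one_le_pow _ _ (by norm_num)
  omega

lemma EVB_nn_mono {s s' : ℕ} (h : s ≤ s') : nn s ≤ nn s' := by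
  unfold nn
  have : 3 ^ s ≤ 3 ^ s' := Nat.pow_le_pow_right (by norm_num) h
  omega

lemma EVB_lt_nn (s : ℕ) : s < nn s := by
  unfold nn
  have : s < 3 ^ s := Nat.lt_pow_self (by norm_num)
  omega

lemma EVB_bound {T : Set ℕ} (h : T.Finite) : ∃ s, ∀ w ∈ T, w < nn s := by
  obtain ⟨b, hb⟩ := h.bddAbove
  exact ⟨b, fun w hw => lt_of_le_of_lt (hb hw) (EVB_lt_nn b)⟩

lemma EVB_num {X : ℕ → ℕ → Prop} {c d N : ℕ} (h : ∀ w ∈ Icc' X c d, w < N) :
    num X N c d = (Icc' X c d).ncard := by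
  classical
  have h1 : Icc' X c d =
      (((Finset.range N).filter fun x => (c = x ∨ X c x) ∧ (x = d ∨ X x d) : Finset ℕ) :
        Set ℕ) := by
    ext w
    simp only [Finset.coe_filter, Finset.mem_range, Set.mem_ofPred_eq]
    constructor
    · intro hw
      exact ⟨h w hw, hw⟩
    · intro hw
      exact hw.2
  rw [h1, Set.ncard_coe_finset]
  unfold num
  congr 1

theorem EVB {k : ℕ} {σ : ℕ → St} (h : Run k σ) {c d : ℕ} (hcd : c = d ∨ xo σ c d)
    (hfin : (Icc' (xo σ) c d).Finite)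
    (hc : ∀ w, xo σ w c → ∃ w', xo σ w w' ∧ xo σ w' c)
    (hd : ∀ w, xo σ d w → ∃ w', xo σ d w' ∧ xo σ w' w) :
    (Icc' (xo σ) c d).ncard % 2 = 0 := by
  classical
  obtain ⟨hX, hidx⟩ := ORD h
  obtain ⟨hlo, hhi⟩ := ORE h
  obtain ⟨-, hcut2, hcut3⟩ := OCU h
  obtain ⟨s1, hs1⟩ := EVB_bound hfin
  -- parity of `below c`
  have hC : ∃ S, ∀ s ≥ S, below (xo σ) (nn s) c % 2 = 1 := by
    by_cases h0 : c = 0
    · subst h0
      refine ⟨0, fun s _ => ?_⟩
      have h1 : ((Finset.range (nn s)).filter fun w => w = 0 ∨ xo σ w 0) = {0} := by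
        ext w
        simp only [Finset.mem_filter, Finset.mem_range, Finset.mem_singleton]
        constructor
        · rintro ⟨_, hw | hw⟩
          · exact hw
          · rcases hlo w with h2 | h2
            · exact h2.symm
            · exact absurd (hX.tr _ _ _ h2 hw) (hX.irr _)
        · rintro rfl
          have := EVB_nn_pos s
          exact ⟨by omega, Or.inl rfl⟩
      unfold below
      rw [show ((Finset.range (nn s)).filter fun w => w = 0 ∨ xo σ w 0) = {0} from h1]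
      rfl
    · exact EVL h h0 hc
  -- parity of `below d`
  have hD : ∃ S, ∀ s ≥ S, below (xo σ) (nn s) d % 2 = 0 := by
    by_cases h3 : d = 3
    · subst h3
      refine ⟨0, fun s _ => ?_⟩
      have h1 : ((Finset.range (nn s)).filter fun w => w = 3 ∨ xo σ w 3) =
          Finset.range (nn s) := by
        apply Finset.filter_true_of_mem
        intro w _
        rcases hhi w with h2 | h2
        · exact Or.inl h2.symm
        · exact Or.inr h2
      unfold below
      rw [show ((Finset.range (nn s)).filter fun w => w = 3 ∨ xo σ w 3) =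
        Finset.range (nn s) from h1, Finset.card_range]
      unfold nn
      omega
    · obtain ⟨s0, hs0⟩ := EVR h h3 hd
      exact ⟨s0, fun s hs => hcut2 s d (hcut3 s0 s hs d hs0)⟩
  obtain ⟨S1, hS1⟩ := hC
  obtain ⟨S2, hS2⟩ := hD
  obtain ⟨s, hsdef⟩ : ∃ s, s = max s1 (max S1 S2) := ⟨_, rfl⟩
  have hs1s : s1 ≤ s := by omega
  have hS1s : S1 ≤ s := by omega
  have hS2s : S2 ≤ s := by omega
  have hall : ∀ w ∈ Icc' (xo σ) c d, w < nn s := fun w hw =>
    lt_of_lt_of_le (hs1 w hw) (EVB_nn_mono hs1s)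
  have hcm : c ∈ Icc' (xo σ) c d := ⟨Or.inl rfl, hcd⟩
  have hdm : d ∈ Icc' (xo σ) c d := ⟨by
    rcases hcd with h1 | h1
    · exact Or.inl h1
    · exact Or.inr h1, Or.inl rfl⟩
  have hcn := hall c hcm
  have hdn := hall d hdm
  obtain ⟨hB1, -, -, hB4⟩ := ORB h s
  have hle : (σ s).1.idxOf c ≤ (σ s).1.idxOf d := by
    rcases hcd with h1 | h1
    · rw [h1]
    · exact le_of_lt ((hidx s c d hcn hdn).1 h1)
  have h4 := hB4 c hcn d hdn hle
  have hbc := (hB1 c hcn).1
  have hbd := (hB1 d hdn).1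
  have hpc := hS1 s hS1s
  have hpd := hS2 s hS2s
  rw [← EVB_num hall]
  omega

end Pool.Agent.DMN
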