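import Pool.Agent.DMN.DefsB

/-!
# DMN: proof of the target OPD
-/

set_option autoImplicit false

namespace Pool.Agent.DMN

theorem OPD_code {s : ℕ → ℕ → Bool} (hs : Computable₂ s) :
    ∃ c : Nat.Partrec.Code, ∀ n, c.eval n =
      Part.some (Encodable.encode (s n.unpair.1 n.unpair.2)) := by
  have h0 : Computable fun n : ℕ => s n.unpair.1 n.unpair.2 :=
    hs.comp (Computable.fst.comp Computable.unpair) (Computable.snd.comp Computable.unpair)
  have h1 : Computable fun n : ℕ => Encodable.encode (s n.unpair.1 n.unpair.2) :=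
    Computable.encode.comp h0
  obtain ⟨c, hc⟩ := Nat.Partrec.Code.exists_code.1 (Partrec.nat_iff.1 h1.partrec)
  exact ⟨c, fun n => by rw [hc]; rfl⟩

/-- OPD. Every computable linear order has a number. -/
theorem OPD {s : ℕ → ℕ → Bool} (hs : Computable₂ s) (h1 : ∀ a, s a a = true)
    (h2 : ∀ a b, s a b = true → s b a = true → a = b)
    (h3 : ∀ a b c, s a b = true → s b c = true → s a c = true)
    (h4 : ∀ a b, s a b = true ∨ s b a = true) :
    ∃ k, Real k fun x y => s x y = true ∧ x ≠ y := by
  obtain ⟨c, hc⟩ := OPD_code hs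
  have hc' : ∀ x y, c.eval (Nat.pair x y) = Part.some (Encodable.encode (s x y)) := by
    intro x y
    rw [hc]
    simp
  have hof : Denumerable.ofNat Nat.Partrec.Code (Encodable.encode c) = c :=
    Denumerable.ofNat_encode c
  have hval : ∀ t x y v, opv (Encodable.encode c) t x y = some v →
      v = Encodable.encode (s x y) := by
    intro t x y v h
    unfold opv at h
    rw [hof] at h
    have h' := Nat.Partrec.Code.evaln_sound (Option.mem_def.2 h)
    rw [hc'] at h'
    exact Part.mem_some_iff.1 h'
  have holt : ∀ t x y v, opv (Encodable.encode c) t x y = some v →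
      (olt (Encodable.encode c) t x y ↔ s x y = true ∧ x ≠ y) := by
    intro t x y v h
    have hv := hval t x y v h
    unfold olt
    rw [h, hv]
    cases hb : s x y <;> simp
  have hex : ∀ x y, ∃ t, ∀ t', t ≤ t' →
      opv (Encodable.encode c) t' x y = some (Encodable.encode (s x y)) := by
    intro x y
    have hm : Encodable.encode (s x y) ∈ c.eval (Nat.pair x y) := by
      rw [hc']
      exact Part.mem_some _
    obtain ⟨t, ht⟩ := Nat.Partrec.Code.evaln_complete.1 hm
    refine ⟨t, fun t' htt => ?_⟩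
    unfold opv
    rw [hof]
    exact Option.mem_def.1 (Nat.Partrec.Code.evaln_mono htt ht)
  choose T hT using hex
  refine ⟨Encodable.encode c, ?_, ?_⟩
  · intro M
    have hle : ∀ x < M, ∀ y < M,
        T x y ≤ (Finset.range M ×ˢ Finset.range M).sup fun p => T p.1 p.2 := by
      intro x hx y hy
      exact Finset.le_sup (f := fun p : ℕ × ℕ => T p.1 p.2) (b := (x, y))
        (Finset.mem_product.2 ⟨Finset.mem_range.2 hx, Finset.mem_range.2 hy⟩)
    refine ⟨(Finset.range M ×ˢ Finset.range M).sup fun p => T p.1 p.2, ?_, ?_, ?_, ?_⟩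
    · intro x hx y hy
      rw [hT x y _ (hle x hx y hy)]
      rfl
    · intro x hx y hy
      rw [holt _ x y _ (hT x y _ (hle x hx y hy)), holt _ y x _ (hT y x _ (hle y hy x hx))]
      by_cases hxy : x = y
      · exact Or.inl hxy
      · rcases h4 x y with h | h
        · exact Or.inr (Or.inl ⟨h, hxy⟩)
        · exact Or.inr (Or.inr ⟨h, Ne.symm hxy⟩)
    · intro x hx y hy
      rw [holt _ x y _ (hT x y _ (hle x hx y hy)), holt _ y x _ (hT y x _ (hle y hy x hx))]
      rintro ⟨⟨ha, hn⟩, hb, -⟩
      exact hn (h2 x y ha hb)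
    · intro x hx y hy z hz
      rw [holt _ x y _ (hT x y _ (hle x hx y hy)), holt _ y z _ (hT y z _ (hle y hy z hz)),
        holt _ x z _ (hT x z _ (hle x hx z hz))]
      rintro ⟨ha, hn⟩ ⟨hb, -⟩
      refine ⟨h3 x y z ha hb, ?_⟩
      rintro rfl
      exact hn (h2 x y ha hb)
  · intro t M x y hOk hx hy
    obtain ⟨v, hv⟩ := Option.isSome_iff_exists.1 (hOk.1 x hx y hy)
    exact holt t x y v hv

end Pool.Agent.DMN
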