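import Pool.Agent.DMN.P_CAS

/-!
# DMN: ONB, KEE
-/

set_option autoImplicit false

namespace Pool.Agent.DMN

theorem ONB_down {k : ℕ} {σ : ℕ → St} (h : Run k σ) {i T : ℕ} :
    ∀ n s, T ≤ s → On σ i T (s + n) → On σ i T s := by
  intro n
  induction n with
  | zero => exact fun s _ h => h
  | succ n ih =>
    intro s hs ho
    exact ih s hs (ONA h (by omega) ho)

/-- ONB. (1) Only one frame has time stamp `T` (`Inv.tmono`). (2) A frame which is on the stack at
arbitrarily late stages is on the stack at all stages `≥ T` (ONA downwards from a later stage). -/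
theorem ONB {k : ℕ} {σ : ℕ → St} (h : Run k σ) {i T : ℕ} :
    (∀ j s, On σ i T s → On σ j T s → i = j) ∧
    ((∀ S, ∃ s ≥ S, On σ i T s) → ∀ s ≥ T, On σ i T s) := by
  refine ⟨?_, ?_⟩
  · intro j s hi hj
    rcases lt_trichotomy i j with hij | hij | hij
    · have := (h.inv s).tmono i j hij hj.1
      rw [hi.2, hj.2] at this
      omega
    · exact hij
    · have := (h.inv s).tmono j i hij hi.1
      rw [hi.2, hj.2] at this
      omega
  · intro hS s hs
    obtain ⟨s', hs', ho⟩ := hS s
    obtain ⟨n, rfl⟩ := Nat.exists_eq_add_of_le hs'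
    exact ONB_down h n s hs ho

/-- KEE. A frame which stays and does not attack is unchanged (CAS: if the attacking index is `> i`
use `old`; if it is `< i` then frame `i` of stage `s + 1` can only be the new one with time stamp
`s + 1`, but the time stamp is `T ≤ s` by `Inv.tle`). -/
theorem KEE {k : ℕ} {σ : ℕ → St} (h : Run k σ) {i T s : ℕ} (h1 : On σ i T s)
    (h2 : On σ i T (s + 1)) (h3 : ¬ AttAt k σ i s) : fr (σ (s + 1)) i = fr (σ s) i := by
  have hT : T ≤ s := by
    have := (h.inv s).tle i h1.1
    rw [h1.2] at this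
    exact this
  rcases CAS h s with ⟨w, C', l, f', hr, ha, hf⟩ | ⟨_, _, l, hf⟩
  · rcases lt_trichotomy i (Nat.unpair s).1 with hi | hi | hi
    · exact hf.old i hi
    · exact absurd ⟨hi.symm, w, hr, ha⟩ h3
    · have hlen := hf.len
      have h2' := h2.1
      rw [hlen] at h2'
      have hi' : i = (Nat.unpair s).1 + 1 := by omega
      have h4 := h2.2
      rw [hi', hf.top] at h4
      simp only [ft] at h4
      omega
  · exact hf.old i h1.1

end Pool.Agent.DMN
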