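import Pool.Agent.DMN.Defs
import Pool.Agent.DMN.DefsB
import Pool.Agent.DMN.DefsD
import Pool.Agent.DMN.P_ONB

/-!
# AS2: the frame is unchanged between two attacks (MP_55b29c_lc)
-/

set_option autoImplicit false

namespace Pool.Agent.DMN

theorem AS2 {k : ℕ} {σ : ℕ → St} (h : Run k σ) {i T : ℕ} (D : AS k σ i T) (j s : ℕ)
    (h1 : D.τ j < s) (h2 : s ≤ D.τ (j + 1)) :
    fr (σ s) i = (T, D.l j, nn (D.τ j) - D.l j, D.g j) := by
  have h0 : ∀ j, D.τ 0 ≤ D.τ j := fun j => D.mono.monotone (Nat.zero_le j)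
  obtain ⟨d, rfl⟩ := Nat.exists_eq_add_of_lt h1
  clear h1
  induction d with
  | zero =>
    have hf := (D.af j).frm
    rw [(D.on _ (h0 j)).2] at hf
    exact hf
  | succ d ih =>
    have hle : D.τ j + d + 1 ≤ D.τ (j + 1) := by omega
    have hon : ∀ s, D.τ j ≤ s → On σ i T s := fun s hs => D.on s (le_trans (h0 j) hs)
    have hna : ¬ AttAt k σ i (D.τ j + d + 1) := by
      intro ha
      obtain ⟨j', hj'⟩ := D.all _ (le_trans (h0 j) (by omega)) ha
      have a1 : D.τ j < D.τ j' := by omega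
      have a2 : D.τ j' < D.τ (j + 1) := by omega
      rw [D.mono.lt_iff_lt] at a1 a2
      omega
    have hk := KEE h (hon (D.τ j + d + 1) (by omega))
      (hon (D.τ j + d + 1 + 1) (by omega)) hna
    rw [ih hle] at hk
    exact hk

end Pool.Agent.DMN
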