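import Pool.Agent.DMN.Defs

/-!
# DMN: NUM4, NUM5
-/

set_option autoImplicit false

namespace Pool.Agent.DMN

theorem NUM4_le {A : ℕ → ℕ → Prop} (hA : SLO A) {x y z : ℕ} (h1 : x = y ∨ A x y)
    (h2 : y = z ∨ A y z) : x = z ∨ A x z := by
  rcases h1 with rfl | h1
  · exact h2
  · rcases h2 with rfl | h2
    · exact Or.inr h1
    · exact Or.inr (hA.tr _ _ _ h1 h2)

/-- NUM4. -/
theorem NUM4 {A : ℕ → ℕ → Prop} (hA : SLO A) {m m' a b : ℕ}
    (h : num A m a b ≤ num A m' a b) :
    (∀ x < m, (a = x ∨ A a x) → (x = b ∨ A x b) → x < m') ∧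
    ∀ c d, (a = c ∨ A a c) → (d = b ∨ A d b) → num A m c d ≤ num A m' c d := by
  classical
  have key : ∀ x < m, (a = x ∨ A a x) → (x = b ∨ A x b) → x < m' := by
    intro x hx h1 h2
    rcases le_or_gt m m' with hm | hm
    · omega
    · have hsub : ((Finset.range m').filter fun x => (a = x ∨ A a x) ∧ (x = b ∨ A x b)) ⊆
          ((Finset.range m).filter fun x => (a = x ∨ A a x) ∧ (x = b ∨ A x b)) := by
        intro y hy
        simp only [Finset.mem_filter, Finset.mem_range] at hy ⊢
        exact ⟨by omega, hy.2⟩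
      have heq := Finset.eq_of_subset_of_card_le hsub (by
        unfold num at h
        exact h)
      have hmem : x ∈ ((Finset.range m).filter fun x => (a = x ∨ A a x) ∧ (x = b ∨ A x b)) := by
        simp only [Finset.mem_filter, Finset.mem_range]
        exact ⟨hx, h1, h2⟩
      rw [← heq] at hmem
      simp only [Finset.mem_filter, Finset.mem_range] at hmem
      exact hmem.1
  refine ⟨key, fun c d hc hd => ?_⟩
  unfold num
  apply Finset.card_le_card
  intro x hx
  simp only [Finset.mem_filter, Finset.mem_range] at hx ⊢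
  exact ⟨key x hx.1 (NUM4_le hA hc hx.2.1) (NUM4_le hA hx.2.2 hd), hx.2⟩

/-- NUM5. -/
theorem NUM5 {A : ℕ → ℕ → Prop} (hA : SLO A) (m : ℕ) :
    (∀ a v v' b, (a = v ∨ A a v) → (v' = b ∨ A v' b) → num A m v v' ≤ num A m a b) ∧
    (∀ a v w, A v w → (a = w ∨ A a w) → w < m → num A m a v + 1 ≤ num A m a w) ∧
    ∀ v w b, A v w → (v = b ∨ A v b) → v < m → num A m w b + 1 ≤ num A m v b := by
  classical
  refine ⟨?_, ?_, ?_⟩
  · intro a v v' b h1 h2
    unfold num
    apply Finset.card_le_card
    intro x hx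
    simp only [Finset.mem_filter, Finset.mem_range] at hx ⊢
    exact ⟨hx.1, NUM4_le hA h1 hx.2.1, NUM4_le hA hx.2.2 h2⟩
  · intro a v w hvw haw hw
    unfold num
    rw [← Finset.card_insert_of_notMem (a := w)]
    · apply Finset.card_le_card
      intro x hx
      simp only [Finset.mem_insert, Finset.mem_filter, Finset.mem_range] at hx ⊢
      rcases hx with rfl | hx
      · exact ⟨hw, haw, Or.inl rfl⟩
      · exact ⟨hx.1, hx.2.1, NUM4_le hA hx.2.2 (Or.inr hvw)⟩
    · intro hmem
      simp only [Finset.mem_filter, Finset.mem_range] at hmem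
      rcases hmem.2.2 with rfl | h
      · exact hA.irr _ hvw
      · exact hA.irr _ (hA.tr _ _ _ hvw h)
  · intro v w b hvw hvb hv
    unfold num
    rw [← Finset.card_insert_of_notMem (a := v)]
    · apply Finset.card_le_card
      intro x hx
      simp only [Finset.mem_insert, Finset.mem_filter, Finset.mem_range] at hx ⊢
      rcases hx with rfl | hx
      · exact ⟨hv, Or.inl rfl, hvb⟩
      · exact ⟨hx.1, NUM4_le hA (Or.inr hvw) hx.2.1, hx.2.2⟩
    · intro hmem
      simp only [Finset.mem_filter, Finset.mem_range] at hmem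
      rcases hmem.2.1 with rfl | h
      · exact hA.irr _ hvw
      · exact hA.irr _ (hA.tr _ _ _ hvw h)

end Pool.Agent.DMN
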