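import Pool.Agent.DMN.Defs
import Pool.Agent.DMN.DefsB
import Pool.Agent.DMN.DefsD
import Pool.Agent.DMN.P_NUM4

/-!
# DMN: FIM and FIX1
-/

set_option autoImplicit false

namespace Pool.Agent.DMN

/-- FIM. Monotonicity of `FI`. -/
theorem FIM {A : ℕ → ℕ → Prop} (hA : SLO A) {a b m m' t lp rp : ℕ} {f : List (ℕ × ℕ)}
    (h : FI A a b m t lp rp f) (hm : num A m a b ≤ num A m' a b) :
    FI A a b m' t lp rp f := by
  obtain ⟨h4, h5⟩ := NUM4 hA hm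
  refine ⟨h.mono, h.ends, ?_, ?_, ?_, ?_⟩
  · intro p hp
    obtain ⟨h1, h2, h3⟩ := h.rng1 p hp
    exact ⟨h4 _ h1 h2 h3, h2, h3⟩
  · intro p hp
    obtain ⟨h1, h2, h3⟩ := h.rng2 p hp
    exact ⟨h4 _ h1 h2 h3, h2, h3⟩
  · intro p hp
    obtain ⟨h1, h2, h3⟩ := h.rng2 p hp
    obtain ⟨h6, h7⟩ := h.par p hp
    exact ⟨h6.trans (h5 _ _ (Or.inl rfl) h3), h7.trans (h5 _ _ h2 (Or.inl rfl))⟩
  · intro i j p q hp hq hA1 hN
    obtain ⟨h6, h7⟩ := h.win i j p q hp hq hA1 hN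
    have hp' : p ∈ f := List.mem_of_getElem? hp
    have hq' : q ∈ f := List.mem_of_getElem? hq
    have h8 := h5 p.2 q.2 (h.rng2 p hp').2.1 (h.rng2 q hq').2.2
    exact ⟨h6.trans h8, h7.trans h8⟩

/-- FIX1. Simple consequences of `FI`. -/
theorem FIX1 {A : ℕ → ℕ → Prop} (hA : SLO A) {a b m t lp rp : ℕ} {f : List (ℕ × ℕ)}
    (h : FI A a b m t lp rp f) :
    (∀ p ∈ f, ∀ q ∈ f, p.1 = q.1 → p = q) ∧ (∀ p ∈ f, ∀ q ∈ f, p.2 = q.2 → p = q) ∧
    ∀ x0 x1, (x0, x1) ∈ f → ∀ p ∈ f, (x0 = p.1 ∨ A x0 p.1) → (x1 = p.2 ∨ A x1 p.2) := by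
  have k1 : ∀ p ∈ f, ∀ q ∈ f, p.1 = q.1 → p.2 = q.2 := by
    intro p hp q hq he
    rcases hA.tri p.2 q.2 with h1 | h1 | h1
    · have := (h.mono p hp q hq).2 h1
      rw [he] at this
      exact absurd this (hA.irr _)
    · exact h1
    · have := (h.mono q hq p hp).2 h1
      rw [he] at this
      exact absurd this (hA.irr _)
  have k2 : ∀ p ∈ f, ∀ q ∈ f, p.2 = q.2 → p.1 = q.1 := by
    intro p hp q hq he
    rcases hA.tri p.1 q.1 with h1 | h1 | h1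
    · have := (h.mono p hp q hq).1 h1
      rw [he] at this
      exact absurd this (hA.irr _)
    · exact h1
    · have := (h.mono q hq p hp).1 h1
      rw [he] at this
      exact absurd this (hA.irr _)
  refine ⟨fun p hp q hq he => Prod.ext he (k1 p hp q hq he),
    fun p hp q hq he => Prod.ext (k2 p hp q hq he) he, ?_⟩
  intro x0 x1 h0 p hp hx
  rcases hx with hx | hx
  · exact Or.inl (k1 (x0, x1) h0 p hp hx)
  · exact Or.inr ((h.mono (x0, x1) h0 p hp).1 hx)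

end Pool.Agent.DMN
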