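import Pool.Agent.DMN.Defs
import Pool.Agent.DMN.DefsB
import Pool.Agent.DMN.DefsD

set_option autoImplicit false

namespace Pool.Agent.DMN

theorem NUM1 (A : ℕ → ℕ → Prop) {m m' : ℕ} (h : m ≤ m') (c d : ℕ) :
    num A m c d ≤ num A m' c d := by
  classical
  unfold num
  apply Finset.card_le_card
  intro x hx
  simp only [Finset.mem_filter, Finset.mem_range] at hx ⊢
  exact ⟨lt_of_lt_of_le hx.1 h, hx.2⟩

theorem NUM2' {A : ℕ → ℕ → Prop} (hA : SLO A) {m a v b : ℕ} (hav : a = v ∨ A a v)
    (hvb : v = b ∨ A v b) (hv : v < m) :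
    num A m a v + num A m v b = num A m a b + 1 := by
  classical
  unfold num
  rw [← Finset.card_union_add_card_inter]
  congr 1
  · congr 1
    ext x
    simp only [Finset.mem_union, Finset.mem_filter, Finset.mem_range]
    constructor
    · rintro (⟨h1, h2, h3⟩ | ⟨h1, h2, h3⟩)
      · refine ⟨h1, h2, ?_⟩
        rcases h3 with rfl | h3
        · exact hvb
        · rcases hvb with rfl | h4
          · exact Or.inr h3
          · exact Or.inr (hA.tr _ _ _ h3 h4)
      · refine ⟨h1, ?_, h3⟩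
        rcases h2 with rfl | h2
        · exact hav
        · rcases hav with rfl | h4
          · exact Or.inr h2
          · exact Or.inr (hA.tr _ _ _ h4 h2)
    · rintro ⟨h1, h2, h3⟩
      rcases hA.tri x v with h | h | h
      · exact Or.inl ⟨h1, h2, Or.inr h⟩
      · exact Or.inl ⟨h1, h2, Or.inl h⟩
      · exact Or.inr ⟨h1, Or.inr h, h3⟩
  · rw [Finset.card_eq_one]
    refine ⟨v, ?_⟩
    ext x
    simp only [Finset.mem_inter, Finset.mem_filter, Finset.mem_range, Finset.mem_singleton]
    constructor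
    · rintro ⟨⟨_, _, h3⟩, ⟨_, h5, _⟩⟩
      rcases h3 with h3 | h3
      · exact h3
      · rcases h5 with h5 | h5
        · exact h5.symm
        · exact absurd (hA.tr _ _ _ h3 h5) (hA.irr _)
    · rintro rfl
      exact ⟨⟨hv, hav, Or.inl rfl⟩, ⟨hv, Or.inl rfl, hvb⟩⟩

theorem NUM2 {A : ℕ → ℕ → Prop} (hA : SLO A) {m a v v' b : ℕ} (hav : a = v ∨ A a v)
    (hvv : A v v') (hvb : v' = b ∨ A v' b) (hv : v < m) (hv' : v' < m) :
    num A m a v + num A m v v' + num A m v' b = num A m a b + 2 := by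
  have h1 := NUM2' hA hav (Or.inr hvv) hv
  have h2 : a = v' ∨ A a v' := by
    rcases hav with rfl | h
    · exact Or.inr hvv
    · exact Or.inr (hA.tr _ _ _ h hvv)
  have h3 := NUM2' hA h2 hvb hv'
  omega

end Pool.Agent.DMN
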