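import Pool.Agent.DMN.Defs
import Pool.Agent.DMN.DefsB
import Pool.Agent.DMN.DefsD
import Pool.Agent.DMN.P_NUM1
import Pool.Agent.DMN.P_NUM4

/-!
# DMN target FIN
-/

set_option autoImplicit false

namespace Pool.Agent.DMN

/-- a nonempty closed interval has `c ≤ d` -/
theorem FIN_le {A : ℕ → ℕ → Prop} (hA : SLO A) {m c d : ℕ} (h : 1 ≤ num A m c d) :
    c = d ∨ A c d := by
  classical
  unfold num at h
  obtain ⟨x, hx⟩ := Finset.card_pos.mp (Nat.lt_of_lt_of_le Nat.zero_lt_one h)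
  rw [Finset.mem_filter] at hx
  obtain ⟨-, h1, h2⟩ := hx
  rcases h1 with rfl | h1
  · exact h2
  · rcases h2 with rfl | h2
    · exact Or.inr h1
    · exact Or.inr (hA.tr _ _ _ h1 h2)

theorem FIN {A : ℕ → ℕ → Prop} (hA : SLO A) {a b m t lp rp l r x0 x1 b1 : ℕ}
    (hE : num A m a b = 3 * (l + r)) (hl : 1 ≤ l) (hr : 1 ≤ r) (hlp : lp ≤ l) (hrp : rp ≤ r)
    (ht : t + 4 ≤ 2 * (l + r)) (h0 : x0 < m) (h1 : x1 < m) (hb : b1 < m)
    (e0 : num A m a x0 = l + 1) (e1 : num A m a x1 = l + 2) (eb : num A m b1 b = r + 1) :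
    FI A a b m t lp rp [(x0, x1), (b1, b1)] := by
  have ax0 : a = x0 ∨ A a x0 := FIN_le hA (m := m) (by omega)
  have ax1 : a = x1 ∨ A a x1 := FIN_le hA (m := m) (by omega)
  have b1b : b1 = b ∨ A b1 b := FIN_le hA (m := m) (by omega)
  obtain ⟨-, n2, n3⟩ := NUM5 hA m
  have x01 : A x0 x1 := by
    rcases hA.tri x0 x1 with h | h | h
    · exact h
    · rw [h] at e0
      omega
    · have := n2 a x1 x0 h ax0 h0
      omega
  have x1b : x1 = b ∨ A x1 b := by
    rcases hA.tri x1 b with h | h | h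
    · exact Or.inr h
    · exact Or.inl h
    · have := n2 a b x1 h ax1 h1
      omega
  have x0b : x0 = b ∨ A x0 b := by
    rcases x1b with h | h
    · rw [← h]
      exact Or.inr x01
    · exact Or.inr (hA.tr _ _ _ x01 h)
  have ab1 : a = b1 ∨ A a b1 := by
    rcases hA.tri a b1 with h | h | h
    · exact Or.inr h
    · exact Or.inl h
    · have := n3 b1 a b h b1b hb
      omega
  have q1 := NUM2' hA ax1 x1b h1
  have q2 := NUM2' hA ab1 b1b hb
  have x1b1 : A x1 b1 := by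
    rcases hA.tri x1 b1 with h | h | h
    · exact h
    · rw [← h] at eb
      omega
    · have := n3 b1 x1 b h b1b hb
      omega
  have q3 := NUM2 hA ax1 x1b1 b1b h1 hb
  have x0b1 : A x0 b1 := hA.tr _ _ _ x01 x1b1
  have as : ∀ x y, A x y → ¬ A y x := fun x y h h' => hA.irr x (hA.tr _ _ _ h h')
  have mem : ∀ p ∈ [(x0, x1), (b1, b1)], p = (x0, x1) ∨ p = (b1, b1) := by
    intro p hp
    simpa using hp
  refine ⟨?_, ⟨x0, x1, b1, by simp, by simp, x01, x1b1, ?_⟩, ?_, ?_, ?_, ?_⟩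
  · intro p hp q hq
    rcases mem p hp with rfl | rfl <;> rcases mem q hq with rfl | rfl
    · exact ⟨fun h => absurd h (hA.irr _), fun h => absurd h (hA.irr _)⟩
    · exact ⟨fun _ => x1b1, fun _ => x0b1⟩
    · exact ⟨fun h => absurd h (as _ _ x0b1), fun h => absurd h (as _ _ x1b1)⟩
    · exact Iff.rfl
  · intro p hp
    rcases mem p hp with rfl | rfl
    · exact ⟨Or.inl rfl, Or.inr x0b1⟩
    · exact ⟨Or.inr x0b1, Or.inl rfl⟩
  · intro p hp
    rcases mem p hp with rfl | rfl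
    · exact ⟨h0, ax0, x0b⟩
    · exact ⟨hb, ab1, b1b⟩
  · intro p hp
    rcases mem p hp with rfl | rfl
    · exact ⟨h1, ax1, x1b⟩
    · exact ⟨hb, ab1, b1b⟩
  · intro p hp
    rcases mem p hp with rfl | rfl
    · dsimp only
      constructor <;> omega
    · dsimp only
      constructor <;> omega
  · intro i j p q hi hj hpq _
    have key : ∀ (k : ℕ) (s : ℕ × ℕ), [(x0, x1), (b1, b1)][k]? = some s →
        (k = 0 ∧ s = (x0, x1)) ∨ (k = 1 ∧ s = (b1, b1)) := by
      intro k s hk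
      match k, hk with
      | 0, hk => left; exact ⟨rfl, by simpa using hk.symm⟩
      | 1, hk => right; exact ⟨rfl, by simpa using hk.symm⟩
      | k + 2, hk => simp at hk
    rcases key i p hi with ⟨rfl, rfl⟩ | ⟨rfl, rfl⟩ <;>
      rcases key j q hj with ⟨rfl, rfl⟩ | ⟨rfl, rfl⟩
    · exact absurd hpq (hA.irr _)
    · dsimp only
      constructor <;> omega
    · exact absurd hpq (as _ _ x0b1)
    · exact absurd hpq (hA.irr _)

end Pool.Agent.DMN
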