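import Pool.Agent.DMN.DefsB

/-!
# DMN, target TRD

`Dat` depends only on the order of the labels `< wM w`.
-/

set_option autoImplicit false

namespace Pool.Agent.DMN

/-- `num` depends only on the order of the labels below `M`. -/
theorem TRD_num {A A' : ℕ → ℕ → Prop} {M m c d : ℕ}
    (h : ∀ x < M, ∀ y < M, (A x y ↔ A' x y)) (hm : m ≤ M) (hc : c < M) (hd : d < M) :
    num A' m c d = num A m c d := by
  classical
  unfold num
  congr 1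
  apply Finset.filter_congr
  intro x hx
  have hxM : x < M := lt_of_lt_of_le (Finset.mem_range.1 hx) hm
  rw [h c hc x hxM, h x hxM d hd]

theorem TRD_num_le {A : ℕ → ℕ → Prop} {m c d : ℕ} : num A m c d ≤ m := by
  classical
  unfold num
  calc _ ≤ (Finset.range m).card := Finset.card_filter_le _ _
    _ = m := Finset.card_range m

/-- One clause of the evidence. -/
theorem TRD_left {A A' : ℕ → ℕ → Prop} {M x p : ℕ}
    (h : ∀ x < M, ∀ y < M, (A x y ↔ A' x y)) (hx : x < M) (hp : p < M)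
    (h1 : A x p → ∃ w < M, A x w ∧ A w p) : A' x p → ∃ w < M, A' x w ∧ A' w p := by
  intro hA
  obtain ⟨w, hw, h2, h3⟩ := h1 ((h x hx p hp).2 hA)
  exact ⟨w, hw, (h x hx w hw).1 h2, (h w hw p hp).1 h3⟩

theorem TRD {A A' : ℕ → ℕ → Prop} {k : ℕ} {c : Cd} {a a' : Fr} {w : Wi}
    (h : ∀ x < wM w, ∀ y < wM w, (A x y ↔ A' x y)) (hd : Dat A k c a a' w) :
    Dat A' k c a a' w := by
  obtain ⟨⟨hmM, hEv, hE⟩, h2, h3, ⟨hz, hz', hzu, huz, hu, hnb, hleast⟩,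
    hvv, hP, hQ, hN, hsum⟩ := hd
  obtain ⟨⟨c1, c2, c3, c4, c5, c6⟩, ⟨o1, o2, o3, o4, o5⟩, ⟨n1, n2⟩, hx⟩ := hEv
  have hEM : 3 * (fl a + fR a) ≤ wM w := by
    rw [← hE]
    exact le_trans TRD_num_le hmM
  have num' : ∀ {x y : ℕ}, x < wM w → y < wM w → num A' (wm w) x y = num A (wm w) x y :=
    fun hx' hy' => TRD_num h hmM hx' hy'
  have up : ∀ {x : ℕ}, x < wm w → x < wM w := fun hx' => lt_of_lt_of_le hx' hmM
  have zm := up (h3 _ hz).1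
  have vm := up (h3 _ hz).2
  have zm' := up (h3 _ hz').1
  have vm' := up (h3 _ hz').2
  refine ⟨⟨hmM, ⟨⟨c1, c2, c3, c4, c5, c6⟩, ⟨?_, ?_, ?_, ?_, ?_⟩, ⟨?_, ?_⟩, ?_⟩, ?_⟩, ?_, h3,
    ⟨hz, hz', ?_, ?_, hu, ?_, ?_⟩, ?_, ?_, ?_, ?_, ?_⟩
  · exact o1.imp id (h _ c1 _ c2).1
  · exact (h _ c2 _ c3).1 o2
  · exact (h _ c3 _ c4).1 o3
  · exact (h _ c4 _ c5).1 o4
  · exact o5.imp id (h _ c5 _ c6).1
  · rw [TRD_num h le_rfl c1 c2]; exact n1
  · rw [TRD_num h le_rfl c5 c6]; exact n2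
  · intro x hxE
    have hxM : x < wM w := lt_of_lt_of_le hxE hEM
    obtain ⟨e1, e2, e3, e4, e5, e6⟩ := hx x hxE
    have right : ∀ {p : ℕ}, p < wM w → (A p x → ∃ w' < wM w, A p w' ∧ A w' x) →
        A' p x → ∃ w' < wM w, A' p w' ∧ A' w' x := fun hp h1 => TRD_left h hp hxM h1
    exact ⟨TRD_left h hxM c1 e1, right c2 e2, TRD_left h hxM c5 e3, right c6 e4,
      TRD_left h hxM c3 e5, right c4 e6⟩
  · rw [num' c3 c4]; exact hE
  · intro hf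
    obtain ⟨g1, g2, g3, g4, g5, g6⟩ := h2 hf
    refine ⟨g1, g2, g3, ?_, ?_, ?_⟩
    · rw [num' c3 (up g1)]; exact g4
    · rw [num' c3 (up g2)]; exact g5
    · rw [num' (up g3) c4]; exact g6
  · exact (h _ zm _ (up hu)).1 hzu
  · exact (h _ (up hu) _ zm').1 huz
  · intro p hp hp2
    have hpm := up (h3 p hp).1
    exact hnb p hp ⟨(h _ zm _ hpm).2 hp2.1, (h _ hpm _ zm').2 hp2.2⟩
  · intro x hxu hW
    have hxM : x < wM w := lt_trans hxu (up hu)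
    apply hleast x hxu
    obtain ⟨w1, ⟨p, hp, hpx⟩, ⟨q, hq, hxq⟩⟩ := hW
    exact ⟨w1, ⟨p, hp, (h _ (up (h3 p hp).1) _ hxM).2 hpx⟩,
      ⟨q, hq, (h _ hxM _ (up (h3 q hq).1)).2 hxq⟩⟩
  · exact (h _ vm _ vm').1 hvv
  · rw [num' c3 vm]; exact hP
  · rw [num' vm' c4]; exact hQ
  · rw [num' vm vm']; exact hN
  · rw [num' c3 vm, num' vm vm', num' vm' c4, num' c3 c4]; exact hsum

end Pool.Agent.DMN
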