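import Pool.Agent.DMN.Defs
import Pool.Agent.DMN.DefsB
import Pool.Agent.DMN.DefsD
import Pool.Agent.DMN.P_FIM
import Pool.Agent.DMN.P_FIN
import Pool.Agent.DMN.P_TRD

/-!
# DMN: DTA and FIZ
-/

set_option autoImplicit false

namespace Pool.Agent.DMN

/-- DTA. The data of an attack with respect to the total order: `TRD` with `Real`. -/
theorem DTA {k s : ℕ} {A : ℕ → ℕ → Prop} (hR : Real k A) {c : Cd} {a a' : Fr} {w : Wi}
    (ho : Ok k s (wM w)) : Dat (olt k s) k c a a' w ↔ Dat A k c a a' w :=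
  ⟨fun h => TRD (fun x hx y hy => hR.2 s (wM w) x y ho hx hy) h,
    fun h => TRD (fun x hx y hy => (hR.2 s (wM w) x y ho hx hy).symm) h⟩

theorem FIZ_pow (t : ℕ) : t + 1 ≤ 3 ^ t := by
  induction t with
  | zero => simp
  | succ t ih => rw [pow_succ]; omega

/-- FIZ. The list `f0` satisfies `FI` at the attack. If `ff a = []` use FIN with
`lp = fl a'`, `rp = fR a'`, `l = fl a`, `r = fR a`: `fl a + fR a = nn (ft a - 1) = 4 * 3^(ft a - 1)`,
so `ft a + 4 ≤ 2 (fl a + fR a)`. Otherwise FIM with `num A m1 a b ≤ 3 (fl a + fR a) =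
num A (wm w) a b`. -/
theorem FIZ {k : ℕ} {A : ℕ → ℕ → Prop} (hA : SLO A) {c : Cd} {a a' : Fr} {w : Wi}
    (hf : FrInv A c a a') (hd : Dat A k c a a' w) (h1 : fl a' ≤ fl a) (h2 : fR a' ≤ fR a)
    (h3 : 1 ≤ fl a') (h4 : 1 ≤ fR a') :
    FI A (ca c) (cb c) (wm w) (ft a) (fl a') (fR a') (f0 a w) := by
  obtain ⟨⟨_, _, hE⟩, hnil, _⟩ := hd
  rcases hf with ⟨e, ht, hn⟩ | ⟨e, m, hm, hFI⟩
  · obtain ⟨g1, g2, g3, g4, g5, g6⟩ := hnil e
    unfold f0
    rw [if_pos e]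
    refine FIN hA hE (by omega) (by omega) h1 h2 ?_ g1 g2 g3 g4 g5 g6
    have := FIZ_pow (ft a - 1)
    unfold nn at hn
    omega
  · unfold f0
    rw [if_neg e]
    exact FIM hA hFI (by omega)

end Pool.Agent.DMN
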