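import Pool.Agent.DMN.Defs
import Pool.Agent.DMN.DefsB
import Pool.Agent.DMN.DefsD
import Pool.Agent.DMN.P_FAT
import Pool.Agent.DMN.P_FPS

/-!
# DMN: CAS, ONA
-/

set_option autoImplicit false

namespace Pool.Agent.DMN

/-- CAS. Every stage is an attack of frame `(Nat.unpair s).1` or has no attack: `Run.step`, FAT,
FPS. -/
theorem CAS {k : ℕ} {σ : ℕ → St} (h : Run k σ) (s : ℕ) :
    (∃ w C' l f', Req k s (σ s) w ∧ Att k s (σ s) w (σ (s + 1)) ∧
      AF k σ (Nat.unpair s).1 s w C' l f') ∨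
    ((∀ c < s, ¬ Req k s (σ s) (wi c)) ∧ Psh s (σ s) (σ (s + 1)) ∧ ∃ l, PF σ s l) := by
  rcases h.step s with ⟨c, _, h1, h2⟩ | ⟨h1, h2⟩
  · obtain ⟨C', l, f', hf⟩ := FAT (h.inv s) h1 h2
    exact Or.inl ⟨wi c, C', l, f', h1, h2, hf⟩
  · exact Or.inr ⟨h1, h2, FPS (h.inv s) h2⟩

/-- ONA. Frames with time stamp `T ≤ s` at stage `s + 1` were there at stage `s`: in CAS the
frames of stage `s + 1` are old frames (also the attacking frame keeps its time stamp), except the
last one, which has time stamp `s + 1`. -/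
theorem ONA {k : ℕ} {σ : ℕ → St} (h : Run k σ) {i T s : ℕ} (hT : T ≤ s)
    (ho : On σ i T (s + 1)) : On σ i T s := by
  obtain ⟨h1, h2⟩ := ho
  rcases CAS h s with ⟨w, C', l, f', _, _, hf⟩ | ⟨_, _, l, hf⟩
  · have hlen := hf.len
    rw [hlen] at h1
    have hne : i ≠ (Nat.unpair s).1 + 1 := by
      rintro rfl
      rw [hf.top] at h2
      simp only [ft] at h2
      omega
    rcases Nat.lt_or_ge i (Nat.unpair s).1 with hi | hi
    · refine ⟨lt_trans hi hf.i2, ?_⟩
      rw [hf.old i hi] at h2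
      exact h2
    · have hi' : i = (Nat.unpair s).1 := by omega
      subst hi'
      refine ⟨hf.i2, ?_⟩
      rw [hf.frm] at h2
      exact h2
  · have hlen := hf.len
    rw [hlen] at h1
    have hne : i ≠ (σ s).2.2.length := by
      rintro rfl
      rw [hf.top] at h2
      simp only [ft] at h2
      omega
    have hi : i < (σ s).2.2.length := by omega
    refine ⟨hi, ?_⟩
    rw [hf.old i hi] at h2
    exact h2

end Pool.Agent.DMN
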