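import Pool.Agent.DMN.Defs
import Pool.Agent.DMN.DefsB
import Pool.Agent.DMN.DefsD
import Pool.Agent.DMN.P_NUM4

/-! # Target FIS -/

set_option autoImplicit false

namespace Pool.Agent.DMN

theorem FIS_get {f : List (ℕ × ℕ)} {x p : ℕ × ℕ} {i : ℕ} (h : (f ++ [x])[i]? = some p) :
    (i < f.length ∧ f[i]? = some p) ∨ (i = f.length ∧ p = x) := by
  by_cases hi : i < f.length
  · left
    rw [List.getElem?_append_left hi] at h
    exact ⟨hi, h⟩
  · right
    rw [List.getElem?_append_right (by omega)] at h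
    have hlt := (List.getElem?_eq_some_iff.1 h).1
    simp only [List.length_cons, List.length_nil] at hlt
    have h0 : i = f.length := by omega
    subst h0
    simp at h
    exact ⟨rfl, h.symm⟩

theorem FIS {A : ℕ → ℕ → Prop} (hA : SLO A) {a b m t lp rp : ℕ} {f : List (ℕ × ℕ)}
    (h : FI A a b m t lp rp f) {u z v z' v' y : ℕ} (hz : (z, v) ∈ f) (hz' : (z', v') ∈ f)
    (hzu : A z u) (huz : A u z') (nb : ∀ p ∈ f, ¬ (A z p.1 ∧ A p.1 z')) (hu : u < m)
    (hy : y < m) (hg : Good A m (t + f.length) v v' y) :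
    FI A a b m t lp rp (f ++ [(u, y)]) := by
  obtain ⟨hvy, hyv, hg1, hg2⟩ := hg
  have asym : ∀ p q, A p q → ¬ A q p := fun p q h1 h2 => hA.irr _ (hA.tr _ _ _ h1 h2)
  have le_lt : ∀ p q r, (p = q ∨ A p q) → A q r → A p r := by
    rintro p q r (rfl | h1) h2
    · exact h2
    · exact hA.tr _ _ _ h1 h2
  have lt_le : ∀ p q r, A p q → (q = r ∨ A q r) → A p r := by
    rintro p q r h1 (rfl | h2)
    · exact h1
    · exact hA.tr _ _ _ h1 h2
  have inj1 : ∀ p ∈ f, ∀ q ∈ f, p.1 = q.1 → p = q := by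
    intro p hp q hq he
    have n1 : ¬ A p.2 q.2 := by
      rw [← h.mono p hp q hq, he]
      exact hA.irr _
    have n2 : ¬ A q.2 p.2 := by
      rw [← h.mono q hq p hp, he]
      exact hA.irr _
    rcases hA.tri p.2 q.2 with h1 | h1 | h1
    · exact absurd h1 n1
    · exact Prod.ext he h1
    · exact absurd h1 n2
  -- left or right
  have lr : ∀ p ∈ f, ((p.1 = z ∨ A p.1 z) ∧ A p.1 u ∧ A p.2 y) ∨
      ((z' = p.1 ∨ A z' p.1) ∧ A u p.1 ∧ A y p.2) := by
    intro p hp
    have left : (p.1 = z ∨ A p.1 z) → A p.1 u ∧ A p.2 y := by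
      intro h1
      refine ⟨le_lt _ _ _ h1 hzu, ?_⟩
      rcases h1 with h1 | h1
      · have := inj1 p hp _ hz h1
        rw [this]
        exact hvy
      · have := (h.mono p hp _ hz).1 h1
        exact hA.tr _ _ _ this hvy
    have right : (z' = p.1 ∨ A z' p.1) → A u p.1 ∧ A y p.2 := by
      intro h1
      refine ⟨lt_le _ _ _ huz h1, ?_⟩
      rcases h1 with h1 | h1
      · have := inj1 p hp _ hz' h1.symm
        rw [this]
        exact hyv
      · have := (h.mono _ hz' p hp).1 h1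
        exact hA.tr _ _ _ hyv this
    rcases hA.tri p.1 z with h1 | h1 | h1
    · exact Or.inl ⟨Or.inr h1, left (Or.inr h1)⟩
    · exact Or.inl ⟨Or.inl h1, left (Or.inl h1)⟩
    · rcases hA.tri p.1 z' with h2 | h2 | h2
      · exact absurd ⟨h1, h2⟩ (nb p hp)
      · exact Or.inr ⟨Or.inl h2.symm, right (Or.inl h2.symm)⟩
      · exact Or.inr ⟨Or.inr h2, right (Or.inr h2)⟩
  have hmem : ∀ p, p ∈ f ++ [(u, y)] ↔ p ∈ f ∨ p = (u, y) := by
    intro p
    simp
  have num5 := (NUM5 hA m).1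
  refine ⟨?_, ?_, ?_, ?_, ?_, ?_⟩
  · -- mono
    intro p hp q hq
    rw [hmem] at hp hq
    rcases hp with hp | rfl
    · rcases hq with hq | rfl
      · exact h.mono p hp q hq
      · rcases lr p hp with ⟨-, h1, h2⟩ | ⟨-, h1, h2⟩
        · exact ⟨fun _ => h2, fun _ => h1⟩
        · exact ⟨fun h3 => absurd h3 (asym _ _ h1), fun h3 => absurd h3 (asym _ _ h2)⟩
    · rcases hq with hq | rfl
      · rcases lr q hq with ⟨-, h1, h2⟩ | ⟨-, h1, h2⟩
        · exact ⟨fun h3 => absurd h3 (asym _ _ h1), fun h3 => absurd h3 (asym _ _ h2)⟩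
        · exact ⟨fun _ => h2, fun _ => h1⟩
      · exact ⟨fun h3 => absurd h3 (hA.irr _), fun h3 => absurd h3 (hA.irr _)⟩
  · -- ends
    obtain ⟨x0, x1, b1, e1, e2, e3, e4, e5⟩ := h.ends
    refine ⟨x0, x1, b1, (hmem _).2 (Or.inl e1), (hmem _).2 (Or.inl e2), e3, e4, ?_⟩
    intro p hp
    rw [hmem] at hp
    rcases hp with hp | rfl
    · exact e5 p hp
    · exact ⟨Or.inr (le_lt _ _ _ (e5 _ hz).1 hzu), Or.inr (lt_le _ _ _ huz (e5 _ hz').2)⟩
  · -- rng1
    intro p hp
    rw [hmem] at hp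
    rcases hp with hp | rfl
    · exact h.rng1 p hp
    · exact ⟨hu, Or.inr (le_lt _ _ _ (h.rng1 _ hz).2.1 hzu),
        Or.inr (lt_le _ _ _ huz (h.rng1 _ hz').2.2)⟩
  · -- rng2
    intro p hp
    rw [hmem] at hp
    rcases hp with hp | rfl
    · exact h.rng2 p hp
    · exact ⟨hy, Or.inr (le_lt _ _ _ (h.rng2 _ hz).2.1 hvy),
        Or.inr (lt_le _ _ _ hyv (h.rng2 _ hz').2.2)⟩
  · -- par
    intro p hp
    rw [hmem] at hp
    rcases hp with hp | rfl
    · exact h.par p hp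
    · exact ⟨(h.par _ hz).1.trans (num5 a a v y (Or.inl rfl) (Or.inr hvy)),
        (h.par _ hz').2.trans (num5 y v' b b (Or.inr hyv) (Or.inl rfl))⟩
  · -- win
    intro i j p q hi hj hpq hno
    rcases FIS_get hi with ⟨hi1, hi2⟩ | ⟨hi1, rfl⟩
    · rcases FIS_get hj with ⟨hj1, hj2⟩ | ⟨hj1, rfl⟩
      · exact h.win i j p q hi2 hj2 hpq fun w hw => hno w ((hmem _).2 (Or.inl hw))
      · have hp : p ∈ f := List.mem_of_getElem? hi2
        rcases lr p hp with ⟨h0, h1, h2⟩ | ⟨-, h1, h2⟩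
        · rcases h0 with h0 | h0
          · have e := inj1 p hp _ hz h0
            rw [e]
            show t + 2 + i ≤ num A m v y ∧ t + 2 + j ≤ num A m v y
            omega
          · exact absurd ⟨h0, hzu⟩ (hno _ ((hmem _).2 (Or.inl hz)))
        · exact absurd hpq (asym _ _ h1)
    · rcases FIS_get hj with ⟨hj1, hj2⟩ | ⟨hj1, rfl⟩
      · have hq : q ∈ f := List.mem_of_getElem? hj2
        rcases lr q hq with ⟨-, h1, h2⟩ | ⟨h0, h1, h2⟩
        · exact absurd hpq (asym _ _ h1)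
        · rcases h0 with h0 | h0
          · have e := inj1 q hq _ hz' h0.symm
            rw [e]
            show t + 2 + i ≤ num A m y v' ∧ t + 2 + j ≤ num A m y v'
            omega
          · exact absurd ⟨huz, h0⟩ (hno _ ((hmem _).2 (Or.inl hz')))
      · exact absurd hpq (hA.irr _)

end Pool.Agent.DMN
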