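import Pool.Agent.DMN.Defs
import Pool.Agent.DMN.DefsB
import Pool.Agent.DMN.DefsD
import Pool.Agent.DMN.P_CAS
import Pool.Agent.DMN.P_DTA
import Pool.Agent.DMN.P_FIS

/-!
# FRI: all frames of a run satisfy the frame invariant (MP_55b29c_lc)
-/

set_option autoImplicit false

namespace Pool.Agent.DMN

theorem FRI_num {A B : ℕ → ℕ → Prop} {M m x y : ℕ}
    (h : ∀ a < M, ∀ b < M, (A a b ↔ B a b)) (hm : m ≤ M) (hx : x < M) (hy : y < M) :
    num A m x y = num B m x y := by
  unfold num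
  congr 1
  ext z
  simp only [Finset.mem_filter, Finset.mem_range]
  refine and_congr_right fun hz => ?_
  have hz' : z < M := lt_of_lt_of_le hz hm
  rw [h x hx z hz', h z hz' y hy]

theorem FRI_good {A B : ℕ → ℕ → Prop} {M m g v v' y : ℕ}
    (h : ∀ a < M, ∀ b < M, (A a b ↔ B a b)) (hm : m ≤ M) (hv : v < M) (hv' : v' < M)
    (hy : y < M) (hg : Good A m g v v' y) : Good B m g v v' y := by
  unfold Good at hg ⊢
  rw [← h v hv y hy, ← h y hy v' hv', ← FRI_num h hm hv hy, ← FRI_num h hm hy hv']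
  exact hg

/-- the attacking frame -/
theorem FRI_att {k : ℕ} {σ : ℕ → St} (h : Run k σ) {A : ℕ → ℕ → Prop} (hA : SLO A)
    (hR : Real k A) {s i : ℕ} {w : Wi} {C' : List ℕ} {l : ℕ} {f' : List (ℕ × ℕ)}
    (hf : AF k σ i s w C' l f')
    (ih : FrInv A (cd i) (fr (σ s) i) (fr (σ s) (i - 1))) :
    FrInv A (cd i) (fr (σ (s + 1)) i) (fr (σ (s + 1)) (i - 1)) := by
  have i1 := hf.i1
  have i2 := hf.i2
  have hiff : ∀ a < wM w, ∀ b < wM w, (olt k s a b ↔ A a b) :=
    fun a ha b hb => hR.2 _ _ a b hf.ok ha hb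
  have hdat := (DTA hR hf.ok).1 hf.dat
  have hI := h.inv s
  have hm : wm w ≤ wM w := hdat.1.1
  have hfl := hI.lmono (i - 1) i (Nat.sub_le i 1) i2
  have hfl0 := hI.lmono 0 (i - 1) (Nat.zero_le _) (lt_of_le_of_lt (Nat.sub_le i 1) i2)
  rw [hI.root] at hfl0
  have h3 : 1 ≤ fl (fr (σ s) (i - 1)) := le_trans (by norm_num [fl]) hfl0.1
  have h4 : 1 ≤ fR (fr (σ s) (i - 1)) := le_trans (by norm_num [fR]) hfl0.2
  have hFI := FIZ hA ih hdat hfl.1 hfl.2 h3 h4
  have hE := hdat.1.2.2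
  have hsum := hI.sum' i i2 i1
  have hlo := hf.sf.lo
  have hhi := hf.sf.hi
  obtain ⟨hz, hz', hzu, huz, hu, nb, -⟩ := hdat.2.2.2.1
  have hv : wv w < wM w := lt_of_lt_of_le (hdat.2.2.1 _ hz).2 hm
  have hv' : wv' w < wM w := lt_of_lt_of_le (hdat.2.2.1 _ hz').2 hm
  have hne : f0 (fr (σ s) i) w ≠ [] := by
    intro he
    rw [he] at hz
    simp at hz
  rw [hf.frm, hf.old (i - 1) (by omega)]
  refine Or.inr ⟨?_, wm w, ?_, ?_⟩
  · change f' ≠ []
    rcases hf.newf with ⟨y, -, -, he⟩ | ⟨-, he⟩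
    · rw [he]
      simp
    · rw [he]
      exact hne
  · change num A (wm w) (ca (cd i)) (cb (cd i)) ≤ 3 * (l + (nn s - l))
    rw [hE]
    omega
  · change FI A (ca (cd i)) (cb (cd i)) (wm w) (ft (fr (σ s) i)) (fl (fr (σ s) (i - 1)))
      (fR (fr (σ s) (i - 1))) f'
    rcases hf.newf with ⟨y, hy, hg, he⟩ | ⟨-, he⟩
    · rw [he]
      exact FIS hA hFI hz hz' hzu huz nb hu hy
        (FRI_good hiff hm hv hv' (lt_of_lt_of_le hy hm) hg)
    · rw [he]
      exact hFI

/-- FRI. All frames satisfy `FrInv`, induction on `s` with CAS. -/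
theorem FRI {k : ℕ} {σ : ℕ → St} (h : Run k σ) {A : ℕ → ℕ → Prop} (hA : SLO A)
    (hR : Real k A) (s i : ℕ) (h1 : 1 ≤ i) (hi : i < (σ s).2.2.length) :
    FrInv A (cd i) (fr (σ s) i) (fr (σ s) (i - 1)) := by
  induction s generalizing i with
  | zero =>
    rw [h.zero] at hi
    simp only [init, List.length_cons, List.length_nil] at hi
    omega
  | succ s ih =>
    have hnew : ∀ l, 2 ≤ l → l + 2 ≤ nn s → ∀ a' : Fr,
        FrInv A (cd i) (s + 1, l, nn s - l, []) a' := by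
      intro l hlo hhi a'
      refine Or.inl ⟨rfl, ?_, ?_⟩
      · change 1 ≤ s + 1
        omega
      · change l + (nn s - l) = nn (s + 1 - 1)
        rw [Nat.add_sub_cancel]
        omega
    rcases CAS h s with ⟨w, C', l, f', -, -, hf⟩ | ⟨-, -, l, hf⟩
    · have i1 := hf.i1
      have i2 := hf.i2
      rw [hf.len] at hi
      rcases Nat.lt_trichotomy i (Nat.unpair s).1 with hlt | heq | hgt
      · rw [hf.old i hlt, hf.old (i - 1) (by omega)]
        exact ih i h1 (lt_trans hlt i2)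
      · subst heq
        exact FRI_att h hA hR hf (ih _ i1 i2)
      · have he : i = (Nat.unpair s).1 + 1 := by omega
        subst he
        rw [hf.top]
        exact hnew l hf.sf.lo hf.sf.hi _
    · rw [hf.len] at hi
      rcases Nat.lt_or_ge i (σ s).2.2.length with hlt | hge
      · rw [hf.old i hlt, hf.old (i - 1) (by omega)]
        exact ih i h1 hlt
      · have he : i = (σ s).2.2.length := by omega
        subst he
        rw [hf.top]
        exact hnew l hf.sf.lo hf.sf.hi _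

end Pool.Agent.DMN
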