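import Pool.Agent.DMN.Defs
import Pool.Agent.DMN.DefsB
import Pool.Agent.DMN.DefsD
import Pool.Agent.DMN.P_AS2
import Pool.Agent.DMN.P_DTA
import Pool.Agent.DMN.P_FRI

/-!
# AS5: the opponent's side of an attack in terms of the total order (MP_55b29c_lc)
-/

set_option autoImplicit false

namespace Pool.Agent.DMN

theorem AS5_num {A B : ℕ → ℕ → Prop} {M m x y : ℕ}
    (h : ∀ a < M, ∀ b < M, (A a b ↔ B a b)) (hm : m ≤ M) (hx : x < M) (hy : y < M) :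
    num A m x y = num B m x y := by
  unfold num
  congr 1
  ext z
  simp only [Finset.mem_filter, Finset.mem_range]
  refine and_congr_right fun hz => ?_
  have hz' : z < M := lt_of_lt_of_le hz hm
  rw [h x hx z hz', h z hz' y hy]

theorem AS5_good {A B : ℕ → ℕ → Prop} {M m g v v' y : ℕ}
    (h : ∀ a < M, ∀ b < M, (A a b ↔ B a b)) (hm : m ≤ M) (hv : v < M) (hv' : v' < M)
    (hy : y < M) : Good A m g v v' y ↔ Good B m g v v' y := by
  unfold Good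
  rw [h v hv y hy, h y hy v' hv', AS5_num h hm hv hy, AS5_num h hm hy hv']

theorem AS5_newf {A B : ℕ → ℕ → Prop} {M m g u v v' : ℕ} {f f' : List (ℕ × ℕ)}
    (h : ∀ a < M, ∀ b < M, (A a b ↔ B a b)) (hm : m ≤ M) (hv : v < M) (hv' : v' < M)
    (hn : NewF A m g u v v' f f') : NewF B m g u v v' f f' := by
  rcases hn with ⟨y, hy, hg, he⟩ | ⟨hg, he⟩
  · exact Or.inl ⟨y, hy, (AS5_good h hm hv hv' (lt_of_lt_of_le hy hm)).1 hg, he⟩
  · exact Or.inr ⟨fun y hy hy' =>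
      hg y hy ((AS5_good h hm hv hv' (lt_of_lt_of_le hy hm)).2 hy'), he⟩

theorem AS5 {k : ℕ} {σ : ℕ → St} (h : Run k σ) {A : ℕ → ℕ → Prop} (hA : SLO A)
    (hR : Real k A) {i T : ℕ} (D : AS k σ i T) (j : ℕ) :
    Dat A k (cd i) (fr (σ (D.τ j)) i) (fr (σ (D.τ j)) (i - 1)) (D.ws j) ∧
    (num A (wm (D.ws j)) (ca (cd i)) (cb (cd i)) ≤ nn (D.τ j) ∧
      num A (wm (D.ws (j + 1))) (ca (cd i)) (cb (cd i)) = 3 * nn (D.τ j)) ∧
    (∃ lp rp, FI A (ca (cd i)) (cb (cd i)) (wm (D.ws j)) T lp rp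
      (f0 (fr (σ (D.τ j)) i) (D.ws j))) ∧
    f0 (fr (σ (D.τ (j + 1))) i) (D.ws (j + 1)) = D.g j ∧
    NewF A (wm (D.ws j)) (T + (f0 (fr (σ (D.τ j)) i) (D.ws j)).length) (wu (D.ws j))
      (wv (D.ws j)) (wv' (D.ws j)) (f0 (fr (σ (D.τ j)) i) (D.ws j)) (D.g j) ∧
    (∀ x y, num (olt k (D.τ j)) (wm (D.ws j)) x y = num A (wm (D.ws j)) x y ∨
      wM (D.ws j) ≤ x ∨ wM (D.ws j) ≤ y) := by
  have af := D.af j
  have ok := af.ok
  have hiff : ∀ a < wM (D.ws j), ∀ b < wM (D.ws j), (olt k (D.τ j) a b ↔ A a b) :=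
    fun a ha b hb => hR.2 _ _ a b ok ha hb
  have hdat := (DTA hR ok).1 af.dat
  have hdat1 := (DTA hR (D.af (j + 1)).ok).1 (D.af (j + 1)).dat
  have hI := h.inv (D.τ j)
  have hT : ft (fr (σ (D.τ j)) i) = T := (D.on _ (D.mono.monotone (Nat.zero_le j))).2
  have hm : wm (D.ws j) ≤ wM (D.ws j) := hdat.1.1
  have hfl := hI.lmono (i - 1) i (Nat.sub_le i 1) af.i2
  have hfl0 := hI.lmono 0 (i - 1) (Nat.zero_le _) (lt_of_le_of_lt (Nat.sub_le i 1) af.i2)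
  rw [hI.root] at hfl0
  have h3 : 1 ≤ fl (fr (σ (D.τ j)) (i - 1)) := le_trans (by norm_num [fl]) hfl0.1
  have h4 : 1 ≤ fR (fr (σ (D.τ j)) (i - 1)) := le_trans (by norm_num [fR]) hfl0.2
  have hFI := FIZ hA (FRI h hA hR (D.τ j) i af.i1 af.i2) hdat hfl.1 hfl.2 h3 h4
  rw [hT] at hFI
  have hvm : wv (D.ws j) < wM (D.ws j) :=
    lt_of_lt_of_le (hdat.2.2.1 _ hdat.2.2.2.1.1).2 hm
  have hvm' : wv' (D.ws j) < wM (D.ws j) :=
    lt_of_lt_of_le (hdat.2.2.1 _ hdat.2.2.2.1.2.1).2 hm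
  have hnf := AS5_newf hiff hm hvm hvm' af.newf
  rw [hT] at hnf
  have hfr : fr (σ (D.τ (j + 1))) i = (T, D.l j, nn (D.τ j) - D.l j, D.g j) :=
    AS2 h D j _ (D.mono (Nat.lt_succ_self j)) le_rfl
  have hg : D.g j ≠ [] := by
    obtain ⟨x0, x1, b1, hx, -⟩ := hFI.ends
    intro he
    rcases hnf with ⟨y, -, -, h'⟩ | ⟨-, h'⟩
    · rw [he] at h'
      simp at h'
    · rw [he] at h'
      rw [← h'] at hx
      simp at hx
  refine ⟨hdat, ⟨?_, ?_⟩, ⟨_, _, hFI⟩, ?_, hnf, ?_⟩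
  · rw [hdat.1.2.2]
    exact hI.sum' i af.i2 af.i1
  · rw [hdat1.1.2.2, hfr]
    have hl := af.sf.hi
    simp only [fl, fR]
    omega
  · rw [hfr]
    unfold f0 ff
    rw [if_neg hg]
  · intro x y
    by_cases hx : x < wM (D.ws j)
    · by_cases hy : y < wM (D.ws j)
      · exact Or.inl (AS5_num hiff hm hx hy)
      · exact Or.inr (Or.inr (not_lt.1 hy))
    · exact Or.inr (Or.inl (not_lt.1 hx))

end Pool.Agent.DMN
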