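import Pool.Agent.DMN.Defs
import Pool.Agent.DMN.DefsB
import Pool.Agent.DMN.DefsD
import Pool.Agent.DMN.P_FAT

/-!
# DMN: the target ASE
-/

set_option autoImplicit false

namespace Pool.Agent.DMN

/-- ASE. The attack sequence of a permanent frame which attacks infinitely often. -/
theorem ASE {k : ℕ} {σ : ℕ → St} (h : Run k σ) {i T S0 : ℕ}
    (hon : ∀ s ≥ S0, On σ i T s) (hinf : ∀ S, ∃ s ≥ S, AttAt k σ i s) :
    ∃ D : AS k σ i T, S0 ≤ D.τ 0 := by
  classical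
  let P : ℕ → Prop := fun s => S0 ≤ s ∧ AttAt k σ i s
  have hP : (Set.ofPred P).Infinite := by
    rw [Set.infinite_iff_exists_gt]
    intro a
    obtain ⟨s, hs, hA⟩ := hinf (max S0 (a + 1))
    exact ⟨s, ⟨(le_max_left _ _).trans hs, hA⟩,
      lt_of_lt_of_le (Nat.lt_succ_self a) ((le_max_right _ _).trans hs)⟩
  have hm : ∀ j, P (Nat.nth P j) := fun j => Nat.nth_mem_of_infinite hP j
  have hw : ∀ j, ∃ w, Req k (Nat.nth P j) (σ (Nat.nth P j)) w ∧
      Att k (Nat.nth P j) (σ (Nat.nth P j)) w (σ (Nat.nth P j + 1)) := fun j => (hm j).2.2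
  choose ws hreq hatt using hw
  have hf : ∀ j, ∃ C' l f', AF k σ i (Nat.nth P j) (ws j) C' l f' := by
    intro j
    obtain ⟨C', l, f', hh⟩ := FAT (h.inv _) (hreq j) (hatt j)
    rw [(hm j).2.1] at hh
    exact ⟨C', l, f', hh⟩
  choose C l g haf using hf
  refine ⟨⟨Nat.nth P, ws, C, l, g, Nat.nth_strictMono hP, fun j => (hm j).2.1, hreq, hatt, haf,
    fun s hs => hon s ((hm 0).1.trans hs), fun s hs hA => ?_⟩, (hm 0).1⟩
  have hs' : s ∈ Set.ofPred P := ⟨(hm 0).1.trans hs, hA⟩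
  rw [← Nat.range_nth_of_infinite hP] at hs'
  exact hs'

end Pool.Agent.DMN
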