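import Pool.Agent.DMN.Defs
import Pool.Agent.DMN.DefsB
import Pool.Agent.DMN.DefsD
import Pool.Agent.DMN.P_ORN
import Pool.Agent.DMN.P_AS2
import Pool.Agent.DMN.P_ORB
import Pool.Agent.DMN.P_SFE

/-!
# DMN target AS3: restraint between two attacks
-/

set_option autoImplicit false

namespace Pool.Agent.DMN

theorem AS3_gap {k : ℕ} {σ : ℕ → St} (h : Run k σ) {i T : ℕ} (D : AS k σ i T) (j s l : ℕ)
    (h1 : D.τ j ≤ s) (h2 : s < D.τ (j + 1)) (hl : SF σ s l) :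
    D.l j ≤ l ∧ nn (D.τ j) - D.l j ≤ nn s - l := by
  have h0 : D.τ 0 ≤ D.τ j := D.mono.monotone (Nat.zero_le j)
  have hon := (D.on (s + 1) (by omega)).1
  have hfr := AS2 h D j (s + 1) (by omega) (by omega)
  have hg := hl.gap i hon
  rw [hfr] at hg
  exact hg

theorem AS3_pos {k : ℕ} {σ : ℕ → St} (h : Run k σ) {i T : ℕ} (D : AS k σ i T) (j s : ℕ)
    (h1 : D.τ j ≤ s) (h2 : s ≤ D.τ (j + 1)) :
    D.gx j < nn s ∧ D.gy j < nn s ∧ (σ s).1.idxOf (D.gx j) + 1 = D.l j ∧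
      (σ s).1.idxOf (D.gy j) + (nn (D.τ j) - D.l j) = nn s := by
  induction s, h1 using Nat.le_induction with
  | base =>
    have hlo := (D.af j).sf.lo
    have hhi := (D.af j).sf.hi
    obtain ⟨-, hb, -, -⟩ := ORB h (D.τ j)
    obtain ⟨a1, a2⟩ := hb (D.l j - 1) (by omega)
    obtain ⟨b1, b2⟩ := hb (D.l j) (by omega)
    refine ⟨a1, b1, ?_, ?_⟩
    · change (σ (D.τ j)).1.idxOf ((σ (D.τ j)).1.getD (D.l j - 1) 0) + 1 = D.l j
      rw [a2]
      omega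
    · change (σ (D.τ j)).1.idxOf ((σ (D.τ j)).1.getD (D.l j) 0) + (nn (D.τ j) - D.l j) = _
      rw [b2]
      omega
  | succ s hs ih =>
    obtain ⟨hx, hy, e1, e2⟩ := ih (by omega)
    obtain ⟨l, hl⟩ := SFE h s
    obtain ⟨g1, g2⟩ := AS3_gap h D j s l hs (by omega) hl
    have hlo := hl.lo
    have hhi := hl.hi
    have h3 := ORN_nn s
    obtain ⟨p1, -⟩ := ORN_pos h hl
    have q1 := (p1 _ hx).1 (by omega)
    have q2 := (p1 _ hy).2 (by omega)
    refine ⟨by omega, by omega, ?_, ?_⟩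
    · rw [q1]
      exact e1
    · rw [q2, h3]
      omega

theorem AS3_find {a b w : ℕ} (h1 : nn a ≤ w) (h2 : w < nn b) :
    ∃ s, a ≤ s ∧ s < b ∧ nn s ≤ w ∧ w < nn (s + 1) := by
  induction b with
  | zero =>
    exfalso
    have h3 : nn 0 ≤ nn a := by
      unfold nn
      exact Nat.mul_le_mul_left 4 (Nat.pow_le_pow_right (by norm_num) (Nat.zero_le a))
    omega
  | succ b ih =>
    by_cases hb : nn b ≤ w
    · refine ⟨b, ?_, by omega, hb, h2⟩
      by_contra hab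
      have h3 : nn (b + 1) ≤ nn a := by
        unfold nn
        exact Nat.mul_le_mul_left 4 (Nat.pow_le_pow_right (by norm_num) (by omega))
      omega
    · obtain ⟨s, a1, a2, a3, a4⟩ := ih (by omega)
      exact ⟨s, a1, by omega, a3, a4⟩

/-- AS3. Restraint: all labels inserted between two attacks are in the gap. -/
theorem AS3 {k : ℕ} {σ : ℕ → St} (h : Run k σ) {i T : ℕ} (D : AS k σ i T) (j w : ℕ)
    (h1 : nn (D.τ j) ≤ w) (h2 : w < nn (D.τ (j + 1))) :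
    xo σ (D.gx j) w ∧ xo σ w (D.gy j) := by
  obtain ⟨s, a1, a2, a3, a4⟩ := AS3_find h1 h2
  obtain ⟨hx, hy, e1, e2⟩ := AS3_pos h D j s a1 (by omega)
  obtain ⟨l, hl⟩ := SFE h s
  obtain ⟨g1, g2⟩ := AS3_gap h D j s l a1 a2 hl
  have hlo := hl.lo
  have hhi := hl.hi
  obtain ⟨p1, -⟩ := ORN h hl
  refine ⟨(p1 _ hx w a3 a4).1.mpr (by omega), (p1 _ hy w a3 a4).2.mpr (by omega)⟩

end Pool.Agent.DMN
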