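import Pool.Agent.DMN.Defs
import Pool.Agent.DMN.DefsB
import Pool.Agent.DMN.DefsD
import Pool.Agent.DMN.P_ORB
import Pool.Agent.DMN.P_ORD

/-!
# DMN: the target AS4
-/

set_option autoImplicit false

namespace Pool.Agent.DMN

theorem AS4 {k : ℕ} {σ : ℕ → St} (h : Run k σ) {i T : ℕ} (D : AS k σ i T) (j : ℕ)
    {P Q N : ℕ} (hP : P = num (olt k (D.τ j)) (wm (D.ws j)) (ca (cd i)) (wv (D.ws j)))
    (hQ : Q = num (olt k (D.τ j)) (wm (D.ws j)) (wv' (D.ws j)) (cb (cd i)))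
    (hN : N = num (olt k (D.τ j)) (wm (D.ws j)) (wv (D.ws j)) (wv' (D.ws j))) :
    (D.gx j < nn (D.τ j) ∧ D.gy j < nn (D.τ j) ∧
      Adj (xo σ) (nn (D.τ j)) (D.gx j) (D.gy j)) ∧
    P ≤ below (xo σ) (nn (D.τ j)) (D.gx j) ∧ Q ≤ above (xo σ) (nn (D.τ j)) (D.gy j) ∧
    D.gx j ∈ (σ (D.τ j + 1)).2.1 ∧
    (∀ x y, x < nn (D.τ j) → y < nn (D.τ j) → Adj (xo σ) (nn (D.τ j)) x y →
      x ∈ (σ (D.τ j + 1)).2.1 → P ≤ below (xo σ) (nn (D.τ j)) x →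
      Q ≤ above (xo σ) (nn (D.τ j)) y → Nat.pair (D.gx j) (D.gy j) ≤ Nat.pair x y) ∧
    ∀ x y, x < nn (D.τ j) → y < nn (D.τ j) → xo σ x y → N ≤ num (xo σ) (nn (D.τ j)) x y →
      ∃ x' y', x' < nn (D.τ j) ∧ y' < nn (D.τ j) ∧ Adj (xo σ) (nn (D.τ j)) x' y' ∧
        (x = x' ∨ xo σ x x') ∧ (y' = y ∨ xo σ y' y) ∧ x' ∈ (σ (D.τ j + 1)).2.1 := by
  have af := D.af j
  have hlen := (h.inv (D.τ j)).len
  obtain ⟨ob1, ob2, ob3, ob4⟩ := ORB h (D.τ j)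
  have ord := (ORD h).2 (D.τ j)
  have hsp := af.split
  have hga := af.gap
  rw [← hN] at hsp
  rw [← hP, ← hQ] at hga
  have hlo := af.sf.lo
  have hhi := af.sf.hi
  obtain ⟨-, -, sp3, -, -⟩ := hsp
  obtain ⟨g1, g2, g3, g4⟩ := hga
  have hceq := af.ceq
  have egx : D.gx j = (σ (D.τ j)).1.getD (D.l j - 1) 0 := rfl
  have egy : D.gy j = (σ (D.τ j)).1.getD (D.l j) 0 := rfl
  obtain ⟨gx1, gx2⟩ := ob2 (D.l j - 1) (by omega)
  obtain ⟨gy1, gy2⟩ := ob2 (D.l j) (by omega)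
  rw [← egx] at gx1 gx2
  rw [← egy] at gy1 gy2
  refine ⟨⟨gx1, gy1, ?_⟩, ?_, ?_, ?_, ?_, ?_⟩
  · rw [ob3 _ gx1 _ gy1, gx2, gy2]
    omega
  · rw [(ob1 _ gx1).1, gx2]
    omega
  · have h1 := (ob1 _ gy1).2.1
    rw [gy2] at h1
    omega
  · exact (hceq _ gx1).1 g3.2.2
  · intro x y hx hy hadj hxc hxP hyQ
    have e1 := (ob3 _ hx _ hy).1 hadj
    obtain ⟨bx1, -, bx3, bx4⟩ := ob1 _ hx
    obtain ⟨-, by2, by3, by4⟩ := ob1 _ hy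
    have h1 := g4 ((σ (D.τ j)).1.idxOf x + 1) (by omega) (by omega) (by omega)
      ⟨by omega, by omega, by
        rw [Nat.add_sub_cancel, bx4]
        exact (hceq _ hx).2 hxc⟩
    rw [Nat.add_sub_cancel, bx4, ← e1, by4] at h1
    exact h1
  · intro x y hx hy hxy hNn
    have e1 := (ord x y hx hy).1 hxy
    obtain ⟨-, -, bx3, bx4⟩ := ob1 _ hx
    obtain ⟨-, -, by3, by4⟩ := ob1 _ hy
    have e2 := ob4 x hx y hy e1.le
    obtain ⟨l0, l1, l2, l3⟩ := sp3 ((σ (D.τ j)).1.idxOf x) (by omega) (by omega)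
    obtain ⟨x1, x2⟩ := ob2 (l0 - 1) (by omega)
    obtain ⟨y1, y2⟩ := ob2 l0 (by omega)
    refine ⟨(σ (D.τ j)).1.getD (l0 - 1) 0, (σ (D.τ j)).1.getD l0 0, x1, y1, ?_, ?_, ?_, ?_⟩
    · rw [ob3 _ x1 _ y1, x2, y2]
      omega
    · by_cases hc : (σ (D.τ j)).1.idxOf x = l0 - 1
      · left
        rw [← hc, bx4]
      · right
        rw [ord _ _ hx x1, x2]
        omega
    · by_cases hc : (σ (D.τ j)).1.idxOf y = l0
      · left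
        rw [← hc, by4]
      · right
        rw [ord _ _ y1 hy, y2]
        omega
    · exact (hceq _ x1).1 l3.2.2

end Pool.Agent.DMN
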