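import Pool.Agent.DMN.Defs
import Pool.Agent.DMN.DefsB
import Pool.Agent.DMN.DefsD
import Pool.Agent.DMN.P_AS3
import Pool.Agent.DMN.P_AS4
import Pool.Agent.DMN.P_AS5
import Pool.Agent.DMN.P_OCU
import Pool.Agent.DMN.P_ORD
import Pool.Agent.DMN.P_ORN

/-!
# DMN: target GAM (the game of a permanent frame)
-/

set_option autoImplicit false

namespace Pool.Agent.DMN

theorem GAM_nn {s s' : ℕ} (h : s < s') : nn s < nn s' := by
  unfold nn
  have : (3 : ℕ) ^ s < 3 ^ s' := Nat.pow_lt_pow_right (by norm_num) h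
  omega

/-- The labels of the witness are below `wM`. -/
theorem GAM_lab {A : ℕ → ℕ → Prop} {k : ℕ} {c : Cd} {a a' : Fr} {w : Wi}
    (h : Dat A k c a a' w) : ca c < wM w ∧ cb c < wM w ∧ wv w < wM w ∧ wv' w < wM w := by
  obtain ⟨⟨h1, h2, -⟩, -, h3, h4, -⟩ := h
  have h5 := (h3 _ h4.1).2
  have h6 := (h3 _ h4.2.1).2
  exact ⟨h2.1.2.2.1, h2.1.2.2.2.1, lt_of_lt_of_le h5 h1, lt_of_lt_of_le h6 h1⟩

/-- GAM. The game of a permanent frame. -/
theorem GAM {k : ℕ} {σ : ℕ → St} (h : Run k σ) {A : ℕ → ℕ → Prop} (hA : SLO A)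
    (hR : Real k A) {i T : ℕ} (D : AS k σ i T) :
    ∃ G : Game A (xo σ) (ca (cd i)) (cb (cd i)) T, ∀ j, G.n j = nn (D.τ j) ∧
      G.m j = wm (D.ws j) ∧ G.v j = wv (D.ws j) ∧ G.v' j = wv' (D.ws j) ∧
      G.f j = f0 (fr (σ (D.τ j)) i) (D.ws j) ∧ G.f (j + 1) = D.g j := by
  have a5 := fun j => AS5 h hA hR D j
  have hlab := fun j => GAM_lab (a5 j).1
  -- the numbers for the total order
  have eP : ∀ j, num A (wm (D.ws j)) (ca (cd i)) (wv (D.ws j)) =
      num (olt k (D.τ j)) (wm (D.ws j)) (ca (cd i)) (wv (D.ws j)) := by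
    intro j
    rcases (a5 j).2.2.2.2.2 (ca (cd i)) (wv (D.ws j)) with h1 | h1 | h1
    · exact h1.symm
    · exact absurd (hlab j).1 (not_lt.2 h1)
    · exact absurd (hlab j).2.2.1 (not_lt.2 h1)
  have eQ : ∀ j, num A (wm (D.ws j)) (wv' (D.ws j)) (cb (cd i)) =
      num (olt k (D.τ j)) (wm (D.ws j)) (wv' (D.ws j)) (cb (cd i)) := by
    intro j
    rcases (a5 j).2.2.2.2.2 (wv' (D.ws j)) (cb (cd i)) with h1 | h1 | h1
    · exact h1.symm
    · exact absurd (hlab j).2.2.2 (not_lt.2 h1)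
    · exact absurd (hlab j).2.1 (not_lt.2 h1)
  have eN : ∀ j, num A (wm (D.ws j)) (wv (D.ws j)) (wv' (D.ws j)) =
      num (olt k (D.τ j)) (wm (D.ws j)) (wv (D.ws j)) (wv' (D.ws j)) := by
    intro j
    rcases (a5 j).2.2.2.2.2 (wv (D.ws j)) (wv' (D.ws j)) with h1 | h1 | h1
    · exact h1.symm
    · exact absurd (hlab j).2.2.1 (not_lt.2 h1)
    · exact absurd (hlab j).2.2.2 (not_lt.2 h1)
  have a4 := fun j => AS4 h D j (eP j) (eQ j) (eN j)
  have d4 := fun j => (a5 j).1.2.2.2.1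
  refine ⟨{
    m := fun j => wm (D.ws j)
    n := fun j => nn (D.τ j)
    E := fun j => num A (wm (D.ws j)) (ca (cd i)) (cb (cd i))
    f := fun j => f0 (fr (σ (D.τ j)) i) (D.ws j)
    u := fun j => wu (D.ws j)
    z := fun j => wz (D.ws j)
    v := fun j => wv (D.ws j)
    z' := fun j => wz' (D.ws j)
    v' := fun j => wv' (D.ws j)
    gx := D.gx
    gy := D.gy
    Cut := fun j x _ => x ∈ (σ (D.τ j + 1)).2.1
    hA := hA
    hX := (ORD h).1
    lo := ⟨0, (ORE h).1⟩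
    hi := ⟨3, (ORE h).2⟩
    hm := fun _ => rfl
    hE := fun j => (a5 j).2.1.2
    hEn := fun j => (a5 j).2.1.1
    hn := fun j => GAM_nn (D.mono (Nat.lt_succ_self j))
    fi := (a5 0).2.2.1
    hz := fun j => (d4 j).1
    hz' := fun j => (d4 j).2.1
    hzu := fun j => (d4 j).2.2.1
    huz := fun j => (d4 j).2.2.2.1
    hu := fun j => (d4 j).2.2.2.2.1
    nb := fun j => (d4 j).2.2.2.2.2.1
    least := fun j => (d4 j).2.2.2.2.2.2
    step := ?_
    hg := fun j => (a4 j).1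
    ins := fun j w h1 h2 => AS3 h D j w h1 h2
    hP := fun j => (a4 j).2.1
    hQ := fun j => (a4 j).2.2.1
    cut := fun j => (a4 j).2.2.2.1
    cutmono := ?_
    key := fun j => (a4 j).2.2.2.2.1
    small := fun j => (a4 j).2.2.2.2.2 }, ?_⟩
  · intro j
    have h1 := (a5 j).2.2.2.2.1
    have h2 := (a5 j).2.2.2.1
    show (∃ y < wm (D.ws j), Good A (wm (D.ws j)) _ (wv (D.ws j)) (wv' (D.ws j)) y ∧
      f0 (fr (σ (D.τ (j + 1))) i) (D.ws (j + 1)) = _) ∨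
      ((∀ y < wm (D.ws j), ¬ Good A (wm (D.ws j)) _ (wv (D.ws j)) (wv' (D.ws j)) y) ∧
        f0 (fr (σ (D.τ (j + 1))) i) (D.ws (j + 1)) = _)
    rw [h2]
    exact h1
  · intro j x y hx
    have h1 : D.τ j < D.τ (j + 1) := D.mono (Nat.lt_succ_self j)
    exact (OCU h).2.2 (D.τ j + 1) (D.τ (j + 1) + 1) (by omega) x hx
  · intro j
    exact ⟨rfl, rfl, rfl, rfl, rfl, (a5 j).2.2.2.1⟩

end Pool.Agent.DMN
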