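import Pool.Agent.DMN.Defs
import Pool.Agent.DMN.DefsB
import Pool.Agent.DMN.DefsD
import Pool.Agent.DMN.P_FIM
import Pool.Agent.DMN.P_FIS
import Pool.Agent.DMN.P_NUM1

/-!
# DMN: the targets GFI, GST
-/

set_option autoImplicit false

namespace Pool.Agent.DMN

theorem GFI {A X : ℕ → ℕ → Prop} {a b t : ℕ} (G : Game A X a b t) :
    (∃ lp rp, ∀ k, FI A a b (G.m k) t lp rp (G.f k)) ∧
    (∀ k, G.m k < G.m (k + 1)) ∧ (∀ k, G.E k < G.E (k + 1)) ∧
    ∀ k k', k ≤ k' → ∀ p ∈ G.f k, p ∈ G.f k' := by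
  have hE : ∀ k, G.E k < G.E (k + 1) := by
    intro k
    have h1 := (G.hg k).1
    have h2 := G.hE k
    have h3 := G.hEn k
    omega
  refine ⟨?_, ?_, hE, ?_⟩
  · obtain ⟨lp, rp, h0⟩ := G.fi
    refine ⟨lp, rp, fun k => ?_⟩
    induction k with
    | zero => exact h0
    | succ k ih =>
      have hle : num A (G.m k) a b ≤ num A (G.m (k + 1)) a b := by
        rw [G.hm k, G.hm (k + 1)]
        exact (hE k).le
      rcases G.step k with ⟨y, hy, hg, hf⟩ | ⟨_, hf⟩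
      · rw [hf]
        exact FIM G.hA (FIS G.hA ih (G.hz k) (G.hz' k) (G.hzu k) (G.huz k)
          (G.nb k) (G.hu k) hy hg) hle
      · rw [hf]
        exact FIM G.hA ih hle
  · intro k
    by_contra hc
    push Not at hc
    have h1 := NUM1 A hc a b
    rw [G.hm k, G.hm (k + 1)] at h1
    have h2 := hE k
    omega
  · intro k k' hkk
    induction k', hkk using Nat.le_induction with
    | base => exact fun p hp => hp
    | succ j hj ih =>
      intro p hp
      have h1 := ih p hp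
      rcases G.step j with ⟨y, _, _, hf⟩ | ⟨_, hf⟩
      · rw [hf]
        exact List.mem_append_left _ h1
      · rw [hf]
        exact h1

/-- `u k` is waiting for `f k`. -/
theorem GST_wait {A X : ℕ → ℕ → Prop} {a b t : ℕ} (G : Game A X a b t) (k : ℕ) :
    Wait A (G.f k) (G.u k) := by
  refine ⟨?_, ⟨_, G.hz k, G.hzu k⟩, ⟨_, G.hz' k, G.huz k⟩⟩
  intro p hp he
  apply G.nb k p hp
  rw [he]
  exact ⟨G.hzu k, G.huz k⟩

theorem GST {A X : ℕ → ℕ → Prop} {a b t : ℕ} (G : Game A X a b t) (k : ℕ)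
    (h : G.f (k + 1) = G.f k) :
    G.u (k + 1) = G.u k ∧ G.z (k + 1) = G.z k ∧ G.v (k + 1) = G.v k ∧
      G.z' (k + 1) = G.z' k ∧ G.v' (k + 1) = G.v' k := by
  obtain ⟨lp, rp, hFI⟩ := (GFI G).1
  obtain ⟨hX1, -, -⟩ := FIX1 G.hA (hFI k)
  have hA := G.hA
  have hu : G.u (k + 1) = G.u k := by
    have w1 := GST_wait G k
    have w2 := GST_wait G (k + 1)
    apply le_antisymm
    · by_contra hc
      push Not at hc
      apply G.least (k + 1) _ hc
      rw [h]
      exact w1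
    · by_contra hc
      push Not at hc
      apply G.least k _ hc
      rw [← h]
      exact w2
  have m1 := G.hz k
  have m1' := G.hz' k
  have m2 := G.hz (k + 1)
  have m2' := G.hz' (k + 1)
  rw [h] at m2 m2'
  have l1 := G.hzu k
  have l1' := G.huz k
  have l2 := G.hzu (k + 1)
  have l2' := G.huz (k + 1)
  rw [hu] at l2 l2'
  have nb1 := G.nb k
  have nb2 := G.nb (k + 1)
  rw [h] at nb2
  have hz : G.z (k + 1) = G.z k := by
    rcases hA.tri (G.z (k + 1)) (G.z k) with h1 | h1 | h1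
    · exact absurd ⟨h1, hA.tr _ _ _ l1 l2'⟩ (nb2 _ m1)
    · exact h1
    · exact absurd ⟨h1, hA.tr _ _ _ l2 l1'⟩ (nb1 _ m2)
  have hz' : G.z' (k + 1) = G.z' k := by
    rcases hA.tri (G.z' (k + 1)) (G.z' k) with h1 | h1 | h1
    · exact absurd ⟨hA.tr _ _ _ l1 l2', h1⟩ (nb1 _ m2')
    · exact h1
    · exact absurd ⟨hA.tr _ _ _ l2 l1', h1⟩ (nb2 _ m1')
  have e1 := hX1 _ m2 _ m1 hz
  have e2 := hX1 _ m2' _ m1' hz'
  exact ⟨hu, hz, (Prod.mk.inj e1).2, hz', (Prod.mk.inj e2).2⟩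

end Pool.Agent.DMN
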