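import Pool.Agent.DMN.Defs
import Pool.Agent.DMN.DefsB
import Pool.Agent.DMN.DefsD
import Pool.Agent.DMN.P_GFI

/-!
# DMN: target GD1 (MP_55b29c_lc)
-/

set_option autoImplicit false

namespace Pool.Agent.DMN

open Pool.Agent.DMN

/-- `f k` is an initial segment of `f k'` for `k ≤ k'`. -/
theorem GD1_pre {A X : ℕ → ℕ → Prop} {a b t : ℕ} (G : Game A X a b t) {k k' : ℕ}
    (h : k ≤ k') {i : ℕ} {p : ℕ × ℕ} (hp : (G.f k)[i]? = some p) : (G.f k')[i]? = some p := by
  induction k', h using Nat.le_induction with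
  | base => exact hp
  | succ j hj ih =>
    rcases G.step j with ⟨y, _, _, hf⟩ | ⟨_, hf⟩
    · rw [hf]
      have h1 : i < (G.f j).length := (List.getElem?_eq_some_iff.1 ih).1
      rw [List.getElem?_append_left h1]
      exact ih
    · rw [hf]
      exact ih

/-- While `f` does not change, `z` and `z'` do not change. -/
theorem GD1_const {A X : ℕ → ℕ → Prop} {a b t : ℕ} (G : Game A X a b t) {k k' : ℕ}
    (h : k ≤ k') (hc : ∀ j, k ≤ j → j < k' → G.f (j + 1) = G.f j) :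
    G.z k' = G.z k ∧ G.z' k' = G.z' k := by
  induction k', h using Nat.le_induction with
  | base => exact ⟨rfl, rfl⟩
  | succ j hj ih =>
    obtain ⟨i1, i2⟩ := ih (fun l hl hlj => hc l hl (by omega))
    obtain ⟨-, h1, -, h2, -⟩ := GST G j (hc j hj (by omega))
    exact ⟨h1.trans i1, h2.trans i2⟩

/-- GD1. If `f` is not finally constant then the windows are finally large. -/
theorem GD1 {A X : ℕ → ℕ → Prop} {a b t : ℕ} (G : Game A X a b t)
    (h : ∀ K, ∃ k ≥ K, G.f (k + 1) ≠ G.f k) (B : ℕ) :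
    ∃ K, ∀ k ≥ K, B ≤ num A (G.m k) (G.v k) (G.v' k) := by
  classical
  by_contra hcon
  push Not at hcon
  obtain ⟨lp, rp, hFI⟩ := (GFI G).1
  let T : ℕ → ℕ → Set ℕ := fun i j =>
    {k | (G.f k)[i]? = some (G.z k, G.v k) ∧ (G.f k)[j]? = some (G.z' k, G.v' k)}
  have hSinf : {k | num A (G.m k) (G.v k) (G.v' k) < B}.Infinite := by
    refine Set.infinite_of_forall_exists_gt fun K => ?_
    obtain ⟨k, hk, hk'⟩ := hcon (K + 1)
    exact ⟨k, hk', by omega⟩
  have hsub : {k | num A (G.m k) (G.v k) (G.v' k) < B} ⊆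
      ⋃ i ∈ Finset.range B, ⋃ j ∈ Finset.range B, T i j := by
    intro k hk
    have hk' : num A (G.m k) (G.v k) (G.v' k) < B := hk
    obtain ⟨i, hi⟩ := List.mem_iff_getElem?.1 (G.hz k)
    obtain ⟨j, hj⟩ := List.mem_iff_getElem?.1 (G.hz' k)
    have hw := (hFI k).win i j _ _ hi hj (G.hA.tr _ _ _ (G.hzu k) (G.huz k)) (G.nb k)
    have hw1 : t + 2 + i ≤ num A (G.m k) (G.v k) (G.v' k) := hw.1
    have hw2 : t + 2 + j ≤ num A (G.m k) (G.v k) (G.v' k) := hw.2
    simp only [Set.mem_iUnion, Finset.mem_range]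
    exact ⟨i, by omega, j, by omega, hi, hj⟩
  have hex : ∃ i j, (T i j).Infinite := by
    by_contra hno
    push Not at hno
    refine hSinf (Set.Finite.subset ?_ hsub)
    refine Set.Finite.biUnion (Finset.finite_toSet _) fun i _ => ?_
    exact Set.Finite.biUnion (Finset.finite_toSet _) fun j _ => hno i j
  obtain ⟨i, j, hT⟩ := hex
  obtain ⟨k0, hk0⟩ := hT.nonempty
  have hex1 : ∃ k, k0 ≤ k ∧ G.f (k + 1) ≠ G.f k := by
    obtain ⟨k, hk, hf⟩ := h k0
    exact ⟨k, hk, hf⟩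
  obtain ⟨hk1, hne⟩ := Nat.find_spec hex1
  have hmin : ∀ l, k0 ≤ l → l < Nat.find hex1 → G.f (l + 1) = G.f l := by
    intro l hl hl'
    by_contra hc
    exact Nat.find_min hex1 hl' ⟨hl, hc⟩
  generalize Nat.find hex1 = k1 at hk1 hne hmin
  obtain ⟨c1, c2⟩ := GD1_const G hk1 hmin
  obtain ⟨k2, hk2, hlt⟩ := hT.exists_gt k1
  have e1 := GD1_pre G (show k0 ≤ k2 by omega) hk0.1
  have e2 := GD1_pre G (show k0 ≤ k2 by omega) hk0.2
  rw [hk2.1] at e1
  rw [hk2.2] at e2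
  have z1 : G.z k2 = G.z k1 := ((Prod.mk.inj (Option.some.inj e1)).1).trans c1.symm
  have z2 : G.z' k2 = G.z' k1 := ((Prod.mk.inj (Option.some.inj e2)).1).trans c2.symm
  rcases G.step k1 with ⟨y, _, _, hf⟩ | ⟨_, hf⟩
  · have m1 : (G.u k1, y) ∈ G.f (k1 + 1) := by
      rw [hf]
      simp
    have m2 := (GFI G).2.2.2 (k1 + 1) k2 hlt _ m1
    refine G.nb k2 _ m2 ⟨?_, ?_⟩
    · rw [z1]
      exact G.hzu k1
    · rw [z2]
      exact G.huz k1
  · exact hne hf

end Pool.Agent.DMN
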