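import Pool.Agent.DMN.Defs

set_option autoImplicit false

namespace Pool.Agent.DMN

theorem NUM3_aux1 {A : ℕ → ℕ → Prop} (hA : SLO A) {m a b j : ℕ} (h1 : 1 ≤ j)
    (hj : j ≤ num A m a b) :
    ∃ x < m, (a = x ∨ A a x) ∧ (x = b ∨ A x b) ∧ num A m a x = j := by
  classical
  set S : Finset ℕ := (Finset.range m).filter fun x => (a = x ∨ A a x) ∧ (x = b ∨ A x b) with hS
  have hSc : S.card = num A m a b := by
    unfold num
    rw [hS]
  have htr : ∀ x y z, (x = y ∨ A x y) → (y = z ∨ A y z) → (x = z ∨ A x z) := by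
    rintro x y z (rfl | h) (rfl | h')
    · exact Or.inl rfl
    · exact Or.inr h'
    · exact Or.inr h
    · exact Or.inr (hA.tr _ _ _ h h')
  have hmem : ∀ x, x ∈ S ↔ x < m ∧ (a = x ∨ A a x) ∧ (x = b ∨ A x b) := by
    intro x
    rw [hS, Finset.mem_filter, Finset.mem_range]
  have hnum : ∀ x, num A m a x =
      ((Finset.range m).filter fun y => (a = y ∨ A a y) ∧ (y = x ∨ A y x)).card := by
    intro x
    unfold num
    congr!
  have hlt : ∀ x ∈ S, ∀ y ∈ S, A x y → num A m a x < num A m a y := by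
    intro x hx y hy hxy
    rw [hmem] at hx hy
    rw [hnum, hnum]
    apply Finset.card_lt_card
    rw [Finset.ssubset_iff_of_subset]
    · refine ⟨y, ?_, ?_⟩
      · rw [Finset.mem_filter, Finset.mem_range]
        exact ⟨hy.1, hy.2.1, Or.inl rfl⟩
      · rw [Finset.mem_filter]
        rintro ⟨-, -, rfl | h⟩
        · exact hA.irr _ hxy
        · exact hA.irr _ (hA.tr _ _ _ hxy h)
    · intro w hw
      rw [Finset.mem_filter] at hw ⊢
      exact ⟨hw.1, hw.2.1, htr _ _ _ hw.2.2 (Or.inr hxy)⟩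
  have hinj : Set.InjOn (fun x => num A m a x) (S : Set ℕ) := by
    intro x hx y hy hxy
    rcases hA.tri x y with h | h | h
    · exact absurd hxy (hlt x hx y hy h).ne
    · exact h
    · exact absurd hxy (hlt y hy x hx h).ne'
  have himg : S.image (fun x => num A m a x) = Finset.Icc 1 S.card := by
    apply Finset.eq_of_subset_of_card_le
    · intro k hk
      rw [Finset.mem_image] at hk
      obtain ⟨x, hx, rfl⟩ := hk
      rw [Finset.mem_Icc]
      rw [hmem] at hx
      constructor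
      · rw [hnum, Nat.one_le_iff_ne_zero, Finset.card_ne_zero]
        exact ⟨x, by rw [Finset.mem_filter, Finset.mem_range]; exact ⟨hx.1, hx.2.1, Or.inl rfl⟩⟩
      · rw [hnum]
        apply Finset.card_le_card
        intro w hw
        rw [Finset.mem_filter, Finset.mem_range] at hw
        rw [hmem]
        exact ⟨hw.1, hw.2.1, htr _ _ _ hw.2.2 hx.2.2⟩
    · rw [Finset.card_image_of_injOn hinj, Nat.card_Icc]
      omega
  have hjm : j ∈ S.image (fun x => num A m a x) := by
    rw [himg, Finset.mem_Icc, hSc]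
    exact ⟨h1, hj⟩
  obtain ⟨x, hx, hxj⟩ := Finset.mem_image.1 hjm
  rw [hmem] at hx
  exact ⟨x, hx.1, hx.2.1, hx.2.2, hxj⟩

theorem NUM3_aux2 (A : ℕ → ℕ → Prop) (m c d : ℕ) : num (flip A) m d c = num A m c d := by
  classical
  unfold num
  congr 1
  ext x
  simp only [Finset.mem_filter, Finset.mem_range, flip]
  constructor
  · rintro ⟨h1, h2, h3⟩
    refine ⟨h1, ?_, ?_⟩
    · rcases h3 with h | h
      · exact Or.inl h.symm
      · exact Or.inr h
    · rcases h2 with h | h
      · exact Or.inl h.symm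
      · exact Or.inr h
  · rintro ⟨h1, h2, h3⟩
    refine ⟨h1, ?_, ?_⟩
    · rcases h3 with h | h
      · exact Or.inl h.symm
      · exact Or.inr h
    · rcases h2 with h | h
      · exact Or.inl h.symm
      · exact Or.inr h

/-- NUM3. Intermediate values. The present elements `e_1 < e_2 < ...` of `[a, b]` satisfy
`num A m a e_j = j` and `num A m e_(c+1-j) b = j`. -/
theorem NUM3 {A : ℕ → ℕ → Prop} (hA : SLO A) {m a b j : ℕ} (h1 : 1 ≤ j)
    (hj : j ≤ num A m a b) :
    (∃ x < m, (a = x ∨ A a x) ∧ (x = b ∨ A x b) ∧ num A m a x = j) ∧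
    ∃ x < m, (a = x ∨ A a x) ∧ (x = b ∨ A x b) ∧ num A m x b = j := by
  refine ⟨NUM3_aux1 hA h1 hj, ?_⟩
  have hA' : SLO (flip A) :=
    ⟨fun x => hA.irr x, fun x y z h h' => hA.tr _ _ _ h' h, fun x y => by
      rcases hA.tri x y with h | h | h
      · exact Or.inr (Or.inr h)
      · exact Or.inr (Or.inl h)
      · exact Or.inl h⟩
  rw [← NUM3_aux2] at hj
  obtain ⟨x, hx, h2, h3, h4⟩ := NUM3_aux1 hA' h1 hj
  refine ⟨x, hx, ?_, ?_, ?_⟩
  · rcases h3 with h | h
    · exact Or.inl h.symm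
    · exact Or.inr h
  · rcases h2 with h | h
    · exact Or.inl h.symm
    · exact Or.inr h
  · rw [NUM3_aux2] at h4
    exact h4

end Pool.Agent.DMN
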