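import Pool.Agent.DMN.Defs
import Pool.Agent.DMN.DefsB
import Pool.Agent.DMN.DefsD
import Pool.Agent.DMN.P_NUM1
import Pool.Agent.DMN.P_NUM3

/-!
# DMN: NUM6, NUM7
-/

set_option autoImplicit false

namespace Pool.Agent.DMN

theorem NUM6_self {A : ℕ → ℕ → Prop} (hA : SLO A) (m v : ℕ) : num A m v v ≤ 1 := by
  classical
  unfold num
  rw [Finset.card_le_one]
  intro x hx y hy
  simp only [Finset.mem_filter, Finset.mem_range] at hx hy
  have h : ∀ z, ((v = z ∨ A v z) ∧ (z = v ∨ A z v)) → z = v := by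
    rintro z ⟨h1, h2⟩
    rcases h2 with h2 | h2
    · exact h2
    · rcases h1 with h1 | h1
      · exact h1.symm
      · exact absurd (hA.tr _ _ _ h1 h2) (hA.irr v)
  rw [h x hx.2, h y hy.2]

/-- NUM6. -/
theorem NUM6 {A : ℕ → ℕ → Prop} (hA : SLO A) {m g v v' : ℕ} (hvv : A v v') (hv : v < m)
    (hv' : v' < m) (h : 2 * g + 3 ≤ num A m v v') : ∃ y < m, Good A m g v v' y := by
  obtain ⟨⟨y, hy, h1, h2, h3⟩, -⟩ := NUM3 hA (m := m) (a := v) (b := v') (j := g + 2)
    (by omega) (by omega)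
  have h4 := NUM2' hA h1 h2 hy
  have h5 := NUM6_self hA m v
  have h6 := NUM6_self hA m v'
  refine ⟨y, hy, ?_, ?_, by omega, by omega⟩
  · rcases h1 with h1 | h1
    · subst h1
      omega
    · exact h1
  · rcases h2 with h2 | h2
    · subst h2
      omega
    · exact h2

/-- NUM7. -/
theorem NUM7 (A : ℕ → ℕ → Prop) (m c d : ℕ) :
    num (flip A) m d c = num A m c d ∧ below (flip A) m c = above A m c ∧
    above (flip A) m c = below A m c ∧ (SLO A → SLO (flip A)) ∧
    (Adj (flip A) m d c ↔ Adj A m c d) := by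
  classical
  refine ⟨?_, rfl, rfl, fun h => ⟨?_, ?_, ?_⟩, ?_⟩
  · unfold num
    congr 1
    apply Finset.filter_congr
    intro x _
    simp only [flip]
    constructor
    · rintro ⟨h1, h2⟩
      exact ⟨h2.imp Eq.symm id, h1.imp Eq.symm id⟩
    · rintro ⟨h1, h2⟩
      exact ⟨h2.imp Eq.symm id, h1.imp Eq.symm id⟩
  · intro x
    exact h.irr x
  · intro x y z h1 h2
    exact h.tr _ _ _ h2 h1
  · intro x y
    rcases h.tri x y with h1 | h1 | h1
    · exact Or.inr (Or.inr h1)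
    · exact Or.inr (Or.inl h1)
    · exact Or.inl h1
  · unfold Adj
    simp only [flip]
    constructor
    · rintro ⟨h1, h2⟩
      exact ⟨h1, fun w hw h3 => h2 w hw ⟨h3.2, h3.1⟩⟩
    · rintro ⟨h1, h2⟩
      exact ⟨h1, fun w hw h3 => h2 w hw ⟨h3.2, h3.1⟩⟩

end Pool.Agent.DMN
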