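import Pool.Agent.DMN.Defs
import Pool.Agent.DMN.DefsB
import Pool.Agent.DMN.DefsD
import Pool.Agent.DMN.P_GFI
import Pool.Agent.DMN.P_NUM1
import Pool.Agent.DMN.P_NUM6

/-!
# DMN: the target GD3
-/

set_option autoImplicit false

namespace Pool.Agent.DMN

theorem GD3 {A X : ℕ → ℕ → Prop} {a b t : ℕ} (G : Game A X a b t) {K : ℕ}
    (h : ∀ k ≥ K, G.f (k + 1) = G.f k) :
    ∃ K' v v' N, K ≤ K' ∧ A v v' ∧ (a = v ∨ A a v) ∧ (v' = b ∨ A v' b) ∧ 2 ≤ N ∧
      ∀ k ≥ K', G.v k = v ∧ G.v' k = v' ∧ num A (G.m k) v v' = N := by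
  classical
  obtain ⟨⟨lp, rp, hFI⟩, hm, -, -⟩ := GFI G
  have hA := G.hA
  have hf : ∀ k ≥ K, G.f k = G.f K := by
    intro k hk
    induction k, hk using Nat.le_induction with
    | base => rfl
    | succ j hj ih => rw [h j hj, ih]
  have hv : ∀ k ≥ K, G.v k = G.v K ∧ G.v' k = G.v' K := by
    intro k hk
    induction k, hk using Nat.le_induction with
    | base => exact ⟨rfl, rfl⟩
    | succ j hj ih =>
      obtain ⟨-, -, h1, -, h2⟩ := GST G j (h j hj)
      exact ⟨h1.trans ih.1, h2.trans ih.2⟩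
  have hmm : ∀ j k, j ≤ k → G.m j ≤ G.m k := by
    intro j k hjk
    induction k, hjk using Nat.le_induction with
    | base => exact le_rfl
    | succ i hi ih => exact ih.trans (hm i).le
  have hzz : A (G.z K) (G.z' K) := hA.tr _ _ _ (G.hzu K) (G.huz K)
  have hvv : A (G.v K) (G.v' K) := ((hFI K).mono _ (G.hz K) _ (G.hz' K)).1 hzz
  have r1 := (hFI K).rng2 _ (G.hz K)
  have r2 := (hFI K).rng2 _ (G.hz' K)
  simp only at r1 r2
  set F : ℕ → ℕ := fun k => num A (G.m k) (G.v K) (G.v' K) with hF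
  have hFm : ∀ j k, j ≤ k → F j ≤ F k := fun j k hjk => NUM1 A (hmm j k hjk) _ _
  have hFb : ∀ k ≥ K, F k ≤ 2 * (t + (G.f K).length) + 2 := by
    intro k hk
    by_contra hc
    push Not at hc
    have hlt1 : G.v K < G.m k := lt_of_lt_of_le r1.1 (hmm K k hk)
    have hlt2 : G.v' K < G.m k := lt_of_lt_of_le r2.1 (hmm K k hk)
    obtain ⟨y, hy, hg⟩ := NUM6 (g := t + (G.f K).length) hA hvv hlt1 hlt2 (by
      simp only [hF] at hc
      omega)
    rcases G.step k with ⟨y', _, _, hf'⟩ | ⟨hng, _⟩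
    · have := congrArg List.length (hf'.symm.trans (h k hk))
      simp at this
    · apply hng y hy
      rw [hf k hk, (hv k hk).1, (hv k hk).2]
      exact hg
  let P : ℕ → Prop := fun n => ∃ k ≥ K, F k = n
  set B := 2 * (t + (G.f K).length) + 2 with hB
  have hPK : P (F K) := ⟨K, le_rfl, rfl⟩
  have hspec : P (Nat.findGreatest P B) :=
    Nat.findGreatest_spec (P := P) (hFb K le_rfl) hPK
  obtain ⟨K', hK', hN⟩ := hspec
  refine ⟨K', G.v K, G.v' K, Nat.findGreatest P B, hK', hvv, r1.2.1, r2.2.2, ?_, ?_⟩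
  · rw [← hN]
    obtain ⟨i, hi⟩ := List.mem_iff_getElem?.1 (G.hz K)
    obtain ⟨j, hj⟩ := List.mem_iff_getElem?.1 (G.hz' K)
    have h1 := (hFI K).win i j _ _ hi hj hzz (G.nb K)
    have h2 : 2 ≤ F K := by
      simp only [hF]
      have := h1.1
      simp only at this
      omega
    exact h2.trans (hFm K K' hK')
  · intro k hk
    have hk' : K ≤ k := hK'.trans hk
    refine ⟨(hv k hk').1, (hv k hk').2, ?_⟩
    apply le_antisymm
    · exact Nat.le_findGreatest (hFb k hk') ⟨k, hk', rfl⟩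
    · rw [← hN]
      exact hFm K' k hk

end Pool.Agent.DMN
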