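import Pool.Agent.DMN.Defs
import Pool.Agent.DMN.DefsB
import Pool.Agent.DMN.DefsD
import Pool.Agent.DMN.P_GD3
import Pool.Agent.DMN.P_GFI
import Pool.Agent.DMN.P_NUM1
import Pool.Agent.DMN.P_NUM4

/-!
# DMN: the target GD4
-/

set_option autoImplicit false

namespace Pool.Agent.DMN

theorem GD4 {A X : ℕ → ℕ → Prop} {a b t : ℕ} (G : Game A X a b t) {K : ℕ}
    (h : ∀ k ≥ K, G.f (k + 1) = G.f k) :
    ∃ (S : Stk X) (m : ℕ → ℕ) (v v' : ℕ), A v v' ∧ (a = v ∨ A a v) ∧ (v' = b ∨ A v' b) ∧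
      (∀ k, m k < m (k + 1)) ∧ (∀ k, S.P k = num A (m k) a v) ∧
      (∀ k, S.Q k = num A (m k) v' b) ∧ ∀ k, S.N = num A (m k) v v' := by
  obtain ⟨K', v, v', N, _, hvv, hav, hvb, hN, hk⟩ := GD3 G h
  obtain ⟨⟨lp, rp, hFI⟩, hm, _, _⟩ := GFI G
  have hv : ∀ k, G.v (K' + k) = v := fun k => (hk (K' + k) (Nat.le_add_right _ _)).1
  have hv' : ∀ k, G.v' (K' + k) = v' := fun k => (hk (K' + k) (Nat.le_add_right _ _)).2.1
  have hNk : ∀ k, num A (G.m (K' + k)) v v' = N :=
    fun k => (hk (K' + k) (Nat.le_add_right _ _)).2.2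
  have hvm : ∀ k, v < G.m (K' + k) := by
    intro k
    have h1 := ((hFI (K' + k)).rng2 _ (G.hz (K' + k))).1
    rw [hv k] at h1
    exact h1
  have hvm' : ∀ k, v' < G.m (K' + k) := by
    intro k
    have h1 := ((hFI (K' + k)).rng2 _ (G.hz' (K' + k))).1
    rw [hv' k] at h1
    exact h1
  refine ⟨{
    n := fun k => G.n (K' + k)
    P := fun k => num A (G.m (K' + k)) a v
    Q := fun k => num A (G.m (K' + k)) v' b
    N := N
    gx := fun k => G.gx (K' + k)
    gy := fun k => G.gy (K' + k)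
    Cut := fun k => G.Cut (K' + k)
    ky := Nat.pair
    hX := G.hX
    lo := G.lo
    hi := G.hi
    hN := hN
    hn := fun k => G.hn (K' + k)
    hP := fun k => NUM1 A (hm (K' + k)).le a v
    hQ := fun k => NUM1 A (hm (K' + k)).le v' b
    hPQ := ?_
    hg := fun k => G.hg (K' + k)
    ins := fun k => G.ins (K' + k)
    pL := ?_
    pR := ?_
    cut := fun k => G.cut (K' + k)
    cutmono := fun k => G.cutmono (K' + k)
    kyinj := fun x y x' y' hxy => Nat.pair_eq_pair.1 hxy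
    key := ?_
    small := ?_ }, fun k => G.m (K' + k), v, v', hvv, hav, hvb, fun k => hm (K' + k),
    fun _ => rfl, fun _ => rfl, fun k => (hNk k).symm⟩
  · intro k
    have h1 := NUM2 G.hA hav hvv hvb (hvm (k + 1)) (hvm' (k + 1))
    have h2 := G.hm (K' + (k + 1))
    have h3 := G.hE (K' + k)
    have h4 := (NUM5 G.hA (G.m (K' + k))).1 a v v' b hav hvb
    have h5 := G.hm (K' + k)
    have h6 := G.hEn (K' + k)
    have h7 := hNk k
    have h8 := hNk (k + 1)
    have h9 : K' + (k + 1) = K' + k + 1 := rfl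
    rw [h9] at h1 h2 h8
    change G.n (K' + k) < num A (G.m (K' + k + 1)) a v + num A (G.m (K' + k + 1)) v' b
    omega
  · intro k
    have h1 := G.hP (K' + k)
    rw [hv k] at h1
    exact h1
  · intro k
    have h1 := G.hQ (K' + k)
    rw [hv' k] at h1
    exact h1
  · intro k x y hx hy hxy hc h1 h2
    refine G.key (K' + k) x y hx hy hxy hc ?_ ?_
    · rw [hv k]
      exact h1
    · rw [hv' k]
      exact h2
  · intro k x y hx hy hxy h1
    refine G.small (K' + k) x y hx hy hxy ?_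
    rw [hv k, hv' k, hNk k]
    exact h1

end Pool.Agent.DMN
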