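import Pool.Agent.DMN.Defs
import Pool.Agent.DMN.DefsB
import Pool.Agent.DMN.DefsD
import Pool.Agent.DMN.P_FAT
import Pool.Agent.DMN.P_FPS

/-!
# DMN: target LC1 (one step for a block of a region)
-/

set_option autoImplicit false

namespace Pool.Agent.DMN

theorem LC1_get1 {σ : ℕ → St} {s l i : ℕ} (hs : SF σ s l) (hlen : (σ s).1.length = nn s)
    (hi : i < l) : (σ (s + 1)).1.getD i 0 = (σ s).1.getD i 0 := by
  have h2 := hs.hi
  rw [hs.eqX, List.append_assoc, List.getD_eq_getElem?_getD, List.getD_eq_getElem?_getD,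
    List.getElem?_append_left (by rw [List.length_take]; omega), List.getElem?_take_of_lt hi]

theorem LC1_get2 {σ : ℕ → St} {s l i : ℕ} (hs : SF σ s l) (hlen : (σ s).1.length = nn s)
    (hi : l ≤ i) : (σ (s + 1)).1.getD (i + 2 * nn s) 0 = (σ s).1.getD i 0 := by
  have h2 := hs.hi
  rw [hs.eqX, List.getD_eq_getElem?_getD, List.getD_eq_getElem?_getD,
    List.getElem?_append_right (by
      rw [List.length_append, List.length_take, List.length_range']; omega),
    List.getElem?_drop, List.length_append, List.length_take, List.length_range']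
  congr 2
  omega

theorem LC1_get3 {σ : ℕ → St} {s l : ℕ} (hs : SF σ s l) (hlen : (σ s).1.length = nn s) :
    (σ (s + 1)).1.getD (l + 2 * nn s - 1) 0 = nn (s + 1) - 1 := by
  have h2 := hs.hi
  have h3 : nn (s + 1) = 3 * nn s := by
    unfold nn
    rw [pow_succ]
    ring
  rw [hs.eqX, List.append_assoc, List.getD_eq_getElem?_getD,
    List.getElem?_append_right (by rw [List.length_take]; omega),
    List.getElem?_append_left (by
      rw [List.length_take, List.length_range']; omega),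
    List.length_take, List.getElem?_range' (by omega), h3]
  simp only [Option.getD_some]
  omega

/-- cut positions `≤ l` after the insertion -/
theorem LC1_pos1 {σ : ℕ → St} {s l q : ℕ} {C' : List ℕ} (hs : SF σ s l)
    (hI : Inv s (σ s)) (hI' : Inv (s + 1) (σ (s + 1)))
    (hc : ∀ x < nn s, x ∈ C' ↔ x ∈ (σ (s + 1)).2.1) (hq : q ≤ l) :
    Pos (σ (s + 1)).1 (σ (s + 1)).2.1 q ↔ Pos (σ s).1 C' q := by
  have h2 := hs.hi
  have hlen := hI.len
  have hlen' := hI'.len
  have h3 : nn (s + 1) = 3 * nn s := by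
    unfold nn
    rw [pow_succ]
    ring
  unfold Pos
  by_cases h1 : 1 ≤ q
  · rw [LC1_get1 hs hlen (by omega : q - 1 < l), hlen, hlen']
    have hx : (σ s).1.getD (q - 1) 0 < nn s := by
      rw [← hI.mem, List.getD_eq_getElem _ _ (by omega : q - 1 < (σ s).1.length)]
      exact List.getElem_mem _
    rw [hc _ hx]
    constructor
    · rintro ⟨-, -, h⟩
      exact ⟨h1, by omega, h⟩
    · rintro ⟨-, -, h⟩
      exact ⟨h1, by omega, h⟩
  · constructor
    · rintro ⟨h, -, -⟩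
      exact absurd h h1
    · rintro ⟨h, -, -⟩
      exact absurd h h1

/-- cut positions `> l + 2 n` after the insertion -/
theorem LC1_pos2 {σ : ℕ → St} {s l q : ℕ} {C' : List ℕ} (hs : SF σ s l)
    (hI : Inv s (σ s)) (hI' : Inv (s + 1) (σ (s + 1)))
    (hc : ∀ x < nn s, x ∈ C' ↔ x ∈ (σ (s + 1)).2.1) (hq : l < q) (hqn : q ≤ nn s) :
    Pos (σ (s + 1)).1 (σ (s + 1)).2.1 (q + 2 * nn s) ↔ Pos (σ s).1 C' q := by
  have h2 := hs.hi
  have hlen := hI.len
  have hlen' := hI'.len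
  have h3 : nn (s + 1) = 3 * nn s := by
    unfold nn
    rw [pow_succ]
    ring
  unfold Pos
  have h4 : q + 2 * nn s - 1 = (q - 1) + 2 * nn s := by omega
  rw [h4, LC1_get2 hs hlen (by omega : l ≤ q - 1), hlen, hlen']
  have hx : (σ s).1.getD (q - 1) 0 < nn s := by
    rw [← hI.mem, List.getD_eq_getElem _ _ (by omega : q - 1 < (σ s).1.length)]
    exact List.getElem_mem _
  rw [hc _ hx]
  constructor
  · rintro ⟨-, -, h⟩
    exact ⟨by omega, by omega, h⟩
  · rintro ⟨-, -, h⟩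
    exact ⟨by omega, by omega, h⟩

/-- the end of the new cell is a cut position -/
theorem LC1_pos3 {σ : ℕ → St} {s l : ℕ} (hs : SF σ s l)
    (hI : Inv s (σ s)) (hI' : Inv (s + 1) (σ (s + 1))) :
    Pos (σ (s + 1)).1 (σ (s + 1)).2.1 (l + 2 * nn s) := by
  have h2 := hs.hi
  have hlo := hs.lo
  have hlen := hI.len
  have hlen' := hI'.len
  have h3 : nn (s + 1) = 3 * nn s := by
    unfold nn
    rw [pow_succ]
    ring
  refine ⟨by omega, by omega, ?_⟩
  rw [LC1_get3 hs hlen]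
  exact hs.cnew'

/-- a cell of `C'` is a cell of the next stage -/
theorem LC1_move {σ : ℕ → St} {x y B s l p e : ℕ} {C' : List ℕ} (hs : SF σ s l)
    (hI : Inv s (σ s)) (hI' : Inv (s + 1) (σ (s + 1)))
    (hc : ∀ x < nn s, x ∈ C' ↔ x ∈ (σ (s + 1)).2.1)
    (hl : Pos (σ s).1 C' l) (hpe : p < e) (hB : p + B ≤ e)
    (hp : Pos (σ s).1 C' p) (he : Pos (σ s).1 C' e)
    (hno : ∀ j, p < j → j < e → ¬ Pos (σ s).1 C' j)
    (hxy : ∀ i, p ≤ i → i < e → xo σ x ((σ s).1.getD i 0) ∧ xo σ ((σ s).1.getD i 0) y) :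
    ∃ p' q', Blk σ x y B (s + 1) p' q' ∧ q' - p' = e - p ∧
      ∀ i < e - p, (σ (s + 1)).1.getD (p' + i) 0 = (σ s).1.getD (p + i) 0 := by
  have hlen := hI.len
  have hen : e ≤ nn s := by
    have := he.2.1
    omega
  rcases Nat.lt_or_ge l e with hle | hle
  · -- the block is shifted
    have hlp : l ≤ p := by
      by_contra h
      exact hno l (by omega) hle hl
    refine ⟨p + 2 * nn s, e + 2 * nn s, ⟨by omega, by omega, ?_, ?_, ?_, ?_⟩, by omega, ?_⟩
    · rcases Nat.eq_or_lt_of_le hlp with h | h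
      · rw [← h]
        exact LC1_pos3 hs hI hI'
      · exact (LC1_pos2 hs hI hI' hc h (by omega)).2 hp
    · exact (LC1_pos2 hs hI hI' hc (by omega) hen).2 he
    · intro j hj1 hj2 hj
      obtain ⟨j', rfl⟩ : ∃ j', j = j' + 2 * nn s := ⟨j - 2 * nn s, by omega⟩
      exact hno j' (by omega) (by omega) ((LC1_pos2 hs hI hI' hc (by omega) (by omega)).1 hj)
    · intro i hi1 hi2
      obtain ⟨j, rfl⟩ : ∃ j, i = j + 2 * nn s := ⟨i - 2 * nn s, by omega⟩
      rw [LC1_get2 hs hlen (by omega)]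
      exact hxy j (by omega) (by omega)
    · intro i hi
      have : p + 2 * nn s + i = (p + i) + 2 * nn s := by omega
      rw [this, LC1_get2 hs hlen (by omega)]
  · -- the block is not shifted
    refine ⟨p, e, ⟨hB, hpe, ?_, ?_, ?_, ?_⟩, rfl, ?_⟩
    · exact (LC1_pos1 hs hI hI' hc (by omega)).2 hp
    · exact (LC1_pos1 hs hI hI' hc hle).2 he
    · intro j hj1 hj2 hj
      exact hno j hj1 hj2 ((LC1_pos1 hs hI hI' hc (by omega)).1 hj)
    · intro i hi1 hi2
      rw [LC1_get1 hs hlen (by omega)]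
      exact hxy i hi1 hi2
    · intro i hi
      rw [LC1_get1 hs hlen (by omega)]

/-- the common facts on the cuts `C'` after the splitting -/
theorem LC1_facts {k : ℕ} {σ : ℕ → St} (h : Run k σ) {B s : ℕ} (hL : Long k σ (2 * B + 2) s) :
    ∃ C' l, SF σ s l ∧ (∀ x < nn s, x ∈ C' ↔ x ∈ (σ (s + 1)).2.1) ∧ Pos (σ s).1 C' l ∧
      (∀ x ∈ (σ s).2.1, x ∈ C') ∧
      ∀ e ≤ nn s, Pos (σ s).1 C' e → ¬ Pos (σ s).1 (σ s).2.1 e → ∀ p, Pos (σ s).1 C' p → p < e →
        p + B ≤ e := by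
  have hI := h.inv s
  rcases hL with hP | ⟨w, hR, hA, hN⟩
  · obtain ⟨l, hl⟩ := FPS hI hP
    refine ⟨(σ s).2.1, l, hl.sf, hl.ceq, ?_, fun x hx => hx, ?_⟩
    · have h1 := hl.sf.cut
      have hlo := hl.sf.lo
      have hhi := hl.sf.hi
      have hlen := hI.len
      refine ⟨h1.1, h1.2.1, ?_⟩
      have hx : (σ s).1.getD (l - 1) 0 < nn s := by
        rw [← hI.mem, List.getD_eq_getElem _ _ (by omega : l - 1 < (σ s).1.length)]
        exact List.getElem_mem _
      exact (hl.ceq _ hx).2 h1.2.2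
    · intro e _ he hne
      exact absurd he hne
  · obtain ⟨C', l, f', hF⟩ := FAT hI hR hA
    have hlen := hI.len
    refine ⟨C', l, hF.sf, hF.ceq, hF.gap.2.2.1, hF.split.1, ?_⟩
    intro e hen he hne p hp hpe
    have h1 := (hF.split.2.2.2.1 e (by omega) p (by have := hp.2.1; omega) he hne
      (Or.inr hp)).2 hpe
    omega

theorem LC1 {k : ℕ} {σ : ℕ → St} (h : Run k σ) {x y B s p q : ℕ} (hB : 1 ≤ B)
    (hL : Long k σ (2 * B + 2) s) (hb : Blk σ x y B s p q) :
    (∃ p' q', Blk σ x y B (s + 1) p' q' ∧ q' - p' < q - p) ∨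
    ∃ p' q', Blk σ x y B (s + 1) p' q' ∧ q' - p' = q - p ∧
      ∀ i < q - p, (σ (s + 1)).1.getD (p' + i) 0 = (σ s).1.getD (p + i) 0 := by
  classical
  obtain ⟨C', l, hs, hc, hl, hCC, hlong⟩ := LC1_facts h hL
  obtain ⟨hb1, hb2, hb3, hb4, hb5, hb6⟩ := hb
  have hI := h.inv s
  have hI' := h.inv (s + 1)
  have hlen := hI.len
  have hup : ∀ j, Pos (σ s).1 (σ s).2.1 j → Pos (σ s).1 C' j := fun j hj =>
    ⟨hj.1, hj.2.1, hCC _ hj.2.2⟩
  by_cases hex : ∃ e, p < e ∧ e < q ∧ Pos (σ s).1 C' e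
  · left
    obtain ⟨h1, h2, h3⟩ := Nat.find_spec hex
    have hmin : ∀ j, p < j → j < Nat.find hex → ¬ Pos (σ s).1 C' j := by
      intro j hj1 hj2 hj3
      exact Nat.find_min hex hj2 ⟨hj1, by omega, hj3⟩
    have hBe : p + B ≤ Nat.find hex := by
      have hq := hb4.2.1
      exact hlong _ (by omega) h3 (hb5 _ h1 h2) p (hup _ hb3) h1
    obtain ⟨p', q', hblk, hlen', -⟩ := LC1_move hs hI hI' hc hl h1 hBe (hup _ hb3) h3 hmin
      (fun i hi1 hi2 => hb6 i hi1 (by omega))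
    exact ⟨p', q', hblk, by omega⟩
  · right
    exact LC1_move hs hI hI' hc hl hb2 hb1 (hup _ hb3) (hup _ hb4)
      (fun j hj1 hj2 hj3 => hex ⟨j, hj1, hj2, hj3⟩) hb6

end Pool.Agent.DMN
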