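import Pool.Agent.DMN.Defs
import Pool.Agent.DMN.DefsB
import Pool.Agent.DMN.DefsD
import Pool.Agent.DMN.P_ORN
import Pool.Agent.DMN.P_SFE

/-!
# DMN: target LC2 (the first long block between two labels)
-/

set_option autoImplicit false

namespace Pool.Agent.DMN

theorem LC2_nn_succ (s : ℕ) : nn (s + 1) = 3 * nn s := by
  unfold nn
  rw [pow_succ]
  ring

theorem LC2_nn_lt (s : ℕ) : s < nn s := by
  induction s with
  | zero => simp [nn]
  | succ s ih => rw [LC2_nn_succ]; omega

theorem LC2_nn_mono {s s' : ℕ} (h : s ≤ s') : nn s ≤ nn s' := by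
  unfold nn
  exact Nat.mul_le_mul_left 4 (Nat.pow_le_pow_right (by norm_num) h)

/-- every label `≥ nn S` is added at a stage `s ≥ S` -/
theorem LC2_stage {S w : ℕ} (hw : nn S ≤ w) : ∃ s ≥ S, nn s ≤ w ∧ w < nn (s + 1) := by
  have hex : ∃ s, w < nn (s + 1) :=
    ⟨w, lt_of_lt_of_le (LC2_nn_lt w) (LC2_nn_mono (Nat.le_succ w))⟩
  classical
  have h1 := Nat.find_spec hex
  have hmin : ∀ m < Nat.find hex, ¬ w < nn (m + 1) := fun m hm => Nat.find_min hex hm
  generalize Nat.find hex = s at h1 hmin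
  refine ⟨s, ?_, ?_, h1⟩
  · by_contra hlt
    have h2 : s + 1 ≤ S := by omega
    have := LC2_nn_mono h2
    omega
  · rcases Nat.eq_zero_or_pos s with h0 | h0
    · subst h0
      exact le_trans (LC2_nn_mono (Nat.zero_le S)) hw
    · have := hmin (s - 1) (by omega)
      rw [Nat.sub_add_cancel h0] at this
      omega

theorem LC2_get_left {X : List ℕ} {l n m j : ℕ} (hl : l ≤ X.length) (hj : j < l) :
    (X.take l ++ List.range' n m ++ X.drop l).getD j 0 = X.getD j 0 := by
  have h1 : j < (X.take l).length := by rw [List.length_take]; omega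
  rw [List.append_assoc, List.getD_append _ _ _ _ h1]
  rw [List.getD_eq_getElem?_getD, List.getD_eq_getElem?_getD, List.getElem?_take_of_lt hj]

theorem LC2_get_mid {X : List ℕ} {l n m j : ℕ} (hl : l ≤ X.length) (h1 : l ≤ j)
    (h2 : j < l + m) :
    (X.take l ++ List.range' n m ++ X.drop l).getD j 0 = n + (j - l) := by
  have hlen : (X.take l).length = l := by rw [List.length_take]; omega
  have h3 : (X.take l).length ≤ j := by omega
  rw [List.append_assoc, List.getD_append_right _ _ _ _ h3, hlen]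
  have h4 : j - l < (List.range' n m).length := by rw [List.length_range']; omega
  rw [List.getD_append _ _ _ _ h4, List.getD_eq_getElem _ _ h4, List.getElem_range']
  omega

theorem LC2 {k : ℕ} {σ : ℕ → St} (h : Run k σ) {x y : ℕ} (hf : Far (xo σ) x y) (B S : ℕ) :
    ∃ s ≥ S, ∃ p q, Blk σ x y B s p q := by
  obtain ⟨w, hw, hwS⟩ := hf.exists_gt (nn (S + x + y + B))
  obtain ⟨s, hs, hw1, hw2⟩ := LC2_stage (le_of_lt hwS)
  obtain ⟨l, hsf⟩ := SFE h s
  obtain ⟨horn, -⟩ := ORN h hsf
  have hsn := LC2_nn_lt s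
  have hx : x < nn s := by omega
  have hy : y < nn s := by omega
  have hlx : (σ s).1.idxOf x < l := ((horn x hx w hw1 hw2).1).1 hw.1
  have hly : l ≤ (σ s).1.idxOf y := ((horn y hy w hw1 hw2).2).1 hw.2
  have hlen : (σ s).1.length = nn s := (h.inv s).len
  have hsucc := LC2_nn_succ s
  have hlo := hsf.lo
  have hhi := hsf.hi
  have hl : l ≤ (σ s).1.length := by omega
  have hlen' : (σ (s + 1)).1.length = nn (s + 1) := (h.inv (s + 1)).len
  have hmid : ∀ j, l ≤ j → j < l + 2 * nn s → (σ (s + 1)).1.getD j 0 = nn s + (j - l) := by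
    intro j h1 h2
    rw [hsf.eqX]
    exact LC2_get_mid hl h1 h2
  refine ⟨s + 1, by omega, l, l + 2 * nn s, by omega, by omega, ?_, ?_, ?_, ?_⟩
  · obtain ⟨c1, c2, c3⟩ := hsf.cut
    refine ⟨c1, by omega, ?_⟩
    rw [hsf.eqX, LC2_get_left hl (by omega)]
    exact c3
  · refine ⟨by omega, by omega, ?_⟩
    rw [hmid _ (by omega) (by omega)]
    have : nn s + (l + 2 * nn s - 1 - l) = nn (s + 1) - 1 := by omega
    rw [this]
    exact hsf.cnew'
  · intro j h1 h2 hp
    obtain ⟨-, -, c3⟩ := hp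
    rw [hmid _ (by omega) (by omega)] at c3
    have := hsf.cnew _ (by omega) c3
    omega
  · intro i h1 h2
    rw [hmid i h1 h2]
    have e1 : nn s ≤ nn s + (i - l) := by omega
    have e2 : nn s + (i - l) < nn (s + 1) := by omega
    exact ⟨((horn x hx _ e1 e2).1).2 hlx, ((horn y hy _ e1 e2).2).2 hly⟩

end Pool.Agent.DMN
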