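import Pool.Agent.DMN.Defs
import Pool.Agent.DMN.DefsB
import Pool.Agent.DMN.DefsD
import Pool.Agent.DMN.P_LC1
import Pool.Agent.DMN.P_LC2
import Pool.Agent.DMN.P_ORB
import Pool.Agent.DMN.P_ORD

set_option autoImplicit false

namespace Pool.Agent.DMN

theorem LC3_nn (w : ℕ) : w < nn w := by
  unfold nn
  have : w < 3 ^ w := Nat.lt_pow_self (by norm_num)
  omega

theorem LC3_nn_mono {s t : ℕ} (h : s ≤ t) : nn s ≤ nn t := by
  unfold nn
  exact Nat.mul_le_mul_left 4 (Nat.pow_le_pow_right (by norm_num) h)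

theorem LC3 {k : ℕ} {σ : ℕ → St} (h : Run k σ) (hL : ∀ B, ∃ S, ∀ s ≥ S, Long k σ B s) {x y : ℕ}
    (hf : Far (xo σ) x y) (B : ℕ) :
    ∃ x' y', x' ∈ Icc' (xo σ) x y ∧ y' ∈ Icc' (xo σ) x y ∧ (Icc' (xo σ) x' y').Finite ∧
      B ≤ (Icc' (xo σ) x' y').ncard := by
  classical
  obtain ⟨S, hS⟩ := hL (2 * (B + 1) + 2)
  -- the sizes of the blocks of stages `≥ S`
  let P : ℕ → Prop := fun d => ∃ s ≥ S, ∃ p q, Blk σ x y (B + 1) s p q ∧ q - p = d
  have hex : ∃ d, P d := by
    obtain ⟨s, hs, p, q, hb⟩ := LC2 h hf (B + 1) S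
    exact ⟨q - p, s, hs, p, q, hb, rfl⟩
  obtain ⟨d, ⟨s, hs, p, q, hb, hd⟩, hmin⟩ : ∃ d, P d ∧ ∀ e < d, ¬ P e :=
    ⟨Nat.find hex, Nat.find_spec hex, fun e he => Nat.find_min hex he⟩
  have hd1 : B + 1 ≤ d := by
    have := hb.1
    omega
  -- the same labels at all later stages
  have hall : ∀ n, ∃ p' q', Blk σ x y (B + 1) (s + n) p' q' ∧ q' - p' = d ∧
      ∀ i < d, (σ (s + n)).1.getD (p' + i) 0 = (σ s).1.getD (p + i) 0 := by
    intro n
    induction n with
    | zero => exact ⟨p, q, hb, hd, fun i _ => rfl⟩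
    | succ n ih =>
      obtain ⟨p', q', hb', hd', hi⟩ := ih
      rcases LC1 h (by omega) (hS (s + n) (by omega)) hb' with
        ⟨p'', q'', h1, h2⟩ | ⟨p'', q'', h1, h2, h3⟩
      · exact absurd ⟨s + n + 1, by omega, p'', q'', h1, rfl⟩ (hmin _ (by omega))
      · refine ⟨p'', q'', h1, by omega, fun i hi' => ?_⟩
        rw [← hi i hi', ← h3 i (by omega)]
        rfl
  have hORB := fun t => ORB h t
  have hORD := (ORD h).2
  have hpq : ∀ n p' q', Blk σ x y (B + 1) (s + n) p' q' → q' ≤ nn (s + n) := by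
    intro n p' q' hb'
    have h1 := hb'.2.2.2.1.2.1
    rwa [(h.inv (s + n)).len] at h1
  have hq : q ≤ nn s := hpq 0 p q hb
  let lab : ℕ → ℕ := fun i => (σ s).1.getD (p + i) 0
  have hlab : ∀ i < d, lab i < nn s ∧ (σ s).1.idxOf (lab i) = p + i := fun i hi =>
    (hORB s).2.1 (p + i) (by omega)
  have hxy : ∀ i < d, xo σ x (lab i) ∧ xo σ (lab i) y := fun i hi =>
    hb.2.2.2.2.2 (p + i) (by omega) (by omega)
  have hIcc : Icc' (xo σ) (lab 0) (lab (d - 1)) =
      ((Finset.range d).image lab : Finset ℕ) := by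
    ext w
    simp only [Icc', Set.mem_ofPred_eq, Finset.coe_image, Finset.coe_range, Set.mem_image,
      Set.mem_Iio]
    constructor
    · rintro ⟨h1, h2⟩
      obtain ⟨p', q', hb', hd', hi⟩ := hall w
      have hwn : w < nn (s + w) := lt_of_lt_of_le (LC3_nn w) (LC3_nn_mono (by omega))
      have hq' := hpq w p' q' hb'
      have hsn : nn s ≤ nn (s + w) := LC3_nn_mono (by omega)
      have hidx : ∀ i < d, (σ (s + w)).1.idxOf (lab i) = p' + i := by
        intro i hi'
        have h3 := ((hORB (s + w)).2.1 (p' + i) (by omega)).2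
        rwa [hi i hi'] at h3
      have hl : ∀ i < d, lab i < nn (s + w) := fun i hi' => lt_of_lt_of_le (hlab i hi').1 hsn
      have h3 : p' ≤ (σ (s + w)).1.idxOf w := by
        rcases h1 with h1 | h1
        · have h4 := hidx 0 (by omega)
          rw [h1] at h4
          omega
        · have h4 := (hORD (s + w) _ _ (hl 0 (by omega)) hwn).1 h1
          rw [hidx 0 (by omega)] at h4
          omega
      have h5 : (σ (s + w)).1.idxOf w ≤ p' + (d - 1) := by
        rcases h2 with h2 | h2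
        · have h4 := hidx (d - 1) (by omega)
          rw [← h2] at h4
          omega
        · have h4 := (hORD (s + w) _ _ hwn (hl (d - 1) (by omega))).1 h2
          rw [hidx (d - 1) (by omega)] at h4
          omega
      refine ⟨(σ (s + w)).1.idxOf w - p', by omega, ?_⟩
      have h6 := ((hORB (s + w)).1 w hwn).2.2.2
      have h7 := hi ((σ (s + w)).1.idxOf w - p') (by omega)
      rw [show p' + ((σ (s + w)).1.idxOf w - p') = (σ (s + w)).1.idxOf w by omega, h6] at h7
      exact h7.symm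
    · rintro ⟨i, hi, rfl⟩
      constructor
      · rcases Nat.eq_zero_or_pos i with h0 | h0
        · exact Or.inl (by rw [h0])
        · right
          rw [hORD s _ _ (hlab 0 (by omega)).1 (hlab i hi).1, (hlab 0 (by omega)).2,
            (hlab i hi).2]
          omega
      · rcases Nat.lt_or_ge i (d - 1) with h0 | h0
        · right
          rw [hORD s _ _ (hlab i hi).1 (hlab (d - 1) (by omega)).1, (hlab i hi).2,
            (hlab (d - 1) (by omega)).2]
          omega
        · exact Or.inl (by rw [show i = d - 1 by omega])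
  refine ⟨lab 0, lab (d - 1), ⟨Or.inr (hxy 0 (by omega)).1, Or.inr (hxy 0 (by omega)).2⟩,
    ⟨Or.inr (hxy _ (by omega)).1, Or.inr (hxy _ (by omega)).2⟩, ?_, ?_⟩
  · rw [hIcc]
    exact Finset.finite_toSet _
  · rw [hIcc, Set.ncard_coe_finset, Finset.card_image_of_injOn, Finset.card_range]
    · omega
    · intro i hi j hj hij
      simp only [Finset.coe_range, Set.mem_Iio] at hi hj
      have h1 := (hlab i hi).2
      have h2 := (hlab j hj).2
      rw [hij] at h1
      omega

end Pool.Agent.DMN
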