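import Pool.Agent.DMN.DefsB

/-!
# DMN: the opponent (targets OPA, OPC)
-/

set_option autoImplicit false

namespace Pool.Agent.DMN

theorem OPA_opv {k s s' M : ℕ} (h : Ok k s M) (hs : s ≤ s') :
    ∀ x < M, ∀ y < M, opv k s' x y = opv k s x y := by
  intro x hx y hy
  obtain ⟨v, hv⟩ := Option.isSome_iff_exists.1 (h.1 x hx y hy)
  rw [hv]
  have h1 : v ∈ Nat.Partrec.Code.evaln s (Denumerable.ofNat Nat.Partrec.Code k)
      (Nat.pair x y) := hv
  exact Nat.Partrec.Code.evaln_mono hs h1

theorem OPA_olt {k s s' M : ℕ} (h : Ok k s M) (hs : s ≤ s') :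
    ∀ x < M, ∀ y < M, (olt k s x y ↔ olt k s' x y) := by
  intro x hx y hy
  unfold olt
  rw [OPA_opv h hs x hx y hy]

/-- OPA. Monotonicity in the number of steps: `Nat.Partrec.Code.evaln_mono`. (2): labels. -/
theorem OPA {k s s' M M' : ℕ} (h : Ok k s M) (hM : M' ≤ M) (hs : s ≤ s') :
    Ok k s' M' ∧ ∀ x < M, ∀ y < M, (olt k s x y ↔ olt k s' x y) := by
  have ho := OPA_olt h hs
  refine ⟨⟨?_, ?_, ?_, ?_⟩, ho⟩
  · intro x hx y hy
    rw [OPA_opv h hs x (by omega) y (by omega)]
    exact h.1 x (by omega) y (by omega)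
  · intro x hx y hy
    rw [← ho x (by omega) y (by omega), ← ho y (by omega) x (by omega)]
    exact h.2.1 x (by omega) y (by omega)
  · intro x hx y hy
    rw [← ho x (by omega) y (by omega), ← ho y (by omega) x (by omega)]
    exact h.2.2.1 x (by omega) y (by omega)
  · intro x hx y hy z hz
    rw [← ho x (by omega) y (by omega), ← ho y (by omega) z (by omega),
      ← ho x (by omega) z (by omega)]
    exact h.2.2.2 x (by omega) y (by omega) z (by omega)

theorem OPC_cmp {k s s' M M' x y : ℕ} (h : Ok k s M) (h' : Ok k s' M') (hx : x < M) (hy : y < M)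
    (hx' : x < M') (hy' : y < M') : olt k s x y ↔ olt k s' x y := by
  rw [OPA_olt h (le_max_left s s') x hx y hy, OPA_olt h' (le_max_right s s') x hx' y hy']

/-- OPC. If `Ok k s M` happens for every `M` then there is a total order `A`: put
`A x y = ∃ s M, x < M ∧ y < M ∧ Ok k s M ∧ olt k s x y`; by OPA the value does not depend on `s`,
`M` (compare two of them with `max s s'` and `max M M'`, or with a common `s''`). -/
theorem OPC {k : ℕ} (h : ∀ M, ∃ s, Ok k s M) : ∃ A, SLO A ∧ Real k A := by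
  have key : ∀ {s M x y : ℕ}, Ok k s M → x < M → y < M →
      (olt k s x y ↔ ∃ s M, x < M ∧ y < M ∧ Ok k s M ∧ olt k s x y) := by
    intro s M x y hok hx hy
    constructor
    · intro ho
      exact ⟨s, M, hx, hy, hok, ho⟩
    · rintro ⟨s', M', hx', hy', hok', ho'⟩
      exact (OPC_cmp hok hok' hx hy hx' hy').2 ho'
  refine ⟨fun x y => ∃ s M, x < M ∧ y < M ∧ Ok k s M ∧ olt k s x y, ⟨?_, ?_, ?_⟩, h, ?_⟩
  · rintro x ⟨s, M, -, -, -, ho⟩
    exact ho.2 rfl
  · intro x y z hxy hyz
    obtain ⟨s, hs⟩ := h (x + y + z + 1)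
    refine (key hs (by omega) (by omega)).1 ?_
    exact hs.2.2.2 x (by omega) y (by omega) z (by omega)
      ((key hs (by omega) (by omega)).2 hxy) ((key hs (by omega) (by omega)).2 hyz)
  · intro x y
    obtain ⟨s, hs⟩ := h (x + y + 1)
    rcases hs.2.1 x (by omega) y (by omega) with h1 | h1 | h1
    · exact Or.inr (Or.inl h1)
    · exact Or.inl ((key hs (by omega) (by omega)).1 h1)
    · exact Or.inr (Or.inr ((key hs (by omega) (by omega)).1 h1))
  · intro s M x y hok hx hy
    exact key hok hx hy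

end Pool.Agent.DMN
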