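import Pool.Agent.DMN.Defs
import Pool.Agent.DMN.DefsB
import Pool.Agent.DMN.DefsD
import Pool.Agent.DMN.P_AS2
import Pool.Agent.DMN.P_AS5
import Pool.Agent.DMN.P_NUM1
import Pool.Agent.DMN.P_OPA

/-!
# DMN: targets OKI, ELI (a frame which attacks infinitely often)
-/

set_option autoImplicit false

namespace Pool.Agent.DMN

theorem OKI_num_le (A : ℕ → ℕ → Prop) (m c d : ℕ) : num A m c d ≤ m := by
  classical
  unfold num
  exact le_trans (Finset.card_filter_le _ _) (by simp)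

theorem OKI_nn_lt (s : ℕ) : s < nn s := by
  have h : s < 3 ^ s := Nat.lt_pow_self (by norm_num)
  unfold nn
  omega

/-- the size of the frame at the attack number `j + 1` -/
theorem OKI_size {k : ℕ} {σ : ℕ → St} (h : Run k σ) {i T : ℕ} (D : AS k σ i T) (j : ℕ) :
    fl (fr (σ (D.τ (j + 1))) i) + fR (fr (σ (D.τ (j + 1))) i) = nn (D.τ j) := by
  rw [AS2 h D j (D.τ (j + 1)) (D.mono (Nat.lt_succ_self j)) le_rfl]
  have := (D.af j).sf.hi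
  change D.l j + (nn (D.τ j) - D.l j) = nn (D.τ j)
  omega

theorem OKI_tau {k : ℕ} {σ : ℕ → St} {i T : ℕ} (D : AS k σ i T) (j : ℕ) :
    j < nn (D.τ j) :=
  lt_of_le_of_lt (D.mono.id_le j) (OKI_nn_lt _)

theorem OKI {k : ℕ} {σ : ℕ → St} (h : Run k σ) {i T : ℕ} (D : AS k σ i T) :
    ∃ A, SLO A ∧ Real k A := by
  refine OPC fun M => ⟨D.τ (M + 1), ?_⟩
  have hF := D.af (M + 1)
  refine (OPA hF.ok ?_ le_rfl).1
  have h1 := hF.dat.1.1
  have h2 := hF.dat.1.2.2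
  have h3 := OKI_num_le (olt k (D.τ (M + 1))) (wm (D.ws (M + 1))) (ca (cd i)) (cb (cd i))
  have h4 := OKI_size h D M
  have h5 := OKI_tau D M
  omega

/-- the evidence at the attack number `j + 1` -/
theorem ELI_ev {k : ℕ} {σ : ℕ → St} (h : Run k σ) {A : ℕ → ℕ → Prop} (hA : SLO A)
    (hR : Real k A) {i T : ℕ} (D : AS k σ i T) (j : ℕ) :
    Ev A k (wM (D.ws (j + 1))) (3 * nn (D.τ j)) (cd i) ∧ j < 3 * nn (D.τ j) ∧
      j ≤ wM (D.ws (j + 1)) := by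
  have hD := (AS5 h hA hR D (j + 1)).1
  have h1 := hD.1.1
  have h2 := hD.1.2.1
  have h3 := hD.1.2.2
  rw [OKI_size h D j] at h2 h3
  have h4 := OKI_num_le A (wm (D.ws (j + 1))) (ca (cd i)) (cb (cd i))
  have h5 := OKI_tau D j
  exact ⟨h2, by omega, by omega⟩

theorem ELI {k : ℕ} {σ : ℕ → St} (h : Run k σ) {A : ℕ → ℕ → Prop} (hA : SLO A)
    (hR : Real k A) {i T : ℕ} (D : AS k σ i T) : EvLim A k (cd i) := by
  refine ⟨(ELI_ev h hA hR D 0).1.2.1, ⟨wM (D.ws (0 + 1)), fun M hM => ?_⟩, fun x => ?_⟩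
  · obtain ⟨hE0, -, -⟩ := ELI_ev h hA hR D 0
    obtain ⟨hE1, -, hM1⟩ := ELI_ev h hA hR D M
    obtain ⟨a1, a2⟩ := hE0.2.2.1
    obtain ⟨b1, b2⟩ := hE1.2.2.1
    have c1 := NUM1 A hM (cm1 (cd i)) (cm2 (cd i))
    have c2 := NUM1 A hM (cm3 (cd i)) (cm4 (cd i))
    have d1 := NUM1 A hM1 (cm1 (cd i)) (cm2 (cd i))
    have d2 := NUM1 A hM1 (cm3 (cd i)) (cm4 (cd i))
    constructor <;> omega
  · obtain ⟨hE, hx, -⟩ := ELI_ev h hA hR D x
    obtain ⟨e1, e2, e3, e4, e5, e6⟩ := hE.2.2.2 x hx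
    refine ⟨fun hh => ?_, fun hh => ?_, fun hh => ?_, fun hh => ?_, fun hh => ?_, fun hh => ?_⟩
    · obtain ⟨w, -, hw⟩ := e1 hh
      exact ⟨w, hw⟩
    · obtain ⟨w, -, hw⟩ := e2 hh
      exact ⟨w, hw⟩
    · obtain ⟨w, -, hw⟩ := e3 hh
      exact ⟨w, hw⟩
    · obtain ⟨w, -, hw⟩ := e4 hh
      exact ⟨w, hw⟩
    · obtain ⟨w, -, hw⟩ := e5 hh
      exact ⟨w, hw⟩
    · obtain ⟨w, -, hw⟩ := e6 hh
      exact ⟨w, hw⟩

end Pool.Agent.DMN
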