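import Pool.Agent.DMN.Defs
import Pool.Agent.DMN.DefsB
import Pool.Agent.DMN.DefsD
import Pool.Agent.DMN.P_CAS
import Pool.Agent.DMN.P_ONB

/-!
# PRA: one permanent frame attacks infinitely often with small windows (MP_55b29c_lc)
-/

set_option autoImplicit false

namespace Pool.Agent.DMN

/-- Pigeonhole principle. -/
theorem PRA_pig {P : ℕ → ℕ → Prop} {B : ℕ} (h : ∀ S, ∃ s ≥ S, ∃ T < B, P s T) :
    ∃ T, ∀ S, ∃ s ≥ S, P s T := by
  by_contra hc
  push Not at hc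
  choose S hS using hc
  obtain ⟨s, hs, T, hT, hP⟩ := h ((Finset.range B).sup S)
  exact hS T s (le_trans (Finset.le_sup (f := S) (Finset.mem_range.2 hT)) hs) hP

/-- A frame was on the stack at all earlier stages after its time stamp. -/
theorem PRA_down {k : ℕ} {σ : ℕ → St} (h : Run k σ) {i T : ℕ} (d : ℕ) :
    On σ i T (T + d) → On σ i T T := by
  induction d with
  | zero => exact id
  | succ d ih => exact fun ho => ih (ONA h (Nat.le_add_right T d) ho)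

theorem PRA {k : ℕ} {σ : ℕ → St} (h : Run k σ) {B : ℕ} (hB : ∀ S, ∃ s ≥ S, ¬ Long k σ B s) :
    ∃ i T S0, (∀ s ≥ S0, On σ i T s) ∧
      ∀ S, ∃ s ≥ S, AttAt k σ i s ∧ ∀ w, Req k s (σ s) w → Att k s (σ s) w (σ (s + 1)) →
        num (olt k s) (wm w) (wv w) (wv' w) < B := by
  have h1 : ∀ S, ∃ s ≥ S, ∃ T < B, On σ (Nat.unpair s).1 T s ∧ T ≤ s ∧
      AttAt k σ (Nat.unpair s).1 s ∧ ∀ w, Req k s (σ s) w → Att k s (σ s) w (σ (s + 1)) →
        num (olt k s) (wm w) (wv w) (wv' w) < B := by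
    intro S
    obtain ⟨s, hs, hL⟩ := hB S
    have hw : ∀ w, Req k s (σ s) w → Att k s (σ s) w (σ (s + 1)) →
        num (olt k s) (wm w) (wv w) (wv' w) < B := by
      intro w hr ha
      by_contra hc
      exact hL (Or.inr ⟨w, hr, ha, not_lt.1 hc⟩)
    rcases CAS h s with ⟨w, C', l, f', hr, ha, haf⟩ | ⟨-, hp, -⟩
    · have hlt := hw w hr ha
      have h3 := haf.dat.2.2.2.2.2.2.2.1
      refine ⟨s, hs, ft (fr (σ s) (Nat.unpair s).1), by omega, ⟨haf.i2, rfl⟩,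
        (h.inv s).tle _ haf.i2, ⟨rfl, w, hr, ha⟩, hw⟩
    · exact absurd (Or.inl hp) hL
  obtain ⟨T, hT⟩ := PRA_pig h1
  obtain ⟨s0, -, ho0, hle0, -⟩ := hT 0
  have hTT : ∀ {i s : ℕ}, On σ i T s → T ≤ s → On σ i T T := by
    intro i s ho hle
    obtain ⟨d, rfl⟩ := Nat.exists_eq_add_of_le hle
    exact PRA_down h d ho
  have heq : ∀ s, On σ (Nat.unpair s).1 T s → T ≤ s →
      (Nat.unpair s).1 = (Nat.unpair s0).1 := by
    intro s ho hle
    exact (ONB h).1 _ T (hTT ho hle) (hTT ho0 hle0)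
  refine ⟨(Nat.unpair s0).1, T, T, ?_, ?_⟩
  · apply (ONB h).2
    intro S
    obtain ⟨s, hs, ho, hle, -⟩ := hT S
    exact ⟨s, hs, heq s ho hle ▸ ho⟩
  · intro S
    obtain ⟨s, hs, ho, hle, ha, hw⟩ := hT S
    exact ⟨s, hs, heq s ho hle ▸ ha, hw⟩

end Pool.Agent.DMN
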