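import Pool.Agent.DMN.Defs
import Pool.Agent.DMN.DefsB
import Pool.Agent.DMN.DefsD

set_option autoImplicit false

namespace Pool.Agent.DMN

theorem NUM8_bmono {X : ℕ → ℕ → Prop} (hX : SLO X) {n v w : ℕ} (h : v = w ∨ X v w) :
    below X n v ≤ below X n w := by
  classical
  unfold below
  apply Finset.card_le_card
  intro z hz
  simp only [Finset.mem_filter, Finset.mem_range] at hz ⊢
  refine ⟨hz.1, ?_⟩
  rcases hz.2 with rfl | h1
  · exact h
  · rcases h with rfl | h
    · exact Or.inr h1
    · exact Or.inr (hX.tr _ _ _ h1 h)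

theorem NUM8_blt {X : ℕ → ℕ → Prop} (hX : SLO X) {n v w : ℕ} (h : X v w) (hw : w < n) :
    below X n v + 1 ≤ below X n w := by
  classical
  apply Nat.succ_le_of_lt
  unfold below
  apply Finset.card_lt_card
  rw [Finset.ssubset_iff_of_subset]
  · refine ⟨w, by simp [hw], ?_⟩
    simp only [Finset.mem_filter, Finset.mem_range, not_and, not_or]
    intro _
    constructor
    · rintro rfl
      exact hX.irr _ h
    · intro h'
      exact hX.irr _ (hX.tr _ _ _ h h')
  · intro z hz
    simp only [Finset.mem_filter, Finset.mem_range] at hz ⊢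
    refine ⟨hz.1, Or.inr ?_⟩
    rcases hz.2 with rfl | h1
    · exact h
    · exact hX.tr _ _ _ h1 h

theorem NUM8_flip {X : ℕ → ℕ → Prop} (n c : ℕ) : below (flip X) n c = above X n c := rfl

theorem NUM8_slo {X : ℕ → ℕ → Prop} (hX : SLO X) : SLO (flip X) :=
  ⟨hX.irr, fun x y z h h' => hX.tr z y x h' h, fun x y => by
    rcases hX.tri x y with h | h | h
    · exact Or.inr (Or.inr h)
    · exact Or.inr (Or.inl h)
    · exact Or.inl h⟩

open Classical in
theorem NUM8_disj {X : ℕ → ℕ → Prop} (hX : SLO X) {n v w : ℕ} (h : X v w) :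
    below X n v + above X n w =
      ((Finset.range n).filter fun z => (z = v ∨ X z v) ∨ (z = w ∨ X w z)).card := by
  unfold below above
  rw [← Finset.card_union_of_disjoint, ← Finset.filter_or]
  · rw [Finset.disjoint_left]
    intro z h1 h2
    simp only [Finset.mem_filter, Finset.mem_range] at h1 h2
    have h3 : X z w := by
      rcases h1.2 with h4 | h4
      · rw [h4]
        exact h
      · exact hX.tr _ _ _ h4 h
    rcases h2.2 with h4 | h4
    · rw [h4] at h3
      exact hX.irr _ h3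
    · exact hX.irr _ (hX.tr _ _ _ h4 h3)

theorem NUM8 {X : ℕ → ℕ → Prop} (hX : SLO X) (n : ℕ) :
    (∀ x y, x < n → y < n → Adj X n x y → below X n x + above X n y = n) ∧
    (∀ v w, X v w → w < n → below X n v + 1 ≤ below X n w) ∧
    (∀ v w, X v w → v < n → above X n w + 1 ≤ above X n v) ∧
    (∀ v w, X v w → below X n v + above X n w ≤ n) ∧
    ∀ v w, v = w ∨ X v w → below X n v ≤ below X n w ∧ above X n w ≤ above X n v := by
  classical
  refine ⟨?_, fun v w h hw => NUM8_blt hX h hw, fun v w h hv => ?_, ?_, fun v w h => ⟨?_, ?_⟩⟩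
  · intro x y hx hy hxy
    rw [NUM8_disj hX hxy.1]
    conv_rhs => rw [← Finset.card_range n]
    refine congrArg Finset.card (Finset.filter_true_of_mem ?_)
    intro z hz
    rw [Finset.mem_range] at hz
    rcases hX.tri z x with h | h | h
    · exact Or.inl (Or.inr h)
    · exact Or.inl (Or.inl h)
    · rcases hX.tri z y with h' | h' | h'
      · exact absurd ⟨h, h'⟩ (hxy.2 z hz)
      · exact Or.inr (Or.inl h')
      · exact Or.inr (Or.inr h')
  · exact NUM8_blt (X := flip X) (NUM8_slo hX) h hv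
  · intro v w h
    rw [NUM8_disj hX h]
    exact (Finset.card_filter_le _ _).trans (le_of_eq (Finset.card_range n))
  · exact NUM8_bmono hX h
  · exact NUM8_bmono (X := flip X) (NUM8_slo hX) (h.imp Eq.symm id)

theorem NUM9_right {X : ℕ → ℕ → Prop} (hX : SLO X) {n x y : ℕ} (hy : y < n)
    (hxy : X x y) : ∃ x' < n, (x' = y ∨ X x' y) ∧ Adj X n x x' := by
  classical
  let S := (Finset.range n).filter fun w => X x w
  have hS : S.Nonempty := ⟨y, by simp [S, hy, hxy]⟩
  obtain ⟨b, hbS, hb⟩ := S.exists_min_image (fun b => below X n b) hS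
  have hbm : b < n ∧ X x b := by simpa [S] using hbS
  have hkey : ∀ w < n, X x w → (b = w ∨ X b w) := by
    intro w hw hxw
    rcases hX.tri b w with h | h | h
    · exact Or.inr h
    · exact Or.inl h
    · exfalso
      have h1 := hb w (by simp [S, hw, hxw])
      have h2 := NUM8_blt hX h hbm.1
      omega
  refine ⟨b, hbm.1, hkey y hy hxy, hbm.2, ?_⟩
  rintro w hw ⟨h1, h2⟩
  rcases hkey w hw h1 with rfl | h3
  · exact hX.irr _ h2
  · exact hX.irr _ (hX.tr _ _ _ h2 h3)

theorem NUM9 {X : ℕ → ℕ → Prop} (hX : SLO X) {n x y : ℕ} (hx : x < n) (hy : y < n)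
    (hxy : X x y) :
    (∃ y' < n, (x = y' ∨ X x y') ∧ Adj X n y' y) ∧
    ∃ x' < n, (x' = y ∨ X x' y) ∧ Adj X n x x' := by
  refine ⟨?_, NUM9_right hX hy hxy⟩
  obtain ⟨z, hz, h1, h2⟩ := NUM9_right (X := flip X) (NUM8_slo hX) (n := n) (x := y) (y := x) hx
    hxy
  exact ⟨z, hz, h1.imp Eq.symm id, h2.1, fun w hw h => h2.2 w hw ⟨h.2, h.1⟩⟩

end Pool.Agent.DMN
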