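import Pool.Agent.DMN.Defs
import Pool.Agent.DMN.DefsB
import Pool.Agent.DMN.DefsD
import Pool.Agent.DMN.P_NUM6

/-!
# DMN target SFL
-/

set_option autoImplicit false

namespace Pool.Agent.DMN

theorem SFL {X : ℕ → ℕ → Prop} (S : Stk X) :
    ∃ S' : Stk (flip X), S'.n = S.n ∧ S'.P = S.Q ∧ S'.Q = S.P ∧ S'.N = S.N := by
  have hb : ∀ m c, below (flip X) m c = above X m c := fun m c => (NUM7 X m c c).2.1
  have ha : ∀ m c, above (flip X) m c = below X m c := fun m c => (NUM7 X m c c).2.2.1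
  have hn : ∀ m c d, num (flip X) m d c = num X m c d := fun m c d => (NUM7 X m c d).1
  have hadj : ∀ m c d, Adj (flip X) m d c ↔ Adj X m c d :=
    fun m c d => (NUM7 X m c d).2.2.2.2
  refine ⟨{ n := S.n, P := S.Q, Q := S.P, N := S.N, gx := S.gy, gy := S.gx,
            Cut := fun k x y => S.Cut k y x, ky := fun x y => S.ky y x,
            hX := (NUM7 X 0 0 0).2.2.2.1 S.hX,
            lo := S.hi, hi := S.lo, hN := S.hN, hn := S.hn, hP := S.hQ, hQ := S.hP,
            hPQ := fun k => by rw [add_comm]; exact S.hPQ k,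
            hg := fun k => ⟨(S.hg k).2.1, (S.hg k).1, (hadj _ _ _).2 (S.hg k).2.2⟩,
            ins := fun k w h1 h2 => ⟨(S.ins k w h1 h2).2, (S.ins k w h1 h2).1⟩,
            pL := fun k => by rw [hb]; exact S.pR k,
            pR := fun k => by rw [ha]; exact S.pL k,
            cut := fun k => S.cut k,
            cutmono := fun k x y h => S.cutmono k y x h,
            kyinj := fun x y x' y' h => ⟨(S.kyinj _ _ _ _ h).2, (S.kyinj _ _ _ _ h).1⟩,
            key := ?_, small := ?_ }, rfl, rfl, rfl, rfl⟩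
  · intro k x y hx hy hxy hc h1 h2
    rw [hb] at h1
    rw [ha] at h2
    exact S.key k y x hy hx ((hadj _ _ _).1 hxy) hc h2 h1
  · intro k x y hx hy hxy h
    rw [hn] at h
    obtain ⟨c, d, hc, hd, hcd, h1, h2, h3⟩ := S.small k y x hy hx hxy h
    exact ⟨d, c, hd, hc, (hadj _ _ _).2 hcd,
      h2.elim (fun e => Or.inl e.symm) Or.inr, h1.elim (fun e => Or.inl e.symm) Or.inr, h3⟩

end Pool.Agent.DMN
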