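import Pool.Agent.DMN.Defs
import Pool.Agent.DMN.DefsB
import Pool.Agent.DMN.DefsD

set_option autoImplicit false

namespace Pool.Agent.DMN

theorem SK1_nle {X : ℕ → ℕ → Prop} (S : Stk X) {K k : ℕ} (h : K ≤ k) : S.n K ≤ S.n k := by
  induction h with
  | refl => exact le_rfl
  | step h ih => exact ih.trans (S.hn _).le

theorem SK1 {X : ℕ → ℕ → Prop} (S : Stk X) {K v v' x y : ℕ} (hv : v < S.n K)
    (hv' : v' < S.n K) (hx : x < S.n K) (hy : y < S.n K) (hxy : Adj X (S.n K) x y)
    (hc : S.Cut K x y) (hvx : v = x ∨ X v x) (hyv : y = v' ∨ X y v')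
    (h1 : ∀ k ≥ K, S.P k ≤ below X (S.n k) v) (h2 : ∀ k ≥ K, S.Q k ≤ above X (S.n k) v') :
    False := by
  classical
  have L := S.hX
  have tr' : ∀ {a b c : ℕ}, (a = b ∨ X a b) → X b c → X a c := by
    rintro a b c (rfl | h) h'
    · exact h'
    · exact L.tr _ _ _ h h'
  have tr'' : ∀ {a b c : ℕ}, X a b → (b = c ∨ X b c) → X a c := by
    rintro a b c h (rfl | h')
    · exact h
    · exact L.tr _ _ _ h h'
  have irr2 : ∀ {a b : ℕ}, X a b → ¬ X b a := fun h h' => L.irr _ (L.tr _ _ _ h h')
  -- (1) as long as no attack is inside `[v, v']`, `x y` stay neighbours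
  have hstay : ∀ k, K ≤ k → (∀ j, K ≤ j → j < k →
      ¬ ((v = S.gx j ∨ X v (S.gx j)) ∧ (S.gy j = v' ∨ X (S.gy j) v'))) →
      Adj X (S.n k) x y ∧ S.Cut k x y := by
    intro k hk
    induction hk with
    | refl => intro _; exact ⟨hxy, hc⟩
    | @step k hk ih =>
      intro h
      obtain ⟨hN, hC⟩ := ih fun j hj hjk => h j hj (by omega)
      have h3 := h k hk (by omega)
      refine ⟨⟨hN.1, ?_⟩, S.cutmono _ _ _ hC⟩
      rintro w hw ⟨hxw, hwy⟩
      by_cases hwn : w < S.n k
      · exact hN.2 w hwn ⟨hxw, hwy⟩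
      · obtain ⟨hgw, hwg⟩ := S.ins k w (by omega) hw
        obtain ⟨hgx, hgy, hadj⟩ := S.hg k
        have hvk : v < S.n k := lt_of_lt_of_le hv (SK1_nle S hk)
        have hvk' : v' < S.n k := lt_of_lt_of_le hv' (SK1_nle S hk)
        have hvw : X v w := tr' hvx hxw
        have hwv : X w v' := tr'' hwy hyv
        apply h3
        constructor
        · rcases L.tri v (S.gx k) with h4 | h4 | h4
          · exact Or.inr h4
          · exact Or.inl h4
          · exact absurd ⟨h4, L.tr _ _ _ hvw hwg⟩ (hadj.2 v hvk)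
        · rcases L.tri (S.gy k) v' with h4 | h4 | h4
          · exact Or.inr h4
          · exact Or.inl h4
          · exact absurd ⟨L.tr _ _ _ hgw hwv, h4⟩ (hadj.2 v' hvk')
  have hbel : ∀ {m a b : ℕ}, (a = b ∨ X a b) → below X m a ≤ below X m b := by
    intro m a b hab
    unfold below
    apply Finset.card_le_card
    intro z hz
    simp only [Finset.mem_filter, Finset.mem_range] at hz ⊢
    refine ⟨hz.1, ?_⟩
    rcases hz.2 with rfl | h
    · exact hab
    · exact Or.inr (tr'' h hab)
  have habv : ∀ {m a b : ℕ}, (a = b ∨ X a b) → above X m b ≤ above X m a := by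
    intro m a b hab
    unfold above
    apply Finset.card_le_card
    intro z hz
    simp only [Finset.mem_filter, Finset.mem_range] at hz ⊢
    refine ⟨hz.1, ?_⟩
    rcases hz.2 with rfl | h
    · exact hab.imp Eq.symm id
    · exact Or.inr (tr' hab h)
  -- (2) some attack is inside `[v, v']`
  have hatt : ∃ k, K ≤ k ∧ (v = S.gx k ∨ X v (S.gx k)) ∧ (S.gy k = v' ∨ X (S.gy k) v') := by
    by_contra hcon
    have hN : ∀ k, K ≤ k → Adj X (S.n k) x y ∧ S.Cut k x y := fun k hk =>
      hstay k hk fun j hj _ h => hcon ⟨j, hj, h.1, h.2⟩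
    have hb : ∀ k, K ≤ k → S.ky (S.gx k) (S.gy k) ≤ S.ky x y := by
      intro k hk
      have hnk := SK1_nle S hk
      refine S.key k x y (by omega) (by omega) (hN k hk).1 (hN k hk).2 ?_ ?_
      · exact (h1 k hk).trans (hbel hvx)
      · exact (h2 k hk).trans (habv hyv)
    have hinj : ∀ k l, k < l → S.ky (S.gx k) (S.gy k) ≠ S.ky (S.gx l) (S.gy l) := by
      intro k l hkl he
      obtain ⟨h3, h4⟩ := S.kyinj _ _ _ _ he
      obtain ⟨h5, h6⟩ := S.ins k (S.n k) le_rfl (S.hn k)
      have h7 : S.n k < S.n l := lt_of_lt_of_le (S.hn k) (SK1_nle S hkl)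
      exact (S.hg l).2.2.2 (S.n k) h7 ⟨h3 ▸ h5, h4 ▸ h6⟩
    have hmap : Set.MapsTo (fun i => S.ky (S.gx (K + i)) (S.gy (K + i)))
        (Finset.range (S.ky x y + 2) : Finset ℕ) (Finset.range (S.ky x y + 1) : Finset ℕ) := by
      intro i _
      have := hb (K + i) (by omega)
      simp only [Finset.coe_range, Set.mem_Iio]
      omega
    obtain ⟨i, _, j, _, hij, he⟩ := Finset.exists_ne_map_eq_of_card_lt_of_maps_to
      (by simp) hmap
    rcases lt_or_gt_of_ne hij with h | h
    · exact hinj (K + i) (K + j) (by omega) he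
    · exact hinj (K + j) (K + i) (by omega) he.symm
  obtain ⟨k, hk, hvg, hgv⟩ := hatt
  -- (3) count
  obtain ⟨hgx, hgy, hadj⟩ := S.hg k
  have e1 : below X (S.n (k + 1)) v ≤ below X (S.n k) v := by
    unfold below
    apply Finset.card_le_card
    intro w hw
    simp only [Finset.mem_filter, Finset.mem_range] at hw ⊢
    refine ⟨?_, hw.2⟩
    by_contra hcon
    obtain ⟨h3, h4⟩ := S.ins k w (by omega) hw.1
    rcases hw.2 with rfl | h5
    · rcases hvg with h6 | h6
      · rw [← h6] at h3
        exact L.irr _ h3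
      · exact irr2 h6 h3
    · exact irr2 h3 (tr'' h5 hvg)
  have e2 : above X (S.n (k + 1)) v' ≤ above X (S.n k) v' := by
    unfold above
    apply Finset.card_le_card
    intro w hw
    simp only [Finset.mem_filter, Finset.mem_range] at hw ⊢
    refine ⟨?_, hw.2⟩
    by_contra hcon
    obtain ⟨h3, h4⟩ := S.ins k w (by omega) hw.1
    rcases hw.2 with rfl | h5
    · rcases hgv with h6 | h6
      · rw [h6] at h4
        exact L.irr _ h4
      · exact irr2 h6 h4
    · exact irr2 h4 (tr' hgv h5)
  have hvv : X v v' := tr' hvg (tr'' hadj.1 hgv)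
  have e3 : below X (S.n k) v + above X (S.n k) v' ≤ S.n k := by
    unfold below above
    rw [← Finset.card_union_of_disjoint]
    · calc _ ≤ (Finset.range (S.n k)).card := by
            apply Finset.card_le_card
            intro w hw
            simp only [Finset.mem_union, Finset.mem_filter, Finset.mem_range] at hw ⊢
            rcases hw with h | h <;> exact h.1
        _ = S.n k := Finset.card_range _
    · rw [Finset.disjoint_left]
      intro w h3 h4
      simp only [Finset.mem_filter, Finset.mem_range] at h3 h4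
      have h5 : X v w ∨ v' = w := by
        rcases h4.2 with h | h
        · exact Or.inr h.symm
        · exact Or.inl (L.tr _ _ _ hvv h)
      rcases h3.2 with h6 | h6
      · rcases h4.2 with h7 | h7
        · rw [← h6, h7] at hvv
          exact L.irr _ hvv
        · rw [h6] at h7
          exact irr2 hvv h7
      · rcases h4.2 with h7 | h7
        · rw [h7] at h6
          exact irr2 hvv h6
        · exact irr2 hvv (L.tr _ _ _ h7 h6)
  have h3 := h1 (k + 1) (by omega)
  have h4 := h2 (k + 1) (by omega)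
  have h5 := S.hPQ k
  omega

end Pool.Agent.DMN
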