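import Pool.Agent.DMN.Defs
import Pool.Agent.DMN.DefsB
import Pool.Agent.DMN.DefsD
import Pool.Agent.DMN.P_NUM6
import Pool.Agent.DMN.P_NUM8
import Pool.Agent.DMN.P_SFL
import Pool.Agent.DMN.P_SK1

/-!
# DMN: the targets SK2 and SK3
-/

set_option autoImplicit false

namespace Pool.Agent.DMN

/-- The sizes of a stuck game are monotone. -/
theorem SK2_nmono {X : ℕ → ℕ → Prop} (S : Stk X) {k k' : ℕ} (h : k ≤ k') : S.n k ≤ S.n k' := by
  induction h with
  | refl => exact le_rfl
  | step _ ih => exact ih.trans (S.hn _).le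

theorem SK2_nge {X : ℕ → ℕ → Prop} (S : Stk X) (k : ℕ) : k ≤ S.n k := by
  induction k with
  | zero => exact Nat.zero_le _
  | succ k ih => exact Nat.succ_le_of_lt (ih.trans_lt (S.hn k))

/-- Nothing is inserted below `v`: the number of elements below does not change. -/
theorem SK2_below {X : ℕ → ℕ → Prop} {n n' v : ℕ} (hnn : n ≤ n') (hv : v < n)
    (h : ∀ w, n ≤ w → w < n' → ¬ X w v) : below X n' v = below X n v := by
  classical
  unfold below
  congr 1
  ext w
  simp only [Finset.mem_filter, Finset.mem_range]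
  constructor
  · rintro ⟨h1, h2⟩
    refine ⟨?_, h2⟩
    by_contra hc
    rcases h2 with h2 | h2
    · omega
    · exact h w (by omega) h1 h2
  · rintro ⟨h1, h2⟩
    exact ⟨by omega, h2⟩

/-- SK2. If infinitely many elements are below `v` then `P k < below v` for all `k` such that `v`
is present. -/
theorem SK2 {X : ℕ → ℕ → Prop} (S : Stk X) {v : ℕ} (h : {w | X w v}.Infinite) {k : ℕ}
    (hv : v < S.n k) : S.P k + 1 ≤ below X (S.n k) v := by
  by_contra hcon
  have h0 : below X (S.n k) v ≤ S.P k := by omega
  have key : ∀ j, below X (S.n (k + j)) v ≤ S.P (k + j) ∧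
      ∀ w, S.n k ≤ w → w < S.n (k + j) → ¬ X w v := by
    intro j
    induction j with
    | zero => exact ⟨h0, fun w h1 h2 => absurd h2 (not_lt.2 h1)⟩
    | succ j ih =>
      obtain ⟨ih1, ih2⟩ := ih
      have hvj : v < S.n (k + j) := hv.trans_le (SK2_nmono S (Nat.le_add_right k j))
      have hgx : v = S.gx (k + j) ∨ X v (S.gx (k + j)) := by
        rcases S.hX.tri v (S.gx (k + j)) with h1 | h1 | h1
        · exact Or.inr h1
        · exact Or.inl h1
        · exfalso
          have h2 := (NUM8 S.hX (S.n (k + j))).2.1 _ _ h1 hvj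
          have h3 := S.pL (k + j)
          omega
      have hnew : ∀ w, S.n (k + j) ≤ w → w < S.n (k + j + 1) → ¬ X w v := by
        intro w h1 h2 h3
        have h4 := (S.ins (k + j) w h1 h2).1
        have h5 : X v w := by
          rcases hgx with h6 | h6
          · rw [h6]; exact h4
          · exact S.hX.tr _ _ _ h6 h4
        exact S.hX.irr _ (S.hX.tr _ _ _ h5 h3)
      refine ⟨?_, ?_⟩
      · show below X (S.n (k + j + 1)) v ≤ S.P (k + j + 1)
        rw [SK2_below (S.hn (k + j)).le hvj hnew]
        exact ih1.trans (S.hP _)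
      · intro w h1 h2
        by_cases h3 : w < S.n (k + j)
        · exact ih2 w h1 h3
        · exact hnew w (not_lt.1 h3) h2
  apply h
  apply (Finset.range (S.n k)).finite_toSet.subset
  intro w hw
  simp only [Finset.coe_range, Set.mem_Iio]
  by_contra hc
  exact (key (w + 1)).2 w (not_lt.1 hc)
    (lt_of_lt_of_le (by omega) (SK2_nge S (k + (w + 1)))) hw

/-- A nonempty finite set has a least element. -/
theorem SK3_min {X : ℕ → ℕ → Prop} (hX : SLO X) (W : Finset ℕ) (hW : W.Nonempty) :
    ∃ v ∈ W, ∀ w ∈ W, v = w ∨ X v w := by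
  classical
  induction W using Finset.induction_on with
  | empty => exact absurd hW (by simp)
  | insert a W ha ih =>
    by_cases hW' : W.Nonempty
    · obtain ⟨v, hv, hmin⟩ := ih hW'
      rcases hX.tri a v with h | h | h
      · refine ⟨a, Finset.mem_insert_self _ _, fun w hw => ?_⟩
        rcases Finset.mem_insert.1 hw with h1 | h1
        · exact Or.inl h1.symm
        · rcases hmin w h1 with h2 | h2
          · exact Or.inr (h2 ▸ h)
          · exact Or.inr (hX.tr _ _ _ h h2)
      · subst h
        exact absurd hv ha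
      · refine ⟨v, Finset.mem_insert_of_mem hv, fun w hw => ?_⟩
        rcases Finset.mem_insert.1 hw with h1 | h1
        · rw [h1]; exact Or.inr h
        · exact hmin w h1
    · rw [Finset.not_nonempty_iff_eq_empty] at hW'
      subst hW'
      refine ⟨a, Finset.mem_insert_self _ _, fun w hw => ?_⟩
      rcases Finset.mem_insert.1 hw with h1 | h1
      · exact Or.inl h1.symm
      · exact absurd h1 (Finset.notMem_empty _)

/-- A nonempty finite set has a greatest element. -/
theorem SK3_max {X : ℕ → ℕ → Prop} (hX : SLO X) (W : Finset ℕ) (hW : W.Nonempty) :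
    ∃ v ∈ W, ∀ w ∈ W, w = v ∨ X w v := by
  have hf : SLO (flip X) := ⟨fun x => hX.irr x, fun x y z h1 h2 => hX.tr _ _ _ h2 h1,
    fun x y => by
      rcases hX.tri x y with h | h | h
      · exact Or.inr (Or.inr h)
      · exact Or.inr (Or.inl h)
      · exact Or.inl h⟩
  obtain ⟨v, hv, h⟩ := SK3_min hf W hW
  refine ⟨v, hv, fun w hw => ?_⟩
  rcases h w hw with h1 | h1
  · exact Or.inl h1.symm
  · exact Or.inr h1

/-- SK3. Fewer than `N` elements have infinitely many elements on both sides. -/
theorem SK3 {X : ℕ → ℕ → Prop} (S : Stk X) (W : Finset ℕ)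
    (h : ∀ v ∈ W, {w | X w v}.Infinite ∧ {w | X v w}.Infinite) : W.card < S.N := by
  classical
  by_contra hcon
  have hN : S.N ≤ W.card := not_lt.1 hcon
  have h2 : 2 ≤ W.card := S.hN.trans hN
  have hne : W.Nonempty := Finset.card_pos.1 (by omega)
  obtain ⟨v, hv, hmin⟩ := SK3_min S.hX W hne
  obtain ⟨v', hv', hmax⟩ := SK3_max S.hX W hne
  have hvv : X v v' := by
    rcases hmin v' hv' with h1 | h1
    · exfalso
      have : W ⊆ {v} := by
        intro w hw
        rw [Finset.mem_singleton]
        rcases hmin w hw with h3 | h3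
        · exact h3.symm
        · rcases hmax w hw with h4 | h4
          · rw [h4, ← h1]
          · rw [← h1] at h4
            exact absurd (S.hX.tr _ _ _ h3 h4) (S.hX.irr _)
      have := Finset.card_le_card this
      simp at this
      omega
    · exact h1
  -- all elements of `W` are present
  obtain ⟨k, hk⟩ : ∃ k, ∀ w ∈ W, w < S.n k := by
    refine ⟨W.sup id + 1, fun w hw => ?_⟩
    have h3 : w ≤ W.sup id := Finset.le_sup (f := id) hw
    exact lt_of_lt_of_le (by omega) (SK2_nge S _)
  have hnum : S.N ≤ num X (S.n k) v v' := by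
    refine hN.trans ?_
    unfold num
    apply Finset.card_le_card
    intro w hw
    rw [Finset.mem_filter, Finset.mem_range]
    exact ⟨hk w hw, hmin w hw, hmax w hw⟩
  obtain ⟨x', y', hx', hy', hadj, hvx, hyv, hcut⟩ :=
    S.small k v v' (hk v hv) (hk v' hv') hvv hnum
  obtain ⟨S', hn', hP', hQ', -⟩ := SFL S
  refine SK1 S (hk v hv) (hk v' hv') hx' hy' hadj hcut hvx hyv ?_ ?_
  · intro j hj
    have := SK2 S (h v hv).1 ((hk v hv).trans_le (SK2_nmono S hj))
    omega
  · intro j hj
    have hlt : v' < S'.n j := by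
      rw [hn']
      exact (hk v' hv').trans_le (SK2_nmono S hj)
    have := SK2 S' (v := v') (h v' hv').2 hlt
    rw [hP', hn', (NUM7 X (S.n j) v' v').2.1] at this
    omega

end Pool.Agent.DMN
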