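import Pool.Agent.DMN.Defs
import Pool.Agent.DMN.DefsB
import Pool.Agent.DMN.DefsD
import Pool.Agent.DMN.P_SK2

/-!
# DMN: target SK7
-/

set_option autoImplicit false

namespace Pool.Agent.DMN

theorem SK7 {X : ℕ → ℕ → Prop} (S : Stk X) {d0 d1 d2 d3 : ℕ} (h0 : Far X d0 d1)
    (h1 : Far X d1 d2) (h2 : Far X d2 d3) : False := by
  obtain ⟨W, hW, hc⟩ := Set.Infinite.exists_subset_card_eq h1 S.N
  have h := SK3 S W (fun v hv => by
    have hv' := hW hv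
    refine ⟨h0.mono ?_, h2.mono ?_⟩
    · rintro w ⟨-, hw⟩
      exact S.hX.tr _ _ _ hw hv'.1
    · rintro w ⟨hw, -⟩
      exact S.hX.tr _ _ _ hv'.2 hw)
  omega

end Pool.Agent.DMN
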