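import Pool.Agent.DMN.Defs
import Pool.Agent.DMN.DefsB
import Pool.Agent.DMN.DefsD
import Pool.Agent.DMN.P_AS5
import Pool.Agent.DMN.P_ASE
import Pool.Agent.DMN.P_GAM
import Pool.Agent.DMN.P_GD1
import Pool.Agent.DMN.P_GD4
import Pool.Agent.DMN.P_LC3
import Pool.Agent.DMN.P_OKI
import Pool.Agent.DMN.P_ORD
import Pool.Agent.DMN.P_PRA
import Pool.Agent.DMN.P_SK7

/-!
# DMN: target RI
-/

set_option autoImplicit false

namespace Pool.Agent.DMN

/-- RI. THEOREM ON REGIONS (I). -/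
theorem RI {k : ℕ} {σ : ℕ → St} (h : Run k σ) {d0 d1 d2 d3 : ℕ} (h0 : Far (xo σ) d0 d1)
    (h1 : Far (xo σ) d1 d2) (h2 : Far (xo σ) d2 d3) (B : ℕ) :
    ∃ x' y', x' ∈ Icc' (xo σ) d0 d3 ∧ y' ∈ Icc' (xo σ) d0 d3 ∧
      (Icc' (xo σ) x' y').Finite ∧ B ≤ (Icc' (xo σ) x' y').ncard := by
  by_cases hL : ∀ B, ∃ S, ∀ s ≥ S, Long k σ B s
  · obtain ⟨x', y', hx, hy, hf, hc⟩ := LC3 h hL h0 B
    have hslo := (ORD h).1
    obtain ⟨w1, hw1⟩ := h1.nonempty
    obtain ⟨w2, hw2⟩ := h2.nonempty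
    have h13 : xo σ d1 d3 := hslo.tr _ _ _ (hslo.tr _ _ _ hw1.1 hw1.2) (hslo.tr _ _ _ hw2.1 hw2.2)
    have key : ∀ z, z ∈ Icc' (xo σ) d0 d1 → z ∈ Icc' (xo σ) d0 d3 := by
      rintro z ⟨hz1, hz2⟩
      refine ⟨hz1, Or.inr ?_⟩
      rcases hz2 with rfl | hz2
      · exact h13
      · exact hslo.tr _ _ _ hz2 h13
    exact ⟨x', y', key _ hx, key _ hy, hf, hc⟩
  · exfalso
    push Not at hL
    obtain ⟨B', hB'⟩ := hL
    obtain ⟨i, T, S0, hon, hinf⟩ := PRA h hB'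
    obtain ⟨D, hD⟩ := ASE h hon fun S => by
      obtain ⟨s, hs, ha, -⟩ := hinf S
      exact ⟨s, hs, ha⟩
    obtain ⟨A, hA, hR⟩ := OKI h D
    obtain ⟨G, hG⟩ := GAM h hA hR D
    -- infinitely many attacks have small windows
    have hsmall : ∀ K, ∃ j ≥ K, num A (G.m j) (G.v j) (G.v' j) < B' := by
      intro K
      obtain ⟨s, hs, ha, hw⟩ := hinf (D.τ K)
      obtain ⟨j, hj⟩ := D.all s (le_trans (D.mono.monotone (Nat.zero_le K)) hs) ha
      refine ⟨j, ?_, ?_⟩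
      · rw [← hj] at hs
        exact D.mono.le_iff_le.1 hs
      · have h5 := (AS5 h hA hR D j).2.2.2.2.2 (wv (D.ws j)) (wv' (D.ws j))
        have hd := (D.af j).dat
        obtain ⟨hd1, -, hd3, hd4, -⟩ := hd
        have e1 := (hd3 _ hd4.1).2
        have e2 := (hd3 _ hd4.2.1).2
        have e3 := hd1.1
        have h6 := hw (D.ws j) (by rw [← hj]; exact D.req j) (by rw [← hj]; exact D.att j)
        rw [← hj] at h6
        simp only at e1 e2
        rcases h5 with h5 | h5 | h5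
        · rw [h5] at h6
          rw [(hG j).2.1, (hG j).2.2.1, (hG j).2.2.2.1]
          exact h6
        · omega
        · omega
    have hst : ∃ K, ∀ k ≥ K, G.f (k + 1) = G.f k := by
      by_contra hcon
      push Not at hcon
      obtain ⟨K, hK⟩ := GD1 G hcon B'
      obtain ⟨j, hj1, hj2⟩ := hsmall K
      have := hK j hj1
      omega
    obtain ⟨K, hK⟩ := hst
    obtain ⟨S, -⟩ := GD4 G hK
    exact SK7 S h0 h1 h2

end Pool.Agent.DMN
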