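import Pool.Agent.DMN.Defs
import Pool.Agent.DMN.DefsB
import Pool.Agent.DMN.DefsD

set_option autoImplicit false

namespace Pool.Agent.DMN

open Pool.Agent.CeerI Pool.Agent.DMO

theorem CACC :
    (Computable ft ∧ Computable fl ∧ Computable fR ∧ Computable ff) ∧
    (Computable cm1 ∧ Computable cm2 ∧ Computable ca ∧ Computable cb ∧ Computable cm3 ∧
      Computable cm4) ∧
    (Computable wm ∧ Computable wM ∧ Computable wx0 ∧ Computable wx1 ∧ Computable wb1) ∧
    (Computable wu ∧ Computable wz ∧ Computable wv ∧ Computable wz' ∧ Computable wv') ∧
    Computable cd ∧ Computable wi ∧ Computable₂ fr ∧ Computable₂ f0 := by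
  have hff : Computable ff :=
    Computable.snd.comp (Computable.snd.comp Computable.snd)
  have hx0 : Computable wx0 := Computable.fst.comp (Computable.fst.comp Computable.snd)
  have hx1 : Computable wx1 :=
    Computable.fst.comp (Computable.snd.comp (Computable.fst.comp Computable.snd))
  have hb1 : Computable wb1 :=
    Computable.snd.comp (Computable.snd.comp (Computable.fst.comp Computable.snd))
  have s2 : Computable fun w : Wi => w.2.2 := Computable.snd.comp Computable.snd
  have s3 : Computable fun w : Wi => w.2.2.2 := Computable.snd.comp s2
  have s4 : Computable fun w : Wi => w.2.2.2.2 := Computable.snd.comp s3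
  have s5 : Computable fun w : Wi => w.2.2.2.2.2 := Computable.snd.comp s4
  have d1 : Computable fun c : Cd => c.2 := Computable.snd
  have d2 : Computable fun c : Cd => c.2.2 := Computable.snd.comp d1
  have d3 : Computable fun c : Cd => c.2.2.2 := Computable.snd.comp d2
  have d4 : Computable fun c : Cd => c.2.2.2.2 := Computable.snd.comp d3
  refine ⟨⟨Computable.fst, Computable.fst.comp Computable.snd,
      Computable.fst.comp (Computable.snd.comp Computable.snd), hff⟩,
    ⟨Computable.fst, Computable.fst.comp d1, Computable.fst.comp d2, Computable.fst.comp d3,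
      Computable.fst.comp d4, Computable.snd.comp d4⟩,
    ⟨Computable.fst.comp Computable.fst, Computable.snd.comp Computable.fst, hx0, hx1, hb1⟩,
    ⟨Computable.fst.comp s2, Computable.fst.comp s3, Computable.fst.comp s4,
      Computable.fst.comp s5, Computable.snd.comp s5⟩, ?_, ?_, ?_, ?_⟩
  · exact (Primrec.ofNat Cd).to_comp.comp (Primrec.nat_sub.to_comp.comp Computable.id
      (Computable.const 1))
  · exact (Primrec.ofNat Wi).to_comp
  · exact (Primrec.list_getD (0, 0, 0, [])).to_comp.comp
      (Computable.snd.comp (Computable.snd.comp Computable.fst)) Computable.snd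
  · refine comp_ite (α := Fr × Wi) (p := fun a => ff a.1 = [])
      (DMO.dec_eq (hff.comp Computable.fst) (Computable.const [])) ?_ (hff.comp Computable.fst)
    refine Computable.list_cons.comp ((hx0.comp Computable.snd).pair (hx1.comp Computable.snd))
      (Computable.list_cons.comp ((hb1.comp Computable.snd).pair (hb1.comp Computable.snd))
      (Computable.const []))

end Pool.Agent.DMN
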