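import Pool.Agent.DMN.Defs
import Pool.Agent.DMN.DefsB
import Pool.Agent.DMN.DefsD

/-!
# DMN: the targets DMEM and DALL
-/

set_option autoImplicit false

namespace Pool.Agent.DMN

open Pool.Agent.CeerI Pool.Agent.DMO

section

variable {α β : Type} [Primcodable α] [Primcodable β]

/-- DMEM. Membership in a list is decidable. -/
theorem DMEM [DecidableEq β] {f : α → β} {L : α → List β} (hf : Computable f)
    (hL : Computable L) : ComputablePred fun a => f a ∈ L a := by
  have h1 : ComputablePred fun q : α × ℕ => (L q.1)[q.2]? = some (f q.1) :=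
    DMO.dec_eq (Computable.list_getElem?.comp (hL.comp Computable.fst) Computable.snd)
      (Computable.option_some.comp (hf.comp Computable.fst))
  refine dec_of_iff (dec_bex h1 (Computable.list_length.comp hL)) fun a => ?_
  rw [List.mem_iff_getElem?]
  constructor
  · rintro ⟨i, hi⟩
    exact ⟨i, (List.getElem?_eq_some_iff.1 hi).1, hi⟩
  · rintro ⟨i, _, hi⟩
    exact ⟨i, hi⟩

theorem DALL_all {p : α × β → Prop} (hp : ComputablePred p) {L : α → List β}
    (hL : Computable L) : ComputablePred fun a => ∀ x ∈ L a, p (a, x) := by
  obtain ⟨f, hf, h⟩ := dec_iff.1 hp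
  have hg : Computable fun q : α × ℕ =>
      Option.casesOn (motive := fun _ => Bool) (L q.1)[q.2]? true fun x => f (q.1, x) := by
    refine Computable.option_casesOn ?_ (Computable.const true) ?_
    · exact Computable.list_getElem?.comp (hL.comp Computable.fst) Computable.snd
    · exact hf.comp ((Computable.fst.comp Computable.fst).pair Computable.snd)
  refine dec_of_iff (dec_ball (dec_of_comp hg) (Computable.list_length.comp hL)) fun a => ?_
  constructor
  · intro H i hi
    have hx : (L a)[i]? = some (L a)[i] := List.getElem?_eq_getElem hi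
    simp only [hx]
    exact (h _).1 (H _ (List.getElem_mem hi))
  · intro H x hx
    obtain ⟨i, hi, rfl⟩ := List.getElem_of_mem hx
    have h1 := H i hi
    have hx : (L a)[i]? = some (L a)[i] := List.getElem?_eq_getElem hi
    simp only [hx] at h1
    exact (h _).2 h1

/-- DALL. Bounded quantifiers over the elements of a list. -/
theorem DALL {p : α × β → Prop} (hp : ComputablePred p) {L : α → List β} (hL : Computable L) :
    (ComputablePred fun a => ∀ x ∈ L a, p (a, x)) ∧
      ComputablePred fun a => ∃ x ∈ L a, p (a, x) := by
  refine ⟨DALL_all hp hL, ?_⟩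
  refine dec_of_iff (dec_not (DALL_all (dec_not hp) hL)) fun a => ?_
  push Not
  exact Iff.rfl

end

end Pool.Agent.DMN
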