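import Pool.Agent.DMN.Defs
import Pool.Agent.DMN.DefsB
import Pool.Agent.DMN.DefsD
import Pool.Agent.DMN.P_CACC
import Pool.Agent.DMN.P_DMEM

/-!
# DMN, targets EMB and FRE
-/

set_option autoImplicit false

namespace Pool.Agent.DMN

open Pool.Agent.DMO Pool.Agent.CeerI

/-- Uniqueness of values of an order preserving relation. -/
theorem EMB_uniq {A : ℕ → ℕ → Prop} (hA : SLO A) {F : ℕ × ℕ → Prop}
    (mono : ∀ p q, F p → F q → (A p.1 q.1 ↔ A p.2 q.2)) {x y y' : ℕ} (h : F (x, y))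
    (h' : F (x, y')) : y = y' := by
  rcases hA.tri y y' with h1 | h1 | h1
  · exact absurd ((mono _ _ h h').2 h1) (hA.irr x)
  · exact h1
  · exact absurd ((mono _ _ h' h).2 h1) (hA.irr x)

theorem EMB {A : ℕ → ℕ → Prop} (hA : SLO A) (hd : ComputablePred fun p : ℕ × ℕ => A p.1 p.2)
    {F : ℕ × ℕ → Prop} (hF : REPred F) (mono : ∀ p q, F p → F q → (A p.1 q.1 ↔ A p.2 q.2))
    {x0 x1 b1 : ℕ} (h0 : F (x0, x1)) (h1 : F (b1, b1)) (h01 : A x0 x1)
    (hin : ∀ p, F p → (x0 = p.1 ∨ A x0 p.1) ∧ (p.1 = b1 ∨ A p.1 b1))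
    (htot : ∀ x, (x0 = x ∨ A x0 x) → (x = b1 ∨ A x b1) → ∃ y, F (x, y)) :
    ∃ g : ℕ → ℕ, Computable g ∧ (∀ x y, A x y → A (g x) (g y)) ∧ g ≠ id := by
  have hP : REPred fun p : ℕ × ℕ => ((A p.1 x0 ∨ A b1 p.1) ∧ p.2 = p.1) ∨ F p := by
    refine re_or (dec_re (dec_and (dec_or ?_ ?_) (DMO.dec_eq Computable.snd Computable.fst))) hF
    · exact dec_comp hd (Computable.fst.pair (Computable.const x0))
    · exact dec_comp hd ((Computable.const b1).pair Computable.fst)
  obtain ⟨g, hg, hgP⟩ := search hP (by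
    intro x
    rcases hA.tri x0 x with h | h | h
    · rcases hA.tri x b1 with h' | h' | h'
      · obtain ⟨y, hy⟩ := htot x (Or.inr h) (Or.inr h')
        exact ⟨y, Or.inr hy⟩
      · obtain ⟨y, hy⟩ := htot x (Or.inr h) (Or.inl h')
        exact ⟨y, Or.inr hy⟩
      · exact ⟨x, Or.inl ⟨Or.inr h', rfl⟩⟩
    · exact ⟨x1, Or.inr (h ▸ h0)⟩
    · exact ⟨x, Or.inl ⟨Or.inl h, rfl⟩⟩)
  -- the two cases
  have out : ∀ x, (A x x0 ∨ A b1 x) → g x = x := by
    intro x hx
    rcases hgP x with h | h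
    · exact h.2
    · exfalso
      obtain ⟨h2, h3⟩ := hin _ h
      rcases hx with hx | hx
      · rcases h2 with h2 | h2
        · have h2' : x0 = x := h2
          rw [h2'] at hx
          exact hA.irr x hx
        · exact hA.irr _ (hA.tr _ _ _ h2 hx)
      · rcases h3 with h3 | h3
        · have h3' : x = b1 := h3
          rw [← h3'] at hx
          exact hA.irr x hx
        · exact hA.irr _ (hA.tr _ _ _ h3 hx)
  have ins : ∀ x, ¬ (A x x0 ∨ A b1 x) → F (x, g x) := by
    intro x hx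
    rcases hgP x with h | h
    · exact absurd h.1 hx
    · exact h
  have h0b : x0 = b1 ∨ A x0 b1 := (hin _ h0).2
  -- values on the middle part are between `x1` and `b1`
  have lo : ∀ x, ¬ (A x x0 ∨ A b1 x) → A x0 (g x) := by
    intro x hx
    have hF' := ins x hx
    rcases hA.tri x0 x with h | h | h
    · exact hA.tr _ _ _ h01 ((mono _ _ h0 hF').1 h)
    · subst h
      rw [EMB_uniq hA mono hF' h0]
      exact h01
    · exact absurd (Or.inl h) hx
  have hi : ∀ x, ¬ (A x x0 ∨ A b1 x) → g x = b1 ∨ A (g x) b1 := by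
    intro x hx
    have hF' := ins x hx
    rcases hA.tri x b1 with h | h | h
    · exact Or.inr ((mono _ _ hF' h1).1 h)
    · subst h
      exact Or.inl (EMB_uniq hA mono hF' h1)
    · exact absurd (Or.inr h) hx
  refine ⟨g, hg, ?_, ?_⟩
  · intro x y hxy
    by_cases hx : A x x0 ∨ A b1 x
    · rw [out x hx]
      by_cases hy : A y x0 ∨ A b1 y
      · rw [out y hy]
        exact hxy
      · rcases hx with hx | hx
        · exact hA.tr _ _ _ hx (lo y hy)
        · exact absurd (Or.inr (hA.tr _ _ _ hx hxy)) hy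
    · by_cases hy : A y x0 ∨ A b1 y
      · rw [out y hy]
        rcases hy with hy | hy
        · exact absurd (Or.inl (hA.tr _ _ _ hxy hy)) hx
        · rcases hi x hx with h | h
          · rw [h]
            exact hy
          · exact hA.tr _ _ _ h hy
      · exact (mono _ _ (ins x hx) (ins y hy)).1 hxy
  · intro hid
    have hx0 : ¬ (A x0 x0 ∨ A b1 x0) := by
      rintro (h | h)
      · exact hA.irr _ h
      · rcases h0b with h2 | h2
        · rw [← h2] at h
          exact hA.irr _ h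
        · exact hA.irr _ (hA.tr _ _ _ h2 h)
    have h2 := EMB_uniq hA mono (ins x0 hx0) h0
    rw [hid] at h2
    have h3 : x0 = x1 := h2
    rw [← h3] at h01
    exact hA.irr _ h01

theorem FRE {σ : ℕ → St} (hc : Computable σ) (i S : ℕ) :
    REPred fun p : ℕ × ℕ => ∃ s, S ≤ s ∧ p ∈ ff (fr (σ s) i) := by
  obtain ⟨⟨-, -, -, hff⟩, -, -, -, -, -, hfr, -⟩ := CACC
  have h1 : ComputablePred fun q : (ℕ × ℕ) × ℕ => S ≤ q.2 ∧ q.1 ∈ ff (fr (σ q.2) i) := by
    refine dec_and (dec_le (Computable.const S) Computable.snd) ?_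
    refine DMEM Computable.fst ?_
    exact hff.comp (hfr.comp (hc.comp Computable.snd) (Computable.const i))
  exact re_ex (dec_re h1)

end Pool.Agent.DMN
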