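import Pool.Agent.DMN.Defs
import Pool.Agent.DMN.DefsB
import Pool.Agent.DMN.DefsD
import Pool.Agent.DMN.P_GFI

/-!
# DMN: target GD2 (MP_55b29c_lc)
-/

set_option autoImplicit false

namespace Pool.Agent.DMN

open Pool.Agent.DMN

/-- GD2. If `f` is not finally constant then `f` is total on (x0, b1). Suppose `x` in (x0, b1)
is never in the domain; then `x` is waiting for every `f k`, so `u k ≤ x` for all `k` by `least`.
There are infinitely many `k` with `f (k + 1) = f k ++ [(u k, y)]`, and the `u k` of these `k` are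
pairwise different (after step `k` the label `u k` is in the domain, so it is not waiting: `u k'` is
strictly between the neighbours `z k'`, `z' k'`, `nb`). But they are `≤ x`. Contradiction. -/
theorem GD2 {A X : ℕ → ℕ → Prop} {a b t : ℕ} (G : Game A X a b t)
    (h : ∀ K, ∃ k ≥ K, G.f (k + 1) ≠ G.f k) {x0 y0 b1 y1 x : ℕ} {k0 : ℕ}
    (hx0 : (x0, y0) ∈ G.f k0) (hb1 : (b1, y1) ∈ G.f k0) (h0 : x0 = x ∨ A x0 x)
    (h1 : x = b1 ∨ A x b1) : ∃ k y, (x, y) ∈ G.f k := by
  classical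
  by_contra hcon
  push Not at hcon
  have mono := (GFI G).2.2.2
  rcases h0 with h0 | h0
  · exact hcon k0 y0 (h0 ▸ hx0)
  rcases h1 with h1 | h1
  · exact hcon k0 y1 (h1.symm ▸ hb1)
  have wait : ∀ k, k0 ≤ k → Wait A (G.f k) x := by
    intro k hk
    refine ⟨?_, ⟨(x0, y0), mono k0 k hk _ hx0, h0⟩, ⟨(b1, y1), mono k0 k hk _ hb1, h1⟩⟩
    rintro ⟨p1, p2⟩ hp hpx
    simp only at hpx
    subst hpx
    exact hcon k p2 hp
  have ule : ∀ k, k0 ≤ k → G.u k ≤ x := by
    intro k hk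
    by_contra hlt
    exact G.least k x (not_le.mp hlt) (wait k hk)
  have grow : ∀ k, G.f (k + 1) ≠ G.f k → ∃ y, (G.u k, y) ∈ G.f (k + 1) := by
    intro k hk
    rcases G.step k with ⟨y, _, _, hy⟩ | ⟨_, hy⟩
    · exact ⟨y, by rw [hy]; simp⟩
    · exact absurd hy hk
  have key : ∀ k k', G.f (k + 1) ≠ G.f k → k < k' → G.u k ≠ G.u k' := by
    intro k k' hk hkk hu
    obtain ⟨y, hy⟩ := grow k hk
    have hy' := mono (k + 1) k' hkk _ hy
    refine G.nb k' _ hy' ⟨?_, ?_⟩
    · show A (G.z k') (G.u k)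
      rw [hu]; exact G.hzu k'
    · show A (G.u k) (G.z' k')
      rw [hu]; exact G.huz k'
  have hS : {k | k0 ≤ k ∧ G.f (k + 1) ≠ G.f k}.Infinite := by
    refine Set.infinite_of_forall_exists_gt fun K => ?_
    obtain ⟨k, hk, hf⟩ := h (K + 1 + k0)
    exact ⟨k, ⟨by omega, hf⟩, by omega⟩
  have inj : Set.InjOn G.u {k | k0 ≤ k ∧ G.f (k + 1) ≠ G.f k} := by
    intro k hk k' hk' hu
    rcases lt_trichotomy k k' with hlt | heq | hgt
    · exact absurd hu (key k k' hk.2 hlt)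
    · exact heq
    · exact absurd hu.symm (key k' k hk'.2 hgt)
  have maps : Set.MapsTo G.u {k | k0 ≤ k ∧ G.f (k + 1) ≠ G.f k} (Set.Iic x) :=
    fun k hk => ule k hk.1
  exact (Set.infinite_of_injOn_mapsTo inj maps hS) (Set.finite_Iic x)

end Pool.Agent.DMN
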