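import Pool.Agent.DMN.Defs
import Pool.Agent.DMN.DefsB
import Pool.Agent.DMN.DefsD
import Pool.Agent.DMN.P_CAS

/-!
# DMN: targets PUP, PRB (frames which stay on the stack)
-/

set_option autoImplicit false

namespace Pool.Agent.DMN

theorem PUP {k : ℕ} {σ : ℕ → St} (h : Run k σ) {i S : ℕ}
    (hn : ∀ s ≥ S, ∀ j ≤ i, ¬ AttAt k σ j s) :
    ∃ S', ∀ s ≥ S', i < (σ s).2.2.length ∧ ∀ j ≤ i, fr (σ s) j = fr (σ S') j := by
  have key : ∀ s ≥ S, (i < (σ s).2.2.length → i < (σ (s + 1)).2.2.length ∧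
      ∀ j ≤ i, fr (σ (s + 1)) j = fr (σ s) j) ∧
      ((σ s).2.2.length ≤ i → (σ (s + 1)).2.2.length = (σ s).2.2.length + 1) := by
    intro s hs
    rcases CAS h s with ⟨w, C', l, f', hR, hA, hF⟩ | ⟨-, -, l, hF⟩
    · have hi : ¬ (Nat.unpair s).1 ≤ i := fun hle => hn s hs _ hle ⟨rfl, w, hR, hA⟩
      refine ⟨fun _ => ⟨?_, fun j hj => hF.old j (by omega)⟩, fun hle => ?_⟩
      · rw [hF.len]
        omega
      · exact absurd (le_trans hF.i2.le hle) hi
    · refine ⟨fun hlt => ⟨?_, fun j hj => hF.old j (by omega)⟩, fun _ => hF.len⟩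
      rw [hF.len]
      omega
  have hex : ∃ s ≥ S, i < (σ s).2.2.length := by
    by_contra hcon
    push Not at hcon
    have hgrow : ∀ n, n ≤ (σ (S + n)).2.2.length := by
      intro n
      induction n with
      | zero => exact Nat.zero_le _
      | succ n ih =>
        have := (key (S + n) (by omega)).2 (hcon (S + n) (by omega))
        have e : S + (n + 1) = S + n + 1 := by omega
        rw [e, this]
        omega
    have h1 := hgrow (i + 1)
    have h2 := hcon (S + (i + 1)) (by omega)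
    omega
  obtain ⟨S', hS', hlen⟩ := hex
  refine ⟨S', fun s hs => ?_⟩
  induction s, hs using Nat.le_induction with
  | base => exact ⟨hlen, fun j _ => rfl⟩
  | succ s hs ih =>
    obtain ⟨h1, h2⟩ := (key s (by omega)).1 ih.1
    exact ⟨h1, fun j hj => (h2 j hj).trans (ih.2 j hj)⟩

theorem PRB {k : ℕ} {σ : ℕ → St} (h : Run k σ) {i : ℕ} (hi : ∀ S, ∃ s ≥ S, AttAt k σ i s)
    (hl : ∀ j < i, ∃ S, ∀ s ≥ S, ¬ AttAt k σ j s) : ∃ T S0, ∀ s ≥ S0, On σ i T s := by
  have hl' : ∀ j, ∃ S, j < i → ∀ s ≥ S, ¬ AttAt k σ j s := by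
    intro j
    by_cases hj : j < i
    · obtain ⟨S, hS⟩ := hl j hj
      exact ⟨S, fun _ => hS⟩
    · exact ⟨0, fun hh => absurd hh hj⟩
  choose g hg using hl'
  have hS : ∀ j < i, ∀ s ≥ (Finset.range i).sup g, ¬ AttAt k σ j s := by
    intro j hj s hs
    exact hg j hj s (le_trans (Finset.le_sup (Finset.mem_range.2 hj)) hs)
  obtain ⟨s1, hs1, hu, w1, hR1, -⟩ := hi ((Finset.range i).sup g)
  have hlen1 : i < (σ s1).2.2.length := hu ▸ hR1.2.1
  refine ⟨ft (fr (σ s1) i), s1, fun s hs => ?_⟩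
  induction s, hs using Nat.le_induction with
  | base => exact ⟨hlen1, rfl⟩
  | succ s hs ih =>
    obtain ⟨h1, h2⟩ := ih
    rcases CAS h s with ⟨w, C', l, f', hR, hA, hF⟩ | ⟨-, -, l, hF⟩
    · have hge : i ≤ (Nat.unpair s).1 := by
        by_contra hlt
        exact hS _ (not_le.1 hlt) s (le_trans hs1 hs) ⟨rfl, w, hR, hA⟩
      refine ⟨by rw [hF.len]; omega, ?_⟩
      rcases Nat.lt_or_ge i (Nat.unpair s).1 with hlt | hle
      · rw [hF.old i hlt, h2]
      · have he : (Nat.unpair s).1 = i := le_antisymm hle hge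
        have hfrm := hF.frm
        rw [he] at hfrm
        rw [hfrm, ← h2]
        rfl
    · refine ⟨by rw [hF.len]; omega, ?_⟩
      rw [hF.old i h1, h2]

end Pool.Agent.DMN
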