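import Pool.Agent.DMN.Defs
import Pool.Agent.DMN.DefsB
import Pool.Agent.DMN.DefsD
import Pool.Agent.DMN.P_FIM
import Pool.Agent.DMN.P_NUM1
import Pool.Agent.DMN.P_NUM4

set_option autoImplicit false

namespace Pool.Agent.DMN

theorem FIW_wait {A : ℕ → ℕ → Prop} (hA : SLO A) {a b m t lp rp : ℕ} {f : List (ℕ × ℕ)}
    (h : FI A a b m t lp rp f) : ∃ u < m, Wait A f u := by
  classical
  obtain ⟨x0, x1, b1, h0, h1, h01, h1b, hall⟩ := h.ends
  obtain ⟨F1, F2, F3⟩ := FIX1 hA h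
  by_contra hcon
  push Not at hcon
  have hS : ∀ w < m, (x0 = w ∨ A x0 w) → (w = b1 ∨ A w b1) → ∃ y, (w, y) ∈ f := by
    intro w hw hw1 hw2
    by_contra hno
    push Not at hno
    rcases hw1 with rfl | hw1
    · exact hno _ h0
    rcases hw2 with rfl | hw2
    · exact hno _ h1
    refine hcon w hw ⟨?_, ⟨(x0, x1), h0, hw1⟩, ⟨(b1, b1), h1, hw2⟩⟩
    rintro ⟨p1, p2⟩ hp rfl
    exact hno _ hp
  choose! φ hφ using fun w hw hw1 hw2 => hS w hw hw1 hw2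
  have hle : num A m x0 b1 ≤ num A m x1 b1 := by
    unfold num
    refine Finset.card_le_card_of_injOn φ ?_ ?_
    · intro w hw
      simp only [Finset.coe_filter, Finset.mem_range, Set.mem_ofPred_eq] at hw ⊢
      have hf := hφ w hw.1 hw.2.1 hw.2.2
      refine ⟨(h.rng2 _ hf).1, F3 x0 x1 h0 _ hf hw.2.1, ?_⟩
      rcases hw.2.2 with h2 | h2
      · left
        have := F1 _ hf _ h1 h2
        exact congrArg Prod.snd this
      · right
        exact (h.mono _ hf _ h1).1 h2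
    · intro w hw w' hw' he
      simp only [Finset.coe_filter, Finset.mem_range, Set.mem_ofPred_eq] at hw hw'
      have hf := hφ w hw.1 hw.2.1 hw.2.2
      have hf' := hφ w' hw'.1 hw'.2.1 hw'.2.2
      have := F2 _ hf _ hf' he
      exact congrArg Prod.fst this
  have h5 := (NUM5 hA m).2.2 x0 x1 b1 h01 (Or.inr (hA.tr _ _ _ h01 h1b))
    (h.rng1 _ h0).1
  omega

theorem FIW {A : ℕ → ℕ → Prop} (hA : SLO A) {a b m t lp rp : ℕ} {f : List (ℕ × ℕ)}
    (h : FI A a b m t lp rp f) :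
    ∃ u z v z' v', (z, v) ∈ f ∧ (z', v') ∈ f ∧ A z u ∧ A u z' ∧ u < m ∧
      (∀ p ∈ f, ¬ (A z p.1 ∧ A p.1 z')) ∧ (∀ x < u, ¬ Wait A f x) ∧ v < m ∧ v' < m ∧ A v v' ∧
      lp ≤ num A m a v ∧ rp ≤ num A m v' b ∧ t + 3 ≤ num A m v v' ∧
      num A m a v + num A m v v' + num A m v' b = num A m a b + 2 := by
  classical
  obtain ⟨u', hu', hw'⟩ := FIW_wait hA h
  have hex : ∃ u, Wait A f u := ⟨u', hw'⟩
  obtain ⟨u, hu, hmin⟩ : ∃ u, Wait A f u ∧ ∀ x < u, ¬ Wait A f x :=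
    ⟨Nat.find hex, Nat.find_spec hex, fun x hx => Nat.find_min hex hx⟩
  have hum : u < m := by
    rcases Nat.lt_or_ge u m with h1 | h1
    · exact h1
    · exact absurd hw' (hmin u' (lt_of_lt_of_le hu' h1))
  obtain ⟨hn, ⟨p0, hp0, hp0u⟩, ⟨q0, hq0, hq0u⟩⟩ := hu
  have hlt : ∀ p ∈ f, ∀ q ∈ f, A p.1 q.1 → num A m a p.1 < num A m a q.1 := by
    intro p hp q hq hpq
    have := (NUM5 hA m).2.1 a p.1 q.1 hpq (h.rng1 q hq).2.1 (h.rng1 q hq).1
    omega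
  -- the neighbours of `u`
  obtain ⟨p, hp, hpmax⟩ := (f.toFinset.filter fun p => A p.1 u).exists_max_image
    (fun p => num A m a p.1) ⟨p0, by simp [hp0, hp0u]⟩
  obtain ⟨q, hq, hqmin⟩ := (f.toFinset.filter fun q => A u q.1).exists_min_image
    (fun q => num A m a q.1) ⟨q0, by simp [hq0, hq0u]⟩
  simp only [Finset.mem_filter, List.mem_toFinset] at hp hq hpmax hqmin
  obtain ⟨hpf, hpu⟩ := hp
  obtain ⟨hqf, hqu⟩ := hq
  have hnb : ∀ r ∈ f, ¬ (A p.1 r.1 ∧ A r.1 q.1) := by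
    rintro r hr ⟨h1, h2⟩
    rcases hA.tri r.1 u with h3 | h3 | h3
    · have := hpmax r ⟨hr, h3⟩
      have := hlt p hpf r hr h1
      omega
    · exact hn r hr h3
    · have := hqmin r ⟨hr, h3⟩
      have := hlt r hr q hqf h2
      omega
  have hzz : A p.1 q.1 := hA.tr _ _ _ hpu hqu
  have hvv : A p.2 q.2 := (h.mono p hpf q hqf).1 hzz
  obtain ⟨i, hi⟩ := List.mem_iff_getElem?.1 hpf
  obtain ⟨j, hj⟩ := List.mem_iff_getElem?.1 hqf
  have hwin := h.win i j p q hi hj hzz hnb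
  have hij : i ≠ j := by
    rintro rfl
    rw [hi] at hj
    have h1 : p = q := Option.some.inj hj
    rw [h1] at hzz
    exact hA.irr _ hzz
  have hp2 := h.rng2 p hpf
  have hq2 := h.rng2 q hqf
  refine ⟨u, p.1, p.2, q.1, q.2, hpf, hqf, hpu, hqu, hum, hnb, hmin, hp2.1, hq2.1, hvv,
    (h.par p hpf).1, (h.par q hqf).2, by omega, ?_⟩
  exact NUM2 hA hp2.2.1 hvv hq2.2.2 hp2.1 hq2.1

end Pool.Agent.DMN
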