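import Pool.Agent.DMN.Defs
import Pool.Agent.DMN.DefsB
import Pool.Agent.DMN.DefsD
import Pool.Agent.DMN.P_FIM
import Pool.Agent.DMN.P_FIN
import Pool.Agent.DMN.P_FIW
import Pool.Agent.DMN.P_NUM3

/-!
# DMN: TCA
-/

set_option autoImplicit false

namespace Pool.Agent.DMN

/-- the counts take all values -/
theorem TCA_ivt {A : ℕ → ℕ → Prop} {a b : ℕ} (hi : (Icc' A a b).Infinite) (E : ℕ) :
    ∃ m, num A m a b = E := by
  classical
  have hub : ∃ m, E ≤ num A m a b := by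
    obtain ⟨S, hS, hc⟩ := hi.exists_subset_card_eq E
    refine ⟨S.sup id + 1, ?_⟩
    unfold num
    rw [← hc]
    apply Finset.card_le_card
    intro x hx
    have h1 := hS hx
    rw [Finset.mem_filter, Finset.mem_range]
    exact ⟨Nat.lt_succ_of_le (Finset.le_sup (f := id) hx), h1⟩
  refine ⟨Nat.find hub, le_antisymm ?_ (Nat.find_spec hub)⟩
  rcases Nat.eq_zero_or_pos (Nat.find hub) with h0 | h0
  · rw [h0]
    simp [num]
  · have h1 := Nat.find_min hub (Nat.sub_lt h0 one_pos)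
    obtain ⟨n, hn⟩ : ∃ n, Nat.find hub = n + 1 := ⟨Nat.find hub - 1, by omega⟩
    rw [hn] at h1 ⊢
    simp only [Nat.add_sub_cancel] at h1
    have h2 : num A (n + 1) a b ≤ num A n a b + 1 := by
      unfold num
      rw [Finset.range_add_one, Finset.filter_insert]
      split_ifs
      · exact Finset.card_insert_le _ _
      · omega
    omega

/-- the evidence for the labels `< E` appears -/
theorem TCA_ev {k : ℕ} {A : ℕ → ℕ → Prop} {c : Cd} (he : EvLim A k c) (E m : ℕ) :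
    ∃ M, m ≤ M ∧ Ev A k M E c := by
  obtain ⟨h1, ⟨M0, h2⟩, h3⟩ := he
  have key : ∀ P : ℕ → Prop, ∀ Q : Prop, (Q → ∃ w, P w) → ∃ B, Q → ∃ w < B, P w := by
    intro P Q h
    by_cases hQ : Q
    · obtain ⟨w, hw⟩ := h hQ
      exact ⟨w + 1, fun _ => ⟨w, Nat.lt_succ_self w, hw⟩⟩
    · exact ⟨0, fun h => absurd h hQ⟩
  have key2 : ∀ x, ∃ B, ∀ M ≥ B, (A x (cm1 c) → ∃ w < M, A x w ∧ A w (cm1 c)) ∧
      (A (cm2 c) x → ∃ w < M, A (cm2 c) w ∧ A w x) ∧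
      (A x (cm3 c) → ∃ w < M, A x w ∧ A w (cm3 c)) ∧
      (A (cm4 c) x → ∃ w < M, A (cm4 c) w ∧ A w x) ∧
      (A x (ca c) → ∃ w < M, A x w ∧ A w (ca c)) ∧
      (A (cb c) x → ∃ w < M, A (cb c) w ∧ A w x) := by
    intro x
    obtain ⟨e1, e2, e3, e4, e5, e6⟩ := h3 x
    obtain ⟨B1, f1⟩ := key _ _ e1
    obtain ⟨B2, f2⟩ := key _ _ e2
    obtain ⟨B3, f3⟩ := key _ _ e3
    obtain ⟨B4, f4⟩ := key _ _ e4
    obtain ⟨B5, f5⟩ := key _ _ e5
    obtain ⟨B6, f6⟩ := key _ _ e6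
    have mon : ∀ (P : ℕ → Prop) (Q : Prop) (B M : ℕ), (Q → ∃ w < B, P w) → B ≤ M →
        Q → ∃ w < M, P w := by
      intro P Q B M h hB hQ
      obtain ⟨w, hw, hP⟩ := h hQ
      exact ⟨w, lt_of_lt_of_le hw hB, hP⟩
    refine ⟨B1 + B2 + B3 + B4 + B5 + B6, fun M hM => ?_⟩
    exact ⟨mon _ _ _ _ f1 (by omega), mon _ _ _ _ f2 (by omega), mon _ _ _ _ f3 (by omega),
      mon _ _ _ _ f4 (by omega), mon _ _ _ _ f5 (by omega), mon _ _ _ _ f6 (by omega)⟩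
  choose B hB using key2
  refine ⟨m + M0 + (Finset.range E).sup B + (cm1 c + cm2 c + ca c + cb c + cm3 c + cm4 c + 1),
    by omega, ⟨by omega, by omega, by omega, by omega, by omega, by omega⟩, h1,
    h2 _ (by omega), ?_⟩
  intro x hx
  apply hB x
  have h4 : B x ≤ (Finset.range E).sup B := Finset.le_sup (Finset.mem_range.2 hx)
  omega

/-- the list of the frame after its initialisation satisfies the invariant -/
theorem TCA_f {A : ℕ → ℕ → Prop} (hA : SLO A) {c : Cd} {a a' : Fr} {m : ℕ}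
    (hm : num A m (ca c) (cb c) = 3 * (fl a + fR a)) (hf : FrInv A c a a')
    (h1 : fl a' ≤ fl a) (h2 : fR a' ≤ fR a) (h3 : 1 ≤ fl a') (h4 : 1 ≤ fR a') :
    ∃ x0 x1 b1, (ff a = [] → x0 < m ∧ x1 < m ∧ b1 < m ∧ num A m (ca c) x0 = fl a + 1 ∧
      num A m (ca c) x1 = fl a + 2 ∧ num A m b1 (cb c) = fR a + 1) ∧
      FI A (ca c) (cb c) m (ft a) (fl a') (fR a')
        (if ff a = [] then [(x0, x1), (b1, b1)] else ff a) := by
  rcases hf with ⟨he, ht, hs⟩ | ⟨hne, m1, hm1, hF⟩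
  · obtain ⟨x0, g0, -, -, e0⟩ := (NUM3 hA (m := m) (a := ca c) (b := cb c)
      (j := fl a + 1) (by omega) (by omega)).1
    obtain ⟨x1, g1, -, -, e1⟩ := (NUM3 hA (m := m) (a := ca c) (b := cb c)
      (j := fl a + 2) (by omega) (by omega)).1
    obtain ⟨b1, g2, -, -, e2⟩ := (NUM3 hA (m := m) (a := ca c) (b := cb c)
      (j := fR a + 1) (by omega) (by omega)).2
    refine ⟨x0, x1, b1, fun _ => ⟨g0, g1, g2, e0, e1, e2⟩, ?_⟩
    rw [if_pos he]
    refine FIN hA hm (by omega) (by omega) h1 h2 ?_ g0 g1 g2 e0 e1 e2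
    rw [hs, nn]
    have h5 : ∀ n : ℕ, n + 1 ≤ 3 ^ n := by
      intro n
      induction n with
      | zero => simp
      | succ n ih => rw [pow_succ]; omega
    have h6 := h5 (ft a - 1)
    omega
  · refine ⟨0, 0, 0, fun h => absurd h hne, ?_⟩
    rw [if_neg hne]
    exact FIM hA hF (hm1.trans hm.ge)

/-- TCA. A true candidate has a witness. -/
theorem TCA {k : ℕ} {A : ℕ → ℕ → Prop} (hA : SLO A) {c : Cd} {a a' : Fr}
    (he : EvLim A k c) (hi : (Icc' A (ca c) (cb c)).Infinite) (hf : FrInv A c a a')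
    (h1 : fl a' ≤ fl a) (h2 : fR a' ≤ fR a) (h3 : 1 ≤ fl a') (h4 : 1 ≤ fR a') :
    ∃ w, Dat A k c a a' w := by
  obtain ⟨m, hm⟩ := TCA_ivt hi (3 * (fl a + fR a))
  obtain ⟨x0, x1, b1, hx, hF⟩ := TCA_f hA hm hf h1 h2 h3 h4
  obtain ⟨u, z, v, z', v', g1, g2, g3, g4, g5, g6, g7, g8, g9, g10, g11, g12, g13, g14⟩ :=
    FIW hA hF
  obtain ⟨M, hM, hE⟩ := TCA_ev he (3 * (fl a + fR a)) m
  refine ⟨((m, M), (x0, x1, b1), (u, z, v, z', v')), ⟨hM, hE, hm⟩, hx, ?_,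
    ⟨g1, g2, g3, g4, g5, g6, g7⟩, g10, g11, g12, g13, g14⟩
  intro p hp
  exact ⟨(hF.rng1 p hp).1, (hF.rng2 p hp).1⟩

end Pool.Agent.DMN
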