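import Pool.Agent.DMN.Defs
import Pool.Agent.DMN.DefsB
import Pool.Agent.DMN.DefsD
import Pool.Agent.DMN.P_CAS
import Pool.Agent.DMN.P_DTA
import Pool.Agent.DMN.P_FRI
import Pool.Agent.DMN.P_OPA
import Pool.Agent.DMN.P_PUP
import Pool.Agent.DMN.P_TCA

/-!
# DMN, target INF: some index attacks infinitely often
-/

set_option autoImplicit false

namespace Pool.Agent.DMN

theorem INF {k : ℕ} {σ : ℕ → St} (h : Run k σ) {A : ℕ → ℕ → Prop} (hA : SLO A)
    (hR : Real k A) (hT : ∃ c, EvLim A k c ∧ (Icc' A (ca c) (cb c)).Infinite) :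
    ∃ i, ∀ S, ∃ s ≥ S, AttAt k σ i s := by
  by_contra hno
  push Not at hno
  obtain ⟨c, he, hinf⟩ := hT
  choose S hS using hno
  obtain ⟨i, hi⟩ : ∃ i, i = Encodable.encode c + 1 := ⟨_, rfl⟩
  have hcd : cd i = c := by
    rw [hi]
    exact Denumerable.ofNat_encode c
  have hi1 : 1 ≤ i := by omega
  -- no attack of the indices `≤ i` after stage `S0`
  obtain ⟨S0, hS0⟩ : ∃ S0, ∀ s ≥ S0, ∀ j ≤ i, ¬ AttAt k σ j s := by
    refine ⟨(Finset.range (i + 1)).sup S, ?_⟩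
    intro s hs j hj
    exact hS j s (le_trans (Finset.le_sup (f := S) (Finset.mem_range.2 (by omega))) hs)
  obtain ⟨S1, hS1⟩ := PUP h hS0
  obtain ⟨hlen, -⟩ := hS1 S1 le_rfl
  have hI := h.inv S1
  have hf := FRI h hA hR S1 i hi1 hlen
  obtain ⟨h1, h2⟩ := hI.lmono (i - 1) i (by omega) hlen
  obtain ⟨h3, h4⟩ := hI.lmono 0 (i - 1) (by omega) (by omega)
  rw [hI.root] at h3 h4
  have h5 : 1 ≤ fl (fr (σ S1) (i - 1)) := le_trans (by simp [fl]) h3
  have h6 : 1 ≤ fR (fr (σ S1) (i - 1)) := le_trans (by simp [fR]) h4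
  obtain ⟨w, hw⟩ := TCA hA (c := cd i) (by rw [hcd]; exact he) (by rw [hcd]; exact hinf)
    hf h1 h2 h5 h6
  obtain ⟨s0, hs0⟩ := hR.1 (wM w)
  obtain ⟨t, ht⟩ : ∃ t, t = S0 + S1 + s0 + Encodable.encode w + 1 := ⟨_, rfl⟩
  have hle : t ≤ Nat.pair i t := Nat.right_le_pair i t
  obtain ⟨s, hs⟩ : ∃ s, s = Nat.pair i t := ⟨_, rfl⟩
  have hu : (Nat.unpair s).1 = i := by rw [hs, Nat.unpair_pair]
  rw [← hs] at hle
  have hok : Ok k s (wM w) := (OPA hs0 le_rfl (by omega)).1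
  obtain ⟨hl, hfr⟩ := hS1 s (by omega)
  have hreq : Req k s (σ s) w := by
    refine ⟨?_, ?_, hok, ?_⟩
    · rw [hu]
      exact hi1
    · rw [hu]
      exact hl
    · rw [hu, hfr i le_rfl, hfr (i - 1) (by omega)]
      exact (DTA hR hok).2 hw
  rcases CAS h s with ⟨w', C', l, f', hr, ha, -⟩ | ⟨hn, -, -⟩
  · exact hS0 s (by omega) i le_rfl ⟨hu, w', hr, ha⟩
  · refine hn (Encodable.encode w) (by omega) ?_
    have : wi (Encodable.encode w) = w := Denumerable.ofNat_encode w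
    rw [this]
    exact hreq

end Pool.Agent.DMN
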