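import Pool.Agent.DMN.Defs
import Pool.Agent.DMN.DefsB
import Pool.Agent.DMN.DefsD
import Pool.Agent.DMN.P_NUM6
import Pool.Agent.DMN.P_SFL
import Pool.Agent.DMN.P_SK1
import Pool.Agent.DMN.P_SK2

/-!
# DMN: target SK4
-/

set_option autoImplicit false

namespace Pool.Agent.DMN

open Classical in
/-- ranks inside a finite set of a strict linear order: every value is attained -/
theorem SK4_rank {X : ℕ → ℕ → Prop} (hX : SLO X) (W : Finset ℕ) {j : ℕ} (hj : j < W.card) :
    ∃ w ∈ W, (W.filter fun x => X x w).card = j := by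
  have key : ∀ a ∈ W, ∀ b ∈ W, X a b →
      (W.filter fun x => X x a).card < (W.filter fun x => X x b).card := by
    intro a ha b hb hab
    apply Finset.card_lt_card
    refine ⟨?_, ?_⟩
    · intro x hx
      simp only [Finset.mem_filter] at hx ⊢
      exact ⟨hx.1, hX.tr _ _ _ hx.2 hab⟩
    · intro hsub
      have : a ∈ W.filter fun x => X x a := hsub (by simp [ha, hab])
      simp only [Finset.mem_filter] at this
      exact hX.irr _ this.2
  have hsurj := Finset.surj_on_of_inj_on_of_card_le (s := W) (t := Finset.range W.card)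
    (fun w _ => (W.filter fun x => X x w).card)
    (by
      intro a ha
      rw [Finset.mem_range]
      apply Finset.card_lt_card
      refine ⟨Finset.filter_subset _ _, ?_⟩
      intro hsub
      have := hsub ha
      simp only [Finset.mem_filter] at this
      exact hX.irr _ this.2)
    (by
      intro a b ha hb hab
      rcases hX.tri a b with h | h | h
      · exact absurd hab (key a ha b hb h).ne
      · exact h
      · exact absurd hab (key b hb a ha h).ne')
    (by simp)
  obtain ⟨w, hw, h⟩ := hsurj j (Finset.mem_range.2 hj)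
  exact ⟨w, hw, h.symm⟩

open Classical in
theorem SK4 {X : ℕ → ℕ → Prop} (S : Stk X) {p : ℕ} (hp : ∀ k, S.P k ≤ p) (h1 : 1 ≤ p)
    (W : Finset ℕ) (h : ∀ v ∈ W, {w | X v w}.Infinite) : W.card + 1 < p + S.N := by
  by_contra hcon
  have hX := S.hX
  have hN := S.hN
  obtain ⟨v, hvW, hv⟩ := SK4_rank hX W (j := p - 1) (by omega)
  obtain ⟨v', hvW', hv'⟩ := SK4_rank hX W (j := p - 1 + (S.N - 1)) (by omega)
  have mono : ∀ a b, X a b →
      (W.filter fun x => X x a).card ≤ (W.filter fun x => X x b).card := by
    intro a b hab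
    apply Finset.card_le_card
    intro x hx
    simp only [Finset.mem_filter] at hx ⊢
    exact ⟨hx.1, hX.tr _ _ _ hx.2 hab⟩
  have hvv : X v v' := by
    rcases hX.tri v v' with h' | h' | h'
    · exact h'
    · subst h'; omega
    · have := mono _ _ h'
      omega
  -- the level
  have hnk : ∀ k, k ≤ S.n k := by
    intro k
    induction k with
    | zero => exact Nat.zero_le _
    | succ k ih => exact lt_of_le_of_lt ih (S.hn k)
  obtain ⟨K, hK⟩ : ∃ K, ∀ w ∈ W, w < K :=
    ⟨W.sup id + 1, fun w hw => Nat.lt_succ_of_le (Finset.le_sup (f := id) hw)⟩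
  have hWn : ∀ k ≥ K, ∀ w ∈ W, w < S.n k := fun k hk w hw =>
    lt_of_lt_of_le (hK w hw) (le_trans hk (hnk k))
  -- counting in `[v, v']`
  have hcount : S.N ≤ num X (S.n K) v v' := by
    have e1 : (W.filter fun x => X x v) ∪
        (W.filter fun x => (v = x ∨ X v x) ∧ (x = v' ∨ X x v')) =
        insert v' (W.filter fun x => X x v') := by
      ext x
      simp only [Finset.mem_union, Finset.mem_filter, Finset.mem_insert]
      constructor
      · rintro (⟨hx, hxv⟩ | ⟨hx, h3, h4⟩)
        · exact Or.inr ⟨hx, hX.tr _ _ _ hxv hvv⟩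
        · rcases h4 with h4 | h4
          · exact Or.inl h4
          · exact Or.inr ⟨hx, h4⟩
      · rintro (hx | ⟨hx, hxv⟩)
        · subst hx
          exact Or.inr ⟨hvW', Or.inr hvv, Or.inl rfl⟩
        · rcases hX.tri x v with h' | h' | h'
          · exact Or.inl ⟨hx, h'⟩
          · exact Or.inr ⟨hx, Or.inl h'.symm, Or.inr hxv⟩
          · exact Or.inr ⟨hx, Or.inr h', Or.inr hxv⟩
    have e2 : (insert v' (W.filter fun x => X x v')).card = p - 1 + (S.N - 1) + 1 := by
      rw [Finset.card_insert_of_notMem, hv']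
      simp only [Finset.mem_filter, not_and]
      intro _
      exact hX.irr v'
    have e3 := Finset.card_union_le (W.filter fun x => X x v)
      (W.filter fun x => (v = x ∨ X v x) ∧ (x = v' ∨ X x v'))
    rw [e1, e2, hv] at e3
    have e4 : (W.filter fun x => (v = x ∨ X v x) ∧ (x = v' ∨ X x v')).card ≤
        num X (S.n K) v v' := by
      unfold num
      apply Finset.card_le_card
      intro x hx
      simp only [Finset.mem_filter, Finset.mem_range] at hx ⊢
      exact ⟨hWn K le_rfl x hx.1, hx.2⟩
    omega
  obtain ⟨x', y', hx', hy', hadj, hvx, hyv, hcut⟩ :=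
    S.small K v v' (hWn K le_rfl v hvW) (hWn K le_rfl v' hvW') hvv hcount
  refine SK1 S (hWn K le_rfl v hvW) (hWn K le_rfl v' hvW') hx' hy' hadj hcut hvx hyv
    ?_ ?_
  · intro k hk
    refine le_trans (hp k) ?_
    have e5 : (insert v (W.filter fun x => X x v)).card = p - 1 + 1 := by
      rw [Finset.card_insert_of_notMem, hv]
      simp only [Finset.mem_filter, not_and]
      intro _
      exact hX.irr v
    have e6 : (insert v (W.filter fun x => X x v)).card ≤ below X (S.n k) v := by
      unfold below
      apply Finset.card_le_card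
      intro x hx
      simp only [Finset.mem_insert, Finset.mem_filter, Finset.mem_range] at hx ⊢
      rcases hx with hx | hx
      · subst hx
        exact ⟨hWn k hk x hvW, Or.inl rfl⟩
      · exact ⟨hWn k hk x hx.1, Or.inr hx.2⟩
    omega
  · intro k hk
    obtain ⟨S', hn', hP', _, _⟩ := SFL S
    have hinf : {w | flip X w v'}.Infinite := h v' hvW'
    have h7 := SK2 S' hinf (k := k) (by rw [hn']; exact hWn k hk v' hvW')
    rw [hP', hn', (NUM7 X (S.n k) v' v').2.1] at h7
    omega

end Pool.Agent.DMN
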