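import Pool.Agent.DMN.Defs
import Pool.Agent.DMN.DefsB
import Pool.Agent.DMN.DefsD
import Pool.Agent.DMN.P_NUM1
import Pool.Agent.DMN.P_SK4

/-!
# DMN, target SK5: the case of a bounded `P`
-/

set_option autoImplicit false

namespace Pool.Agent.DMN

theorem SK5_max {X : ℕ → ℕ → Prop} (hX : SLO X) (s : Finset ℕ) (hs : s.Nonempty) :
    ∃ x ∈ s, ∀ y ∈ s, y = x ∨ X y x := by
  classical
  induction s using Finset.induction_on with
  | empty => exact absurd hs Finset.not_nonempty_empty
  | insert c t hc ih =>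
    rcases t.eq_empty_or_nonempty with rfl | ht
    · exact ⟨c, by simp, by simp⟩
    · obtain ⟨x, hx, h⟩ := ih ht
      rcases hX.tri c x with h1 | h1 | h1
      · refine ⟨x, Finset.mem_insert_of_mem hx, fun y hy => ?_⟩
        rcases Finset.mem_insert.1 hy with rfl | hy
        · exact Or.inr h1
        · exact h y hy
      · subst h1
        exact absurd hx hc
      · refine ⟨c, Finset.mem_insert_self _ _, fun y hy => ?_⟩
        rcases Finset.mem_insert.1 hy with rfl | hy
        · exact Or.inl rfl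
        · rcases h y hy with rfl | h2
          · exact Or.inr h1
          · exact Or.inr (hX.tr _ _ _ h2 h1)

theorem SK5_inf {X : ℕ → ℕ → Prop} (hX : SLO X) {c w : ℕ}
    (ha : ∀ w, X w c → ∃ w', X w w' ∧ X w' c) (hw : X w c) :
    {u | X w u ∧ X u c}.Infinite := by
  intro hfin
  obtain ⟨w', h1, h2⟩ := ha w hw
  obtain ⟨x, hx, hmx⟩ := SK5_max hX hfin.toFinset ⟨w', by simpa using ⟨h1, h2⟩⟩
  rw [Set.Finite.mem_toFinset] at hx
  obtain ⟨y, h3, h4⟩ := ha x hx.2
  have h6 := hmx y (by
    rw [Set.Finite.mem_toFinset]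
    exact ⟨hX.tr _ _ _ hx.1 h3, h4⟩)
  rcases h6 with rfl | h5
  · exact hX.irr _ h3
  · exact hX.irr _ (hX.tr _ _ _ h3 h5)

theorem SK5_lt {A : ℕ → ℕ → Prop} {m m' c d x : ℕ} (hx : m ≤ x) (hx' : x < m')
    (h1 : c = x ∨ A c x) (h2 : x = d ∨ A x d) : num A m c d < num A m' c d := by
  classical
  unfold num
  apply Finset.card_lt_card
  rw [Finset.ssubset_iff_of_subset]
  · refine ⟨x, ?_, ?_⟩
    · simp only [Finset.mem_filter, Finset.mem_range]
      exact ⟨hx', h1, h2⟩
    · simp only [Finset.mem_filter, Finset.mem_range]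
      omega
  · intro y hy
    simp only [Finset.mem_filter, Finset.mem_range] at *
    exact ⟨by omega, hy.2⟩

theorem SK5_top {P : ℕ → ℕ} {p : ℕ} (hp : ∀ k, P k ≤ p) : ∃ K, ∀ k, P k ≤ P K := by
  by_contra h
  push Not at h
  have h1 : ∀ j, ∃ k, j ≤ P k := by
    intro j
    induction j with
    | zero => exact ⟨0, Nat.zero_le _⟩
    | succ j ih =>
      obtain ⟨k, hk⟩ := ih
      obtain ⟨k', hk'⟩ := h k
      exact ⟨k', by omega⟩
  obtain ⟨k, hk⟩ := h1 (p + 1)
  have := hp k
  omega

/-- SK5. The case of a bounded `P`. -/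
theorem SK5 {X : ℕ → ℕ → Prop} (S : Stk X) {A : ℕ → ℕ → Prop} (hA : SLO A) {a b v v' : ℕ}
    (hvv : A v v') (hav : a = v ∨ A a v) (hvb : v' = b ∨ A v' b) {m : ℕ → ℕ}
    (hm : ∀ k, m k < m (k + 1)) (hP : ∀ k, S.P k = num A (m k) a v)
    (hN : ∀ k, S.N = num A (m k) v v') {φ : ℕ → ℕ}
    (hφ : ∀ x y, x ∈ Icc' A a b → y ∈ Icc' A a b → (A x y ↔ X (φ x) (φ y)))
    (hc : ∀ w, w ∈ Icc' X (φ a) (φ b) → ∃ x ∈ Icc' A a b, φ x = w)
    (ha : ∀ w, X w (φ a) → ∃ w', X w w' ∧ X w' (φ a)) {p : ℕ} (hp : ∀ k, S.P k ≤ p) :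
    False := by
  classical
  have hX := S.hX
  have hmono : StrictMono m := strictMono_nat_of_lt_succ hm
  have hmk : ∀ k, k ≤ m k := fun k => hmono.le_apply
  have hPm : Monotone S.P := monotone_nat_of_le_succ S.hP
  obtain ⟨K0, hK0⟩ := SK5_top hp
  -- a large index
  obtain ⟨K, hKK, hKv, hKv'⟩ : ∃ K, K0 ≤ K ∧ v < m K ∧ v' < m K := by
    refine ⟨K0 + v + v' + 1, by omega, ?_, ?_⟩
    · have := hmk (K0 + v + v' + 1)
      omega
    · have := hmk (K0 + v + v' + 1)
      omega
  have hPK : ∀ k, K ≤ k → S.P k = S.P K := by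
    intro k hk
    have h1 := hK0 k
    have h2 := hPm hKK
    have h3 := hPm hk
    omega
  have hPle : ∀ k, S.P k ≤ S.P K := fun k => le_trans (hK0 k) (hPm hKK)
  -- endpoints
  have haw : a = v' ∨ A a v' := by
    rcases hav with rfl | h
    · exact Or.inr hvv
    · exact Or.inr (hA.tr _ _ _ h hvv)
  have hsub : ∀ x, (a = x ∨ A a x) → (x = v' ∨ A x v') → x ∈ Icc' A a b := by
    intro x h1 h2
    refine ⟨h1, ?_⟩
    rcases h2 with rfl | h2
    · exact hvb
    · rcases hvb with rfl | h3
      · exact Or.inr h2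
      · exact Or.inr (hA.tr _ _ _ h2 h3)
  have hab : a ∈ Icc' A a b := hsub a (Or.inl rfl) haw
  have hv'b : v' ∈ Icc' A a b := hsub v' haw (Or.inl rfl)
  have hbb : b ∈ Icc' A a b := by
    refine ⟨?_, Or.inl rfl⟩
    rcases hvb with rfl | h3
    · exact haw
    · rcases haw with rfl | h4
      · exact Or.inr h3
      · exact Or.inr (hA.tr _ _ _ h4 h3)
  -- counting
  have hcount : ∀ k, K ≤ k → S.P K + S.N = num A (m k) a v' + 1 := by
    intro k hk
    have h1 := NUM2' hA (m := m k) hav (Or.inr hvv : v = v' ∨ A v v')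
      (lt_of_lt_of_le hKv (hmono.monotone hk))
    rw [← hP k, ← hN k, hPK k hk] at h1
    exact h1
  have hall : ∀ x, (a = x ∨ A a x) → (x = v' ∨ A x v') → x < m K := by
    intro x h1 h2
    by_contra h3
    push Not at h3
    have h5 : x < m (K + x + 1) := lt_of_lt_of_le (by omega) (hmk (K + x + 1))
    have h6 := SK5_lt h3 h5 h1 h2
    have h7 := hcount K le_rfl
    have h8 := hcount (K + x + 1) (by omega)
    omega
  -- the finite set of the elements of `[a, v']`
  set W0 : Finset ℕ :=
    (Finset.range (m K)).filter fun x => (a = x ∨ A a x) ∧ (x = v' ∨ A x v') with hW0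
  have hW0c : W0.card = num A (m K) a v' := by
    rw [hW0, num]
  have hinj : Set.InjOn φ (W0 : Set ℕ) := by
    intro x hx y hy hxy
    simp only [hW0, Finset.coe_filter, Finset.mem_range, Set.mem_ofPred_eq] at hx hy
    have hx' := hsub x hx.2.1 hx.2.2
    have hy' := hsub y hy.2.1 hy.2.2
    rcases hA.tri x y with h | h | h
    · have := (hφ x y hx' hy').1 h
      rw [hxy] at this
      exact absurd this (hX.irr _)
    · exact h
    · have := (hφ y x hy' hx').1 h
      rw [hxy] at this
      exact absurd this (hX.irr _)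
  have hWc : (W0.image φ).card = W0.card := Finset.card_image_of_injOn hinj
  have hP1 : 1 ≤ S.P K := by
    rw [hP K, num, Nat.succ_le_iff, Finset.card_pos]
    exact ⟨v, Finset.mem_filter.2 ⟨Finset.mem_range.2 hKv, hav, Or.inl rfl⟩⟩
  -- one of the images has only finitely many elements above
  obtain ⟨w0, hw0, hfin0⟩ : ∃ w ∈ W0.image φ, {u | X w u}.Finite := by
    by_contra h
    push Not at h
    have h1 := SK4 S hPle hP1 (W0.image φ) (fun w hw => h w hw)
    have h7 := hcount K le_rfl
    omega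
  obtain ⟨x0, hx0, rfl⟩ := Finset.mem_image.1 hw0
  -- finitely many elements have infinitely many elements above
  have hI : {w | {u | X w u}.Infinite}.Finite := by
    by_contra h
    have h' : {w | {u | X w u}.Infinite}.Infinite := h
    obtain ⟨W, hW, hWcard⟩ := h'.exists_subset_card_eq (S.P K + S.N)
    have h1 := SK4 S hPle hP1 W (fun w hw => hW hw)
    omega
  -- `φ a` is the least element
  have hleast : ∀ w, ¬ X w (φ a) := by
    intro w hw
    have h1 : {w | X w (φ a)}.Infinite := (SK5_inf hX ha hw).mono fun u hu => hu.2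
    apply h1
    refine hI.subset fun u hu => ?_
    exact (SK5_inf hX ha hu).mono fun y hy => hy.1
  -- everything `≤ φ v'` is an image of `W0`
  have hle : ∀ w, (w = φ v' ∨ X w (φ v')) → w ∈ W0.image φ := by
    intro w hw
    have h1 : φ a = w ∨ X (φ a) w := by
      rcases hX.tri (φ a) w with h | h | h
      · exact Or.inr h
      · exact Or.inl h
      · exact absurd h (hleast w)
    have h2 : w = φ b ∨ X w (φ b) := by
      rcases hvb with rfl | h3
      · exact hw
      · have h4 := (hφ v' b hv'b hbb).1 h3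
        rcases hw with rfl | h5
        · exact Or.inr h4
        · exact Or.inr (hX.tr _ _ _ h5 h4)
    obtain ⟨x, hx, rfl⟩ := hc w ⟨h1, h2⟩
    have h3 : x = v' ∨ A x v' := by
      rcases hA.tri x v' with h | h | h
      · exact Or.inr h
      · exact Or.inl h
      · have h4 := (hφ v' x hv'b hx).1 h
        rcases hw with h5 | h5
        · rw [h5] at h4
          exact absurd h4 (hX.irr _)
        · exact absurd (hX.tr _ _ _ h4 h5) (hX.irr _)
    refine Finset.mem_image_of_mem φ ?_
    simp only [hW0, Finset.mem_filter, Finset.mem_range]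
    exact ⟨hall x hx.1 h3, hx.1, h3⟩
  -- `ℕ` is finite
  simp only [hW0, Finset.mem_filter, Finset.mem_range] at hx0
  have hx0b := hsub x0 hx0.2.1 hx0.2.2
  have hx0v : φ x0 = φ v' ∨ X (φ x0) (φ v') := by
    rcases hx0.2.2 with rfl | h
    · exact Or.inl rfl
    · exact Or.inr ((hφ x0 v' hx0b hv'b).1 h)
  have huniv : (Set.univ : Set ℕ).Finite := by
    refine ((W0.image φ).finite_toSet.union hfin0).subset fun w _ => ?_
    rcases hX.tri w (φ x0) with h | h | h
    · left
      apply hle
      rcases hx0v with h1 | h1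
      · rw [← h1]
        exact Or.inr h
      · exact Or.inr (hX.tr _ _ _ h h1)
    · left
      apply hle
      rw [h]
      exact hx0v
    · right
      exact h
  exact Set.infinite_univ huniv

end Pool.Agent.DMN
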