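import Pool.Agent.DMN.Defs
import Pool.Agent.DMN.DefsB
import Pool.Agent.DMN.DefsD
import Pool.Agent.DMN.P_GD4
import Pool.Agent.DMN.P_NUM6
import Pool.Agent.DMN.P_SFL
import Pool.Agent.DMN.P_SK2
import Pool.Agent.DMN.P_SK5

/-!
# DMN: the targets SK6 and GS
-/

set_option autoImplicit false

namespace Pool.Agent.DMN

/-- If the numbers `num A (m k) a v` are unbounded then infinitely many elements are in `[a, v)`. -/
theorem SK6_aux {A : ℕ → ℕ → Prop} {a v : ℕ} {m : ℕ → ℕ}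
    (h : ∀ p, ∃ k, p < num A (m k) a v) : {x | (a = x ∨ A a x) ∧ A x v}.Infinite := by
  classical
  intro hfin
  obtain ⟨k, hk⟩ := h (hfin.toFinset.card + 1)
  have h1 : num A (m k) a v ≤ (insert v hfin.toFinset).card := by
    unfold num
    apply Finset.card_le_card
    intro x hx
    rw [Finset.mem_filter] at hx
    rw [Finset.mem_insert, Set.Finite.mem_toFinset]
    rcases hx.2.2 with h2 | h2
    · exact Or.inl h2
    · exact Or.inr ⟨hx.2.1, h2⟩
  have h2 := Finset.card_insert_le v hfin.toFinset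
  omega

/-- Infinitely many elements of `X` are below the image of an element `x ≥ v`. -/
theorem SK6_low {X A : ℕ → ℕ → Prop} (hX : SLO X) (hA : SLO A) {a b v : ℕ}
    (hvb : v = b ∨ A v b) {φ : ℕ → ℕ}
    (hφ : ∀ x y, x ∈ Icc' A a b → y ∈ Icc' A a b → (A x y ↔ X (φ x) (φ y)))
    (hinf : {x | (a = x ∨ A a x) ∧ A x v}.Infinite) {x : ℕ} (hx : x ∈ Icc' A a b)
    (hvx : v = x ∨ A v x) : {w | X w (φ x)}.Infinite := by
  have hin : ∀ y ∈ {x | (a = x ∨ A a x) ∧ A x v}, y ∈ Icc' A a b := by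
    intro y hy
    refine ⟨hy.1, Or.inr ?_⟩
    rcases hvb with h1 | h1
    · rw [← h1]; exact hy.2
    · exact hA.tr _ _ _ hy.2 h1
  have hinj : Set.InjOn φ {x | (a = x ∨ A a x) ∧ A x v} := by
    intro y hy y' hy' he
    rcases hA.tri y y' with h1 | h1 | h1
    · have h2 := (hφ y y' (hin y hy) (hin y' hy')).1 h1
      rw [he] at h2
      exact absurd h2 (hX.irr _)
    · exact h1
    · have h2 := (hφ y' y (hin y' hy') (hin y hy)).1 h1
      rw [he] at h2
      exact absurd h2 (hX.irr _)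
  refine (hinf.image hinj).mono ?_
  rintro w ⟨y, hy, rfl⟩
  show X (φ y) (φ x)
  refine (hφ y x (hin y hy) hx).1 ?_
  rcases hvx with h1 | h1
  · rw [← h1]; exact hy.2
  · exact hA.tr _ _ _ hy.2 h1

/-- SK6. A stuck frame refutes the isomorphism. -/
theorem SK6 {X : ℕ → ℕ → Prop} (S : Stk X) {A : ℕ → ℕ → Prop} (hA : SLO A) {a b v v' : ℕ}
    (hvv : A v v') (hav : a = v ∨ A a v) (hvb : v' = b ∨ A v' b) {m : ℕ → ℕ}
    (hm : ∀ k, m k < m (k + 1)) (hP : ∀ k, S.P k = num A (m k) a v)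
    (hQ : ∀ k, S.Q k = num A (m k) v' b) (hN : ∀ k, S.N = num A (m k) v v') {φ : ℕ → ℕ}
    (hφ : ∀ x y, x ∈ Icc' A a b → y ∈ Icc' A a b → (A x y ↔ X (φ x) (φ y)))
    (hc : ∀ w, w ∈ Icc' X (φ a) (φ b) → ∃ x ∈ Icc' A a b, φ x = w)
    (ha : ∀ w, X w (φ a) → ∃ w', X w w' ∧ X w' (φ a))
    (hb : ∀ w, X (φ b) w → ∃ w', X (φ b) w' ∧ X w' w) : False := by
  classical
  have hflip : ∀ w, w ∈ Icc' (flip A) b a ↔ w ∈ Icc' A a b := by
    intro w
    constructor
    · rintro ⟨h1, h2⟩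
      exact ⟨h2.imp Eq.symm id, h1.imp Eq.symm id⟩
    · rintro ⟨h1, h2⟩
      exact ⟨h2.imp Eq.symm id, h1.imp Eq.symm id⟩
  by_cases hPb : ∃ p, ∀ k, S.P k ≤ p
  · obtain ⟨p, hp⟩ := hPb
    exact SK5 S hA hvv hav hvb hm hP hN hφ hc ha hp
  by_cases hQb : ∃ p, ∀ k, S.Q k ≤ p
  · obtain ⟨p, hp⟩ := hQb
    obtain ⟨S', -, hSP, -, hSN⟩ := SFL S
    have hA' : SLO (flip A) := (NUM7 A 0 0 0).2.2.2.1 hA
    refine SK5 S' hA' (a := b) (b := a) (v := v') (v' := v) (m := m) (φ := φ) (p := p)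
      hvv ?_ ?_ hm ?_ ?_ ?_ ?_ ?_ ?_
    · exact hvb.imp Eq.symm id
    · exact hav.imp Eq.symm id
    · intro k
      rw [hSP, hQ k, (NUM7 A (m k) v' b).1]
    · intro k
      rw [hSN, hN k, (NUM7 A (m k) v v').1]
    · intro x y hx hy
      exact hφ y x ((hflip y).1 hy) ((hflip x).1 hx)
    · intro w hw
      obtain ⟨x, hx, hxw⟩ := hc w ⟨hw.2.imp Eq.symm id, hw.1.imp Eq.symm id⟩
      exact ⟨x, (hflip x).2 hx, hxw⟩
    · intro w hw
      obtain ⟨w', h1, h2⟩ := hb w hw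
      exact ⟨w', h2, h1⟩
    · intro k
      rw [hSP]
      exact hp k
  have hP' : ∀ p, ∃ k, p < num A (m k) a v := by
    intro p
    by_contra hcon
    apply hPb
    refine ⟨p, fun k => ?_⟩
    rw [hP k]
    by_contra h1
    exact hcon ⟨k, not_le.1 h1⟩
  have hQ' : ∀ p, ∃ k, p < num (flip A) (m k) b v' := by
    intro p
    by_contra hcon
    apply hQb
    refine ⟨p, fun k => ?_⟩
    rw [hQ k]
    by_contra h1
    refine hcon ⟨k, ?_⟩
    rw [(NUM7 A (m k) v' b).1]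
    exact not_le.1 h1
  have hlow := SK6_aux hP'
  have hupp := SK6_aux hQ'
  have hXf : SLO (flip X) := (NUM7 X 0 0 0).2.2.2.1 S.hX
  have hAf : SLO (flip A) := (NUM7 A 0 0 0).2.2.2.1 hA
  have hvb' : v = b ∨ A v b := by
    rcases hvb with h1 | h1
    · rw [← h1]; exact Or.inr hvv
    · exact Or.inr (hA.tr _ _ _ hvv h1)
  have hav' : a = v' ∨ A a v' := by
    rcases hav with h1 | h1
    · rw [h1]; exact Or.inr hvv
    · exact Or.inr (hA.tr _ _ _ h1 hvv)
  set W0 : Finset ℕ := (Finset.range (m 0)).filter fun x => (v = x ∨ A v x) ∧ (x = v' ∨ A x v')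
    with hW0
  have hW0in : ∀ x ∈ W0, x ∈ Icc' A a b := by
    intro x hx
    rw [hW0, Finset.mem_filter] at hx
    obtain ⟨-, h1, h2⟩ := hx
    constructor
    · rcases hav with h3 | h3
      · rw [h3]; exact h1
      · rcases h1 with h1 | h1
        · rw [← h1]; exact Or.inr h3
        · exact Or.inr (hA.tr _ _ _ h3 h1)
    · rcases hvb with h3 | h3
      · rw [← h3]; exact h2
      · rcases h2 with h2 | h2
        · rw [h2]; exact Or.inr h3
        · exact Or.inr (hA.tr _ _ _ h2 h3)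
  have hinj : Set.InjOn φ (W0 : Set ℕ) := by
    intro y hy y' hy' he
    have hy1 := hW0in y hy
    have hy2 := hW0in y' hy'
    rcases hA.tri y y' with h1 | h1 | h1
    · have h2 := (hφ y y' hy1 hy2).1 h1
      rw [he] at h2
      exact absurd h2 (S.hX.irr _)
    · exact h1
    · have h2 := (hφ y' y hy2 hy1).1 h1
      rw [he] at h2
      exact absurd h2 (S.hX.irr _)
  have hcard : (W0.image φ).card = S.N := by
    rw [Finset.card_image_of_injOn hinj, hN 0]
    rfl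
  have hlt := SK3 S (W0.image φ) (by
    intro w hw
    rw [Finset.mem_image] at hw
    obtain ⟨x, hx, rfl⟩ := hw
    have hxin := hW0in x hx
    rw [hW0, Finset.mem_filter] at hx
    obtain ⟨-, h1, h2⟩ := hx
    constructor
    · exact SK6_low S.hX hA hvb' hφ hlow hxin h1
    · refine SK6_low (X := flip X) (A := flip A) (a := b) (b := a) (v := v') hXf hAf ?_ ?_
        hupp ((hflip x).2 hxin) (h2.imp Eq.symm id)
      · exact hav'.imp Eq.symm id
      · intro y z hy hz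
        exact hφ z y ((hflip z).1 hz) ((hflip y).1 hy))
  omega

/-- GS. A stuck game refutes the isomorphism: GD4 and SK6. -/
theorem GS {A X : ℕ → ℕ → Prop} {a b t : ℕ} (G : Game A X a b t) {K : ℕ}
    (h : ∀ k ≥ K, G.f (k + 1) = G.f k) {φ : ℕ → ℕ}
    (hφ : ∀ x y, x ∈ Icc' A a b → y ∈ Icc' A a b → (A x y ↔ X (φ x) (φ y)))
    (hc : ∀ w, w ∈ Icc' X (φ a) (φ b) → ∃ x ∈ Icc' A a b, φ x = w)
    (ha : ∀ w, X w (φ a) → ∃ w', X w w' ∧ X w' (φ a))
    (hb : ∀ w, X (φ b) w → ∃ w', X (φ b) w' ∧ X w' w) : False := by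
  obtain ⟨S, m, v, v', hvv, hav, hvb, hm, hP, hQ, hN⟩ := GD4 G h
  exact SK6 S G.hA hvv hav hvb hm hP hQ hN hφ hc ha hb

end Pool.Agent.DMN
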