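import Pool.Agent.DMN.Defs
import Pool.Agent.DMN.DefsB
import Pool.Agent.DMN.DefsD
import Pool.Agent.DMN.P_AS2
import Pool.Agent.DMN.P_ASE
import Pool.Agent.DMN.P_EMB
import Pool.Agent.DMN.P_GAM
import Pool.Agent.DMN.P_GD2
import Pool.Agent.DMN.P_GFI
import Pool.Agent.DMN.P_INF
import Pool.Agent.DMN.P_OKI
import Pool.Agent.DMN.P_PUP
import Pool.Agent.DMN.P_SK6

/-!
# DMN: target RT
-/

set_option autoImplicit false

namespace Pool.Agent.DMN

/-- RT. THEOREM ON REGIONS (II). -/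
theorem RT {k : ℕ} {σ : ℕ → St} (h : Run k σ) (hc : Computable σ) {A : ℕ → ℕ → Prop}
    (hA : SLO A) (hd : ComputablePred fun p : ℕ × ℕ => A p.1 p.2) (hR : Real k A)
    (hT : ∃ c, EvLim A k c ∧ (Icc' A (ca c) (cb c)).Infinite)
    (hF : ∀ c, EvLim A k c → ∃ φ : ℕ → ℕ,
      (∀ x y, x ∈ Icc' A (ca c) (cb c) → y ∈ Icc' A (ca c) (cb c) →
        (A x y ↔ xo σ (φ x) (φ y))) ∧
      (∀ w, w ∈ Icc' (xo σ) (φ (ca c)) (φ (cb c)) → ∃ x ∈ Icc' A (ca c) (cb c), φ x = w) ∧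
      (∀ w, xo σ w (φ (ca c)) → ∃ w', xo σ w w' ∧ xo σ w' (φ (ca c))) ∧
      (∀ w, xo σ (φ (cb c)) w → ∃ w', xo σ (φ (cb c)) w' ∧ xo σ w' w)) :
    ∃ g : ℕ → ℕ, Computable g ∧ (∀ x y, A x y → A (g x) (g y)) ∧ g ≠ id := by
  classical
  have hex : ∃ i, ∀ S, ∃ s ≥ S, AttAt k σ i s := INF h hA hR hT
  obtain ⟨i, hi, hl⟩ : ∃ i, (∀ S, ∃ s ≥ S, AttAt k σ i s) ∧
      ∀ j < i, ∃ S, ∀ s ≥ S, ¬ AttAt k σ j s := by
    refine ⟨Nat.find hex, Nat.find_spec hex, ?_⟩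
    intro j hj
    have := Nat.find_min hex hj
    push Not at this
    exact this
  obtain ⟨T, S0, hon⟩ := PRB h hi hl
  obtain ⟨D, hD⟩ := ASE h hon hi
  obtain ⟨G, hG⟩ := GAM h hA hR D
  have hel := ELI h hA hR D
  obtain ⟨φ, hφ, hcv, ha, hb⟩ := hF _ hel
  have huns : ∀ K, ∃ k ≥ K, G.f (k + 1) ≠ G.f k := by
    by_contra hcon
    push Not at hcon
    obtain ⟨K, hK⟩ := hcon
    exact GS G hK hφ hcv ha hb
  obtain ⟨⟨lp, rp, hfi⟩, -, -, hmono⟩ := GFI G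
  have hFiff : ∀ p, (∃ s, D.τ 0 + 1 ≤ s ∧ p ∈ ff (fr (σ s) i)) ↔ ∃ j, p ∈ G.f (j + 1) := by
    intro p
    constructor
    · rintro ⟨s, hs, hp⟩
      have hex2 : ∃ j, s ≤ D.τ j := ⟨s, D.mono.id_le s⟩
      obtain ⟨j', hj1, hj2⟩ : ∃ j', s ≤ D.τ j' ∧ ∀ j < j', ¬ s ≤ D.τ j :=
        ⟨Nat.find hex2, Nat.find_spec hex2, fun j hj => Nat.find_min hex2 hj⟩
      obtain ⟨j, rfl⟩ : ∃ j, j' = j + 1 := by
        cases j' with
        | zero => omega
        | succ j => exact ⟨j, rfl⟩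
      have h2 := hj2 j (by omega)
      have h3 := AS2 h D j s (by omega) hj1
      rw [h3] at hp
      refine ⟨j, ?_⟩
      rw [(hG j).2.2.2.2.2]
      exact hp
    · rintro ⟨j, hj⟩
      refine ⟨D.τ j + 1, by have := D.mono.monotone (Nat.zero_le j); omega, ?_⟩
      rw [AS2 h D j (D.τ j + 1) (by omega) (D.mono (Nat.lt_succ_self j))]
      rw [(hG j).2.2.2.2.2] at hj
      exact hj
  obtain ⟨x0, x1, b1, e0, e1, e01, -, e2⟩ := (hfi 1).ends
  have hin : ∀ j, ∀ p ∈ G.f (j + 1), (x0 = p.1 ∨ A x0 p.1) ∧ (p.1 = b1 ∨ A p.1 b1) := by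
    intro j
    induction j with
    | zero => exact e2
    | succ j ih =>
      intro p hp
      rcases G.step (j + 1) with ⟨y, hy, hg, hstep⟩ | ⟨-, hstep⟩
      · rw [hstep] at hp
        rcases List.mem_append.1 hp with hp | hp
        · exact ih p hp
        · rw [List.mem_singleton] at hp
          subst hp
          refine ⟨Or.inr ?_, Or.inr ?_⟩
          · rcases (ih _ (G.hz (j + 1))).1 with h1 | h1
            · simp only at h1
              rw [h1]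
              exact G.hzu (j + 1)
            · exact hA.tr _ _ _ h1 (G.hzu (j + 1))
          · rcases (ih _ (G.hz' (j + 1))).2 with h1 | h1
            · simp only at h1
              rw [← h1]
              exact G.huz (j + 1)
            · exact hA.tr _ _ _ (G.huz (j + 1)) h1
      · rw [hstep] at hp
        exact ih p hp
  refine EMB hA hd (F := fun p => ∃ s, D.τ 0 + 1 ≤ s ∧ p ∈ ff (fr (σ s) i))
    (FRE hc i _) ?_ (x0 := x0) (x1 := x1) (b1 := b1) ?_ ?_ e01 ?_ ?_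
  · intro p q hp hq
    obtain ⟨j1, h1⟩ := (hFiff p).1 hp
    obtain ⟨j2, h2⟩ := (hFiff q).1 hq
    exact (hfi (max (j1 + 1) (j2 + 1))).mono p (hmono _ _ (le_max_left _ _) p h1) q
      (hmono _ _ (le_max_right _ _) q h2)
  · exact (hFiff _).2 ⟨0, e0⟩
  · exact (hFiff _).2 ⟨0, e1⟩
  · intro p hp
    obtain ⟨j, h1⟩ := (hFiff p).1 hp
    exact hin j p h1
  · intro x h1 h2
    obtain ⟨j, y, hy⟩ := GD2 G huns e0 e1 h1 h2
    exact ⟨y, (hFiff _).2 ⟨j, hmono j (j + 1) (Nat.le_succ j) _ hy⟩⟩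

end Pool.Agent.DMN
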