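import Pool.Agent.DMN.Defs
import Pool.Agent.DMN.DefsB
import Pool.Agent.DMN.DefsD

/-!
# DMN: targets GAE (existence of the gap) and INI (the initial state)
-/

set_option autoImplicit false

namespace Pool.Agent.DMN

/-- GAE. Existence of the gap. -/
theorem GAE {X C C' : List ℕ} {N P Q : ℕ} (h : Split X C N C') (hP : 1 ≤ P) (hQ : 1 ≤ Q)
    (hs : P + N + Q ≤ X.length + 2) : ∃ l, Gap X C' P Q l := by
  classical
  obtain ⟨-, -, h3, -, -⟩ := h
  obtain ⟨l0, hl0, hl1, hl2⟩ := h3 (P - 1) (by omega) (by omega)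
  let S : Finset ℕ := (Finset.range (X.length + 1)).filter
    fun l => P ≤ l ∧ l + Q ≤ X.length ∧ Pos X C' l
  have hne : S.Nonempty := ⟨l0, by
    simp only [S, Finset.mem_filter, Finset.mem_range]
    exact ⟨by omega, by omega, by omega, hl2⟩⟩
  obtain ⟨l, hl, hmin⟩ := S.exists_min_image
    (fun l => Nat.pair (X.getD (l - 1) 0) (X.getD l 0)) hne
  simp only [S, Finset.mem_filter, Finset.mem_range] at hl hmin
  refine ⟨l, hl.2.1, hl.2.2.1, hl.2.2.2, fun l' h1 h2 h3 h4 => ?_⟩
  exact hmin l' ⟨by omega, h2, h3, h4⟩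

theorem INI_pos (l : ℕ) : Pos [0, 1, 2, 3] [1, 3] l ↔ l = 2 ∨ l = 4 := by
  unfold Pos
  constructor
  · rintro ⟨h1, h2, h3⟩
    simp only [List.length_cons, List.length_nil] at h2
    have : l = 1 ∨ l = 2 ∨ l = 3 ∨ l = 4 := by omega
    rcases this with rfl | rfl | rfl | rfl
    · simp at h3
    · exact Or.inl rfl
    · simp at h3
    · exact Or.inr rfl
  · rintro (rfl | rfl) <;> simp

/-- INI. The initial state. -/
theorem INI : Inv 0 init := by
  have hlen : (init.2.2).length = 1 := rfl
  have h0 : fr init 0 = (0, 2, 2, []) := rfl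
  refine ⟨by simp [init, nn], by simp [init], ?_, ?_, ?_, ?_, ?_, h0, ?_, ?_, ?_, ?_, ?_, ?_⟩
  · intro x
    simp only [init, nn, List.mem_cons, List.not_mem_nil, or_false, pow_zero, mul_one]
    omega
  · intro x hx
    simp only [init, List.mem_cons, List.not_mem_nil, or_false] at hx
    simp only [nn, pow_zero, mul_one]
    omega
  · intro l hl
    rcases (INI_pos l).1 hl with rfl | rfl <;> rfl
  · exact (INI_pos 4).2 (Or.inr rfl)
  · exact hlen.ge
  · intro i j hij hj
    rw [hlen] at hj
    have hi : i = 0 := by omega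
    have hj' : j = 0 := by omega
    subst hi
    subst hj'
    exact ⟨le_rfl, le_rfl⟩
  · intro i j hij hj
    rw [hlen] at hj
    omega
  · intro i hi
    rw [hlen] at hi
    have hi : i = 0 := by omega
    subst hi
    rw [h0]
    exact le_rfl
  · intro i hi
    rw [hlen] at hi
    have hi : i = 0 := by omega
    subst hi
    rw [h0]
    simp [fl, fR, nn]
  · intro i hi h1
    rw [hlen] at hi
    omega
  · intro i hi
    rw [hlen] at hi
    have hi : i = 0 := by omega
    subst hi
    rw [h0]
    exact (INI_pos 2).2 (Or.inl rfl)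

end Pool.Agent.DMN
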