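import Pool.Agent.DMN.DefsB

/-!
# DMN: target INA (insertion preserves the invariant)
-/

set_option autoImplicit false

namespace Pool.Agent.DMN

theorem INA_nn (s : ℕ) : nn (s + 1) = 3 * nn s := by
  unfold nn
  rw [pow_succ]
  ring

/-- The entries of the list after the insertion. -/
theorem INA_getD {X : List ℕ} {n l q : ℕ} (hlen : X.length = n) (hl : l ≤ n) :
    (X.take l ++ List.range' n (2 * n) ++ X.drop l).getD q 0 =
      if q < l then X.getD q 0 else if q < l + 2 * n then n + (q - l)
        else X.getD (q - 2 * n) 0 := by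
  have h1 : (X.take l).length = l := by
    rw [List.length_take, hlen]
    exact min_eq_left hl
  have h2 : (X.take l ++ List.range' n (2 * n)).length = l + 2 * n := by
    rw [List.length_append, h1, List.length_range']
  by_cases c1 : q < l
  · rw [if_pos c1]
    rw [List.getD_append _ _ _ _ (by omega), List.getD_append _ _ _ _ (by omega)]
    rw [List.getD_eq_getElem?_getD, List.getD_eq_getElem?_getD, List.getElem?_take_of_lt c1]
  · rw [if_neg c1]
    by_cases c2 : q < l + 2 * n
    · rw [if_pos c2]
      rw [List.getD_append _ _ _ _ (by omega), List.getD_append_right _ _ _ _ (by omega), h1]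
      have h3 : q - l < (List.range' n (2 * n)).length := by
        rw [List.length_range']
        omega
      rw [List.getD_eq_getElem _ _ h3, List.getElem_range']
      omega
    · rw [if_neg c2]
      rw [List.getD_append_right _ _ _ _ (by omega), h2]
      rw [List.getD_eq_getElem?_getD, List.getD_eq_getElem?_getD, List.getElem?_drop]
      congr 2
      omega

theorem INA_lt {X : List ℕ} {n q : ℕ} (hn : 1 ≤ n) (hX : ∀ x ∈ X, x < n) :
    X.getD q 0 < n := by
  by_cases h : q < X.length
  · rw [List.getD_eq_getElem _ _ h]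
    exact hX _ (List.getElem_mem h)
  · rw [List.getD_eq_default _ _ (by omega)]
    omega

/-- The cut positions after the insertion. -/
theorem INA_pos {X C : List ℕ} {n l q : ℕ} (hlen : X.length = n) (hn : 1 ≤ n) (hl : l ≤ n)
    (hX : ∀ x ∈ X, x < n) (hC : ∀ x ∈ C, x < n) :
    Pos (X.take l ++ List.range' n (2 * n) ++ X.drop l) (C ++ [3 * n - 1]) q ↔
      (q ≤ l ∧ Pos X C q) ∨ q = l + 2 * n ∨ (l + 2 * n < q ∧ Pos X C (q - 2 * n)) := by
  have hL : (X.take l ++ List.range' n (2 * n) ++ X.drop l).length = 3 * n := by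
    rw [List.length_append, List.length_append, List.length_take, List.length_range',
      List.length_drop, hlen, min_eq_left hl]
    omega
  unfold Pos
  rw [hL, INA_getD hlen hl, hlen]
  by_cases c1 : q - 1 < l
  · rw [if_pos c1]
    have h1 := INA_lt (q := q - 1) hn hX
    constructor
    · rintro ⟨a, b, c⟩
      rw [List.mem_append, List.mem_singleton] at c
      rcases c with c | c
      · exact Or.inl ⟨by omega, a, by omega, c⟩
      · omega
    · rintro (⟨a, b, c, d⟩ | a | ⟨a, b⟩)
      · exact ⟨b, by omega, List.mem_append_left _ d⟩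
      · omega
      · omega
  · rw [if_neg c1]
    by_cases c2 : q - 1 < l + 2 * n
    · rw [if_pos c2]
      constructor
      · rintro ⟨a, b, c⟩
        rw [List.mem_append, List.mem_singleton] at c
        rcases c with c | c
        · have := hC _ c
          omega
        · right
          left
          omega
      · rintro (⟨a, b, c, d⟩ | a | ⟨a, b⟩)
        · omega
        · refine ⟨by omega, by omega, ?_⟩
          rw [List.mem_append, List.mem_singleton]
          right
          omega
        · omega
    · rw [if_neg c2]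
      have h1 := INA_lt (q := q - 1 - 2 * n) hn hX
      have h2 : q - 2 * n - 1 = q - 1 - 2 * n := by omega
      rw [h2]
      constructor
      · rintro ⟨a, b, c⟩
        rw [List.mem_append, List.mem_singleton] at c
        rcases c with c | c
        · exact Or.inr (Or.inr ⟨by omega, by omega, by omega, c⟩)
        · omega
      · rintro (⟨a, b, c, d⟩ | a | ⟨a, b, c, d⟩)
        · omega
        · omega
        · exact ⟨by omega, by omega, List.mem_append_left _ d⟩

theorem INA_fr0 {stk : List Fr} {a : Fr} {i : ℕ} (h : i < stk.length) :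
    (stk ++ [a]).getD i (0, 0, 0, []) = stk.getD i (0, 0, 0, []) :=
  List.getD_append _ _ _ _ h

theorem INA_fr1 {stk : List Fr} {a : Fr} :
    (stk ++ [a]).getD stk.length (0, 0, 0, []) = a := by
  rw [List.getD_append_right _ _ _ _ (le_refl _)]
  simp

/-- INA. Insertion preserves the invariant. -/
theorem INA {s l : ℕ} {st : St} (h : Inv s st) {C' : List ℕ} {stk : List Fr}
    (hC : ∀ x ∈ st.2.1, x ∈ C') (hC' : ∀ x ∈ C', x < nn s)
    (he : ∀ q, Pos st.1 C' q → q % 2 = 0) (hl : Pos st.1 C' l) (hl2 : 2 ≤ l)
    (hl3 : l + 2 ≤ nn s) (h1 : 1 ≤ stk.length)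
    (hroot : stk.getD 0 (0, 0, 0, []) = (0, 2, 2, []))
    (hlm : ∀ i j, i ≤ j → j < stk.length → fl (stk.getD i (0, 0, 0, [])) ≤
      fl (stk.getD j (0, 0, 0, [])) ∧ fR (stk.getD i (0, 0, 0, [])) ≤
      fR (stk.getD j (0, 0, 0, [])))
    (htm : ∀ i j, i < j → j < stk.length → ft (stk.getD i (0, 0, 0, [])) <
      ft (stk.getD j (0, 0, 0, [])))
    (htl : ∀ i < stk.length, ft (stk.getD i (0, 0, 0, [])) ≤ s)
    (hsm : ∀ i < stk.length, fl (stk.getD i (0, 0, 0, [])) + fR (stk.getD i (0, 0, 0, [])) ≤
      nn s)
    (hps : ∀ i < stk.length, Pos st.1 C' (fl (stk.getD i (0, 0, 0, []))))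
    (htop : ∀ i < stk.length, fl (stk.getD i (0, 0, 0, [])) ≤ l ∧
      fR (stk.getD i (0, 0, 0, [])) ≤ nn s - l) :
    Inv (s + 1) (insAt s l st.1 C' stk) := by
  have hlen : st.1.length = nn s := h.len
  have hn1 : 1 ≤ nn s := by omega
  have hln : l ≤ nn s := by omega
  have hX : ∀ x ∈ st.1, x < nn s := fun x hx => (h.mem x).1 hx
  have hN := INA_nn s
  have hins : insAt s l st.1 C' stk = (st.1.take l ++ List.range' (nn s) (2 * nn s) ++
      st.1.drop l, C' ++ [3 * nn s - 1], stk ++ [(s + 1, l, nn s - l, [])]) := by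
    unfold insAt
    rw [hlen]
  have hpos : ∀ q, Pos (st.1.take l ++ List.range' (nn s) (2 * nn s) ++ st.1.drop l)
      (C' ++ [3 * nn s - 1]) q ↔ (q ≤ l ∧ Pos st.1 C' q) ∨ q = l + 2 * nn s ∨
      (l + 2 * nn s < q ∧ Pos st.1 C' (q - 2 * nn s)) := fun q =>
    INA_pos hlen hn1 hln hX hC'
  have hL : (stk ++ [((s + 1, l, nn s - l, []) : Fr)]).length = stk.length + 1 := by simp
  have hnew : (stk ++ [((s + 1, l, nn s - l, []) : Fr)]).getD stk.length (0, 0, 0, []) =
      (s + 1, l, nn s - l, []) := INA_fr1
  have hold : ∀ i, i < stk.length → (stk ++ [((s + 1, l, nn s - l, []) : Fr)]).getD i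
      (0, 0, 0, []) = stk.getD i (0, 0, 0, []) := fun i hi => INA_fr0 hi
  have hll : l % 2 = 0 := he l hl
  rw [hins]
  refine ⟨?_, ?_, ?_, ?_, ?_, ?_, ?_, ?_, ?_, ?_, ?_, ?_, ?_, ?_⟩
  · show (st.1.take l ++ List.range' (nn s) (2 * nn s) ++ st.1.drop l).length = nn (s + 1)
    rw [List.length_append, List.length_append, List.length_take, List.length_range',
      List.length_drop, hlen, min_eq_left hln]
    omega
  · show (st.1.take l ++ List.range' (nn s) (2 * nn s) ++ st.1.drop l).Nodup
    have h2 : (st.1.take l ++ st.1.drop l).Nodup := by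
      rw [List.take_append_drop]
      exact h.nodup
    rw [List.nodup_append] at h2
    obtain ⟨a1, a2, a3⟩ := h2
    rw [List.nodup_append, List.nodup_append]
    refine ⟨⟨a1, List.nodup_range', ?_⟩, a2, ?_⟩
    · intro x hx y hy hxy
      have b1 := hX x (List.mem_of_mem_take hx)
      rw [List.mem_range'_1] at hy
      omega
    · intro x hx y hy hxy
      have b1 := hX y (List.mem_of_mem_drop hy)
      rw [List.mem_append] at hx
      rcases hx with hx | hx
      · exact a3 x hx y hy hxy
      · rw [List.mem_range'_1] at hx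
        omega
  · intro x
    show x ∈ st.1.take l ++ List.range' (nn s) (2 * nn s) ++ st.1.drop l ↔ x < nn (s + 1)
    rw [List.mem_append, List.mem_append, List.mem_range'_1]
    constructor
    · rintro ((hx | hx) | hx)
      · have := hX x (List.mem_of_mem_take hx)
        omega
      · omega
      · have := hX x (List.mem_of_mem_drop hx)
        omega
    · intro hx
      by_cases c : x < nn s
      · have h2 : x ∈ st.1.take l ++ st.1.drop l := by
          rw [List.take_append_drop]
          exact (h.mem x).2 c
        rw [List.mem_append] at h2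
        tauto
      · left
        right
        omega
  · intro x hx
    have hx' : x ∈ C' ++ [3 * nn s - 1] := hx
    rw [List.mem_append, List.mem_singleton] at hx'
    rcases hx' with hx' | hx'
    · have := hC' x hx'
      omega
    · omega
  · intro q hq
    rcases (hpos q).1 hq with ⟨a, b⟩ | a | ⟨a, b⟩
    · exact he q b
    · omega
    · have := he _ b
      omega
  · show Pos _ _ (nn (s + 1))
    refine (hpos _).2 (Or.inr (Or.inr ⟨by omega, ?_⟩))
    have e : nn (s + 1) - 2 * nn s = nn s := by omega
    rw [e]
    obtain ⟨a, b, c⟩ := h.last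
    exact ⟨a, b, hC _ c⟩
  · show 1 ≤ (stk ++ [((s + 1, l, nn s - l, []) : Fr)]).length
    omega
  · show (stk ++ [((s + 1, l, nn s - l, []) : Fr)]).getD 0 (0, 0, 0, []) = (0, 2, 2, [])
    rw [hold 0 (by omega)]
    exact hroot
  · intro i j hij hj
    have hj' : j < (stk ++ [((s + 1, l, nn s - l, []) : Fr)]).length := hj
    rw [hL] at hj'
    show fl ((stk ++ [((s + 1, l, nn s - l, []) : Fr)]).getD i (0, 0, 0, [])) ≤
      fl ((stk ++ [((s + 1, l, nn s - l, []) : Fr)]).getD j (0, 0, 0, [])) ∧
      fR ((stk ++ [((s + 1, l, nn s - l, []) : Fr)]).getD i (0, 0, 0, [])) ≤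
      fR ((stk ++ [((s + 1, l, nn s - l, []) : Fr)]).getD j (0, 0, 0, []))
    by_cases c : j < stk.length
    · rw [hold j c, hold i (by omega)]
      exact hlm i j hij c
    · have ej : j = stk.length := by omega
      rw [ej, hnew]
      by_cases c2 : i < stk.length
      · rw [hold i c2]
        exact htop i c2
      · have ei : i = stk.length := by omega
        rw [ei, hnew]
        exact ⟨le_refl _, le_refl _⟩
  · intro i j hij hj
    have hj' : j < (stk ++ [((s + 1, l, nn s - l, []) : Fr)]).length := hj
    rw [hL] at hj'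
    show ft ((stk ++ [((s + 1, l, nn s - l, []) : Fr)]).getD i (0, 0, 0, [])) <
      ft ((stk ++ [((s + 1, l, nn s - l, []) : Fr)]).getD j (0, 0, 0, []))
    by_cases c : j < stk.length
    · rw [hold j c, hold i (by omega)]
      exact htm i j hij c
    · have ej : j = stk.length := by omega
      rw [ej, hnew, hold i (by omega)]
      have := htl i (by omega)
      show ft (stk.getD i (0, 0, 0, [])) < s + 1
      omega
  · intro i hi
    have hi' : i < (stk ++ [((s + 1, l, nn s - l, []) : Fr)]).length := hi
    rw [hL] at hi'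
    show ft ((stk ++ [((s + 1, l, nn s - l, []) : Fr)]).getD i (0, 0, 0, [])) ≤ s + 1
    by_cases c : i < stk.length
    · rw [hold i c]
      have := htl i c
      omega
    · have ei : i = stk.length := by omega
      rw [ei, hnew]
      exact le_refl _
  · intro i hi
    have hi' : i < (stk ++ [((s + 1, l, nn s - l, []) : Fr)]).length := hi
    rw [hL] at hi'
    show fl ((stk ++ [((s + 1, l, nn s - l, []) : Fr)]).getD i (0, 0, 0, [])) +
      fR ((stk ++ [((s + 1, l, nn s - l, []) : Fr)]).getD i (0, 0, 0, [])) ≤ nn (s + 1)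
    by_cases c : i < stk.length
    · rw [hold i c]
      have := hsm i c
      omega
    · have ei : i = stk.length := by omega
      rw [ei, hnew]
      show l + (nn s - l) ≤ nn (s + 1)
      omega
  · intro i hi _
    have hi' : i < (stk ++ [((s + 1, l, nn s - l, []) : Fr)]).length := hi
    rw [hL] at hi'
    show 3 * (fl ((stk ++ [((s + 1, l, nn s - l, []) : Fr)]).getD i (0, 0, 0, [])) +
      fR ((stk ++ [((s + 1, l, nn s - l, []) : Fr)]).getD i (0, 0, 0, []))) ≤ nn (s + 1)
    by_cases c : i < stk.length
    · rw [hold i c]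
      have := hsm i c
      omega
    · have ei : i = stk.length := by omega
      rw [ei, hnew]
      show 3 * (l + (nn s - l)) ≤ nn (s + 1)
      omega
  · intro i hi
    have hi' : i < (stk ++ [((s + 1, l, nn s - l, []) : Fr)]).length := hi
    rw [hL] at hi'
    show Pos _ _ (fl ((stk ++ [((s + 1, l, nn s - l, []) : Fr)]).getD i (0, 0, 0, [])))
    by_cases c : i < stk.length
    · rw [hold i c]
      exact (hpos _).2 (Or.inl ⟨(htop i c).1, hps i c⟩)
    · have ei : i = stk.length := by omega
      rw [ei, hnew]
      exact (hpos _).2 (Or.inl ⟨le_refl l, hl⟩)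

end Pool.Agent.DMN
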