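import Pool.Agent.DMN.Defs
import Pool.Agent.DMN.DefsB
import Pool.Agent.DMN.DefsD
import Pool.Agent.DMN.P_INA

/-!
# DMN: PRE, one step preserves the invariant
-/

set_option autoImplicit false

namespace Pool.Agent.DMN

/-- frames of `take i stack ++ [a]` below `i` -/
theorem PRE_getD_lt {L : List Fr} {a : Fr} {i j : ℕ} (hi : i < L.length) (hj : j < i) :
    (L.take i ++ [a]).getD j (0, 0, 0, []) = L.getD j (0, 0, 0, []) := by
  have h1 : j < (L.take i).length := by rw [List.length_take]; omega
  rw [List.getD_append _ _ _ _ h1]
  rw [List.getD_eq_getElem?_getD, List.getD_eq_getElem?_getD, List.getElem?_take_of_lt hj]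

/-- the frame `i` of `take i stack ++ [a]` -/
theorem PRE_getD_eq {L : List Fr} {a : Fr} {i : ℕ} (hi : i < L.length) :
    (L.take i ++ [a]).getD i (0, 0, 0, []) = a := by
  have h1 : (L.take i).length = i := by rw [List.length_take]; omega
  rw [List.getD_append_right _ _ _ _ (by omega), h1]
  simp

theorem PRE {k s : ℕ} {st st' : St} (h : Inv s st) (hR : R k s st st') : Inv (s + 1) st' := by
  have hlen2 := h.len2
  have hr1 : fl (fr st 0) = 2 := by rw [h.root]; rfl
  have hr2 : fR (fr st 0) = 2 := by rw [h.root]; rfl
  rcases hR with ⟨c, -, hReq, hAtt⟩ | ⟨-, hP⟩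
  · obtain ⟨i1, i2, -, hD⟩ := hReq
    obtain ⟨C', l, f', hS, hG, -, he⟩ := hAtt
    obtain ⟨-, -, -, -, -, hD1, hD2, -, -⟩ := hD
    obtain ⟨S1, S2, -, -, S5⟩ := hS
    obtain ⟨G1, G2, G3, -⟩ := hG
    set i := (Nat.unpair s).1 with hi
    have hlm := h.lmono
    have hb1 : 2 ≤ fl (fr st (i - 1)) := by
      have := (hlm 0 (i - 1) (by omega) (by omega)).1
      omega
    have hb2 : 2 ≤ fR (fr st (i - 1)) := by
      have := (hlm 0 (i - 1) (by omega) (by omega)).2
      omega
    have hl1 : fl (fr st (i - 1)) ≤ l := by omega
    have hlen := h.len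
    have hl2 : fR (fr st (i - 1)) ≤ nn s - l := by omega
    have hold : ∀ j, j < i → fl (fr st j) ≤ l ∧ fR (fr st j) ≤ nn s - l := by
      intro j hj
      have := hlm j (i - 1) (by omega) (by omega)
      omega
    have hfr : ∀ j, st.2.2.getD j (0, 0, 0, []) = fr st j := fun j => rfl
    rw [he]
    have hLen : (st.2.2.take i ++ [(ft (fr st i), l, st.1.length - l, f')]).length = i + 1 := by
      rw [List.length_append, List.length_take]
      simp only [List.length_singleton]
      omega
    apply INA h S1
    · intro x hx
      exact (h.mem x).1 (S2 x hx)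
    · intro q hq
      exact S5 q hq.2.1 hq
    · exact G3
    · omega
    · omega
    · omega
    · rw [PRE_getD_lt i2 (by omega)]
      exact h.root
    · intro a b hab hb
      rw [hLen] at hb
      rcases Nat.lt_or_ge b i with hbi | hbi
      · rw [PRE_getD_lt i2 (by omega), PRE_getD_lt i2 hbi]
        exact hlm a b hab (by omega)
      · have hb' : b = i := by omega
        subst hb'
        rw [PRE_getD_eq i2]
        rcases Nat.lt_or_ge a i with hai | hai
        · rw [PRE_getD_lt i2 hai]
          have := hold a hai
          show fl (fr st a) ≤ l ∧ fR (fr st a) ≤ st.1.length - l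
          rw [hlen]
          exact this
        · have ha' : a = i := by omega
          subst ha'
          rw [PRE_getD_eq i2]
          exact ⟨le_refl _, le_refl _⟩
    · intro a b hab hb
      rw [hLen] at hb
      rw [PRE_getD_lt i2 (by omega : a < i)]
      rcases Nat.lt_or_ge b i with hbi | hbi
      · rw [PRE_getD_lt i2 hbi]
        exact h.tmono a b hab (by omega)
      · have hb' : b = i := by omega
        subst hb'
        rw [PRE_getD_eq i2]
        exact h.tmono a i hab i2
    · intro a ha
      rw [hLen] at ha
      rcases Nat.lt_or_ge a i with hai | hai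
      · rw [PRE_getD_lt i2 hai]
        exact h.tle a (by omega)
      · have ha' : a = i := by omega
        subst ha'
        rw [PRE_getD_eq i2]
        exact h.tle i i2
    · intro a ha
      rw [hLen] at ha
      rcases Nat.lt_or_ge a i with hai | hai
      · rw [PRE_getD_lt i2 hai]
        exact h.sum a (by omega)
      · have ha' : a = i := by omega
        subst ha'
        rw [PRE_getD_eq i2]
        show l + (st.1.length - l) ≤ nn s
        omega
    · intro a ha
      rw [hLen] at ha
      rcases Nat.lt_or_ge a i with hai | hai
      · rw [PRE_getD_lt i2 hai]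
        have := h.pos a (by omega)
        exact ⟨this.1, this.2.1, S1 _ this.2.2⟩
      · have ha' : a = i := by omega
        subst ha'
        rw [PRE_getD_eq i2]
        exact G3
    · intro a ha
      rw [hLen] at ha
      rcases Nat.lt_or_ge a i with hai | hai
      · rw [PRE_getD_lt i2 hai]
        exact hold a hai
      · have ha' : a = i := by omega
        subst ha'
        rw [PRE_getD_eq i2]
        show l ≤ l ∧ st.1.length - l ≤ nn s - l
        omega
  · rw [hP]
    have hlm := h.lmono
    have hlast := hlm 0 (st.2.2.length - 1) (by omega) (by omega)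
    have hsum := h.sum (st.2.2.length - 1) (by omega)
    apply INA h (fun x hx => hx) h.cmem h.even (h.pos _ (by omega))
    · omega
    · omega
    · exact hlen2
    · exact h.root
    · exact hlm
    · exact h.tmono
    · exact h.tle
    · exact h.sum
    · exact h.pos
    · intro a ha
      have := hlm a (st.2.2.length - 1) (by omega) (by omega)
      show fl (fr st a) ≤ _ ∧ fR (fr st a) ≤ _
      omega

end Pool.Agent.DMN
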