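import Pool.Agent.DMN.Defs
import Pool.Agent.DMN.DefsB
import Pool.Agent.DMN.DefsD

/-!
# DMN: `insAt` is computable (target CINS)
-/

set_option autoImplicit false

namespace Pool.Agent.DMN

theorem CINS_range {γ : Type} [Primcodable γ] {f g : γ → ℕ} (hf : Primrec f) (hg : Primrec g) :
    Primrec fun a => List.range' (f a) (g a) := by
  have h : Primrec fun a => (List.range (g a)).map fun i => f a + i :=
    Primrec.list_map (Primrec.list_range.comp hg)
      (Primrec.nat_add.comp (hf.comp Primrec.fst) Primrec.snd).to₂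
  exact h.of_eq fun a => (List.range'_eq_map_range ..).symm

theorem CINS_prim : Primrec fun q : (ℕ × ℕ) × List ℕ × List ℕ × List Fr =>
    insAt q.1.1 q.1.2 q.2.1 q.2.2.1 q.2.2.2 := by
  have hs : Primrec fun q : (ℕ × ℕ) × List ℕ × List ℕ × List Fr => q.1.1 :=
    Primrec.fst.comp Primrec.fst
  have hl : Primrec fun q : (ℕ × ℕ) × List ℕ × List ℕ × List Fr => q.1.2 :=
    Primrec.snd.comp Primrec.fst
  have hX : Primrec fun q : (ℕ × ℕ) × List ℕ × List ℕ × List Fr => q.2.1 :=
    Primrec.fst.comp Primrec.snd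
  have hC : Primrec fun q : (ℕ × ℕ) × List ℕ × List ℕ × List Fr => q.2.2.1 :=
    Primrec.fst.comp (Primrec.snd.comp Primrec.snd)
  have hk : Primrec fun q : (ℕ × ℕ) × List ℕ × List ℕ × List Fr => q.2.2.2 :=
    Primrec.snd.comp (Primrec.snd.comp Primrec.snd)
  have hn : Primrec fun q : (ℕ × ℕ) × List ℕ × List ℕ × List Fr => q.2.1.length :=
    Primrec.list_length.comp hX
  have h1 : Primrec fun q : (ℕ × ℕ) × List ℕ × List ℕ × List Fr =>
      q.2.1.take q.1.2 ++ List.range' q.2.1.length (2 * q.2.1.length) ++ q.2.1.drop q.1.2 :=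
    Primrec.list_append.comp
      (Primrec.list_append.comp (Primrec.list_take.comp hl hX)
        (CINS_range hn (Primrec.nat_mul.comp (Primrec.const 2) hn)))
      (Primrec.list_drop.comp hl hX)
  have h2 : Primrec fun q : (ℕ × ℕ) × List ℕ × List ℕ × List Fr =>
      q.2.2.1 ++ [3 * q.2.1.length - 1] :=
    Primrec.list_concat.comp hC
      (Primrec.nat_sub.comp (Primrec.nat_mul.comp (Primrec.const 3) hn) (Primrec.const 1))
  have h3 : Primrec fun q : (ℕ × ℕ) × List ℕ × List ℕ × List Fr =>
      ((q.1.1 + 1, q.1.2, q.2.1.length - q.1.2, []) : Fr) :=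
    (Primrec.nat_add.comp hs (Primrec.const 1)).pair
      (hl.pair ((Primrec.nat_sub.comp hn hl).pair (Primrec.const [])))
  exact h1.pair (h2.pair (Primrec.list_concat.comp hk h3))

/-- CINS. `insAt` is computable (`Primrec.list_take`, `Primrec.list_drop`, `List.range'` = map of
`List.range`, `Primrec.list_append`). -/
theorem CINS {α : Type} [Primcodable α] {s l : α → ℕ} {X C : α → List ℕ} {stk : α → List Fr}
    (hs : Computable s)
    (hl : Computable l) (hX : Computable X) (hC : Computable C) (hk : Computable stk) :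
    Computable fun a => insAt (s a) (l a) (X a) (C a) (stk a) :=
  CINS_prim.to_comp.comp ((hs.pair hl).pair (hX.pair (hC.pair hk)))

end Pool.Agent.DMN
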