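import Pool.Agent.DMN.Defs
import Pool.Agent.DMN.DefsB
import Pool.Agent.DMN.DefsD

set_option autoImplicit false

namespace Pool.Agent.DMN

open Pool.Agent.DMO Pool.Agent.CeerI

section

variable {α : Type} [Primcodable α]

/-- counting by recursion -/
def CNUM_cnt (b : α × ℕ → Bool) (a : α) (n : ℕ) : ℕ :=
  Nat.rec 0 (fun i ih => cond (b (a, i)) (ih + 1) ih) n

theorem CNUM_comp {b : α × ℕ → Bool} (hb : Computable b) {n : α → ℕ}
    (hn : Computable n) : Computable fun a => CNUM_cnt b a (n a) := by
  have h : Computable₂ fun (a : α) (p : ℕ × ℕ) => cond (b (a, p.1)) (p.2 + 1) p.2 := by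
    refine Computable.cond ?_ ?_ ?_
    · exact hb.comp (Computable.fst.pair (Computable.fst.comp Computable.snd))
    · exact Computable.succ.comp (Computable.snd.comp Computable.snd)
    · exact Computable.snd.comp Computable.snd
  exact Computable.nat_rec hn (Computable.const 0) h

omit [Primcodable α] in
theorem CNUM_card (b : α × ℕ → Bool) (a : α) (n : ℕ) :
    ((Finset.range n).filter fun x => b (a, x) = true).card = CNUM_cnt b a n := by
  induction n with
  | zero => simp [CNUM_cnt]
  | succ n ih =>
    have h : CNUM_cnt b a (n + 1) = cond (b (a, n)) (CNUM_cnt b a n + 1) (CNUM_cnt b a n) := rfl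
    rw [h, ← ih, Finset.range_add_one, Finset.filter_insert]
    cases hb : b (a, n) with
    | false => simp
    | true =>
      simp only [if_true, cond_true]
      rw [Finset.card_insert_of_notMem]
      simp

/-- CNUM. Counting: `num A m c d` is defined by recursion on `m`: prove first that
`a ↦ #{x < m a | q (a, x)}` is computable for a decidable `q` (`Computable.nat_rec`,
`Finset.range_add_one`, `Finset.filter_insert`), then use `dec_comp`, `dec_and`, `dec_or`. -/
theorem CNUM {A : α → ℕ → ℕ → Prop}
    (hA : ComputablePred fun q : (α × ℕ) × ℕ => A q.1.1 q.1.2 q.2) {m c d : α → ℕ}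
    (hm : Computable m) (hc : Computable c) (hd : Computable d) :
    Computable fun a => num (A a) (m a) (c a) (d a) := by
  have hq : ComputablePred fun q : α × ℕ =>
      (c q.1 = q.2 ∨ A q.1 (c q.1) q.2) ∧ (q.2 = d q.1 ∨ A q.1 q.2 (d q.1)) := by
    have e1 : Computable fun q : α × ℕ => c q.1 := hc.comp Computable.fst
    have e2 : Computable fun q : α × ℕ => d q.1 := hd.comp Computable.fst
    refine dec_and (dec_or ?_ ?_) (dec_or ?_ ?_)
    · exact DMO.dec_eq e1 Computable.snd
    · exact dec_comp hA ((Computable.fst.pair e1).pair Computable.snd)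
    · exact DMO.dec_eq Computable.snd e2
    · exact dec_comp hA ((Computable.fst.pair Computable.snd).pair e2)
  obtain ⟨b, hb, h⟩ := dec_iff.1 hq
  refine (CNUM_comp hb hm).of_eq fun a => ?_
  rw [← CNUM_card]
  unfold num
  congr 1
  ext x
  simp only [Finset.mem_filter]
  exact and_congr_right fun _ => (h (a, x)).symm

end

end Pool.Agent.DMN
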