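import Pool.Agent.DMN.DefsB
import Pool.Agent.DMO.Tool

/-!
# DMN: DOLT, DOK (the opponent, bounded in time, is decidable)
-/

set_option autoImplicit false

namespace Pool.Agent.DMN

open Pool.Agent.DMO Pool.Agent.CeerI

section

variable {α : Type} [Primcodable α]

theorem DOLT_opv {k s x y : α → ℕ} (hk : Computable k) (hs : Computable s) (hx : Computable x)
    (hy : Computable y) : Computable fun a => opv (k a) (s a) (x a) (y a) :=
  Nat.Partrec.Code.primrec_evaln.to_comp.comp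
    ((hs.pair ((Primrec.ofNat Nat.Partrec.Code).to_comp.comp hk)).pair
      (Primrec₂.natPair.to_comp.comp hx hy))

theorem DOLT {k s x y : α → ℕ} (hk : Computable k) (hs : Computable s) (hx : Computable x)
    (hy : Computable y) :
    (Computable fun a => opv (k a) (s a) (x a) (y a)) ∧
      ComputablePred fun a => olt (k a) (s a) (x a) (y a) := by
  have h1 := DOLT_opv hk hs hx hy
  refine ⟨h1, ?_⟩
  exact CeerI.dec_and (DMO.dec_eq h1 (Computable.const (some 1)))
    (DMO.dec_not (DMO.dec_eq hx hy))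

theorem DOK_two {M : α → ℕ} (hM : Computable M) {P : α → ℕ → ℕ → Prop}
    (hP : ComputablePred fun q : (α × ℕ) × ℕ => P q.1.1 q.1.2 q.2) :
    ComputablePred fun a => ∀ x < M a, ∀ y < M a, P a x y :=
  DMO.dec_ball (p := fun q : α × ℕ => ∀ y < M q.1, P q.1 q.2 y)
    (DMO.dec_ball (p := fun q : (α × ℕ) × ℕ => P q.1.1 q.1.2 q.2) hP (hM.comp Computable.fst)) hM

theorem DOK {k s M : α → ℕ} (hk : Computable k) (hs : Computable s) (hM : Computable M) :
    ComputablePred fun a => Ok (k a) (s a) (M a) := by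
  have hk2 : Computable fun q : (α × ℕ) × ℕ => k q.1.1 :=
    hk.comp (Computable.fst.comp Computable.fst)
  have hs2 : Computable fun q : (α × ℕ) × ℕ => s q.1.1 :=
    hs.comp (Computable.fst.comp Computable.fst)
  have hM2 : Computable fun q : (α × ℕ) × ℕ => M q.1.1 :=
    hM.comp (Computable.fst.comp Computable.fst)
  have hx2 : Computable fun q : (α × ℕ) × ℕ => q.1.2 := Computable.snd.comp Computable.fst
  have hy2 : Computable fun q : (α × ℕ) × ℕ => q.2 := Computable.snd
  have h1 := DOK_two hM (P := fun a x y => (opv (k a) (s a) x y).isSome = true)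
    (DMO.dec_of_comp (Primrec.option_isSome.to_comp.comp (DOLT hk2 hs2 hx2 hy2).1))
  have h2 := DOK_two hM (P := fun a x y => x = y ∨ olt (k a) (s a) x y ∨ olt (k a) (s a) y x)
    (CeerI.dec_or (DMO.dec_eq hx2 hy2)
      (CeerI.dec_or (DOLT hk2 hs2 hx2 hy2).2 (DOLT hk2 hs2 hy2 hx2).2))
  have h3 := DOK_two hM (P := fun a x y => ¬ (olt (k a) (s a) x y ∧ olt (k a) (s a) y x))
    (DMO.dec_not (CeerI.dec_and (DOLT hk2 hs2 hx2 hy2).2 (DOLT hk2 hs2 hy2 hx2).2))
  have hc : Computable fun q : ((α × ℕ) × ℕ) × ℕ => q.1 := Computable.fst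
  have h4 := DOK_two hM (P := fun a x y => ∀ z < M a,
      olt (k a) (s a) x y → olt (k a) (s a) y z → olt (k a) (s a) x z)
    (DMO.dec_ball (p := fun q : ((α × ℕ) × ℕ) × ℕ => olt (k q.1.1.1) (s q.1.1.1) q.1.1.2 q.1.2 →
      olt (k q.1.1.1) (s q.1.1.1) q.1.2 q.2 → olt (k q.1.1.1) (s q.1.1.1) q.1.1.2 q.2)
      (DMO.dec_imp (DOLT (hk2.comp hc) (hs2.comp hc) (hx2.comp hc) (hy2.comp hc)).2
        (DMO.dec_imp (DOLT (hk2.comp hc) (hs2.comp hc) (hy2.comp hc) Computable.snd).2
          (DOLT (hk2.comp hc) (hs2.comp hc) (hx2.comp hc) Computable.snd).2)) hM2)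
  exact CeerI.dec_and h1 (CeerI.dec_and h2 (CeerI.dec_and h3 h4))

end

end Pool.Agent.DMN
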