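import Pool.Agent.DMN.Defs
import Pool.Agent.DMN.DefsB
import Pool.Agent.DMN.DefsD
import Pool.Agent.DMN.P_DMEM

/-!
# DMN: targets DPOS, DSPL (cut positions, gaps and splittings are decidable)
-/

set_option autoImplicit false

namespace Pool.Agent.DMN

open Pool.Agent.DMO

section

variable {α β : Type} [Primcodable α] [Primcodable β]

theorem DPOS_add {f g : α → ℕ} (hf : Computable f) (hg : Computable g) :
    Computable fun a => f a + g a :=
  Primrec.nat_add.to_comp.comp hf hg

theorem DPOS_sub {f g : α → ℕ} (hf : Computable f) (hg : Computable g) :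
    Computable fun a => f a - g a :=
  Primrec.nat_sub.to_comp.comp hf hg

theorem DPOS_balle {p : α × ℕ → Prop} (hp : ComputablePred p) {n : α → ℕ}
    (hn : Computable n) : ComputablePred fun a => ∀ i ≤ n a, p (a, i) := by
  refine dec_of_iff (dec_ball hp (Computable.succ.comp hn)) fun a => ?_
  simp only [Nat.lt_succ_iff]

theorem DPOS_getD {X : α → List ℕ} {l : α → ℕ} (hX : Computable X) (hl : Computable l) :
    Computable fun a => (X a).getD (l a) 0 :=
  (Primrec.list_getD 0).to_comp.comp hX hl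

theorem DPOS_len {X : α → List ℕ} (hX : Computable X) : Computable fun a => (X a).length :=
  Primrec.list_length.to_comp.comp hX

theorem DPOS_pos {X C : α → List ℕ} (hX : Computable X) (hC : Computable C) {l : α → ℕ}
    (hl : Computable l) : ComputablePred fun a => Pos (X a) (C a) (l a) := by
  refine CeerI.dec_and (dec_le (Computable.const 1) hl)
    (CeerI.dec_and (dec_le hl (DPOS_len hX)) ?_)
  exact DMEM (DPOS_getD hX (DPOS_sub hl (Computable.const 1))) hC

theorem DPOS {X C : α → List ℕ} (hX : Computable X) (hC : Computable C) :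
    (∀ {l : α → ℕ}, Computable l → ComputablePred fun a => Pos (X a) (C a) (l a)) ∧
    ∀ {P Q l : α → ℕ}, Computable P → Computable Q → Computable l →
      ComputablePred fun a => Gap (X a) (C a) (P a) (Q a) (l a) := by
  refine ⟨fun hl => DPOS_pos hX hC hl, fun {P Q l} hP hQ hl => ?_⟩
  refine CeerI.dec_and (dec_le hP hl) (CeerI.dec_and (dec_le (DPOS_add hl hQ) (DPOS_len hX))
    (CeerI.dec_and (DPOS_pos hX hC hl) ?_))
  have hX1 : Computable fun q : α × ℕ => X q.1 := hX.comp Computable.fst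
  have hC1 : Computable fun q : α × ℕ => C q.1 := hC.comp Computable.fst
  have hP1 : Computable fun q : α × ℕ => P q.1 := hP.comp Computable.fst
  have hQ1 : Computable fun q : α × ℕ => Q q.1 := hQ.comp Computable.fst
  have hl1 : Computable fun q : α × ℕ => l q.1 := hl.comp Computable.fst
  have hi : Computable fun q : α × ℕ => q.2 := Computable.snd
  have hp : ComputablePred fun q : α × ℕ => P q.1 ≤ q.2 → q.2 + Q q.1 ≤ (X q.1).length →
      Pos (X q.1) (C q.1) q.2 → Nat.pair ((X q.1).getD (l q.1 - 1) 0) ((X q.1).getD (l q.1) 0) ≤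
        Nat.pair ((X q.1).getD (q.2 - 1) 0) ((X q.1).getD q.2 0) := by
    refine dec_imp (dec_le hP1 hi) (dec_imp (dec_le (DPOS_add hi hQ1) (DPOS_len hX1))
      (dec_imp (DPOS_pos hX1 hC1 hi) (dec_le ?_ ?_)))
    · exact Primrec₂.natPair.to_comp.comp
        (DPOS_getD hX1 (DPOS_sub hl1 (Computable.const 1))) (DPOS_getD hX1 hl1)
    · exact Primrec₂.natPair.to_comp.comp
        (DPOS_getD hX1 (DPOS_sub hi (Computable.const 1))) (DPOS_getD hX1 hi)
  exact DPOS_balle hp (DPOS_len hX)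

theorem DSPL_big {f g N : α → ℕ} (hf : Computable f) (hg : Computable g) (hN : Computable N) :
    ComputablePred fun a => f a < g a → N a ≤ 2 * (g a - f a) + 2 := by
  refine dec_imp (dec_lt hf hg) (dec_le hN (DPOS_add ?_ (Computable.const 2)))
  exact CeerI.comp_two_mul.comp (DPOS_sub hg hf)

theorem DSPL {X C C' : α → List ℕ} {N : α → ℕ} (hX : Computable X) (hC : Computable C)
    (hN : Computable N) (hC' : Computable C') :
    ComputablePred fun a => Split (X a) (C a) (N a) (C' a) := by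
  have hX1 : Computable fun q : α × ℕ => X q.1 := hX.comp Computable.fst
  have hC1 : Computable fun q : α × ℕ => C q.1 := hC.comp Computable.fst
  have hC1' : Computable fun q : α × ℕ => C' q.1 := hC'.comp Computable.fst
  have hN1 : Computable fun q : α × ℕ => N q.1 := hN.comp Computable.fst
  have hi : Computable fun q : α × ℕ => q.2 := Computable.snd
  have hX2 : Computable fun q : (α × ℕ) × ℕ => X q.1.1 := hX1.comp Computable.fst
  have hC2 : Computable fun q : (α × ℕ) × ℕ => C q.1.1 := hC1.comp Computable.fst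
  have hC2' : Computable fun q : (α × ℕ) × ℕ => C' q.1.1 := hC1'.comp Computable.fst
  have hN2 : Computable fun q : (α × ℕ) × ℕ => N q.1.1 := hN1.comp Computable.fst
  have hi2 : Computable fun q : (α × ℕ) × ℕ => q.1.2 := hi.comp Computable.fst
  have hj2 : Computable fun q : (α × ℕ) × ℕ => q.2 := Computable.snd
  refine CeerI.dec_and ?_ (CeerI.dec_and ?_ (CeerI.dec_and ?_ (CeerI.dec_and ?_ ?_)))
  · exact (DALL (p := fun q : α × ℕ => q.2 ∈ C' q.1)
      (DMEM Computable.snd hC1') hC).1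
  · exact (DALL (p := fun q : α × ℕ => q.2 ∈ X q.1)
      (DMEM Computable.snd hX1) hC').1
  · refine DPOS_balle (p := fun q : α × ℕ => q.2 + N q.1 ≤ (X q.1).length →
      ∃ l < q.2 + N q.1, q.2 < l ∧ Pos (X q.1) (C' q.1) l) ?_ (DPOS_len hX)
    refine dec_imp (dec_le (DPOS_add hi hN1) (DPOS_len hX1)) ?_
    refine dec_bex (p := fun q : (α × ℕ) × ℕ => q.1.2 < q.2 ∧ Pos (X q.1.1) (C' q.1.1) q.2) ?_
      (DPOS_add hi hN1)
    exact CeerI.dec_and (dec_lt hi2 hj2) (DPOS_pos hX2 hC2' hj2)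
  · refine DPOS_balle (p := fun q : α × ℕ => ∀ l' ≤ (X q.1).length,
      Pos (X q.1) (C' q.1) q.2 → ¬ Pos (X q.1) (C q.1) q.2 →
        (l' = 0 ∨ Pos (X q.1) (C' q.1) l') →
      (q.2 < l' → N q.1 ≤ 2 * (l' - q.2) + 2) ∧ (l' < q.2 → N q.1 ≤ 2 * (q.2 - l') + 2)) ?_
      (DPOS_len hX)
    refine DPOS_balle (p := fun q : (α × ℕ) × ℕ =>
      Pos (X q.1.1) (C' q.1.1) q.1.2 → ¬ Pos (X q.1.1) (C q.1.1) q.1.2 →
        (q.2 = 0 ∨ Pos (X q.1.1) (C' q.1.1) q.2) →
      (q.1.2 < q.2 → N q.1.1 ≤ 2 * (q.2 - q.1.2) + 2) ∧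
        (q.2 < q.1.2 → N q.1.1 ≤ 2 * (q.1.2 - q.2) + 2)) ?_ (DPOS_len hX1)
    refine dec_imp (DPOS_pos hX2 hC2' hi2) (dec_imp (dec_not (DPOS_pos hX2 hC2 hi2))
      (dec_imp (CeerI.dec_or (dec_eq hj2 (Computable.const 0)) (DPOS_pos hX2 hC2' hj2)) ?_))
    exact CeerI.dec_and (DSPL_big hi2 hj2 hN2) (DSPL_big hj2 hi2 hN2)
  · refine DPOS_balle (p := fun q : α × ℕ => Pos (X q.1) (C' q.1) q.2 → q.2 % 2 = 0) ?_
      (DPOS_len hX)
    exact dec_imp (DPOS_pos hX1 hC1' hi) (CeerI.dec_comp CeerI.dec_even hi)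

end

end Pool.Agent.DMN
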