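import Pool.Agent.DMN.Defs
import Pool.Agent.DMN.DefsB
import Pool.Agent.DMN.DefsD
import Pool.Agent.DMN.P_CACC
import Pool.Agent.DMN.P_CNUM
import Pool.Agent.DMN.P_DMEM

/-!
# DMN: proofs of DWG, DEV (MP_55b29c_lc)
-/

set_option autoImplicit false

namespace Pool.Agent.DMN

open Pool.Agent.CeerI Pool.Agent.DMO

section

variable {α : Type} [Primcodable α]

/-- The order of the opponent with computable arguments. -/
theorem DWG_A {γ : Type} [Primcodable γ] {A : α → ℕ → ℕ → Prop}
    (hA : ComputablePred fun q : (α × ℕ) × ℕ => A q.1.1 q.1.2 q.2) {h : γ → α} {x y : γ → ℕ}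
    (hh : Computable h) (hx : Computable x) (hy : Computable y) :
    ComputablePred fun c => A (h c) (x c) (y c) :=
  dec_comp hA (f := fun c => ((h c, x c), y c)) ((hh.pair hx).pair hy)

/-- Non-strict comparison with computable arguments. -/
theorem DWG_L {γ : Type} [Primcodable γ] {A : α → ℕ → ℕ → Prop}
    (hA : ComputablePred fun q : (α × ℕ) × ℕ => A q.1.1 q.1.2 q.2) {h : γ → α} {x y : γ → ℕ}
    (hh : Computable h) (hx : Computable x) (hy : Computable y) :
    ComputablePred fun c => x c = y c ∨ A (h c) (x c) (y c) :=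
  dec_or (DMO.dec_eq hx hy) (DWG_A hA hh hx hy)

/-- DWG. `Wait` and `Good` are decidable. -/
theorem DWG {A : α → ℕ → ℕ → Prop}
    (hA : ComputablePred fun q : (α × ℕ) × ℕ => A q.1.1 q.1.2 q.2) :
    (∀ {f : α → List (ℕ × ℕ)} {u : α → ℕ}, Computable f → Computable u →
      ComputablePred fun a => Wait (A a) (f a) (u a)) ∧
    ∀ {m g v v' y : α → ℕ}, Computable m → Computable g → Computable v → Computable v' →
      Computable y → ComputablePred fun a => Good (A a) (m a) (g a) (v a) (v' a) (y a) := by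
  constructor
  · intro f u hf hu
    have e1 : Computable fun q : α × (ℕ × ℕ) => q.2.1 := Computable.fst.comp Computable.snd
    have e2 : Computable fun q : α × (ℕ × ℕ) => u q.1 := hu.comp Computable.fst
    have h1 : ComputablePred fun q : α × (ℕ × ℕ) => q.2.1 ≠ u q.1 := dec_not (DMO.dec_eq e1 e2)
    have h2 : ComputablePred fun q : α × (ℕ × ℕ) => A q.1 q.2.1 (u q.1) :=
      DWG_A hA Computable.fst e1 e2
    have h3 : ComputablePred fun q : α × (ℕ × ℕ) => A q.1 (u q.1) q.2.1 :=
      DWG_A hA Computable.fst e2 e1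
    exact dec_and (DALL h1 hf).1 (dec_and (DALL h2 hf).2 (DALL h3 hf).2)
  · intro m g v v' y hm hg hv hv' hy
    have hg2 : Computable fun a => g a + 2 :=
      Primrec.nat_add.to_comp.comp hg (Computable.const 2)
    exact dec_and (DWG_A hA Computable.id hv hy) (dec_and (DWG_A hA Computable.id hy hv')
      (dec_and (DMO.dec_le hg2 (CNUM hA hm hv hy)) (DMO.dec_le hg2 (CNUM hA hm hy hv'))))

/-- One of the six clauses of the evidence, to the left. -/
theorem DEV_lo {A : α → ℕ → ℕ → Prop}
    (hA : ComputablePred fun q : (α × ℕ) × ℕ => A q.1.1 q.1.2 q.2) {M d : α → ℕ}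
    (hM : Computable M) (hd : Computable d) :
    ComputablePred fun q : α × ℕ => A q.1 q.2 (d q.1) →
      ∃ w < M q.1, A q.1 q.2 w ∧ A q.1 w (d q.1) := by
  refine dec_imp (DWG_A hA Computable.fst Computable.snd (hd.comp Computable.fst)) ?_
  have h : ComputablePred fun r : (α × ℕ) × ℕ => A r.1.1 r.1.2 r.2 ∧ A r.1.1 r.2 (d r.1.1) :=
    dec_and hA (DWG_A hA (Computable.fst.comp Computable.fst) Computable.snd
      (hd.comp (Computable.fst.comp Computable.fst)))
  exact dec_bex h (hM.comp Computable.fst)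

/-- One of the six clauses of the evidence, to the right. -/
theorem DEV_hi {A : α → ℕ → ℕ → Prop}
    (hA : ComputablePred fun q : (α × ℕ) × ℕ => A q.1.1 q.1.2 q.2) {M d : α → ℕ}
    (hM : Computable M) (hd : Computable d) :
    ComputablePred fun q : α × ℕ => A q.1 (d q.1) q.2 →
      ∃ w < M q.1, A q.1 (d q.1) w ∧ A q.1 w q.2 := by
  refine dec_imp (DWG_A hA Computable.fst (hd.comp Computable.fst) Computable.snd) ?_
  have h : ComputablePred fun r : (α × ℕ) × ℕ => A r.1.1 (d r.1.1) r.2 ∧ A r.1.1 r.2 r.1.2 :=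
    dec_and (DWG_A hA (Computable.fst.comp Computable.fst)
        (hd.comp (Computable.fst.comp Computable.fst)) Computable.snd)
      (DWG_A hA (Computable.fst.comp Computable.fst) Computable.snd
        (Computable.snd.comp Computable.fst))
  exact dec_bex h (hM.comp Computable.fst)

/-- DEV. The evidence is decidable. -/
theorem DEV {A : α → ℕ → ℕ → Prop}
    (hA : ComputablePred fun q : (α × ℕ) × ℕ => A q.1.1 q.1.2 q.2) {k M E : α → ℕ} {c : α → Cd}
    (hk : Computable k) (hM : Computable M) (hE : Computable E) (hc : Computable c) :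
    ComputablePred fun a => Ev (A a) (k a) (M a) (E a) (c a) := by
  obtain ⟨-, ⟨c1, c2, c3, c4, c5, c6⟩, -⟩ := CACC
  have d1 : Computable fun a => cm1 (c a) := c1.comp hc
  have d2 : Computable fun a => cm2 (c a) := c2.comp hc
  have d3 : Computable fun a => ca (c a) := c3.comp hc
  have d4 : Computable fun a => cb (c a) := c4.comp hc
  have d5 : Computable fun a => cm3 (c a) := c5.comp hc
  have d6 : Computable fun a => cm4 (c a) := c6.comp hc
  have k1 : Computable fun a => 2 * k a + 1 := Primrec.nat_add.to_comp.comp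
    (Primrec.nat_mul.to_comp.comp (Computable.const 2) hk) (Computable.const 1)
  have k3 : Computable fun a => 2 * k a + 3 := Primrec.nat_add.to_comp.comp
    (Primrec.nat_mul.to_comp.comp (Computable.const 2) hk) (Computable.const 3)
  refine dec_and (dec_and (DMO.dec_lt d1 hM) (dec_and (DMO.dec_lt d2 hM) (dec_and (DMO.dec_lt d3 hM)
    (dec_and (DMO.dec_lt d4 hM) (dec_and (DMO.dec_lt d5 hM) (DMO.dec_lt d6 hM)))))) ?_
  refine dec_and (dec_and (DWG_L hA Computable.id d1 d2) (dec_and (DWG_A hA Computable.id d2 d3)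
    (dec_and (DWG_A hA Computable.id d3 d4) (dec_and (DWG_A hA Computable.id d4 d5)
      (DWG_L hA Computable.id d5 d6))))) ?_
  refine dec_and (dec_and (DMO.dec_eq (CNUM hA hM d1 d2) k1)
    (DMO.dec_eq (CNUM hA hM d5 d6) k3)) ?_
  have H := dec_and (DEV_lo hA hM d1) (dec_and (DEV_hi hA hM d2) (dec_and (DEV_lo hA hM d5)
    (dec_and (DEV_hi hA hM d6) (dec_and (DEV_lo hA hM d3) (DEV_hi hA hM d4)))))
  exact dec_ball H hE

end

end Pool.Agent.DMN
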