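import Pool.Agent.DMN.Defs
import Pool.Agent.DMN.DefsB
import Pool.Agent.DMN.DefsD
import Pool.Agent.DMN.P_CACC
import Pool.Agent.DMN.P_CNUM
import Pool.Agent.DMN.P_DMEM
import Pool.Agent.DMN.P_DWG

/-!
# DMN: proof of DDAT (MP_55b29c_lc)
-/

set_option autoImplicit false

namespace Pool.Agent.DMN

open Pool.Agent.CeerI Pool.Agent.DMO

section

variable {α : Type} [Primcodable α]

/-- The order of the opponent with computable arguments. -/
theorem DDAT_A {γ : Type} [Primcodable γ] {A : α → ℕ → ℕ → Prop}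
    (hA : ComputablePred fun q : (α × ℕ) × ℕ => A q.1.1 q.1.2 q.2) {h : γ → α} {x y : γ → ℕ}
    (hh : Computable h) (hx : Computable x) (hy : Computable y) :
    ComputablePred fun c => A (h c) (x c) (y c) :=
  dec_comp hA (f := fun c => ((h c, x c), y c)) ((hh.pair hx).pair hy)

theorem DDAT_add {x y : α → ℕ} (hx : Computable x) (hy : Computable y) :
    Computable fun a => x a + y a := Primrec.nat_add.to_comp.comp hx hy

theorem DDAT_mul {x y : α → ℕ} (hx : Computable x) (hy : Computable y) :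
    Computable fun a => x a * y a := Primrec.nat_mul.to_comp.comp hx hy

/-- DDAT. The predicate `Dat` is decidable. -/
theorem DDAT {A : α → ℕ → ℕ → Prop}
    (hA : ComputablePred fun q : (α × ℕ) × ℕ => A q.1.1 q.1.2 q.2) {k : α → ℕ} {c : α → Cd}
    {x x' : α → Fr} {w : α → Wi} (hk : Computable k) (hc : Computable c) (hx : Computable x)
    (hx' : Computable x') (hw : Computable w) :
    ComputablePred fun a => Dat (A a) (k a) (c a) (x a) (x' a) (w a) := by
  obtain ⟨⟨cft, cfl, cfR, cff⟩, ⟨-, -, cca, ccb, -, -⟩, ⟨cwm, cwM, cwx0, cwx1, cwb1⟩,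
    ⟨cwu, cwz, cwv, cwz', cwv'⟩, -, -, -, cf0⟩ := CACC
  have dft : Computable fun a => ft (x a) := cft.comp hx
  have dfl : Computable fun a => fl (x a) := cfl.comp hx
  have dfR : Computable fun a => fR (x a) := cfR.comp hx
  have dff : Computable fun a => ff (x a) := cff.comp hx
  have dfl' : Computable fun a => fl (x' a) := cfl.comp hx'
  have dfR' : Computable fun a => fR (x' a) := cfR.comp hx'
  have dca : Computable fun a => ca (c a) := cca.comp hc
  have dcb : Computable fun a => cb (c a) := ccb.comp hc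
  have dwm : Computable fun a => wm (w a) := cwm.comp hw
  have dwM : Computable fun a => wM (w a) := cwM.comp hw
  have dwx0 : Computable fun a => wx0 (w a) := cwx0.comp hw
  have dwx1 : Computable fun a => wx1 (w a) := cwx1.comp hw
  have dwb1 : Computable fun a => wb1 (w a) := cwb1.comp hw
  have dwu : Computable fun a => wu (w a) := cwu.comp hw
  have dwz : Computable fun a => wz (w a) := cwz.comp hw
  have dwv : Computable fun a => wv (w a) := cwv.comp hw
  have dwz' : Computable fun a => wz' (w a) := cwz'.comp hw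
  have dwv' : Computable fun a => wv' (w a) := cwv'.comp hw
  have df0 : Computable fun a => f0 (x a) (w a) := cf0.comp hx hw
  have e3 : Computable fun a => 3 * (fl (x a) + fR (x a)) :=
    DDAT_mul (Computable.const 3) (DDAT_add dfl dfR)
  have nab : Computable fun a => num (A a) (wm (w a)) (ca (c a)) (cb (c a)) :=
    CNUM hA dwm dca dcb
  have nav : Computable fun a => num (A a) (wm (w a)) (ca (c a)) (wv (w a)) :=
    CNUM hA dwm dca dwv
  have nvb : Computable fun a => num (A a) (wm (w a)) (wv' (w a)) (cb (c a)) :=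
    CNUM hA dwm dwv' dcb
  have nvv : Computable fun a => num (A a) (wm (w a)) (wv (w a)) (wv' (w a)) :=
    CNUM hA dwm dwv dwv'
  have p1 : ComputablePred fun a => (wm (w a) ≤ wM (w a) ∧
      Ev (A a) (k a) (wM (w a)) (3 * (fl (x a) + fR (x a))) (c a) ∧
      num (A a) (wm (w a)) (ca (c a)) (cb (c a)) = 3 * (fl (x a) + fR (x a))) :=
    dec_and (DMO.dec_le dwm dwM) (dec_and (DEV hA hk dwM e3 hc) (DMO.dec_eq nab e3))
  have p2 : ComputablePred fun a => (ff (x a) = [] → wx0 (w a) < wm (w a) ∧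
      wx1 (w a) < wm (w a) ∧ wb1 (w a) < wm (w a) ∧
      num (A a) (wm (w a)) (ca (c a)) (wx0 (w a)) = fl (x a) + 1 ∧
      num (A a) (wm (w a)) (ca (c a)) (wx1 (w a)) = fl (x a) + 2 ∧
      num (A a) (wm (w a)) (wb1 (w a)) (cb (c a)) = fR (x a) + 1) :=
    dec_imp (DMO.dec_eq dff (Computable.const [])) (dec_and (DMO.dec_lt dwx0 dwm)
      (dec_and (DMO.dec_lt dwx1 dwm) (dec_and (DMO.dec_lt dwb1 dwm)
        (dec_and (DMO.dec_eq (CNUM hA dwm dca dwx0) (DDAT_add dfl (Computable.const 1)))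
          (dec_and (DMO.dec_eq (CNUM hA dwm dca dwx1) (DDAT_add dfl (Computable.const 2)))
            (DMO.dec_eq (CNUM hA dwm dwb1 dcb) (DDAT_add dfR (Computable.const 1))))))))
  have q1 : Computable fun q : α × (ℕ × ℕ) => q.2.1 := Computable.fst.comp Computable.snd
  have q2 : Computable fun q : α × (ℕ × ℕ) => q.2.2 := Computable.snd.comp Computable.snd
  have qm : Computable fun q : α × (ℕ × ℕ) => wm (w q.1) := dwm.comp Computable.fst
  have p3 : ComputablePred fun a => ∀ p ∈ f0 (x a) (w a), p.1 < wm (w a) ∧ p.2 < wm (w a) :=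
    (DALL (p := fun q : α × (ℕ × ℕ) => q.2.1 < wm (w q.1) ∧ q.2.2 < wm (w q.1))
      (dec_and (DMO.dec_lt q1 qm) (DMO.dec_lt q2 qm)) df0).1
  have hA0 : ComputablePred fun a => A a (wz (w a)) (wu (w a)) :=
    DDAT_A hA Computable.id dwz dwu
  have hA1 : ComputablePred fun a => A a (wu (w a)) (wz' (w a)) :=
    DDAT_A hA Computable.id dwu dwz'
  have hA2 : ComputablePred fun a => A a (wv (w a)) (wv' (w a)) :=
    DDAT_A hA Computable.id dwv dwv'
  have p4a : ComputablePred fun a => ∀ p ∈ f0 (x a) (w a),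
      ¬ (A a (wz (w a)) p.1 ∧ A a p.1 (wz' (w a))) :=
    (DALL (p := fun q : α × (ℕ × ℕ) =>
        ¬ (A q.1 (wz (w q.1)) q.2.1 ∧ A q.1 q.2.1 (wz' (w q.1))))
      (dec_not (dec_and (DDAT_A hA Computable.fst (dwz.comp Computable.fst) q1)
        (DDAT_A hA Computable.fst q1 (dwz'.comp Computable.fst)))) df0).1
  have hA' : ComputablePred fun q : ((α × ℕ) × ℕ) × ℕ => A q.1.1.1 q.1.2 q.2 :=
    dec_comp (f := fun q : ((α × ℕ) × ℕ) × ℕ => ((q.1.1.1, q.1.2), q.2)) hA
      (Computable.pair (Computable.pair (Computable.fst.comp (Computable.fst.comp Computable.fst))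
        (Computable.snd.comp Computable.fst)) Computable.snd)
  have hW : ComputablePred fun q : α × ℕ => Wait (A q.1) (f0 (x q.1) (w q.1)) q.2 :=
    (DWG (α := α × ℕ) (A := fun q : α × ℕ => A q.1) hA').1
      (f := fun q => f0 (x q.1) (w q.1)) (u := fun q => q.2)
      (df0.comp Computable.fst) Computable.snd
  have p4b : ComputablePred fun a => ∀ y < wu (w a), ¬ Wait (A a) (f0 (x a) (w a)) y :=
    dec_ball (p := fun q : α × ℕ => ¬ Wait (A q.1) (f0 (x q.1) (w q.1)) q.2) (dec_not hW) dwu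
  have p4 : ComputablePred fun a => ((wz (w a), wv (w a)) ∈ f0 (x a) (w a) ∧
      (wz' (w a), wv' (w a)) ∈ f0 (x a) (w a) ∧ A a (wz (w a)) (wu (w a)) ∧
      A a (wu (w a)) (wz' (w a)) ∧ wu (w a) < wm (w a) ∧
      (∀ p ∈ f0 (x a) (w a), ¬ (A a (wz (w a)) p.1 ∧ A a p.1 (wz' (w a)))) ∧
      ∀ y < wu (w a), ¬ Wait (A a) (f0 (x a) (w a)) y) :=
    dec_and (DMEM (dwz.pair dwv) df0) (dec_and (DMEM (dwz'.pair dwv') df0)
      (dec_and hA0 (dec_and hA1 (dec_and (DMO.dec_lt dwu dwm) (dec_and p4a p4b)))))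
  have p5 : ComputablePred fun a => (A a (wv (w a)) (wv' (w a)) ∧
      fl (x' a) ≤ num (A a) (wm (w a)) (ca (c a)) (wv (w a)) ∧
      fR (x' a) ≤ num (A a) (wm (w a)) (wv' (w a)) (cb (c a)) ∧
      ft (x a) + 3 ≤ num (A a) (wm (w a)) (wv (w a)) (wv' (w a)) ∧
      num (A a) (wm (w a)) (ca (c a)) (wv (w a)) +
        num (A a) (wm (w a)) (wv (w a)) (wv' (w a)) +
        num (A a) (wm (w a)) (wv' (w a)) (cb (c a)) =
        num (A a) (wm (w a)) (ca (c a)) (cb (c a)) + 2) :=
    dec_and hA2 (dec_and (DMO.dec_le dfl' nav) (dec_and (DMO.dec_le dfR' nvb)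
      (dec_and (DMO.dec_le (DDAT_add dft (Computable.const 3)) nvv)
        (DMO.dec_eq (DDAT_add (DDAT_add nav nvv) nvb) (DDAT_add nab (Computable.const 2))))))
  exact dec_and p1 (dec_and p2 (dec_and p3 (dec_and p4 p5)))

end

end Pool.Agent.DMN
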