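import Pool.Agent.DMN.Defs
import Pool.Agent.DMN.DefsB
import Pool.Agent.DMN.DefsD
import Pool.Agent.DMN.P_CACC
import Pool.Agent.DMN.P_DDAT
import Pool.Agent.DMN.P_DOLT
import Pool.Agent.DMN.P_DWG

set_option autoImplicit false

namespace Pool.Agent.DMN

open Pool.Agent.DMO Pool.Agent.CeerI

section

variable {α β : Type} [Primcodable α] [Primcodable β]

/-- DREQ. `Req` is decidable. -/
theorem DREQ {k s : α → ℕ} {st : α → St} {w : α → Wi} (hk : Computable k) (hs : Computable s)
    (hst : Computable st) (hw : Computable w) :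
    ComputablePred fun a => Req (k a) (s a) (st a) (w a) := by
  have hcd : Computable cd := CACC.2.2.2.2.1
  have hfr : Computable₂ fr := CACC.2.2.2.2.2.2.1
  have hwM : Computable wM := CACC.2.2.1.2.1
  have hu : Computable fun a => (Nat.unpair (s a)).1 :=
    (Primrec.fst.comp Primrec.unpair).to_comp.comp hs
  have hlen : Computable fun a => (st a).2.2.length :=
    Primrec.list_length.to_comp.comp (Computable.snd.comp (Computable.snd.comp hst))
  have hpred : Computable fun a => (Nat.unpair (s a)).1 - 1 :=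
    Primrec.nat_sub.to_comp.comp hu (Computable.const 1)
  have hA : ComputablePred fun q : (α × ℕ) × ℕ => olt (k q.1.1) (s q.1.1) q.1.2 q.2 :=
    (DOLT (k := fun q : (α × ℕ) × ℕ => k q.1.1) (s := fun q : (α × ℕ) × ℕ => s q.1.1)
      (x := fun q : (α × ℕ) × ℕ => q.1.2) (y := fun q : (α × ℕ) × ℕ => q.2)
      (hk.comp (Computable.fst.comp Computable.fst)) (hs.comp (Computable.fst.comp Computable.fst))
      (Computable.snd.comp Computable.fst) Computable.snd).2
  unfold Req
  exact dec_and (dec_le (Computable.const 1) hu) (dec_and (dec_lt hu hlen)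
    (dec_and (DOK hk hs (hwM.comp hw))
      (DDAT (A := fun a => olt (k a) (s a)) hA hk (hcd.comp hu) (hfr.comp hst hu)
        (hfr.comp hst hpred) hw)))

/-- DNEW. `NewF` is decidable. -/
theorem DNEW {A : α → ℕ → ℕ → Prop}
    (hA : ComputablePred fun q : (α × ℕ) × ℕ => A q.1.1 q.1.2 q.2)
    {m g u v v' : α → ℕ} {f f' : α → List (ℕ × ℕ)} (hm : Computable m) (hg : Computable g)
    (hu : Computable u) (hv : Computable v) (hv' : Computable v') (hf : Computable f)
    (hf' : Computable f') :
    ComputablePred fun a => NewF (A a) (m a) (g a) (u a) (v a) (v' a) (f a) (f' a) := by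
  have hfst : Computable (Prod.fst : α × ℕ → α) := Computable.fst
  have hA' : ComputablePred fun q : ((α × ℕ) × ℕ) × ℕ => A q.1.1.1 q.1.2 q.2 :=
    dec_comp (f := fun q : ((α × ℕ) × ℕ) × ℕ => ((q.1.1.1, q.1.2), q.2)) hA
      (Computable.pair (Computable.pair (Computable.fst.comp (Computable.fst.comp Computable.fst))
        (Computable.snd.comp Computable.fst)) Computable.snd)
  have hGood : ComputablePred fun q : α × ℕ =>
      Good (A q.1) (m q.1) (g q.1) (v q.1) (v' q.1) q.2 :=
    (DWG (α := α × ℕ) (A := fun q : α × ℕ => A q.1) hA').2 (m := fun q => m q.1)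
      (g := fun q => g q.1) (v := fun q => v q.1) (v' := fun q => v' q.1) (y := fun q => q.2)
      (hm.comp hfst) (hg.comp hfst) (hv.comp hfst) (hv'.comp hfst) Computable.snd
  have happ : Computable fun q : α × ℕ => f q.1 ++ [(u q.1, q.2)] := by
    have h1 : Computable fun q : α × ℕ => [(u q.1, q.2)] :=
      Primrec.list_cons.to_comp.comp (Computable.pair (hu.comp hfst) Computable.snd)
        (Computable.const [])
    exact Primrec.list_append.to_comp.comp (hf.comp hfst) h1
  unfold NewF
  exact dec_or
    (dec_bex (p := fun q : α × ℕ => Good (A q.1) (m q.1) (g q.1) (v q.1) (v' q.1) q.2 ∧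
      f' q.1 = f q.1 ++ [(u q.1, q.2)]) (dec_and hGood (dec_eq (hf'.comp hfst) happ)) hm)
    (dec_and (dec_ball (p := fun q : α × ℕ => ¬ Good (A q.1) (m q.1) (g q.1) (v q.1) (v' q.1) q.2)
      (dec_not hGood) hm) (dec_eq hf' hf))

end

end Pool.Agent.DMN
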