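import Pool.Agent.DMN.Defs
import Pool.Agent.DMN.DefsB
import Pool.Agent.DMN.DefsD
import Pool.Agent.DMN.P_CACC
import Pool.Agent.DMN.P_CINS
import Pool.Agent.DMN.P_CNUM
import Pool.Agent.DMN.P_DOLT
import Pool.Agent.DMN.P_DPOS
import Pool.Agent.DMN.P_DREQ

/-!
# RATT and RR: the attack and the step relation are recursively enumerable (MP_55b29c_lc)
-/

set_option autoImplicit false

namespace Pool.Agent.DMN

open Pool.Agent.CeerI

section

variable {α : Type} [Primcodable α]

/-- The type of the data of an attack. -/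
abbrev RATT_D := List ℕ × ℕ × List (ℕ × ℕ)

theorem RATT_olt {k s : α → ℕ} (hk : Computable k) (hs : Computable s) :
    ComputablePred fun q : (α × ℕ) × ℕ => olt (k q.1.1) (s q.1.1) q.1.2 q.2 :=
  (DOLT (hk.comp (Computable.fst.comp Computable.fst))
    (hs.comp (Computable.fst.comp Computable.fst)) (Computable.snd.comp Computable.fst)
    Computable.snd).2

theorem RATT_cd : Computable fun s : ℕ => cd (Nat.unpair s).1 :=
  CACC.2.2.2.2.1.comp (Computable.fst.comp Computable.unpair)

theorem RATT_fr {s : α → ℕ} {st : α → St} (hs : Computable s) (hst : Computable st) :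
    Computable fun a => fr (st a) (Nat.unpair (s a)).1 :=
  CACC.2.2.2.2.2.2.1.comp hst (Computable.fst.comp (Computable.unpair.comp hs))

theorem RATT {k s : α → ℕ} {st st' : α → St} {w : α → Wi} (hk : Computable k)
    (hs : Computable s) (hst : Computable st) (hst' : Computable st') (hw : Computable w) :
    REPred fun a => Att (k a) (s a) (st a) (w a) (st' a) := by
  obtain ⟨⟨cft, -, -, -⟩, ⟨-, -, cca, ccb, -, -⟩, ⟨cwm, -, -, -, -⟩,
    ⟨cwu, -, cwv, -, cwv'⟩, -, -, -, cf0⟩ := CACC
  -- everything over `α × RATT_D`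
  have c0 : Computable fun q : α × RATT_D => q.1 := Computable.fst
  have cC : Computable fun q : α × RATT_D => q.2.1 := Computable.fst.comp Computable.snd
  have cl : Computable fun q : α × RATT_D => q.2.2.1 :=
    Computable.fst.comp (Computable.snd.comp Computable.snd)
  have cf : Computable fun q : α × RATT_D => q.2.2.2 :=
    Computable.snd.comp (Computable.snd.comp Computable.snd)
  have hk0 := hk.comp c0
  have hs0 := hs.comp c0
  have hst0 := hst.comp c0
  have hst0' := hst'.comp c0
  have hw0 := hw.comp c0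
  have hX : Computable fun q : α × RATT_D => (st q.1).1 := Computable.fst.comp hst0
  have hC : Computable fun q : α × RATT_D => (st q.1).2.1 :=
    Computable.fst.comp (Computable.snd.comp hst0)
  have hK : Computable fun q : α × RATT_D => (st q.1).2.2 :=
    Computable.snd.comp (Computable.snd.comp hst0)
  have hA := RATT_olt hk0 hs0
  have hm : Computable fun q : α × RATT_D => wm (w q.1) := cwm.comp hw0
  have hu : Computable fun q : α × RATT_D => wu (w q.1) := cwu.comp hw0
  have hv : Computable fun q : α × RATT_D => wv (w q.1) := cwv.comp hw0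
  have hv' : Computable fun q : α × RATT_D => wv' (w q.1) := cwv'.comp hw0
  have hi : Computable fun q : α × RATT_D => (Nat.unpair (s q.1)).1 :=
    Computable.fst.comp (Computable.unpair.comp hs0)
  have hcd : Computable fun q : α × RATT_D => cd (Nat.unpair (s q.1)).1 := RATT_cd.comp hs0
  have hfr : Computable fun q : α × RATT_D => fr (st q.1) (Nat.unpair (s q.1)).1 :=
    RATT_fr hs0 hst0
  have hf0 : Computable fun q : α × RATT_D =>
      f0 (fr (st q.1) (Nat.unpair (s q.1)).1) (w q.1) := cf0.comp hfr hw0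
  have hft : Computable fun q : α × RATT_D => ft (fr (st q.1) (Nat.unpair (s q.1)).1) :=
    cft.comp hfr
  have hg : Computable fun q : α × RATT_D => ft (fr (st q.1) (Nat.unpair (s q.1)).1) +
      (f0 (fr (st q.1) (Nat.unpair (s q.1)).1) (w q.1)).length :=
    Primrec.nat_add.to_comp.comp hft (Computable.list_length.comp hf0)
  have hlen : Computable fun q : α × RATT_D => (st q.1).1.length :=
    Computable.list_length.comp hX
  have hsub : Computable fun q : α × RATT_D => (st q.1).1.length - q.2.2.1 :=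
    Primrec.nat_sub.to_comp.comp hlen cl
  have hframe : Computable fun q : α × RATT_D =>
      ((ft (fr (st q.1) (Nat.unpair (s q.1)).1), q.2.2.1, (st q.1).1.length - q.2.2.1,
        q.2.2.2) : Fr) := hft.pair (cl.pair (hsub.pair cf))
  have htake : Computable fun q : α × RATT_D => (st q.1).2.2.take (Nat.unpair (s q.1)).1 :=
    Primrec.list_take.to_comp.comp hi hK
  have hstk : Computable fun q : α × RATT_D => (st q.1).2.2.take (Nat.unpair (s q.1)).1 ++
      [((ft (fr (st q.1) (Nat.unpair (s q.1)).1), q.2.2.1, (st q.1).1.length - q.2.2.1,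
        q.2.2.2) : Fr)] := Primrec.list_concat.to_comp.comp htake hframe
  have h1 : ComputablePred fun q : α × RATT_D => Split (st q.1).1 (st q.1).2.1
      (num (olt (k q.1) (s q.1)) (wm (w q.1)) (wv (w q.1)) (wv' (w q.1))) q.2.1 :=
    DSPL hX hC (CNUM hA hm hv hv') cC
  have h2 : ComputablePred fun q : α × RATT_D => Gap (st q.1).1 q.2.1
      (num (olt (k q.1) (s q.1)) (wm (w q.1)) (ca (cd (Nat.unpair (s q.1)).1)) (wv (w q.1)))
      (num (olt (k q.1) (s q.1)) (wm (w q.1)) (wv' (w q.1)) (cb (cd (Nat.unpair (s q.1)).1)))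
      q.2.2.1 :=
    (DPOS hX cC).2 (CNUM hA hm (cca.comp hcd) hv)
      (CNUM hA hm hv' (ccb.comp hcd)) cl
  have h3 : ComputablePred fun q : α × RATT_D => NewF (olt (k q.1) (s q.1)) (wm (w q.1))
      (ft (fr (st q.1) (Nat.unpair (s q.1)).1) +
        (f0 (fr (st q.1) (Nat.unpair (s q.1)).1) (w q.1)).length)
      (wu (w q.1)) (wv (w q.1)) (wv' (w q.1)) (f0 (fr (st q.1) (Nat.unpair (s q.1)).1) (w q.1))
      q.2.2.2 :=
    DNEW hA hm hg hu hv hv' hf0 cf
  have h4 : ComputablePred fun q : α × RATT_D => st' q.1 = insAt (s q.1) q.2.2.1 (st q.1).1 q.2.1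
      ((st q.1).2.2.take (Nat.unpair (s q.1)).1 ++
        [((ft (fr (st q.1) (Nat.unpair (s q.1)).1), q.2.2.1, (st q.1).1.length - q.2.2.1,
          q.2.2.2) : Fr)]) :=
    haveI : DecidableEq St := Classical.decEq St
    DMO.dec_eq hst0' (CINS hs0 cl hX cC hstk)
  refine (DMO.re_exists (DMO.dec_re (dec_and h1 (dec_and h2 (dec_and h3 h4))))).of_eq
    fun a => ?_
  constructor
  · rintro ⟨⟨C', l, f'⟩, h⟩
    exact ⟨C', l, f', h⟩
  · rintro ⟨C', l, f', h⟩
    exact ⟨⟨C', l, f'⟩, h⟩

end

/-- The type of the arguments of the step relation. -/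
abbrev RR_X := ((ℕ × ℕ) × St) × St

theorem RR : REPred fun x : ((ℕ × ℕ) × St) × St => R x.1.1.1 x.1.1.2 x.1.2 x.2 := by
  obtain ⟨⟨-, cfl, -, -⟩, -, -, -, -, cwi, cfr, -⟩ := CACC
  have ck : Computable fun x : RR_X => x.1.1.1 :=
    Computable.fst.comp (Computable.fst.comp Computable.fst)
  have cs : Computable fun x : RR_X => x.1.1.2 :=
    Computable.snd.comp (Computable.fst.comp Computable.fst)
  have cst : Computable fun x : RR_X => x.1.2 := Computable.snd.comp Computable.fst
  have cst' : Computable fun x : RR_X => x.2 := Computable.snd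
  have c0 : Computable fun q : RR_X × ℕ => q.1 := Computable.fst
  have cw : Computable fun q : RR_X × ℕ => wi q.2 := cwi.comp Computable.snd
  have hreq : ComputablePred fun q : RR_X × ℕ =>
      Req q.1.1.1.1 q.1.1.1.2 q.1.1.2 (wi q.2) :=
    DREQ (ck.comp c0) (cs.comp c0) (cst.comp c0) cw
  have hatt : REPred fun q : RR_X × ℕ =>
      Att q.1.1.1.1 q.1.1.1.2 q.1.1.2 (wi q.2) q.1.2 :=
    RATT (ck.comp c0) (cs.comp c0) (cst.comp c0) (cst'.comp c0) cw
  have hlt : ComputablePred fun q : RR_X × ℕ => q.2 < q.1.1.1.2 :=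
    DMO.dec_lt Computable.snd (cs.comp c0)
  have h1 : REPred fun x : RR_X => ∃ c, c < x.1.1.2 ∧ Req x.1.1.1 x.1.1.2 x.1.2 (wi c) ∧
      Att x.1.1.1 x.1.1.2 x.1.2 (wi c) x.2 :=
    re_ex (re_and (DMO.dec_re hlt) (re_and (DMO.dec_re hreq) hatt))
  have h2 : ComputablePred fun x : RR_X => ∀ c < x.1.1.2, ¬ Req x.1.1.1 x.1.1.2 x.1.2 (wi c) :=
    DMO.dec_ball (DMO.dec_not hreq) cs
  have hX : Computable fun x : RR_X => x.1.2.1 := Computable.fst.comp cst
  have hC : Computable fun x : RR_X => x.1.2.2.1 := Computable.fst.comp (Computable.snd.comp cst)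
  have hK : Computable fun x : RR_X => x.1.2.2.2 := Computable.snd.comp (Computable.snd.comp cst)
  have hl : Computable fun x : RR_X => fl (fr x.1.2 (x.1.2.2.2.length - 1)) :=
    cfl.comp (cfr.comp cst (Primrec.nat_sub.to_comp.comp (Computable.list_length.comp hK)
      (Computable.const 1)))
  have h3 : ComputablePred fun x : RR_X => x.2 = insAt x.1.1.2
      (fl (fr x.1.2 (x.1.2.2.2.length - 1))) x.1.2.1 x.1.2.2.1 x.1.2.2.2 :=
    haveI : DecidableEq St := Classical.decEq St
    DMO.dec_eq cst' (CINS cs hl hX hC hK)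
  exact re_or h1 (DMO.dec_re (dec_and h2 h3))

end Pool.Agent.DMN
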