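import Pool.Agent.DMN.Defs
import Pool.Agent.DMN.DefsB
import Pool.Agent.DMN.DefsD

/-!
# DMN: SEQU
-/

set_option autoImplicit false

namespace Pool.Agent.DMN

open Pool.Agent.CeerI Pool.Agent.DMO

/-- SEQU. Version of `Pool.Agent.DMO.seq` with a parameter `e` and an invariant which depends on
the parameter and on the stage. -/
theorem SEQU {S : Type} [Primcodable S] {R : ℕ → ℕ → S → S → Prop}
    (hR : REPred fun x : ((ℕ × ℕ) × S) × S => R x.1.1.1 x.1.1.2 x.1.2 x.2)
    {I : ℕ → ℕ → S → Prop} (htot : ∀ e k s, I e k s → ∃ s', R e k s s')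
    (hI : ∀ e k s s', I e k s → R e k s s' → I e (k + 1) s') (s0 : S) (h0 : ∀ e, I e 0 s0) :
    ∃ σ : ℕ → ℕ → S, Computable₂ σ ∧ (∀ e, σ e 0 = s0) ∧
      (∀ e k, R e k (σ e k) (σ e (k + 1))) ∧ ∀ e k, I e k (σ e k) := by
  obtain ⟨D, hD, h⟩ := re_iff.1 hR
  -- one step as a computable function of parameter, stage, state and search bound
  let F : ((ℕ × ℕ) × S) → ℕ → Option S := fun a n =>
    Option.casesOn (motive := fun _ => Option S) (Encodable.decode (α := S) (Nat.unpair n).1) none
      fun s' => bif D ((a, s'), (Nat.unpair n).2) then some s' else none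
  have hF : Computable₂ F := by
    refine Computable.option_casesOn ?_ (Computable.const none) ?_
    · exact Computable.decode.comp (Computable.fst.comp (Computable.unpair.comp Computable.snd))
    · refine Computable.cond ?_ (Computable.option_some.comp Computable.snd)
        (Computable.const none)
      exact hD.comp (((Computable.fst.comp Computable.fst).pair Computable.snd).pair
        (Computable.snd.comp (Computable.unpair.comp (Computable.snd.comp Computable.fst))))
  have hFs : ∀ a n s', F a n = some s' → R a.1.1 a.1.2 a.2 s' := by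
    intro a n s' hn
    refine (h (a, s')).2 ⟨(Nat.unpair n).2, ?_⟩
    simp only [F] at hn
    cases hd : Encodable.decode (α := S) (Nat.unpair n).1 with
    | none => simp [hd] at hn
    | some t =>
      rw [hd] at hn
      cases hb : D ((a, t), (Nat.unpair n).2) with
      | false => simp [hb] at hn
      | true =>
        simp only [hb, cond_true, Option.some.injEq] at hn
        rw [← hn]
        exact hb
  have hFe : ∀ a s', R a.1.1 a.1.2 a.2 s' → ∃ n, (F a n).isSome := by
    intro a s' hs
    obtain ⟨w, hw⟩ := (h (a, s')).1 hs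
    refine ⟨Nat.pair (Encodable.encode s') w, ?_⟩
    simp [F, hw]
  let P : ((ℕ × ℕ) × S) →. S := fun a => Nat.rfindOpt (F a)
  have hP : Partrec P := Partrec.rfindOpt hF
  have hPs : ∀ a s', s' ∈ P a → R a.1.1 a.1.2 a.2 s' := by
    intro a s' hs
    obtain ⟨n, hn⟩ := Nat.rfindOpt_spec hs
    exact hFs a n s' hn
  have hPe : ∀ a, (∃ s', R a.1.1 a.1.2 a.2 s') → (P a).Dom := by
    rintro a ⟨s', hs⟩
    obtain ⟨n, hn⟩ := hFe a s' hs
    obtain ⟨t, ht⟩ := Option.isSome_iff_exists.1 hn
    exact Nat.rfindOpt_dom.2 ⟨n, t, ht⟩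
  let G : ℕ × ℕ →. S := fun x =>
    Nat.rec (Part.some s0) (fun k IH => IH.bind fun s => P ((x.1, k), s)) x.2
  have hG : Partrec G := by
    have h2 : Partrec₂ fun (x : ℕ × ℕ) (p : ℕ × S) => P ((x.1, p.1), p.2) :=
      hP.comp (((Computable.fst.comp Computable.fst).pair
        (Computable.fst.comp Computable.snd)).pair (Computable.snd.comp Computable.snd))
    exact Partrec.nat_rec Computable.snd (Partrec.const' (Part.some s0)) h2
  have hGI : ∀ e n, ∃ s, s ∈ G (e, n) ∧ I e n s := by
    intro e n
    induction n with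
    | zero => exact ⟨s0, Part.mem_some _, h0 e⟩
    | succ n ih =>
      obtain ⟨s, hs, hs'⟩ := ih
      have hd := hPe ((e, n), s) (htot e n s hs')
      refine ⟨(P ((e, n), s)).get hd, ?_, hI e n s _ hs' (hPs ((e, n), s) _ (Part.get_mem hd))⟩
      exact Part.mem_bind hs (Part.get_mem hd)
  choose σ hσ hσI using hGI
  refine ⟨σ, ?_, ?_, ?_, hσI⟩
  · have : Partrec fun x : ℕ × ℕ => (Part.some (σ x.1 x.2) : Part S) :=
      hG.of_eq fun x => Part.eq_some_iff.2 (hσ x.1 x.2)
    exact this
  · intro e
    exact (Part.mem_some_iff.1 (hσ e 0))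
  · intro e k
    have h1 : σ e (k + 1) ∈ (G (e, k)).bind fun s => P ((e, k), s) := hσ e (k + 1)
    obtain ⟨s, hs, hs'⟩ := Part.mem_bind_iff.1 h1
    have h2 : s = σ e k := Part.mem_unique hs (hσ e k)
    subst h2
    exact hPs _ _ hs'

end Pool.Agent.DMN
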