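import Pool.Agent.DMN.Defs
import Pool.Agent.DMN.DefsB
import Pool.Agent.DMN.DefsD

/-!
# DMN: target SPL
-/

set_option autoImplicit false

namespace Pool.Agent.DMN

/-- the properties of the new set of cuts which are kept in the halving process -/
def SPL_good (X C : List ℕ) (N : ℕ) (C' : List ℕ) : Prop :=
  (∀ x ∈ C, x ∈ C') ∧ (∀ x ∈ C', x ∈ X) ∧
  (∀ l ≤ X.length, ∀ l' ≤ X.length, Pos X C' l → ¬ Pos X C l → (l' = 0 ∨ Pos X C' l') →
    (l < l' → N ≤ 2 * (l' - l) + 2) ∧ (l' < l → N ≤ 2 * (l - l') + 2)) ∧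
  ∀ l ≤ X.length, Pos X C' l → l % 2 = 0

open Classical in
/-- number of cut positions -/
noncomputable def SPL_cnt (X C : List ℕ) : ℕ :=
  ((Finset.range (X.length + 1)).filter fun l => Pos X C l).card

theorem SPL_pos {X C : List ℕ} (hX : X.Nodup) {e : ℕ} (he1 : 1 ≤ e) (he2 : e ≤ X.length)
    (l : ℕ) : Pos X (C ++ [X.getD (e - 1) 0]) l ↔ (Pos X C l ∨ l = e) := by
  unfold Pos
  constructor
  · rintro ⟨h1, h2, h3⟩
    rw [List.mem_append] at h3
    rcases h3 with h3 | h3
    · exact Or.inl ⟨h1, h2, h3⟩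
    · right
      rw [List.mem_singleton] at h3
      have hl : l - 1 < X.length := by omega
      have he : e - 1 < X.length := by omega
      rw [List.getD_eq_getElem _ _ hl, List.getD_eq_getElem _ _ he] at h3
      have := (List.Nodup.getElem_inj_iff hX).1 h3
      omega
  · rintro (⟨h1, h2, h3⟩ | h)
    · exact ⟨h1, h2, List.mem_append_left _ h3⟩
    · subst h
      exact ⟨he1, he2, List.mem_append_right _ (by simp)⟩

theorem SPL_step {X C C' : List ℕ} {N : ℕ} (hX : X.Nodup) (hl : Pos X C X.length)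
    (hN : 4 ≤ N) (hg : SPL_good X C N C') {a : ℕ} (ha : a + N ≤ X.length)
    (hno : ∀ l < a + N, a < l → ¬ Pos X C' l) :
    ∃ C'', SPL_good X C N C'' ∧ SPL_cnt X C' < SPL_cnt X C'' := by
  classical
  obtain ⟨g1, g2, g4, g5⟩ := hg
  -- the last cut before
  obtain ⟨c1, hc1a, hc1, hc1m⟩ : ∃ c1 ≤ a, (c1 = 0 ∨ Pos X C' c1) ∧
      ∀ l, c1 < l → l ≤ a → ¬ Pos X C' l := by
    refine ⟨Nat.findGreatest (fun l => l = 0 ∨ Pos X C' l) a, Nat.findGreatest_le a, ?_, ?_⟩
    · exact Nat.findGreatest_spec (P := fun l => l = 0 ∨ Pos X C' l) (Nat.zero_le a) (Or.inl rfl)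
    · intro l h1 h2 h3
      exact Nat.findGreatest_is_greatest h1 h2 (Or.inr h3)
  have hex : ∃ l, a + N ≤ l ∧ Pos X C' l :=
    ⟨X.length, ha, hl.1, hl.2.1, g1 _ hl.2.2⟩
  obtain ⟨c2, hc2a, hc2, hc2m⟩ : ∃ c2, a + N ≤ c2 ∧ Pos X C' c2 ∧
      ∀ l, l < c2 → a + N ≤ l → ¬ Pos X C' l := by
    refine ⟨Nat.find hex, (Nat.find_spec hex).1, (Nat.find_spec hex).2, ?_⟩
    intro l h1 h2 h3
    exact Nat.find_min hex h1 ⟨h2, h3⟩
  have hbet : ∀ l, c1 < l → l < c2 → ¬ Pos X C' l := by
    intro l h1 h2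
    by_cases h3 : l ≤ a
    · exact hc1m l h1 h3
    · by_cases h4 : l < a + N
      · exact hno l h4 (by omega)
      · exact hc2m l h2 (by omega)
  have hc2len : c2 ≤ X.length := hc2.2.1
  have ev1 : c1 % 2 = 0 := by
    rcases hc1 with h | h
    · omega
    · exact g5 c1 (by omega) h
  have ev2 : c2 % 2 = 0 := g5 c2 hc2len hc2
  obtain ⟨e, he⟩ : ∃ e, e = c1 + 2 * ((c2 - c1) / 4) := ⟨_, rfl⟩
  have e1 : c1 < e := by omega
  have e2 : e < c2 := by omega
  have e3 : e % 2 = 0 := by omega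
  have e4 : N ≤ 2 * (e - c1) + 2 := by omega
  have e5 : N ≤ 2 * (c2 - e) + 2 := by omega
  have hpos := SPL_pos (C := C') hX (e := e) (by omega) (by omega)
  have hfar : ∀ l, (l = 0 ∨ Pos X C' l) → l ≤ c1 ∨ c2 ≤ l := by
    intro l h
    by_contra hcon
    rw [not_or] at hcon
    rcases h with h | h
    · omega
    · exact hbet l (by omega) (by omega) h
  refine ⟨C' ++ [X.getD (e - 1) 0], ⟨?_, ?_, ?_, ?_⟩, ?_⟩
  · intro x hx
    exact List.mem_append_left _ (g1 x hx)
  · intro x hx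
    rw [List.mem_append, List.mem_singleton] at hx
    rcases hx with hx | hx
    · exact g2 x hx
    · rw [hx, List.getD_eq_getElem _ _ (show e - 1 < X.length by omega)]
      exact List.getElem_mem _
  · intro l hl1 l' hl1' hp hnp hp'
    rw [hpos] at hp
    have hp'' : (l' = 0 ∨ Pos X C' l') ∨ l' = e := by
      rcases hp' with h | h
      · exact Or.inl (Or.inl h)
      · rw [hpos] at h
        rcases h with h | h
        · exact Or.inl (Or.inr h)
        · exact Or.inr h
    rcases hp with hp | hp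
    · rcases hp'' with hp'' | hp''
      · exact g4 l hl1 l' hl1' hp hnp hp''
      · have := hfar l (Or.inr hp)
        subst hp''
        constructor <;> intro _ <;> omega
    · rcases hp'' with hp'' | hp''
      · have := hfar l' hp''
        subst hp
        constructor <;> intro _ <;> omega
      · constructor <;> intro _ <;> omega
  · intro l hl1 hp
    rw [hpos] at hp
    rcases hp with hp | hp
    · exact g5 l hl1 hp
    · omega
  · unfold SPL_cnt
    apply Finset.card_lt_card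
    refine ⟨?_, ?_⟩
    · intro x hx
      simp only [Finset.mem_filter] at hx ⊢
      exact ⟨hx.1, (hpos x).2 (Or.inl hx.2)⟩
    · intro hsub
      have : e ∈ (Finset.range (X.length + 1)).filter fun l => Pos X C' l := by
        apply hsub
        simp only [Finset.mem_filter, Finset.mem_range]
        exact ⟨by omega, (hpos e).2 (Or.inr rfl)⟩
      simp only [Finset.mem_filter] at this
      exact hbet e e1 e2 this.2

theorem SPL_ind {X C : List ℕ} {N : ℕ} (hX : X.Nodup) (hl : Pos X C X.length)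
    (hN : 4 ≤ N) : ∀ (n : ℕ) (C' : List ℕ), SPL_good X C N C' →
      X.length + 1 - SPL_cnt X C' ≤ n → ∃ C'', Split X C N C'' := by
  classical
  intro n
  induction n with
  | zero =>
    intro C' hg hn
    by_cases h : ∀ a ≤ X.length, a + N ≤ X.length → ∃ l < a + N, a < l ∧ Pos X C' l
    · exact ⟨C', hg.1, hg.2.1, h, hg.2.2.1, hg.2.2.2⟩
    · push Not at h
      obtain ⟨a, _, ha2, ha3⟩ := h
      obtain ⟨C'', _, h2⟩ := SPL_step hX hl hN hg ha2 ha3
      have : SPL_cnt X C'' ≤ X.length + 1 := by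
        unfold SPL_cnt
        refine (Finset.card_filter_le _ _).trans ?_
        simp
      omega
  | succ n ih =>
    intro C' hg hn
    by_cases h : ∀ a ≤ X.length, a + N ≤ X.length → ∃ l < a + N, a < l ∧ Pos X C' l
    · exact ⟨C', hg.1, hg.2.1, h, hg.2.2.1, hg.2.2.2⟩
    · push Not at h
      obtain ⟨a, _, ha2, ha3⟩ := h
      obtain ⟨C'', h1, h2⟩ := SPL_step hX hl hN hg ha2 ha3
      exact ih C'' h1 (by omega)

theorem SPL {X C : List ℕ} {N : ℕ} (hX : X.Nodup) (hC : ∀ x ∈ C, x ∈ X)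
    (he : ∀ l, Pos X C l → l % 2 = 0) (hl : Pos X C X.length) (hN : 4 ≤ N) :
    ∃ C', Split X C N C' :=
  SPL_ind hX hl hN _ C ⟨fun x hx => hx, hC, fun l _ l' _ h1 h2 => absurd h1 h2,
    fun l _ h => he l h⟩ le_rfl

end Pool.Agent.DMN
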