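import Pool.Agent.DMN.Defs
import Pool.Agent.DMN.DefsB
import Pool.Agent.DMN.DefsD
import Pool.Agent.DMN.P_GAE
import Pool.Agent.DMN.P_SPL

/-!
# DMN: TOT, the step relation is total
-/

set_option autoImplicit false

namespace Pool.Agent.DMN

/-- TOT. The step relation is total. -/
theorem TOT {k s : ℕ} {st : St} (h : Inv s st) : ∃ st', R k s st st' := by
  classical
  by_cases hc : ∃ c < s, Req k s st (wi c)
  · obtain ⟨c, hcs, hreq⟩ := hc
    have hreq' := hreq
    obtain ⟨h1, h2, _, hd⟩ := hreq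
    obtain ⟨⟨_, _, hE⟩, _, _, _, _, hP, hQ, hN, hsum⟩ := hd
    have hft : ft (fr st 0) < ft (fr st (Nat.unpair s).1) := h.tmono 0 _ (by omega) h2
    have hl0 := h.lmono 0 ((Nat.unpair s).1 - 1) (by omega) (by omega)
    have hroot := h.root
    rw [hroot] at hl0
    have hl1 : 2 ≤ fl (fr st ((Nat.unpair s).1 - 1)) ∧ 2 ≤ fR (fr st ((Nat.unpair s).1 - 1)) :=
      hl0
    have hs' := h.sum' _ h2 h1
    have hN4 : 4 ≤ num (olt k s) (wm (wi c)) (wv (wi c)) (wv' (wi c)) := by omega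
    have hlast : Pos st.1 st.2.1 st.1.length := by
      rw [h.len]; exact h.last
    obtain ⟨C', hC'⟩ := SPL h.nodup (fun x hx => (h.mem x).2 (h.cmem x hx)) h.even
      hlast hN4
    have hlen := h.len
    obtain ⟨l, hl⟩ := GAE (P := num (olt k s) (wm (wi c)) (ca (cd (Nat.unpair s).1))
      (wv (wi c))) (Q := num (olt k s) (wm (wi c)) (wv' (wi c)) (cb (cd (Nat.unpair s).1))) hC'
      (by omega) (by omega) (by omega)
    have hf : ∃ f', NewF (olt k s) (wm (wi c))
        (ft (fr st (Nat.unpair s).1) + (f0 (fr st (Nat.unpair s).1) (wi c)).length)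
        (wu (wi c)) (wv (wi c)) (wv' (wi c)) (f0 (fr st (Nat.unpair s).1) (wi c)) f' := by
      by_cases hy : ∃ y < wm (wi c), Good (olt k s) (wm (wi c))
          (ft (fr st (Nat.unpair s).1) + (f0 (fr st (Nat.unpair s).1) (wi c)).length)
          (wv (wi c)) (wv' (wi c)) y
      · obtain ⟨y, hy1, hy2⟩ := hy
        exact ⟨_, Or.inl ⟨y, hy1, hy2, rfl⟩⟩
      · push Not at hy
        exact ⟨_, Or.inr ⟨hy, rfl⟩⟩
    obtain ⟨f', hf'⟩ := hf
    exact ⟨_, Or.inl ⟨c, hcs, hreq', C', l, f', hC', hl, hf', rfl⟩⟩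
  · push Not at hc
    exact ⟨_, Or.inr ⟨hc, rfl⟩⟩

end Pool.Agent.DMN
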