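import Pool.Agent.DMN.Defs
import Pool.Agent.DMN.DefsB
import Pool.Agent.DMN.DefsD
import Pool.Agent.DMN.P_GAE
import Pool.Agent.DMN.P_PRE
import Pool.Agent.DMN.P_RATT
import Pool.Agent.DMN.P_SEQU
import Pool.Agent.DMN.P_TOT

/-!
# DMN: RUNX
-/

set_option autoImplicit false

namespace Pool.Agent.DMN

/-- RUNX. There is a computable family of runs. -/
theorem RUNX : ∃ σ : ℕ → ℕ → St, Computable₂ σ ∧ ∀ k, Run k (σ k) := by
  obtain ⟨σ, hσ, h0, hs, hi⟩ := SEQU RR (I := fun _ k st => Inv k st)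
    (fun e k s h => TOT h) (fun e k s s' h hR => PRE h hR) init
    (fun _ => INI)
  exact ⟨σ, hσ, fun k => ⟨h0 k, hs k, hi k⟩⟩

end Pool.Agent.DMN
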