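import Pool.Agent.DMN.ECmp
import Pool.Agent.DMN.ESep
import Pool.Agent.DMN.Defs
import Pool.Agent.DMN.DefsB
import Pool.Agent.DMN.DefsD
import Pool.Agent.DMN.P_EVB
import Pool.Agent.DMN.P_OPD
import Pool.Agent.DMN.P_ORD
import Pool.Agent.DMN.P_ORN
import Pool.Agent.DMN.P_RI
import Pool.Agent.DMN.P_RT
import Pool.Agent.DMN.P_RUNX

/-!
# DMN, part E: assembly of the frozen statement S14718
-/

set_option autoImplicit false

namespace Pool.Agent.DMN

open Pool.Agent.CeerI Pool.Agent.DMO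

/-- the facts on the regions -/
theorem rf_of {σ : ℕ → ℕ → St} (h : ∀ k, Run k (σ k)) : RF fun k => xo (σ k) where
  slo := fun k => (ORD (h k)).1
  lo := fun k => (ORE (h k)).1
  hi := fun k => (ORE (h k)).2
  even := fun k _ _ hcd hfin hc hd => EVB (h k) hcd hfin hc hd
  ri := fun k _ _ _ _ h0 h1 h2 B => RI (h k) h0 h1 h2 B

/-- a copy of a linear order (as a Boolean function) -/
theorem copy_slo {L : ℕ → ℕ → Prop} (hL : SLO L) {r s : ℕ → ℕ → Bool}
    (hr : ∀ a b, r a b = true ↔ (a = b ∨ L a b)) {h : ℕ ≃ ℕ}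
    (hs : ∀ a b, r a b = s (h a) (h b)) :
    (∀ x y, s x y = true ↔ (x = y ∨ L (h.symm x) (h.symm y))) ∧
    (∀ x y, (s x y = true ∧ x ≠ y) ↔ L (h.symm x) (h.symm y)) := by
  have h1 : ∀ x y, s x y = true ↔ (x = y ∨ L (h.symm x) (h.symm y)) := by
    intro x y
    have h2 : s x y = r (h.symm x) (h.symm y) := by
      rw [hs]
      simp
    rw [h2, hr]
    simp
  refine ⟨h1, fun x y => ?_⟩
  rw [h1]
  constructor
  · rintro ⟨h2 | h2, h3⟩
    · exact absurd h2 h3
    · exact h2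
  · intro h2
    refine ⟨Or.inr h2, ?_⟩
    rintro rfl
    exact hL.irr _ h2

/-- every computable copy of `L` has a nontrivial computable self-embedding -/
theorem copy_embedding {σ : ℕ → ℕ → St} (hσ : Computable₂ σ) (hrun : ∀ k, Run k (σ k))
    {r s : ℕ → ℕ → Bool} (hr : ∀ a b, r a b = true ↔ (a = b ∨ LL (fun k => xo (σ k)) a b))
    (hs : Computable₂ s) {h : ℕ ≃ ℕ} (hh : ∀ a b, r a b = s (h a) (h b)) :
    ∃ g : ℕ → ℕ, Computable g ∧ Function.Injective g ∧ g ≠ id ∧
      ∀ a b, s a b = true → s (g a) (g b) = true := by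
  have hX := rf_of hrun
  have hL := LL_slo hX.slo
  obtain ⟨h1, h2⟩ := copy_slo hL hr hh
  have hA : SLO fun x y => s x y = true ∧ x ≠ y := by
    refine ⟨fun x hx => hx.2 rfl, ?_, ?_⟩
    · intro x y z hxy hyz
      rw [h2] at hxy hyz ⊢
      exact hL.tr _ _ _ hxy hyz
    · intro x y
      rw [h2, h2]
      rcases hL.tri (h.symm x) (h.symm y) with h3 | h3 | h3
      · exact Or.inl h3
      · exact Or.inr (Or.inl (h.symm.injective h3))
      · exact Or.inr (Or.inr h3)
  have hd : ComputablePred fun p : ℕ × ℕ => s p.1 p.2 = true ∧ p.1 ≠ p.2 :=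
    dec_and (dec_of_comp (hs.comp Computable.fst Computable.snd))
      (dec_not (DMO.dec_eq Computable.fst Computable.snd))
  obtain ⟨k, hk⟩ := OPD hs (fun a => (h1 a a).2 (Or.inl rfl)) (fun a b hab hba => by
    by_contra hne
    exact hA.irr a (hA.tr _ _ _ ⟨hab, hne⟩ ⟨hba, fun h => hne h.symm⟩)) (fun a b c hab hbc => by
    rw [h1] at hab hbc ⊢
    rcases hab with rfl | hab
    · exact hbc
    · rcases hbc with rfl | hbc
      · exact Or.inr hab
      · exact Or.inr (hL.tr _ _ _ hab hbc)) (fun a b => by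
    rw [h1, h1]
    rcases hL.tri (h.symm a) (h.symm b) with h3 | h3 | h3
    · exact Or.inl (Or.inr h3)
    · exact Or.inl (Or.inl (h.symm.injective h3))
    · exact Or.inr (Or.inr h3))
  have hi : ∀ x y, (s x y = true ∧ x ≠ y) ↔ LL (fun k => xo (σ k)) (h.symm x) (h.symm y) := h2
  have hσk : Computable (σ k) := hσ.comp (Computable.const k) Computable.id
  obtain ⟨g, hg, hmono, hne⟩ := RT (hrun k) hσk hA hd hk (ev_true hX hi k)
    (fun c hc => ⟨fun x => ii (h.symm x), ev_phi hX hi hc⟩)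
  refine ⟨g, hg, ?_, hne, ?_⟩
  · intro x y hxy
    rcases hA.tri x y with h3 | h3 | h3
    · have := hmono x y h3
      rw [hxy] at this
      exact absurd rfl this.2
    · exact h3
    · have := hmono y x h3
      rw [hxy] at this
      exact absurd rfl this.2
  · intro a b hab
    by_cases hne' : a = b
    · rw [hne']
      exact (h1 _ _).2 (Or.inl rfl)
    · exact (hmono a b ⟨hab, hne'⟩).1

/-- The frozen statement S14718. -/
theorem main_S14718 :
    ¬ (∀ r : ℕ → ℕ → Bool, Computable₂ r →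
    (∀ a, r a a = true) →
    (∀ a b, r a b = true → r b a = true → a = b) →
    (∀ a b c, r a b = true → r b c = true → r a c = true) →
    (∀ a b, r a b = true ∨ r b a = true) →
    ((∀ s : ℕ → ℕ → Bool, Computable₂ s →
        (∃ e : ℕ ≃ ℕ, ∀ a b, r a b = s (e a) (e b)) →
        ∃ g : ℕ → ℕ, Computable g ∧ Function.Injective g ∧ g ≠ id ∧
          ∀ a b, s a b = true → s (g a) (g b) = true) ↔
      ∃ C : Set ℕ, (∀ a b c, a ∈ C → c ∈ C → r a b = true → r b c = true → b ∈ C) ∧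
        ∃ f : ℚ → ℕ, (∀ q, 1 ≤ f q) ∧ BddAbove (Set.range f) ∧
          ∃ e : C ≃ Lex (Σ q : ℚ, Fin (f q)), ∀ a b : C, r a b = true ↔ e a ≤ e b)) := by
  intro H
  obtain ⟨σ, hσ, hrun⟩ := RUNX
  have hX := rf_of hrun
  have hL := LL_slo hX.slo
  obtain ⟨r, hrc, hr⟩ := exists_L hσ
  have H' := H r hrc (fun a => (hr a a).2 (Or.inl rfl)) (fun a b hab hba => by
    rcases (hr _ _).1 hab with h | h
    · exact h
    · rcases (hr _ _).1 hba with h' | h'
      · exact h'.symm
      · exact absurd (hL.tr _ _ _ h h') (hL.irr _)) (fun a b c hab hbc => by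
    rw [hr] at hab hbc ⊢
    rcases hab with rfl | hab
    · exact hbc
    · rcases hbc with rfl | hbc
      · exact Or.inr hab
      · exact Or.inr (hL.tr _ _ _ hab hbc)) (fun a b => by
    rw [hr, hr]
    rcases hL.tri a b with h3 | h3 | h3
    · exact Or.inl (Or.inr h3)
    · exact Or.inl (Or.inl h3)
    · exact Or.inr (Or.inr h3))
  obtain ⟨C, hC, f, hf, hb, e, he⟩ := H'.1 fun s hs ⟨h, hh⟩ => copy_embedding hσ hrun hr hs hh
  obtain ⟨Q, B, hSE⟩ := SE_of hr hC hf hb e he
  exact not_SE hX hSE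

end Pool.Agent.DMN
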