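import Pool.Agent.DMN.Defs

/-!
# DMN, part E: the order `L = Σ_k (M_k + ζ + X_k + ζ)` on `ℕ` and the final assembly

The label `pair k x` belongs to region `k`: for `x < 2k+1` it is element number `x` of the chain
`M_k`; otherwise `y = x - (2k+1)`, and `y % 3 = 0, 1, 2` means: element `y / 3` of the first `ζ`,
of `X_k`, of the second `ζ`.
-/

set_option autoImplicit false

namespace Pool.Agent.DMN

/-- an order of type `ζ` on `ℕ`: `... 5 3 1 0 2 4 ...` -/
def zlt (i j : ℕ) : Prop :=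
  (i % 2 = 1 ∧ j % 2 = 0) ∨ (i % 2 = 0 ∧ j % 2 = 0 ∧ i < j) ∨ (i % 2 = 1 ∧ j % 2 = 1 ∧ j < i)

/-- region -/
def kk (n : ℕ) : ℕ := n.unpair.1

/-- block inside the region: `0 = M`, `1 = ζ`, `2 = X`, `3 = ζ` -/
def tt (n : ℕ) : ℕ :=
  if n.unpair.2 < 2 * n.unpair.1 + 1 then 0 else 1 + (n.unpair.2 - (2 * n.unpair.1 + 1)) % 3

/-- element of the block -/
def ii (n : ℕ) : ℕ :=
  if n.unpair.2 < 2 * n.unpair.1 + 1 then n.unpair.2
  else (n.unpair.2 - (2 * n.unpair.1 + 1)) / 3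

/-- the label of an element -/
def mk (k t i : ℕ) : ℕ :=
  if t = 0 then Nat.pair k i else Nat.pair k (2 * k + 1 + (3 * i + (t - 1)))

/-- the order of a block -/
def BL (X : ℕ → ℕ → ℕ → Prop) (k t i j : ℕ) : Prop :=
  (t = 0 ∧ i < j) ∨ ((t = 1 ∨ t = 3) ∧ zlt i j) ∨ (t = 2 ∧ X k i j)

/-- the strict order `L` -/
def LL (X : ℕ → ℕ → ℕ → Prop) (n m : ℕ) : Prop :=
  kk n < kk m ∨ (kk n = kk m ∧ (tt n < tt m ∨ (tt n = tt m ∧ BL X (kk n) (tt n) (ii n) (ii m))))

/-- valid triples -/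
def VT (k t i : ℕ) : Prop := (t = 0 ∧ i < 2 * k + 1) ∨ (1 ≤ t ∧ t ≤ 3)

theorem vt (n : ℕ) : VT (kk n) (tt n) (ii n) := by
  unfold VT kk tt ii
  split_ifs with h
  · exact Or.inl ⟨rfl, h⟩
  · right
    have := Nat.mod_lt (n.unpair.2 - (2 * n.unpair.1 + 1)) (by norm_num : 3 > 0)
    omega

theorem kk_mk (k t i : ℕ) : kk (mk k t i) = k := by
  unfold kk mk
  split_ifs <;> simp

theorem tt_mk {k t i : ℕ} (h : VT k t i) : tt (mk k t i) = t := by
  unfold tt mk
  rcases h with ⟨h1, h2⟩ | h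
  · subst h1
    simp [h2]
  · have h0 : t ≠ 0 := by omega
    simp only [h0, if_false, Nat.unpair_pair]
    rw [if_neg (by omega)]
    omega

theorem ii_mk {k t i : ℕ} (h : VT k t i) : ii (mk k t i) = i := by
  unfold ii mk
  rcases h with ⟨h1, h2⟩ | h
  · subst h1
    simp [h2]
  · have h0 : t ≠ 0 := by omega
    simp only [h0, if_false, Nat.unpair_pair]
    rw [if_neg (by omega)]
    omega

theorem mk_eq (n : ℕ) : mk (kk n) (tt n) (ii n) = n := by
  unfold mk tt ii kk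
  by_cases h : n.unpair.2 < 2 * n.unpair.1 + 1
  · simp only [h, if_true]
    exact Nat.pair_unpair n
  · simp only [h, if_false]
    rw [if_neg (by omega)]
    have h1 : 2 * n.unpair.1 + 1 + (3 * ((n.unpair.2 - (2 * n.unpair.1 + 1)) / 3) +
        (1 + (n.unpair.2 - (2 * n.unpair.1 + 1)) % 3 - 1)) = n.unpair.2 := by
      have := Nat.div_add_mod (n.unpair.2 - (2 * n.unpair.1 + 1)) 3
      omega
    rw [h1]
    exact Nat.pair_unpair n

theorem ext3 {n m : ℕ} (h1 : kk n = kk m) (h2 : tt n = tt m) (h3 : ii n = ii m) : n = m := by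
  rw [← mk_eq n, ← mk_eq m, h1, h2, h3]

/-! ### `L` is a strict linear order -/

theorem zlt_slo : SLO zlt where
  irr := fun x h => by unfold zlt at h; omega
  tr := fun x y z h h' => by unfold zlt at *; omega
  tri := fun x y => by unfold zlt; omega

theorem BL_slo {X : ℕ → ℕ → ℕ → Prop} (hX : ∀ k, SLO (X k)) (k t : ℕ) (ht : t ≤ 3) :
    SLO (BL X k t) where
  irr := fun x h => by
    rcases h with h | h | h
    · omega
    · exact zlt_slo.irr _ h.2
    · exact (hX k).irr _ h.2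
  tr := fun x y z h h' => by
    rcases h with h | h | h <;> rcases h' with h' | h' | h'
    · exact Or.inl ⟨h.1, h.2.trans h'.2⟩
    · exact absurd h.1 (by rcases h'.1 with h1 | h1 <;> omega)
    · exact absurd h.1 (by omega)
    · exact absurd h'.1 (by rcases h.1 with h1 | h1 <;> omega)
    · exact Or.inr (Or.inl ⟨h.1, zlt_slo.tr _ _ _ h.2 h'.2⟩)
    · exact absurd h'.1 (by rcases h.1 with h1 | h1 <;> omega)
    · exact absurd h.1 (by omega)
    · exact absurd h.1 (by rcases h'.1 with h1 | h1 <;> omega)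
    · exact Or.inr (Or.inr ⟨h.1, (hX k).tr _ _ _ h.2 h'.2⟩)
  tri := fun x y => by
    have h4 : t = 0 ∨ (t = 1 ∨ t = 3) ∨ t = 2 := by omega
    rcases h4 with h | h | h
    · rcases lt_trichotomy x y with h1 | h1 | h1
      · exact Or.inl (Or.inl ⟨h, h1⟩)
      · exact Or.inr (Or.inl h1)
      · exact Or.inr (Or.inr (Or.inl ⟨h, h1⟩))
    · rcases zlt_slo.tri x y with h1 | h1 | h1
      · exact Or.inl (Or.inr (Or.inl ⟨h, h1⟩))
      · exact Or.inr (Or.inl h1)
      · exact Or.inr (Or.inr (Or.inr (Or.inl ⟨h, h1⟩)))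
    · rcases (hX k).tri x y with h1 | h1 | h1
      · exact Or.inl (Or.inr (Or.inr ⟨h, h1⟩))
      · exact Or.inr (Or.inl h1)
      · exact Or.inr (Or.inr (Or.inr (Or.inr ⟨h, h1⟩)))

theorem tt_le (n : ℕ) : tt n ≤ 3 := by
  rcases vt n with h | h <;> omega

theorem LL_slo {X : ℕ → ℕ → ℕ → Prop} (hX : ∀ k, SLO (X k)) : SLO (LL X) where
  irr := fun x h => by
    rcases h with h | ⟨_, h | ⟨_, h⟩⟩
    · omega
    · omega
    · exact (BL_slo hX _ _ (tt_le x)).irr _ h
  tr := fun x y z h h' => by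
    rcases h with h | ⟨h1, h | ⟨h2, h⟩⟩ <;> rcases h' with h' | ⟨h1', h' | ⟨h2', h'⟩⟩
    · exact Or.inl (by omega)
    · exact Or.inl (by omega)
    · exact Or.inl (by omega)
    · exact Or.inl (by omega)
    · exact Or.inr ⟨by omega, Or.inl (by omega)⟩
    · exact Or.inr ⟨by omega, Or.inl (by omega)⟩
    · exact Or.inl (by omega)
    · exact Or.inr ⟨by omega, Or.inl (by omega)⟩
    · refine Or.inr ⟨by omega, Or.inr ⟨by omega, ?_⟩⟩
      rw [← h1, ← h2] at h'
      exact (BL_slo hX _ _ (tt_le x)).tr _ _ _ h h'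
  tri := fun x y => by
    rcases lt_trichotomy (kk x) (kk y) with h1 | h1 | h1
    · exact Or.inl (Or.inl h1)
    · rcases lt_trichotomy (tt x) (tt y) with h2 | h2 | h2
      · exact Or.inl (Or.inr ⟨h1, Or.inl h2⟩)
      · rcases (BL_slo hX (kk x) (tt x) (tt_le x)).tri (ii x) (ii y) with h3 | h3 | h3
        · exact Or.inl (Or.inr ⟨h1, Or.inr ⟨h2, h3⟩⟩)
        · exact Or.inr (Or.inl (ext3 h1 h2 h3))
        · refine Or.inr (Or.inr (Or.inr ⟨h1.symm, Or.inr ⟨h2.symm, ?_⟩⟩))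
          rw [← h1, ← h2]
          exact h3
      · exact Or.inr (Or.inr (Or.inr ⟨h1.symm, Or.inl h2⟩))
    · exact Or.inr (Or.inr (Or.inl h1))

end Pool.Agent.DMN
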