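import Mathlib

/-!
# Fair attacks (MP_55b29c_lc, Claim 2 of row 2497), abstract form

`le` is a linear order on the labels `ℕ`.  At the attack number `k` the labels `< n k` are
present, the attack takes the place between the neighbours `x k` and `y k`, and all labels
`n k ≤ w < n (k+1)` are inserted there.  `p k`, `q k`: number of elements which are kept free
on the left and on the right.
-/

namespace Pool.Agent.DMN

open Finset

/-- number of labels `< n` which are `≤ v` -/
noncomputable def cntLe (le : ℕ → ℕ → Prop) (n v : ℕ) : ℕ :=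
  by classical exact ((range n).filter fun w => le w v).card

/-- number of labels `< n` which are `≥ v` -/
noncomputable def cntGe (le : ℕ → ℕ → Prop) (n v : ℕ) : ℕ :=
  by classical exact ((range n).filter fun w => le v w).card

/-- number of labels `< n` in the interval `[v, v']` -/
noncomputable def cntIcc (le : ℕ → ℕ → Prop) (n v v' : ℕ) : ℕ :=
  by classical exact ((range n).filter fun w => le v w ∧ le w v').card

/-- `x`, `y` are neighbours among the labels `< n` -/
def Nbr (le : ℕ → ℕ → Prop) (n x y : ℕ) : Prop :=
  x < n ∧ y < n ∧ x ≠ y ∧ le x y ∧ ∀ w < n, le x w → le w y → w = x ∨ w = y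

/-- `le` is a linear order -/
structure Lin (le : ℕ → ℕ → Prop) : Prop where
  refl : ∀ a, le a a
  anti : ∀ a b, le a b → le b a → a = b
  trans : ∀ a b c, le a b → le b c → le a c
  total : ∀ a b, le a b ∨ le b a

structure Fair (le : ℕ → ℕ → Prop) (n x y p q : ℕ → ℕ) (cut : ℕ → ℕ → ℕ → Prop)
    (code : ℕ → ℕ → ℕ) (N : ℕ) : Prop where
  lin : Lin le
  inj : ∀ a b c d, code a b = code c d → a = c ∧ b = d
  mono : ∀ k, n k < n (k + 1)
  nbr : ∀ k, Nbr le (n k) (x k) (y k)
  ins : ∀ k w, n k ≤ w → w < n (k + 1) → le (x k) w ∧ le w (y k)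
  pmono : ∀ k, p k ≤ p (k + 1)
  qmono : ∀ k, q k ≤ q (k + 1)
  big : ∀ k, n k ≤ p (k + 1) + q (k + 1)
  cut_succ : ∀ k a b, cut k a b → Nbr le (n (k + 1)) a b → cut (k + 1) a b
  xp : ∀ k, p k + 1 ≤ cntLe le (n k) (x k)
  yq : ∀ k, q k + 1 ≤ cntGe le (n k) (y k)
  fair : ∀ k a b, Nbr le (n k) a b → cut k a b → p k + 1 ≤ cntLe le (n k) a →
    q k + 1 ≤ cntGe le (n k) b → code (x k) (y k) ≤ code a b
  /-- all cells have fewer than `N` elements -/
  small : ∀ k v v', v < n k → v' < n k → N ≤ cntIcc le (n k) v v' →
    ∃ a b, Nbr le (n k) a b ∧ cut k a b ∧ le v a ∧ le b v'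
  Npos : 1 ≤ N

/-! ### Counting -/

variable {le : ℕ → ℕ → Prop}

theorem Lin.dual (H : Lin le) : Lin fun a b => le b a :=
  ⟨H.refl, fun a b h h' => H.anti a b h' h, fun a b c h h' => H.trans c b a h' h,
    fun a b => (H.total a b).symm⟩

theorem cntLe_dual (n v : ℕ) : cntLe (fun a b => le b a) n v = cntGe le n v := rfl

theorem cntGe_dual (n v : ℕ) : cntGe (fun a b => le b a) n v = cntLe le n v := rfl

theorem Nbr.dual {n x y : ℕ} (h : Nbr le n x y) : Nbr (fun a b => le b a) n y x :=
  ⟨h.2.1, h.1, h.2.2.1.symm, h.2.2.2.1, fun w hw h1 h2 => (h.2.2.2.2 w hw h2 h1).symm⟩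

theorem cntLe_mono (H : Lin le) {m s t : ℕ} (hst : le s t) : cntLe le m s ≤ cntLe le m t := by
  classical
  unfold cntLe
  apply Finset.card_le_card
  intro z hz
  simp only [mem_filter, mem_range] at hz ⊢
  exact ⟨hz.1, H.trans _ _ _ hz.2 hst⟩

theorem cntGe_mono (H : Lin le) {m s t : ℕ} (hst : le s t) : cntGe le m t ≤ cntGe le m s :=
  cntLe_mono H.dual hst

theorem cntLe_lt (H : Lin le) {m s t : ℕ} (hst : le s t) (hne : s ≠ t) (ht : t < m) :
    cntLe le m s < cntLe le m t := by
  classical
  unfold cntLe
  apply Finset.card_lt_card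
  rw [Finset.ssubset_iff_of_subset]
  · refine ⟨t, by simp [ht, H.refl], ?_⟩
    simp only [mem_filter, mem_range, not_and]
    intro _ h
    exact hne (H.anti _ _ hst h)
  · intro z hz
    simp only [mem_filter, mem_range] at hz ⊢
    exact ⟨hz.1, H.trans _ _ _ hz.2 hst⟩

/-- ranks in a finite set -/
theorem exists_rank (H : Lin le) (S : Finset ℕ) {j : ℕ} (h1 : 1 ≤ j) (h2 : j ≤ S.card) :
    ∃ v ∈ S, (by classical exact (S.filter fun w => le w v).card) = j := by
  classical
  let r : ℕ → ℕ := fun v => (S.filter fun w => le w v).card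
  have hinj : Set.InjOn r S := by
    intro a ha b hb hab
    by_contra hne
    have key : ∀ s t : ℕ, s ∈ S → t ∈ S → le s t → s ≠ t → r s < r t := by
      intro s t hs ht hst hne
      apply Finset.card_lt_card
      rw [Finset.ssubset_iff_of_subset]
      · refine ⟨t, by simp [ht, H.refl], ?_⟩
        simp only [mem_filter, not_and]
        intro _ h
        exact hne (H.anti _ _ hst h)
      · intro z hz
        simp only [mem_filter] at hz ⊢
        exact ⟨hz.1, H.trans _ _ _ hz.2 hst⟩
    rcases H.total a b with h | h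
    · have := key a b ha hb h hne
      omega
    · have := key b a hb ha h (Ne.symm hne)
      omega
  have himg : S.image r = Icc 1 S.card := by
    apply Finset.eq_of_subset_of_card_le
    · intro m hm
      obtain ⟨a, ha, rfl⟩ := Finset.mem_image.1 hm
      rw [mem_Icc]
      constructor
      · apply Finset.card_pos.2
        exact ⟨a, by simp [ha, H.refl]⟩
      · exact Finset.card_filter_le _ _
    · rw [Finset.card_image_of_injOn hinj]
      simp
  have hj : j ∈ S.image r := by
    rw [himg, mem_Icc]
    exact ⟨h1, h2⟩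
  obtain ⟨v, hv, h⟩ := Finset.mem_image.1 hj
  exact ⟨v, hv, h⟩

/-! ### Claim 2 -/

variable {n x y p q : ℕ → ℕ} {cut : ℕ → ℕ → ℕ → Prop} {code : ℕ → ℕ → ℕ} {N : ℕ}

theorem Fair.dual (H : Fair le n x y p q cut code N) :
    Fair (fun a b => le b a) n y x q p (fun k a b => cut k b a) (fun a b => code b a) N where
  lin := H.lin.dual
  inj := fun a b c d h => (H.inj _ _ _ _ h).symm
  mono := H.mono
  nbr := fun k => (H.nbr k).dual
  ins := fun k w h1 h2 => (H.ins k w h1 h2).symm
  pmono := H.qmono
  qmono := H.pmono
  big := fun k => by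
    have := H.big k
    omega
  cut_succ := fun k a b h h' => H.cut_succ k b a h h'.dual
  xp := H.yq
  yq := H.xp
  fair := fun k a b h hc h1 h2 => H.fair k b a h.dual hc h2 h1
  small := fun k v v' hv hv' h => by
    have h' : N ≤ cntIcc le (n k) v' v := by
      refine h.trans (le_of_eq ?_)
      classical
      unfold cntIcc
      congr 1
      ext w
      simp only [mem_filter]
      tauto
    obtain ⟨a, b, h1, h2, h3, h4⟩ := H.small k v' v hv' hv h'
    exact ⟨b, a, h1.dual, h2, h4, h3⟩
  Npos := H.Npos

theorem Fair.n_le (H : Fair le n x y p q cut code N) {K k : ℕ} (h : K ≤ k) : n K ≤ n k := by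
  induction h with
  | refl => exact le_rfl
  | step h ih => exact ih.trans (H.mono _).le

theorem Fair.p_le (H : Fair le n x y p q cut code N) {K k : ℕ} (h : K ≤ k) : p K ≤ p k := by
  induction h with
  | refl => exact le_rfl
  | step h ih => exact ih.trans (H.pmono _)

theorem Fair.le_n (H : Fair le n x y p q cut code N) (k : ℕ) : k ≤ n k := by
  induction k with
  | zero => exact Nat.zero_le _
  | succ k ih => exact Nat.succ_le_of_lt (lt_of_le_of_lt ih (H.mono k))

/-- No pair `v < v'` separated by a cut at the attack `K` has more than `p` elements `≤ v`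
and more than `q` elements `≥ v'` for ever. -/
theorem Fair.claim2 (H : Fair le n x y p q cut code N) {K v v' a b : ℕ}
    (hv : v < n K) (hv' : v' < n K) (hab : Nbr le (n K) a b) (hcut : cut K a b)
    (hva : le v a) (hbv : le b v')
    (hp : ∀ k, K ≤ k → p k < cntLe le (n k) v) (hq : ∀ k, K ≤ k → q k < cntGe le (n k) v') :
    False := by
  classical
  have L := H.lin
  -- (1) as long as no attack is inside `[v, v']`, `a b` stay neighbours and a cut
  have hstay : ∀ k, K ≤ k → (∀ j, K ≤ j → j < k → ¬ (le v (x j) ∧ le (y j) v')) →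
      Nbr le (n k) a b ∧ cut k a b := by
    intro k hk
    induction hk with
    | refl => intro _; exact ⟨hab, hcut⟩
    | @step k hk ih =>
      intro h
      obtain ⟨h1, hc1⟩ := ih fun j hj hjk => h j hj (by omega)
      have h2 := h k hk (by omega)
      have hN1 : Nbr le (n (k + 1)) a b := by
        refine ⟨h1.1.trans (H.mono k), h1.2.1.trans (H.mono k), h1.2.2.1, h1.2.2.2.1, ?_⟩
        intro w hw haw hwb
        by_cases hwn : w < n k
        · exact h1.2.2.2.2 w hwn haw hwb
        · exfalso
          obtain ⟨hxw, hwy⟩ := H.ins k w (by omega) hw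
          obtain ⟨hx, hy, hxy, hlxy, hN⟩ := H.nbr k
          have hvk : v < n k := lt_of_lt_of_le hv (H.n_le hk)
          have hvk' : v' < n k := lt_of_lt_of_le hv' (H.n_le hk)
          have hvw : le v w := L.trans _ _ _ hva haw
          have hwv : le w v' := L.trans _ _ _ hwb hbv
          apply h2
          constructor
          · rcases L.total v (x k) with hc | hc
            · exact hc
            · rcases hN v hvk hc (L.trans _ _ _ hvw hwy) with h3 | h3
              · rw [h3]; exact L.refl _
              · exfalso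
                rw [h3] at hvw
                have := L.anti _ _ hvw hwy
                omega
          · rcases L.total (y k) v' with hc | hc
            · exact hc
            · rcases hN v' hvk' (L.trans _ _ _ hxw hwv) hc with h3 | h3
              · exfalso
                rw [h3] at hwv
                have := L.anti _ _ hwv hxw
                omega
              · rw [h3]; exact L.refl _
      exact ⟨hN1, H.cut_succ k a b hc1 hN1⟩
  -- (2) some attack is inside `[v, v']`
  have hatt : ∃ k, K ≤ k ∧ le v (x k) ∧ le (y k) v' := by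
    by_contra hc
    push Not at hc
    have hN : ∀ k, K ≤ k → Nbr le (n k) a b ∧ cut k a b := fun k hk =>
      hstay k hk fun j hj _ h => hc j hj h.1 h.2
    have hb : ∀ k, K ≤ k → code (x k) (y k) ≤ code a b := by
      intro k hk
      refine H.fair k a b (hN k hk).1 (hN k hk).2 ?_ ?_
      · exact (hp k hk).trans_le (cntLe_mono L hva)
      · exact (hq k hk).trans_le (cntGe_mono L hbv)
    have hinj : ∀ k l, k < l → code (x k) (y k) ≠ code (x l) (y l) := by
      intro k l hkl he
      obtain ⟨h1, h2⟩ := H.inj _ _ _ _ he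
      obtain ⟨h3, h4⟩ := H.ins k (n k) le_rfl (H.mono k)
      have h5 : n k < n l := lt_of_lt_of_le (H.mono k) (H.n_le hkl)
      rcases (H.nbr l).2.2.2.2 (n k) h5 (h1 ▸ h3) (h2 ▸ h4) with h6 | h6
      · have := (H.nbr k).1
        omega
      · have := (H.nbr k).2.1
        omega
    have hmap : Set.MapsTo (fun i => code (x (K + i)) (y (K + i)))
        (range (code a b + 2) : Finset ℕ) (range (code a b + 1) : Finset ℕ) := by
      intro i _
      have := hb (K + i) (by omega)
      simp only [coe_range, Set.mem_Iio]
      omega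
    obtain ⟨i, _, j, _, hij, he⟩ := Finset.exists_ne_map_eq_of_card_lt_of_maps_to
      (by simp) hmap
    rcases lt_or_gt_of_ne hij with h | h
    · exact hinj (K + i) (K + j) (by omega) he
    · exact hinj (K + j) (K + i) (by omega) he.symm
  obtain ⟨k, hk, hvx, hyv⟩ := hatt
  -- (3) count
  obtain ⟨hx, hy, hxy, hlxy, hN⟩ := H.nbr k
  have e1 : cntLe le (n (k + 1)) v = cntLe le (n k) v := by
    unfold cntLe
    congr 1
    ext w
    simp only [mem_filter, mem_range]
    constructor
    · rintro ⟨h1, h2⟩
      refine ⟨?_, h2⟩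
      by_contra hc
      obtain ⟨h3, h4⟩ := H.ins k w (by omega) h1
      have h5 := L.anti _ _ h3 (L.trans _ _ _ h2 hvx)
      omega
    · rintro ⟨h1, h2⟩
      exact ⟨h1.trans (H.mono k), h2⟩
  have e2 : cntGe le (n (k + 1)) v' = cntGe le (n k) v' := by
    unfold cntGe
    congr 1
    ext w
    simp only [mem_filter, mem_range]
    constructor
    · rintro ⟨h1, h2⟩
      refine ⟨?_, h2⟩
      by_contra hc
      obtain ⟨h3, h4⟩ := H.ins k w (by omega) h1
      have h5 := L.anti _ _ h4 (L.trans _ _ _ hyv h2)
      omega
    · rintro ⟨h1, h2⟩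
      exact ⟨h1.trans (H.mono k), h2⟩
  have e3 : cntLe le (n k) v + cntGe le (n k) v' ≤ n k := by
    unfold cntLe cntGe
    rw [← Finset.card_union_of_disjoint]
    · calc _ ≤ (range (n k)).card := by
            apply Finset.card_le_card
            intro w hw
            simp only [mem_union, mem_filter, mem_range] at hw ⊢
            rcases hw with h | h <;> exact h.1
        _ = n k := card_range _
    · rw [Finset.disjoint_left]
      intro w h1 h2
      simp only [mem_filter, mem_range] at h1 h2
      -- `x k ≥ v ≥ w ≥ v' ≥ y k`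
      have h3 : le (y k) (x k) :=
        L.trans _ _ _ hyv (L.trans _ _ _ h2.2 (L.trans _ _ _ h1.2 hvx))
      exact hxy (L.anti _ _ hlxy h3)
  have h1 := hp (k + 1) (by omega)
  have h2 := hq (k + 1) (by omega)
  have h3 := H.big k
  rw [e1] at h1
  rw [e2] at h2
  omega

/-! ### The left and the right part -/

/-- finitely many elements below `v` -/
def SL (le : ℕ → ℕ → Prop) (v : ℕ) : Prop := {w | le w v}.Finite

/-- finitely many elements above `v` -/
def SR (le : ℕ → ℕ → Prop) (v : ℕ) : Prop := {w | le v w}.Finite

theorem Fair.left (H : Fair le n x y p q cut code N) {v k : ℕ} (hv : v < n k)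
    (hS : ¬ SL le v) : p k + 2 ≤ cntLe le (n k) v := by
  classical
  have L := H.lin
  by_contra hc
  push Not at hc
  apply hS
  have key : ∀ j, k ≤ j → ∀ w < n j, le w v → w < n k := by
    intro j hj
    induction hj with
    | refl => intro w hw _; exact hw
    | @step j hj ih =>
      intro w hw hwv
      by_cases hwj : w < n j
      · exact ih w hwj hwv
      · exfalso
        obtain ⟨h1, h2⟩ := H.ins j w (by omega) hw
        have hvj : v < n j := lt_of_lt_of_le hv (H.n_le hj)
        -- `cntLe (n j) v = cntLe (n k) v`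
        have e1 : cntLe le (n j) v ≤ cntLe le (n k) v := by
          unfold cntLe
          apply Finset.card_le_card
          intro z hz
          simp only [mem_filter, mem_range] at hz ⊢
          exact ⟨ih z hz.1 hz.2, hz.2⟩
        have h3 := H.xp j
        have h4 := H.p_le hj
        have hxv : le v (x j) := by
          rcases L.total v (x j) with h | h
          · exact h
          · by_cases hne : x j = v
            · rw [hne]; exact L.refl _
            · exfalso
              have := cntLe_lt L h hne hvj
              omega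
        have h5 := L.anti _ _ h1 (L.trans _ _ _ hwv hxv)
        have := (H.nbr j).1
        omega
  apply (Set.finite_lt_nat (n k)).subset
  intro w hw
  have h1 : w < n (max k (w + 1)) :=
    lt_of_lt_of_le (Nat.lt_succ_self w) ((le_max_right k (w + 1)).trans (H.le_n _))
  exact key (max k (w + 1)) (le_max_left _ _) w h1 hw

theorem Fair.right (H : Fair le n x y p q cut code N) {v k : ℕ} (hv : v < n k)
    (hS : ¬ SR le v) : q k + 2 ≤ cntGe le (n k) v :=
  H.dual.left hv hS

/-- (A): an interval whose left end point has infinitely many elements below and whose right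
end point has infinitely many elements above has fewer than `N` elements. -/
theorem Fair.small_mid (H : Fair le n x y p q cut code N) {v v' : ℕ}
    (hv : ¬ SL le v) (hv' : ¬ SR le v') {S : Finset ℕ} (hS : ∀ w ∈ S, le v w ∧ le w v') :
    S.card < N := by
  classical
  by_contra hc
  push Not at hc
  obtain ⟨K, hK⟩ : ∃ K, v < n K ∧ v' < n K ∧ ∀ w ∈ S, w < n K := by
    refine ⟨v + v' + S.sup id + 1, ?_, ?_, ?_⟩
    · exact lt_of_lt_of_le (by omega) (H.le_n _)
    · exact lt_of_lt_of_le (by omega) (H.le_n _)
    · intro w hw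
      have : w ≤ S.sup id := Finset.le_sup (f := id) hw
      exact lt_of_lt_of_le (by omega) (H.le_n _)
  have hcnt : N ≤ cntIcc le (n K) v v' := by
    refine hc.trans ?_
    unfold cntIcc
    apply Finset.card_le_card
    intro w hw
    simp only [mem_filter, mem_range]
    exact ⟨hK.2.2 w hw, hS w hw⟩
  obtain ⟨a, b, h1, h2, h3, h4⟩ := H.small K v v' hK.1 hK.2.1 hcnt
  refine H.claim2 hK.1 hK.2.1 h1 h2 h3 h4 ?_ ?_
  · intro k hk
    have := H.left (lt_of_lt_of_le hK.1 (H.n_le hk)) hv
    omega
  · intro k hk
    have := H.right (lt_of_lt_of_le hK.2.1 (H.n_le hk)) hv'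
    omega

/-- (A'): fewer than `N` elements have infinitely many elements on both sides. -/
theorem Fair.card_mid (H : Fair le n x y p q cut code N) {S : Finset ℕ}
    (hS : ∀ w ∈ S, ¬ SL le w ∧ ¬ SR le w) : S.card < N := by
  classical
  have L := H.lin
  rcases S.eq_empty_or_nonempty with rfl | hne
  · have := H.Npos
    rw [Finset.card_empty]
    omega
  have hpos : 1 ≤ S.card := Finset.card_pos.2 hne
  obtain ⟨v, hvS, hv⟩ := exists_rank L S le_rfl hpos
  obtain ⟨v', hvS', hv'⟩ := exists_rank L.dual S le_rfl hpos
  refine H.small_mid (v := v) (v' := v') (hS v hvS).1 (hS v' hvS').2 ?_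
  intro w hw
  constructor
  · rcases L.total v w with h | h
    · exact h
    · rw [Finset.card_eq_one] at hv
      obtain ⟨c, hc⟩ := hv
      have h1 : w ∈ ({c} : Finset ℕ) := by
        rw [← hc]
        simp [hw, h]
      have h2 : v ∈ ({c} : Finset ℕ) := by
        rw [← hc]
        simp [hvS, L.refl]
      rw [mem_singleton] at h1 h2
      rw [h1, h2]
      exact L.refl _
  · rcases L.total w v' with h | h
    · exact h
    · rw [Finset.card_eq_one] at hv'
      obtain ⟨c, hc⟩ := hv'
      have h1 : w ∈ ({c} : Finset ℕ) := by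
        rw [← hc]
        simp [hw, h]
      have h2 : v' ∈ ({c} : Finset ℕ) := by
        rw [← hc]
        simp [hvS', L.refl]
      rw [mem_singleton] at h1 h2
      rw [h1, h2]
      exact L.refl _

/-- (B): if `p k ≤ P` for all `k`, fewer than `P + N` elements have infinitely many elements
above. -/
theorem Fair.card_left (H : Fair le n x y p q cut code N) {P : ℕ} (hP : ∀ k, p k ≤ P)
    {S : Finset ℕ} (hS : ∀ w ∈ S, ¬ SR le w) : S.card < P + N := by
  classical
  have L := H.lin
  by_contra hc
  push Not at hc
  have hN := H.Npos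
  obtain ⟨v, hvS, hv⟩ := exists_rank L S (j := P + 1) (by omega) (by omega)
  obtain ⟨v', hvS', hv'⟩ := exists_rank L S (j := S.card) (by omega) le_rfl
  have hmax : ∀ w ∈ S, le w v' := by
    have : S.filter (fun w => le w v') = S :=
      Finset.eq_of_subset_of_card_le (Finset.filter_subset _ _) (le_of_eq hv'.symm)
    intro w hw
    rw [← this] at hw
    exact (mem_filter.1 hw).2
  obtain ⟨K, hK⟩ : ∃ K, ∀ w ∈ S, w < n K := by
    refine ⟨S.sup id + 1, ?_⟩
    intro w hw
    have : w ≤ S.sup id := Finset.le_sup (f := id) hw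
    exact lt_of_lt_of_le (by omega) (H.le_n _)
  have hcnt : N ≤ cntIcc le (n K) v v' := by
    have h1 : (S.filter fun w => le w v).card + (S.filter fun w => ¬ le w v).card = S.card :=
      Finset.card_filter_add_card_filter_not _
    have h2 : (insert v (S.filter fun w => ¬ le w v)).card =
        (S.filter fun w => ¬ le w v).card + 1 := by
      rw [Finset.card_insert_of_notMem]
      simp [L.refl]
    have h3 : (insert v (S.filter fun w => ¬ le w v)).card ≤ cntIcc le (n K) v v' := by
      unfold cntIcc
      apply Finset.card_le_card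
      intro w hw
      simp only [mem_insert, mem_filter, mem_range] at hw ⊢
      rcases hw with rfl | ⟨hw, hw'⟩
      · exact ⟨hK w hvS, L.refl _, hmax w hvS⟩
      · exact ⟨hK w hw, (L.total v w).resolve_right hw', hmax w hw⟩
    omega
  obtain ⟨a, b, h1, h2, h3, h4⟩ := H.small K v v' (hK v hvS) (hK v' hvS') hcnt
  refine H.claim2 (hK v hvS) (hK v' hvS') h1 h2 h3 h4 ?_ ?_
  · intro k hk
    have h5 : P + 1 ≤ cntLe le (n k) v := by
      rw [← hv]
      unfold cntLe
      apply Finset.card_le_card
      intro w hw
      simp only [mem_filter, mem_range] at hw ⊢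
      exact ⟨lt_of_lt_of_le (hK w hw.1) (H.n_le hk), hw.2⟩
    have := hP k
    omega
  · intro k hk
    have := H.right (lt_of_lt_of_le (hK v' hvS') (H.n_le hk)) (hS v' hvS')
    omega

/-- (C) -/
theorem Fair.card_right (H : Fair le n x y p q cut code N) {Q : ℕ} (hQ : ∀ k, q k ≤ Q)
    {S : Finset ℕ} (hS : ∀ w ∈ S, ¬ SL le w) : S.card < Q + N :=
  H.dual.card_left hQ hS

end Pool.Agent.DMN
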