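import Pool.Agent.DMN.TargetsB

/-!
# DMN: targets, part A (computability of the construction), MP_55b29c_lc, ideas row 2497

Every target carries its complete proof in the docstring.
HOW TO HAND IN target `XYZ`: file `Pool/Agent/DMN/P_XYZ.lean`, `namespace Pool.Agent.DMN`, theorem
`XYZ` with the statement copied verbatim (helper lemmas named `XYZ_...`).  If your proof uses
another target, write it as `Targets.ABC` (always qualified) and import the file with it; helper27
replaces these by the proved versions at the end.

Tools: `Pool.Agent.DMO` (Tool.lean): `dec_and, dec_or, dec_not, dec_imp, dec_iff', dec_ball,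
dec_bex, dec_eq, dec_lt, dec_le, dec_of_iff, dec_of_comp, dec_re, re_exists, re_ball, re_imp, seq`;
`Pool.Agent.CeerI` (Comp.lean): `re_iff, re_comp, re_and, re_or, re_ex, dec_iff, dec_comp, dec_and,
dec_or, comp_ite`.  `dec_comp` substitutes computable functions into a decidable predicate.
-/

set_option autoImplicit false

namespace Pool.Agent.DMN.Targets

open Pool.Agent.DMN

/-- SEQU. Version of `Pool.Agent.DMO.seq` with a parameter `e` and an invariant which depends on
the parameter and on the stage. Copy the proof of `seq` (`Partrec.nat_rec` over `ℕ × ℕ`). -/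
theorem SEQU {S : Type} [Primcodable S] {R : ℕ → ℕ → S → S → Prop}
    (hR : REPred fun x : ((ℕ × ℕ) × S) × S => R x.1.1.1 x.1.1.2 x.1.2 x.2)
    {I : ℕ → ℕ → S → Prop} (htot : ∀ e k s, I e k s → ∃ s', R e k s s')
    (hI : ∀ e k s s', I e k s → R e k s s' → I e (k + 1) s') (s0 : S) (h0 : ∀ e, I e 0 s0) :
    ∃ σ : ℕ → ℕ → S, Computable₂ σ ∧ (∀ e, σ e 0 = s0) ∧
      (∀ e k, R e k (σ e k) (σ e (k + 1))) ∧ ∀ e k, I e k (σ e k) := by
  sorry

section

variable {α β : Type} [Primcodable α] [Primcodable β]

/-- DMEM. Membership in a list: bounded quantifier over the index, `Computable.list_getElem?`,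
`Primrec.list_length`. -/
theorem DMEM [DecidableEq β] {f : α → β} {L : α → List β} (hf : Computable f)
    (hL : Computable L) : ComputablePred fun a => f a ∈ L a := by
  sorry

/-- DALL. Bounded quantifiers over the elements of a list. -/
theorem DALL {p : α × β → Prop} (hp : ComputablePred p) {L : α → List β} (hL : Computable L) :
    (ComputablePred fun a => ∀ x ∈ L a, p (a, x)) ∧
      ComputablePred fun a => ∃ x ∈ L a, p (a, x) := by
  sorry

/-- CNUM. Counting: `num A m c d` is defined by recursion on `m`: prove first that
`a ↦ #{x < m a | q (a, x)}` is computable for a decidable `q` (`Computable.nat_rec`,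
`Finset.range_add_one`, `Finset.filter_insert`), then use `dec_comp`, `dec_and`, `dec_or`. -/
theorem CNUM {A : α → ℕ → ℕ → Prop}
    (hA : ComputablePred fun q : (α × ℕ) × ℕ => A q.1.1 q.1.2 q.2) {m c d : α → ℕ}
    (hm : Computable m) (hc : Computable c) (hd : Computable d) :
    Computable fun a => num (A a) (m a) (c a) (d a) := by
  sorry

/-- DOLT. `Nat.Partrec.Code.primrec_evaln`, `Primrec.ofNat`, `Primrec₂.natPair`. -/
theorem DOLT {k s x y : α → ℕ} (hk : Computable k) (hs : Computable s) (hx : Computable x)
    (hy : Computable y) :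
    (Computable fun a => opv (k a) (s a) (x a) (y a)) ∧
      ComputablePred fun a => olt (k a) (s a) (x a) (y a) := by
  sorry

/-- DOK. Bounded quantifiers. -/
theorem DOK {k s M : α → ℕ} (hk : Computable k) (hs : Computable s) (hM : Computable M) :
    ComputablePred fun a => Ok (k a) (s a) (M a) := by
  sorry

/-- CACC. The accessor functions are computable (compositions of `fst`, `snd`; `cd`, `wi` by
`Primrec.ofNat`; `fr` by `Primrec.list_getD`; `f0` by `comp_ite` and `dec_eq`). -/
theorem CACC :
    (Computable ft ∧ Computable fl ∧ Computable fR ∧ Computable ff) ∧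
    (Computable cm1 ∧ Computable cm2 ∧ Computable ca ∧ Computable cb ∧ Computable cm3 ∧
      Computable cm4) ∧
    (Computable wm ∧ Computable wM ∧ Computable wx0 ∧ Computable wx1 ∧ Computable wb1) ∧
    (Computable wu ∧ Computable wz ∧ Computable wv ∧ Computable wz' ∧ Computable wv') ∧
    Computable cd ∧ Computable wi ∧ Computable₂ fr ∧ Computable₂ f0 := by
  sorry

/-- DWG. `Wait` and `Good` are decidable. -/
theorem DWG {A : α → ℕ → ℕ → Prop}
    (hA : ComputablePred fun q : (α × ℕ) × ℕ => A q.1.1 q.1.2 q.2) :
    (∀ {f : α → List (ℕ × ℕ)} {u : α → ℕ}, Computable f → Computable u →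
      ComputablePred fun a => Wait (A a) (f a) (u a)) ∧
    ∀ {m g v v' y : α → ℕ}, Computable m → Computable g → Computable v → Computable v' →
      Computable y → ComputablePred fun a => Good (A a) (m a) (g a) (v a) (v' a) (y a) := by
  sorry

/-- DEV. The evidence is decidable. -/
theorem DEV {A : α → ℕ → ℕ → Prop}
    (hA : ComputablePred fun q : (α × ℕ) × ℕ => A q.1.1 q.1.2 q.2) {k M E : α → ℕ} {c : α → Cd}
    (hk : Computable k) (hM : Computable M) (hE : Computable E) (hc : Computable c) :
    ComputablePred fun a => Ev (A a) (k a) (M a) (E a) (c a) := by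
  sorry

/-- DDAT. The predicate `Dat` is decidable. -/
theorem DDAT {A : α → ℕ → ℕ → Prop}
    (hA : ComputablePred fun q : (α × ℕ) × ℕ => A q.1.1 q.1.2 q.2) {k : α → ℕ} {c : α → Cd}
    {x x' : α → Fr} {w : α → Wi} (hk : Computable k) (hc : Computable c) (hx : Computable x)
    (hx' : Computable x') (hw : Computable w) :
    ComputablePred fun a => Dat (A a) (k a) (c a) (x a) (x' a) (w a) := by
  sorry

/-- DREQ. `Req` is decidable. -/
theorem DREQ {k s : α → ℕ} {st : α → St} {w : α → Wi} (hk : Computable k) (hs : Computable s)
    (hst : Computable st) (hw : Computable w) :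
    ComputablePred fun a => Req (k a) (s a) (st a) (w a) := by
  sorry

/-- DPOS. Cut positions and gaps are decidable. -/
theorem DPOS {X C : α → List ℕ} (hX : Computable X) (hC : Computable C) :
    (∀ {l : α → ℕ}, Computable l → ComputablePred fun a => Pos (X a) (C a) (l a)) ∧
    ∀ {P Q l : α → ℕ}, Computable P → Computable Q → Computable l →
      ComputablePred fun a => Gap (X a) (C a) (P a) (Q a) (l a) := by
  sorry

/-- DSPL. `Split` is decidable. -/
theorem DSPL {X C C' : α → List ℕ} {N : α → ℕ} (hX : Computable X) (hC : Computable C)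
    (hN : Computable N) (hC' : Computable C') :
    ComputablePred fun a => Split (X a) (C a) (N a) (C' a) := by
  sorry

/-- DNEW. `NewF` is decidable. -/
theorem DNEW {A : α → ℕ → ℕ → Prop}
    (hA : ComputablePred fun q : (α × ℕ) × ℕ => A q.1.1 q.1.2 q.2)
    {m g u v v' : α → ℕ} {f f' : α → List (ℕ × ℕ)} (hm : Computable m) (hg : Computable g)
    (hu : Computable u) (hv : Computable v) (hv' : Computable v') (hf : Computable f)
    (hf' : Computable f') :
    ComputablePred fun a => NewF (A a) (m a) (g a) (u a) (v a) (v' a) (f a) (f' a) := by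
  sorry

/-- CINS. `insAt` is computable (`Primrec.list_take`, `Primrec.list_drop`, `List.range'` = map of
`List.range`, `Primrec.list_append`). -/
theorem CINS {s l : α → ℕ} {X C : α → List ℕ} {stk : α → List Fr} (hs : Computable s)
    (hl : Computable l) (hX : Computable X) (hC : Computable C) (hk : Computable stk) :
    Computable fun a => insAt (s a) (l a) (X a) (C a) (stk a) := by
  sorry

/-- RATT. `Att` is recursively enumerable: `re_exists` for `C'`, `l`, `f'`, then everything is
decidable. -/
theorem RATT {k s : α → ℕ} {st st' : α → St} {w : α → Wi} (hk : Computable k)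
    (hs : Computable s) (hst : Computable st) (hst' : Computable st') (hw : Computable w) :
    REPred fun a => Att (k a) (s a) (st a) (w a) (st' a) := by
  sorry

end

/-- RR. The step relation is recursively enumerable. -/
theorem RR : REPred fun x : ((ℕ × ℕ) × St) × St => R x.1.1.1 x.1.1.2 x.1.2 x.2 := by
  sorry

/-- RUNX. There is a computable family of runs: SEQU with `I e k st = Inv k st`, RR, TOT, PRE,
INI. -/
theorem RUNX : ∃ σ : ℕ → ℕ → St, Computable₂ σ ∧ ∀ k, Run k (σ k) := by
  sorry

end Pool.Agent.DMN.Targets
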