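import Pool.Agent.DMN.DefsB

/-!
# DMN: targets, part B (the opponent, lists, cuts, one step, the order of a run)

MP_55b29c_lc, ideas row 2497.  Every target carries its complete proof in the docstring.
HOW TO HAND IN target `XYZ`: file `Pool/Agent/DMN/P_XYZ.lean`, `namespace Pool.Agent.DMN`, theorem
`XYZ` with the statement copied verbatim (helper lemmas named `XYZ_...`).  If your proof uses
another target, write it as `Targets.ABC` (always qualified) and import the file with it
(`Pool.Agent.DMN.TargetsB`, `Pool.Agent.DMN.TargetsC`); helper27 replaces these by the proved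
versions at the end.
-/

set_option autoImplicit false

namespace Pool.Agent.DMN.Targets

open Pool.Agent.DMN

/-! ## The opponent -/

/-- OPA. Monotonicity in the number of steps: `Nat.Partrec.Code.evaln_mono`. (2): labels. -/
theorem OPA {k s s' M M' : ℕ} (h : Ok k s M) (hM : M' ≤ M) (hs : s ≤ s') :
    Ok k s' M' ∧ ∀ x < M, ∀ y < M, (olt k s x y ↔ olt k s' x y) := by
  sorry

/-- OPC. If `Ok k s M` happens for every `M` then there is a total order `A`: put
`A x y = ∃ s M, x < M ∧ y < M ∧ Ok k s M ∧ olt k s x y`; by OPA the value does not depend on `s`,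
`M` (compare two of them with `max s s'` and `max M M'`, or with a common `s''`). -/
theorem OPC {k : ℕ} (h : ∀ M, ∃ s, Ok k s M) : ∃ A, SLO A ∧ Real k A := by
  sorry

/-- OPD. Every computable linear order has a number. `Computable₂ s` gives a code `c` for
`n ↦ encode (s n.unpair.1 n.unpair.2)` (`Nat.Partrec.Code.exists_code`), `k = encode c`
(`Denumerable.ofNat` and `encode` are inverse). `Nat.Partrec.Code.evaln_complete`,
`evaln_sound`: for every `x, y` some `evaln s c (pair x y)` is `some (encode (s x y))`; take the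
maximum over `x, y < M` (`evaln_mono`). `encode true = 1`, `encode false = 0`. -/
theorem OPD {s : ℕ → ℕ → Bool} (hs : Computable₂ s) (h1 : ∀ a, s a a = true)
    (h2 : ∀ a b, s a b = true → s b a = true → a = b)
    (h3 : ∀ a b c, s a b = true → s b c = true → s a c = true)
    (h4 : ∀ a b, s a b = true ∨ s b a = true) :
    ∃ k, Real k fun x y => s x y = true ∧ x ≠ y := by
  sorry

/-- TRD. `Dat` depends only on the order of the labels `< M`: all labels which occur are `< M`
(`E = num A m a b ≤ m ≤ M` for the evidence; the elements of `f0` are `< m` by the third part;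
`wu w < wm w`; `ca`, `cb`, .. `< M`; for `num A m c d` with `c, d < M` the two filters are
equal). -/
theorem TRD {A A' : ℕ → ℕ → Prop} {k : ℕ} {c : Cd} {a a' : Fr} {w : Wi}
    (h : ∀ x < wM w, ∀ y < wM w, (A x y ↔ A' x y)) (hd : Dat A k c a a' w) :
    Dat A' k c a a' w := by
  sorry

/-! ## Existence of the step -/

/-- SPL. Halving. Consider all lists `C''` with `C ⊆ C'' ⊆ X` which satisfy the 4th and the 5th
clause of `Split` (for example `C`) and take one with the maximal number of positions `l ≤ |X|` with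
`Pos X C'' l`. Suppose that the third clause fails: `a + N ≤ |X|` and no `l` with `a < l < a + N`
and `Pos X C'' l`. Let `c1` = the largest `l ≤ a` with `l = 0 ∨ Pos X C'' l`, `c2` = the smallest
`l ≥ a + N` with `Pos X C'' l` (exists: `|X|`). `c1`, `c2` are even, `c2 - c1 ≥ N ≥ 4`, no cut
strictly between. Put `e = c1 + 2 * ((c2 - c1) / 4)`: `c1 < e < c2`, `e` even,
`N ≤ c2 - c1 ≤ 2 (e - c1) + 2` and `≤ 2 (c2 - e) + 2`. Add the label `X.getD (e - 1) 0`; as `X` has
no duplicates the positions of the new list are the old ones and `e`, all other cuts are `≤ c1` or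
`≥ c2`. It has more positions, contradiction. -/
theorem SPL {X C : List ℕ} {N : ℕ} (hX : X.Nodup) (hC : ∀ x ∈ C, x ∈ X)
    (he : ∀ l, Pos X C l → l % 2 = 0) (hl : Pos X C X.length) (hN : 4 ≤ N) :
    ∃ C', Split X C N C' := by
  sorry

/-- GAE. Existence of the gap: third clause of `Split` with `a = P - 1` gives a cut position `l`
with `P ≤ l` and `l + Q ≤ |X|`; among the finitely many possible `l` take one with the least
code. -/
theorem GAE {X C C' : List ℕ} {N P Q : ℕ} (h : Split X C N C') (hP : 1 ≤ P) (hQ : 1 ≤ Q)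
    (hs : P + N + Q ≤ X.length + 2) : ∃ l, Gap X C' P Q l := by
  sorry

/-- INI. The initial state. (`Pos [0,1,2,3] [1,3] l` iff `l = 2 ∨ l = 4`.) -/
theorem INI : Inv 0 init := by
  sorry

/-- INA. Insertion preserves the invariant. Here `stk` is a stack with the following properties and
`C'` is a set of cuts. Positions after the insertion: `Pos X' (C' ++ [3 n - 1]) q` iff
(`q ≤ l` and `Pos X C' q`) or `q = l + 2 n` or (`q > l + 2 n` and `Pos X C' (q - 2 n)`), as the
labels of `C'` are `< n` (use it as a helper lemma). `nn (s + 1) = 3 * nn s`. -/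
theorem INA {s l : ℕ} {st : St} (h : Inv s st) {C' : List ℕ} {stk : List Fr}
    (hC : ∀ x ∈ st.2.1, x ∈ C') (hC' : ∀ x ∈ C', x < nn s)
    (he : ∀ q, Pos st.1 C' q → q % 2 = 0) (hl : Pos st.1 C' l) (hl2 : 2 ≤ l)
    (hl3 : l + 2 ≤ nn s) (h1 : 1 ≤ stk.length)
    (hroot : stk.getD 0 (0, 0, 0, []) = (0, 2, 2, []))
    (hlm : ∀ i j, i ≤ j → j < stk.length → fl (stk.getD i (0, 0, 0, [])) ≤
      fl (stk.getD j (0, 0, 0, [])) ∧ fR (stk.getD i (0, 0, 0, [])) ≤
      fR (stk.getD j (0, 0, 0, [])))
    (htm : ∀ i j, i < j → j < stk.length → ft (stk.getD i (0, 0, 0, [])) <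
      ft (stk.getD j (0, 0, 0, [])))
    (htl : ∀ i < stk.length, ft (stk.getD i (0, 0, 0, [])) ≤ s)
    (hsm : ∀ i < stk.length, fl (stk.getD i (0, 0, 0, [])) + fR (stk.getD i (0, 0, 0, [])) ≤
      nn s)
    (hps : ∀ i < stk.length, Pos st.1 C' (fl (stk.getD i (0, 0, 0, []))))
    (htop : ∀ i < stk.length, fl (stk.getD i (0, 0, 0, [])) ≤ l ∧
      fR (stk.getD i (0, 0, 0, [])) ≤ nn s - l) :
    Inv (s + 1) (insAt s l st.1 C' stk) := by
  sorry

/-- FAT. Facts on an attack. From `Gap`: `l ≥ P ≥ fl a' ≥ 2` and `l + Q ≤ n`, `Q ≥ fR a' ≥ 2` (`a'`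
= frame number `i - 1`, `lmono` with the root), everything else by unfolding `insAt` (`List.getD`
of `take` and `++`); `gap` (in `SF`) from `lmono` for the frames `j < i`. -/
theorem FAT {k s : ℕ} {σ : ℕ → St} {w : Wi} (hI : Inv s (σ s)) (hR : Req k s (σ s) w)
    (hA : Att k s (σ s) w (σ (s + 1))) :
    ∃ C' l f', AF k σ (Nat.unpair s).1 s w C' l f' := by
  sorry

/-- FPS. Facts on a stage without attack: `l = fl` of the last frame; `2 ≤ l` and `l + 2 ≤ n` from
`lmono` with the root (`fR ≥ 2`) and `sum`. -/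
theorem FPS {s : ℕ} {σ : ℕ → St} (hI : Inv s (σ s)) (hP : Psh s (σ s) (σ (s + 1))) :
    ∃ l, PF σ s l := by
  sorry

/-- TOT. The step relation is total: if `Req k s st (wi c)` for some `c < s` use SPL and GAE (with
`N ≥ ft a + 3 ≥ 4` as `ft a > ft (root) = 0`; `P + N + Q = 3 (fl a + fR a) + 2 ≤ n + 2` by
`sum'`; `P ≥ fl a' ≥ 2`, `Q ≥ fR a' ≥ 2`). `f'` exists (`by_cases`). -/
theorem TOT {k s : ℕ} {st : St} (h : Inv s st) : ∃ st', R k s st st' := by
  sorry

/-- PRE. The step preserves the invariant: INA with `C'` from `Split` and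
`stk = take i stack ++ [(t, l, n - l, f')]`, or with `C' = C`, `stk` = the old stack. For an attack
`sum'` for the attacking frame after the step: `3 (l + (n - l)) = 3 n = nn (s + 1)`. -/
theorem PRE {k s : ℕ} {st st' : St} (h : Inv s st) (hR : R k s st st') : Inv (s + 1) st' := by
  sorry

/-! ## The order of a run -/

/-- SFE. Every stage has step facts: `step`, FAT, FPS. -/
theorem SFE {k : ℕ} {σ : ℕ → St} (h : Run k σ) (s : ℕ) : ∃ l, SF σ s l := by
  sorry

/-- ORD. The order of a run is a strict linear order, and it is the order of every list which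
contains both labels. Key: `idxOf x < idxOf y` in `(σ s).1` iff in `(σ (s + 1)).1`, for
`x, y < nn s` (SFE: an insertion adds `2 * nn s` to the positions `≥ l`). -/
theorem ORD {k : ℕ} {σ : ℕ → St} (h : Run k σ) :
    SLO (xo σ) ∧ ∀ s x y, x < nn s → y < nn s →
      (xo σ x y ↔ (σ s).1.idxOf x < (σ s).1.idxOf y) := by
  sorry

/-- ORB. Counting in a list: ORD and `Nodup`; the labels `< nn s` are exactly the elements of the
list, `x` has `idxOf x` elements before it. -/
theorem ORB {k : ℕ} {σ : ℕ → St} (h : Run k σ) (s : ℕ) :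
    (∀ x < nn s, below (xo σ) (nn s) x = (σ s).1.idxOf x + 1 ∧
      above (xo σ) (nn s) x + (σ s).1.idxOf x = nn s ∧ (σ s).1.idxOf x < nn s ∧
      (σ s).1.getD ((σ s).1.idxOf x) 0 = x) ∧
    (∀ i < nn s, (σ s).1.getD i 0 < nn s ∧ (σ s).1.idxOf ((σ s).1.getD i 0) = i) ∧
    (∀ x < nn s, ∀ y < nn s, (Adj (xo σ) (nn s) x y ↔ (σ s).1.idxOf y = (σ s).1.idxOf x + 1)) ∧
    ∀ x < nn s, ∀ y < nn s, (σ s).1.idxOf x ≤ (σ s).1.idxOf y →
      num (xo σ) (nn s) x y + (σ s).1.idxOf x = (σ s).1.idxOf y + 1 := by
  sorry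

/-- ORN. The new labels at stage `s`. -/
theorem ORN {k : ℕ} {σ : ℕ → St} (h : Run k σ) {s l : ℕ} (hs : SF σ s l) :
    (∀ x < nn s, ∀ w, nn s ≤ w → w < nn (s + 1) →
      (xo σ x w ↔ (σ s).1.idxOf x < l) ∧ (xo σ w x ↔ l ≤ (σ s).1.idxOf x)) ∧
    ∀ w w', nn s ≤ w → w < w' → w' < nn (s + 1) → xo σ w w' := by
  sorry

/-- ORE. `0` is the least and `3` is the greatest element: by induction the list starts with `0` and
ends with `3` (insertions at positions `2 ≤ l ≤ nn s - 2`). -/
theorem ORE {k : ℕ} {σ : ℕ → St} (h : Run k σ) :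
    (∀ y, 0 = y ∨ xo σ 0 y) ∧ ∀ y, 3 = y ∨ xo σ y 3 := by
  sorry

/-- OCU. Cuts: `x` is a cut at stage `s` iff the position after it is a cut position; it is even;
once a cut, always a cut. -/
theorem OCU {k : ℕ} {σ : ℕ → St} (h : Run k σ) :
    (∀ s, ∀ x < nn s, (x ∈ (σ s).2.1 ↔ Pos (σ s).1 (σ s).2.1 ((σ s).1.idxOf x + 1))) ∧
    (∀ s, ∀ x ∈ (σ s).2.1, below (xo σ) (nn s) x % 2 = 0) ∧
    (∀ s s', s ≤ s' → ∀ x ∈ (σ s).2.1, x ∈ (σ s').2.1) := by
  sorry

/-! ## Blocks are even -/

/-- EVR. If `d` has no immediate successor (and is not the greatest element) then `d` is finally a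
cut. Otherwise `d ∉ (σ s).2.1` for all `s`; the right neighbour `w` of `d` at a stage where `d` is
present stays the right neighbour for ever (an insertion at position `l = idxOf d + 1` would make
`d` a cut of stage `s + 1`: `SF.cut`), so nothing is between `d` and `w`, contradiction. -/
theorem EVR {k : ℕ} {σ : ℕ → St} (h : Run k σ) {d : ℕ} (h3 : d ≠ 3)
    (hd : ∀ w, xo σ d w → ∃ w', xo σ d w' ∧ xo σ w' w) : ∃ s, d ∈ (σ s).2.1 := by
  sorry

/-- EVL. If `c ≠ 0` has no immediate predecessor then finally the left neighbour of `c` is a cut, so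
the number of labels `< c` is even. As long as the left neighbour `e` of `c` is not a cut nothing is
inserted between `e` and `c` (`SF.cut`), so once `e` must be a cut; then it stays so: either `e`
stays the left neighbour, or a cell is inserted between, and its last label `nn (s+1) - 1` is the
new left neighbour and a cut (`cnew'`). `below c = below e + 1` and `below e` is even (OCU). -/
theorem EVL {k : ℕ} {σ : ℕ → St} (h : Run k σ) {c : ℕ} (h0 : c ≠ 0)
    (hc : ∀ w, xo σ w c → ∃ w', xo σ w w' ∧ xo σ w' c) :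
    ∃ S, ∀ s ≥ S, below (xo σ) (nn s) c % 2 = 1 := by
  sorry

/-- EVB. Finite maximal blocks are even. For large `s` all elements of the interval are present and
their number is `below d - (below c - 1)`; `below c` is odd (EVL, or `c = 0` and `below = 1`),
`below d` is even (EVR with OCU, or `d = 3` and `below = nn s`). -/
theorem EVB {k : ℕ} {σ : ℕ → St} (h : Run k σ) {c d : ℕ} (hcd : c = d ∨ xo σ c d)
    (hfin : (Icc' (xo σ) c d).Finite)
    (hc : ∀ w, xo σ w c → ∃ w', xo σ w w' ∧ xo σ w' c)
    (hd : ∀ w, xo σ d w → ∃ w', xo σ d w' ∧ xo σ w' w) :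
    (Icc' (xo σ) c d).ncard % 2 = 0 := by
  sorry

/-! ## Long cells -/

/-- a block at stage `s`: positions `p < q` which are cuts, no cut between them, at least `B`
elements, all of them strictly between `x` and `y` -/
def Blk (σ : ℕ → St) (x y B s p q : ℕ) : Prop :=
  p + B ≤ q ∧ p < q ∧ Pos (σ s).1 (σ s).2.1 p ∧ Pos (σ s).1 (σ s).2.1 q ∧
    (∀ l, p < l → l < q → ¬ Pos (σ s).1 (σ s).2.1 l) ∧
    ∀ i, p ≤ i → i < q → xo σ x ((σ s).1.getD i 0) ∧ xo σ ((σ s).1.getD i 0) y

/-- LC1. One step for a block. If stage `s` has no attack with a window `< 2 B + 2` then there is a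
block at stage `s + 1` which is the same (the same labels in the same order: `p' ≤ p + 2 nn s` etc.)
or a shorter one. Proof: let `C'` be the cuts after the splitting (`C' = C` if there is no attack).
If there is no new cut strictly between `p` and `q` then (insertion position `l` is in `C'`, so it
is `≤ p` or `≥ q`) the block is only shifted. If there is a new cut, let `e` be the first one
after `p`: `Split` gives `N ≤ 2 (e - p) + 2`, so `e - p ≥ B`; the block `(p, e)` is shorter, and is
shifted or not. -/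
theorem LC1 {k : ℕ} {σ : ℕ → St} (h : Run k σ) {x y B s p q : ℕ} (hB : 1 ≤ B)
    (hL : Long k σ (2 * B + 2) s) (hb : Blk σ x y B s p q) :
    (∃ p' q', Blk σ x y B (s + 1) p' q' ∧ q' - p' < q - p) ∨
    ∃ p' q', Blk σ x y B (s + 1) p' q' ∧ q' - p' = q - p ∧
      ∀ i < q - p, (σ (s + 1)).1.getD (p' + i) 0 = (σ s).1.getD (p + i) 0 := by
  sorry

/-- LC2. The first block: if `x < y` are present at stage `s0` and infinitely many elements are
between them then at arbitrarily late stages a new cell is inserted between them: a label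
`w ≥ nn S` between `x` and `y` is inserted at a stage `s ≥ S` together with the whole cell (all
labels of `[nn s, nn (s+1))` are in the same gap, ORN), it is a block of stage `s + 1` with
`q - p = 2 nn s ≥ B` for large `S` (the labels of the cell except the last one are not cuts:
`cnew`). -/
theorem LC2 {k : ℕ} {σ : ℕ → St} (h : Run k σ) {x y : ℕ} (hf : Far (xo σ) x y) (B S : ℕ) :
    ∃ s ≥ S, ∃ p q, Blk σ x y B s p q := by
  sorry

/-- LC3. Long intervals. Take `S` for `2 B + 2` and a block from LC2 at a stage `≥ S`. Among all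
blocks of stages `≥ S` take one with the least `q - p`, at stage `s`. By LC1 (second case for ever)
its labels are consecutive at all stages `≥ s`, so they form a finite interval of the order
`xo σ`, with `q - p ≥ B` elements. (WLOG `1 ≤ B`.) -/
theorem LC3 {k : ℕ} {σ : ℕ → St} (h : Run k σ) (hL : ∀ B, ∃ S, ∀ s ≥ S, Long k σ B s) {x y : ℕ}
    (hf : Far (xo σ) x y) (B : ℕ) :
    ∃ x' y', x' ∈ Icc' (xo σ) x y ∧ y' ∈ Icc' (xo σ) x y ∧ (Icc' (xo σ) x' y').Finite ∧
      B ≤ (Icc' (xo σ) x' y').ncard := by
  sorry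

end Pool.Agent.DMN.Targets
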