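import Pool.Agent.DMN.Defs

/-!
# DMN: targets, part C (pure combinatorics of one frame), MP_55b29c_lc, ideas row 2497

Every target carries its complete proof in the docstring.
HOW TO HAND IN target `XYZ`: file `Pool/Agent/DMN/P_XYZ.lean`, `namespace Pool.Agent.DMN`, theorem
`XYZ` with the statement copied verbatim (helper lemmas named `XYZ_...`).  If your proof uses
another target, write it as `Targets.ABC` (always qualified) and `import
Pool.Agent.DMN.TargetsC`; helper27 replaces these by the proved versions at the end.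

Intuition: `A` is a strict linear order on the labels `0, 1, ...`; only the labels `< m` are
present; `num A m c d` counts the present labels in the closed interval `[c, d]`.
-/

set_option autoImplicit false

namespace Pool.Agent.DMN.Targets

open Pool.Agent.DMN

/-! ## Counting -/

/-- NUM1. Subset of filtered ranges. -/
theorem NUM1 (A : ℕ → ℕ → Prop) {m m' : ℕ} (h : m ≤ m') (c d : ℕ) :
    num A m c d ≤ num A m' c d := by
  sorry

/-- NUM2. Additivity: `[a, v]`, `[v, v']`, `[v', b]` cover `[a, b]`, and only `v` and `v'` are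
counted twice. -/
theorem NUM2 {A : ℕ → ℕ → Prop} (hA : SLO A) {m a v v' b : ℕ} (hav : a = v ∨ A a v)
    (hvv : A v v') (hvb : v' = b ∨ A v' b) (hv : v < m) (hv' : v' < m) :
    num A m a v + num A m v v' + num A m v' b = num A m a b + 2 := by
  sorry

/-- NUM2'. Additivity with one middle point: only `v` is counted twice. -/
theorem NUM2' {A : ℕ → ℕ → Prop} (hA : SLO A) {m a v b : ℕ} (hav : a = v ∨ A a v)
    (hvb : v = b ∨ A v b) (hv : v < m) :
    num A m a v + num A m v b = num A m a b + 1 := by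
  sorry

/-- NUM3. Intermediate values. The present elements `e_1 < e_2 < ...` of `[a, b]` satisfy
`num A m a e_j = j` and `num A m e_(c+1-j) b = j`. Proof of (1), for example: choose `x` present in
`[a, b]` with `j ≤ num A m a x` and `num A m a x` minimal (there is one: the maximum of the present
elements of `[a, b]`; or use strong induction on `num A m a b`); if `num A m a x > j` take the
predecessor of `x` among the present elements of `[a, b]`. (2) is (1) for `flip A`. -/
theorem NUM3 {A : ℕ → ℕ → Prop} (hA : SLO A) {m a b j : ℕ} (h1 : 1 ≤ j)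
    (hj : j ≤ num A m a b) :
    (∃ x < m, (a = x ∨ A a x) ∧ (x = b ∨ A x b) ∧ num A m a x = j) ∧
    ∃ x < m, (a = x ∨ A a x) ∧ (x = b ∨ A x b) ∧ num A m x b = j := by
  sorry

/-- NUM4. If `num A m a b ≤ num A m' a b` then the present elements of `[a, b]` for `m` are also
present for `m'` (if `m' < m` the two filtered sets are nested with the same number of elements,
so they are equal), and all counts inside `[a, b]` are monotone. -/
theorem NUM4 {A : ℕ → ℕ → Prop} (hA : SLO A) {m m' a b : ℕ}
    (h : num A m a b ≤ num A m' a b) :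
    (∀ x < m, (a = x ∨ A a x) → (x = b ∨ A x b) → x < m') ∧
    ∀ c d, (a = c ∨ A a c) → (d = b ∨ A d b) → num A m c d ≤ num A m' c d := by
  sorry

/-- NUM5. Monotonicity in the end points. In (2), `v` is an element which is not counted on the
left hand side. -/
theorem NUM5 {A : ℕ → ℕ → Prop} (hA : SLO A) (m : ℕ) :
    (∀ a v v' b, (a = v ∨ A a v) → (v' = b ∨ A v' b) → num A m v v' ≤ num A m a b) ∧
    (∀ a v w, A v w → (a = w ∨ A a w) → w < m → num A m a v + 1 ≤ num A m a w) ∧
    ∀ v w b, A v w → (v = b ∨ A v b) → v < m → num A m w b + 1 ≤ num A m v b := by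
  sorry

/-- NUM6. The middle element of a large window is good: take `y` with `num A m v y = g + 2`
(NUM3), then `num A m y v' = num A m v v' + 1 - (g + 2) ≥ g + 2` (NUM2'). -/
theorem NUM6 {A : ℕ → ℕ → Prop} (hA : SLO A) {m g v v' : ℕ} (hvv : A v v') (hv : v < m)
    (hv' : v' < m) (h : 2 * g + 3 ≤ num A m v v') : ∃ y < m, Good A m g v v' y := by
  sorry

/-- NUM7. Reversing the order. -/
theorem NUM7 (A : ℕ → ℕ → Prop) (m c d : ℕ) :
    num (flip A) m d c = num A m c d ∧ below (flip A) m c = above A m c ∧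
    above (flip A) m c = below A m c ∧ (SLO A → SLO (flip A)) ∧
    (Adj (flip A) m d c ↔ Adj A m c d) := by
  sorry

/-- NUM8. Counting below and above. (1): `{≤ x}` and `{≥ y}` are disjoint and cover all present
labels. (4): `{≤ v}`, `{≥ v'}` are disjoint if `v < v'`. -/
theorem NUM8 {X : ℕ → ℕ → Prop} (hX : SLO X) (n : ℕ) :
    (∀ x y, x < n → y < n → Adj X n x y → below X n x + above X n y = n) ∧
    (∀ v w, X v w → w < n → below X n v + 1 ≤ below X n w) ∧
    (∀ v w, X v w → v < n → above X n w + 1 ≤ above X n v) ∧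
    (∀ v w, X v w → below X n v + above X n w ≤ n) ∧
    ∀ v w, v = w ∨ X v w → below X n v ≤ below X n w ∧ above X n w ≤ above X n v := by
  sorry

/-- NUM9. Every present element which is not the first one below `y` has a neighbour: if `x < y`
are present then `y` has a left neighbour `y' ≥ x` and `x` has a right neighbour `x' ≤ y` (maximum
and minimum of a finite nonempty set). -/
theorem NUM9 {X : ℕ → ℕ → Prop} (hX : SLO X) {n x y : ℕ} (hx : x < n) (hy : y < n)
    (hxy : X x y) :
    (∃ y' < n, (x = y' ∨ X x y') ∧ Adj X n y' y) ∧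
    ∃ x' < n, (x' = y ∨ X x' y) ∧ Adj X n x x' := by
  sorry

/-! ## The partial embedding -/

/-- FIM. Monotonicity of `FI`: NUM4 (first part for `rng1`, `rng2`; second part for `par`, `win`,
the end points are in `[a, b]`). -/
theorem FIM {A : ℕ → ℕ → Prop} (hA : SLO A) {a b m m' t lp rp : ℕ} {f : List (ℕ × ℕ)}
    (h : FI A a b m t lp rp f) (hm : num A m a b ≤ num A m' a b) :
    FI A a b m' t lp rp f := by
  sorry

/-- FIX1. Simple consequences of `FI`: `f` is injective and single valued; the values are `≥ x1`.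
(1), (2) from `mono` and trichotomy; (3) from `mono` applied to `(x0, x1)` and `p`. -/
theorem FIX1 {A : ℕ → ℕ → Prop} (hA : SLO A) {a b m t lp rp : ℕ} {f : List (ℕ × ℕ)}
    (h : FI A a b m t lp rp f) :
    (∀ p ∈ f, ∀ q ∈ f, p.1 = q.1 → p = q) ∧ (∀ p ∈ f, ∀ q ∈ f, p.2 = q.2 → p = q) ∧
    ∀ x0 x1, (x0, x1) ∈ f → ∀ p ∈ f, (x0 = p.1 ∨ A x0 p.1) → (x1 = p.2 ∨ A x1 p.2) := by
  sorry

/-- FIS. One assignment preserves `FI`. Let `f' = f ++ [(u, y)]`. `mono`: an element `q` of `f` is
`≤ z` or `≥ z'` in the domain (`nb`), `mono` of `f` gives `q.2 ≤ v` or `q.2 ≥ v'`, and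
`v < y < v'`. `ends`: the same `x0, x1, b1`. `rng2`, `par`: `v < y < v'` and monotonicity NUM5.
`win`: for two old neighbours which are still neighbours use `win` of `f`
(`List.getElem?_append_left`); a pair with the new element: its neighbours are `(z, v)` (on the
left) and `(z', v')` (on the right) (FIX1), and `Good` gives `t + |f| + 2 ≤ num`; the index of the
new element is `|f|`, the others are smaller. -/
theorem FIS {A : ℕ → ℕ → Prop} (hA : SLO A) {a b m t lp rp : ℕ} {f : List (ℕ × ℕ)}
    (h : FI A a b m t lp rp f) {u z v z' v' y : ℕ} (hz : (z, v) ∈ f) (hz' : (z', v') ∈ f)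
    (hzu : A z u) (huz : A u z') (nb : ∀ p ∈ f, ¬ (A z p.1 ∧ A p.1 z')) (hu : u < m)
    (hy : y < m) (hg : Good A m (t + f.length) v v' y) :
    FI A a b m t lp rp (f ++ [(u, y)]) := by
  sorry

/-- FIN. The first `f`: `f = [(x0, x1), (b1, b1)]` where `x0`, `x1`, `b1` are the elements number
`l + 1`, `l + 2` and number `r + 1` from the right of the `3 (l + r)` present elements of `[a, b]`.
By NUM2' and NUM5: `x0 < x1 < b1` (compare the numbers), `num A m x1 b1 = 2 (l + r) - 1` and
`t + 3 ≤ 2 (l + r) - 1`. `a ≤ x0` because `num A m a x0 ≥ 1`; `b1 ≤ b` because `num A m b1 b ≥ 1`;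
`x0, x1 ≤ b` because otherwise `num A m a x1` would be `> num A m a b`. -/
theorem FIN {A : ℕ → ℕ → Prop} (hA : SLO A) {a b m t lp rp l r x0 x1 b1 : ℕ}
    (hE : num A m a b = 3 * (l + r)) (hl : 1 ≤ l) (hr : 1 ≤ r) (hlp : lp ≤ l) (hrp : rp ≤ r)
    (ht : t + 4 ≤ 2 * (l + r)) (h0 : x0 < m) (h1 : x1 < m) (hb : b1 < m)
    (e0 : num A m a x0 = l + 1) (e1 : num A m a x1 = l + 2) (eb : num A m b1 b = r + 1) :
    FI A a b m t lp rp [(x0, x1), (b1, b1)] := by
  sorry

/-- FIW. There is a waiting element. By FIX1 the map `p ↦ p.2` is injective on `f`; all `p.2` lie in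
`[x1, b1]`, and `x0 < x1`, so `f` (as a set) has at most `num A m x1 b1 < num A m x0 b1` elements;
`p ↦ p.1` is injective with values in `[x0, b1]`; so some `u < m` in `[x0, b1]` is not in the
domain; it is strictly between `x0` and `b1`. Take the least waiting label `u < m` (`Nat.find`; a
waiting label smaller than `u` is `< m`). `(z, v)` = the element of `f` with the largest `p.1 < u`,
`(z', v')` = the one with the smallest `p.1 > u`. The bounds: `mono` (`A v v'`), `par`, `win`
(the two indices are different, so one of them is `≥ 1`), NUM2. -/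
theorem FIW {A : ℕ → ℕ → Prop} (hA : SLO A) {a b m t lp rp : ℕ} {f : List (ℕ × ℕ)}
    (h : FI A a b m t lp rp f) :
    ∃ u z v z' v', (z, v) ∈ f ∧ (z', v') ∈ f ∧ A z u ∧ A u z' ∧ u < m ∧
      (∀ p ∈ f, ¬ (A z p.1 ∧ A p.1 z')) ∧ (∀ x < u, ¬ Wait A f x) ∧ v < m ∧ v' < m ∧ A v v' ∧
      lp ≤ num A m a v ∧ rp ≤ num A m v' b ∧ t + 3 ≤ num A m v v' ∧
      num A m a v + num A m v v' + num A m v' b = num A m a b + 2 := by
  sorry

/-! ## The dichotomy for the game of a permanent frame -/

/-- GFI. `FI` holds at all attacks: induction on `k`; `E k ≤ n k < 3 n k = E (k + 1)` gives `FIM`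
for `m (k + 1)`, and `step` with `FIS`. (2): `E k < E (k + 1)`, so `m k < m (k + 1)` (NUM1). -/
theorem GFI {A X : ℕ → ℕ → Prop} {a b t : ℕ} (G : Game A X a b t) :
    (∃ lp rp, ∀ k, FI A a b (G.m k) t lp rp (G.f k)) ∧
    (∀ k, G.m k < G.m (k + 1)) ∧ (∀ k, G.E k < G.E (k + 1)) ∧
    ∀ k k', k ≤ k' → ∀ p ∈ G.f k, p ∈ G.f k' := by
  sorry

/-- GST. While `f` does not change, the waiting element does not change, and neither do its
neighbours: `u k` is waiting for `f (k + 1) = f k`, so `u (k + 1) ≤ u k` by `least (k + 1)`, and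
`u (k + 1)` is waiting for `f k`, so `u k ≤ u (k + 1)`; the neighbours in `f` of the element `u` are
unique (`nb`), and `f` is single valued (FIX1). -/
theorem GST {A X : ℕ → ℕ → Prop} {a b t : ℕ} (G : Game A X a b t) (k : ℕ)
    (h : G.f (k + 1) = G.f k) :
    G.u (k + 1) = G.u k ∧ G.z (k + 1) = G.z k ∧ G.v (k + 1) = G.v k ∧
      G.z' (k + 1) = G.z' k ∧ G.v' (k + 1) = G.v' k := by
  sorry

/-- GD1. If `f` is not finally constant then the windows are finally large. Suppose
`num A (m k) (v k) (v' k) < B` for infinitely many `k`. For these `k`, `win` says that `(z k, v k)`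
and `(z' k, v' k)` have index `< B` in `f k`, and (as `f k` is an initial segment of `f k'` for
`k ≤ k'`) the pairs `((z k, v k), (z' k, v' k))` take only finitely many values (the first `B`
elements of `f k` for one large `k`), so there are a pair `(z, z')` and infinitely many `k` with
`z k = z`, `z' k = z'`. Let `k0` be one of them and let `k1 ≥ k0` be the first index with
`f (k1 + 1) ≠ f k1`; by GST `u k1 = u k0` and `z k1 = z`, `z' k1 = z'`; so
`(u k1, y) ∈ f (k1 + 1)` with `z < u k1 < z'`, and `nb` says that `z k = z`, `z' k = z'` is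
impossible for `k > k1`. Contradiction. -/
theorem GD1 {A X : ℕ → ℕ → Prop} {a b t : ℕ} (G : Game A X a b t)
    (h : ∀ K, ∃ k ≥ K, G.f (k + 1) ≠ G.f k) (B : ℕ) :
    ∃ K, ∀ k ≥ K, B ≤ num A (G.m k) (G.v k) (G.v' k) := by
  sorry

/-- GD2. If `f` is not finally constant then `f` is total on `[x0, b1]`. Suppose `x` in `[x0, b1]`
is never in the domain; then `x` is waiting for every `f k`, so `u k ≤ x` for all `k` by `least`.
There are infinitely many `k` with `f (k + 1) = f k ++ [(u k, y)]`, and the `u k` of these `k` are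
pairwise different (after step `k` the label `u k` is in the domain, so it is not waiting: `u k'` is
strictly between the neighbours `z k'`, `z' k'`, `nb`). But they are `≤ x`. Contradiction. -/
theorem GD2 {A X : ℕ → ℕ → Prop} {a b t : ℕ} (G : Game A X a b t)
    (h : ∀ K, ∃ k ≥ K, G.f (k + 1) ≠ G.f k) {x0 y0 b1 y1 x : ℕ} {k0 : ℕ}
    (hx0 : (x0, y0) ∈ G.f k0) (hb1 : (b1, y1) ∈ G.f k0) (h0 : x0 = x ∨ A x0 x)
    (h1 : x = b1 ∨ A x b1) : ∃ k y, (x, y) ∈ G.f k := by
  sorry

/-- GD3. If `f` is finally constant then everything is finally constant, also the size of the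
window: by GST `v k = v`, `v' k = v'` for `k ≥ K`; no element is good (`step`), so
`num A (m k) v v' ≤ 2 (t + |f|) + 2` by NUM6; it is monotone (NUM1), so finally constant. -/
theorem GD3 {A X : ℕ → ℕ → Prop} {a b t : ℕ} (G : Game A X a b t) {K : ℕ}
    (h : ∀ k ≥ K, G.f (k + 1) = G.f k) :
    ∃ K' v v' N, K ≤ K' ∧ A v v' ∧ (a = v ∨ A a v) ∧ (v' = b ∨ A v' b) ∧ 2 ≤ N ∧
      ∀ k ≥ K', G.v k = v ∧ G.v' k = v' ∧ num A (G.m k) v v' = N := by
  sorry

/-- GD4. A stuck game gives the structure `Stk`. Use GD3 and put `n k := G.n (K' + k)` etc.,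
`P k = num A (G.m (K' + k)) a v`, `Q k = num A (G.m (K' + k)) v' b`, `ky = Nat.pair`.
`hP`, `hQ`: NUM1 and GFI (2). `hPQ`: NUM2 gives `P + N + Q = E + 2`, `E (k+1) = 3 n k`,
`N ≤ E k ≤ n k` (NUM5). -/
theorem GD4 {A X : ℕ → ℕ → Prop} {a b t : ℕ} (G : Game A X a b t) {K : ℕ}
    (h : ∀ k ≥ K, G.f (k + 1) = G.f k) :
    ∃ (S : Stk X) (m : ℕ → ℕ) (v v' : ℕ), A v v' ∧ (a = v ∨ A a v) ∧ (v' = b ∨ A v' b) ∧
      (∀ k, m k < m (k + 1)) ∧ (∀ k, S.P k = num A (m k) a v) ∧
      (∀ k, S.Q k = num A (m k) v' b) ∧ ∀ k, S.N = num A (m k) v v' := by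
  sorry

/-! ## The stuck game (Claim 2) -/

/-- SFL. Reversing the order of a stuck game: swap `P`, `Q` and `gx`, `gy`; `Cut`, `ky` flipped
(`NUM7`). -/
theorem SFL {X : ℕ → ℕ → Prop} (S : Stk X) :
    ∃ S' : Stk (flip X), S'.n = S.n ∧ S'.P = S.Q ∧ S'.Q = S.P ∧ S'.N = S.N := by
  sorry

/-- SK1. CLAIM 2. Suppose `v`, `v'` are separated by a cut at the attack `K`, and `P k ≤ below v`,
`Q k ≤ above v'` for all `k ≥ K`. (i) There is `k ≥ K` with `v ≤ gx k` and `gy k ≤ v'`. Otherwise,
as `gx k`, `gy k` are neighbours and `v`, `v'` are present, for all `k ≥ K` we have `gy k ≤ v` or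
`v' ≤ gx k`, so no label `≥ n K` is in `[v, v']` (`ins`), so `x`, `y` stay neighbours, the pair
`(x, y)` satisfies the hypotheses of `key` for all `k ≥ K` (`NUM8` (5): `P k ≤ below v ≤ below x`),
so `ky (gx k) (gy k) ≤ ky x y` for all `k ≥ K`. But the pairs `(gx k, gy k)` are pairwise different
(the label `n k` is strictly between `gx k` and `gy k`, so they are not neighbours later), and `ky`
is injective: infinitely many numbers `≤ ky x y`. (ii) For this `k`: `n k ≥ below (n k) v +
above (n k) v'` (NUM8 (4)), and `below (n (k+1)) v = below (n k) v`, `above (n (k+1)) v' =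
above (n k) v'` (`ins`: the new labels are between `gx k` and `gy k`), so
`P (k+1) + Q (k+1) ≤ n k`, contradiction to `hPQ`. -/
theorem SK1 {X : ℕ → ℕ → Prop} (S : Stk X) {K v v' x y : ℕ} (hv : v < S.n K)
    (hv' : v' < S.n K) (hx : x < S.n K) (hy : y < S.n K) (hxy : Adj X (S.n K) x y)
    (hc : S.Cut K x y) (hvx : v = x ∨ X v x) (hyv : y = v' ∨ X y v')
    (h1 : ∀ k ≥ K, S.P k ≤ below X (S.n k) v) (h2 : ∀ k ≥ K, S.Q k ≤ above X (S.n k) v') :
    False := by
  sorry

/-- SK2. If infinitely many elements are below `v` then `P k < below v` for all `k` such that `v`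
is present. Otherwise `below (n k) v ≤ P k ≤ P k' ≤ below (n k') (gx k')`, by induction on `k' ≥ k`
nothing is inserted below `v` (`below (n k') v = below (n k) v`, so `v ≤ gx k'` by NUM8 (2)), so
only labels `< n k` are below `v` (every label is `< n k'` for some `k'`). -/
theorem SK2 {X : ℕ → ℕ → Prop} (S : Stk X) {v : ℕ} (h : {w | X w v}.Infinite) {k : ℕ}
    (hv : v < S.n k) : S.P k + 1 ≤ below X (S.n k) v := by
  sorry

/-- SK3. Fewer than `N` elements have infinitely many elements on both sides. If `N ≤ W.card`: let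
`v`, `v'` be the first and the last element of `W` and `k` so large that `W ⊆ [0, n k)`; then
`N ≤ num X (n k) v v'`, so `small` gives a cut between `v` and `v'`, contradiction to SK1 with SK2
(and SK2 for `SFL`, for `Q`). Note `v < v'` because `2 ≤ N`. -/
theorem SK3 {X : ℕ → ℕ → Prop} (S : Stk X) (W : Finset ℕ)
    (h : ∀ v ∈ W, {w | X w v}.Infinite ∧ {w | X v w}.Infinite) : W.card < S.N := by
  sorry

/-- SK4. If `P k ≤ p` for all `k` (`1 ≤ p`) then fewer than `p + N - 1` elements have infinitely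
many elements above. If `p + N - 1 ≤ W.card`: the last `N` elements of `W`, let `v` be the first and
`v'` the last of them; `p - 1` elements of `W` are below `v`, so `p ≤ below v` as soon as `W` is
present. As in SK3 there is a cut between `v` and `v'`; contradiction to SK1, with `P k ≤ p` and SK2
(for `SFL`). -/
theorem SK4 {X : ℕ → ℕ → Prop} (S : Stk X) {p : ℕ} (hp : ∀ k, S.P k ≤ p) (h1 : 1 ≤ p)
    (W : Finset ℕ) (h : ∀ v ∈ W, {w | X v w}.Infinite) : W.card + 1 < p + S.N := by
  sorry

/-- SK5. The case of a bounded `P`. `φ` maps `[a, b]` isomorphically onto a convex set of `X`.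
Let `p = P k` for large `k` (monotone and bounded). By SK4 the set `I` of elements with infinitely
many elements above is finite; it is an initial segment. Every element `w` of `X` except the least
one has an immediate predecessor: if `w ∈ I` the set below `w` is finite and nonempty; if `w ∉ I`
then the complement of `I` is infinite and only finitely many elements are above `w`, so there is
`w' < w` with `w' ∉ I`, and the interval `[w', w)` is finite and nonempty; in both cases there is a
largest element below `w`. So `φ a` is the least element. The present elements of `[a, v']` are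
`p + N - 1` many for all large `k` (NUM2'), so `φ` maps the set of them onto `{w | w ≤ φ v'}`,
which has `p + N - 1` elements. By SK4 one of them is not in `I`, so only finitely many elements
are above it, so `ℕ` is finite. Contradiction. -/
theorem SK5 {X : ℕ → ℕ → Prop} (S : Stk X) {A : ℕ → ℕ → Prop} (hA : SLO A) {a b v v' : ℕ}
    (hvv : A v v') (hav : a = v ∨ A a v) (hvb : v' = b ∨ A v' b) {m : ℕ → ℕ}
    (hm : ∀ k, m k < m (k + 1)) (hP : ∀ k, S.P k = num A (m k) a v)
    (hN : ∀ k, S.N = num A (m k) v v') {φ : ℕ → ℕ}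
    (hφ : ∀ x y, x ∈ Icc' A a b → y ∈ Icc' A a b → (A x y ↔ X (φ x) (φ y)))
    (hc : ∀ w, w ∈ Icc' X (φ a) (φ b) → ∃ x ∈ Icc' A a b, φ x = w)
    (ha : ∀ w, X w (φ a) → ∃ w', X w w' ∧ X w' (φ a)) {p : ℕ} (hp : ∀ k, S.P k ≤ p) :
    False := by
  sorry

/-- SK6. A stuck frame refutes the isomorphism. If `P` is bounded use SK5. If `Q` is bounded use
SK5 for `SFL`, `flip A`, `[b, a]`, `v'`, `v` (NUM7). Otherwise `{x | a ≤ x < v}` and
`{x | v' < x ≤ b}` are infinite; choose `k` with `v, v' < m k`; the `N` present elements `x` of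
`[v, v']` have images with infinitely many elements on both sides (`φ` is injective on
`[a, b]`), contradiction to SK3. -/
theorem SK6 {X : ℕ → ℕ → Prop} (S : Stk X) {A : ℕ → ℕ → Prop} (hA : SLO A) {a b v v' : ℕ}
    (hvv : A v v') (hav : a = v ∨ A a v) (hvb : v' = b ∨ A v' b) {m : ℕ → ℕ}
    (hm : ∀ k, m k < m (k + 1)) (hP : ∀ k, S.P k = num A (m k) a v)
    (hQ : ∀ k, S.Q k = num A (m k) v' b) (hN : ∀ k, S.N = num A (m k) v v') {φ : ℕ → ℕ}
    (hφ : ∀ x y, x ∈ Icc' A a b → y ∈ Icc' A a b → (A x y ↔ X (φ x) (φ y)))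
    (hc : ∀ w, w ∈ Icc' X (φ a) (φ b) → ∃ x ∈ Icc' A a b, φ x = w)
    (ha : ∀ w, X w (φ a) → ∃ w', X w w' ∧ X w' (φ a))
    (hb : ∀ w, X (φ b) w → ∃ w', X (φ b) w' ∧ X w' w) : False := by
  sorry

/-- SK7. A stuck frame allows at most three classes: if `d0, d1, d2, d3` are pairwise far then
`d1`, `d2` and all elements between them have infinitely many elements on both sides; there are
infinitely many of them, contradiction to SK3. -/
theorem SK7 {X : ℕ → ℕ → Prop} (S : Stk X) {d0 d1 d2 d3 : ℕ} (h0 : Far X d0 d1)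
    (h1 : Far X d1 d2) (h2 : Far X d2 d3) : False := by
  sorry

/-- GS. A stuck game refutes the isomorphism: GD4 and SK6. -/
theorem GS {A X : ℕ → ℕ → Prop} {a b t : ℕ} (G : Game A X a b t) {K : ℕ}
    (h : ∀ k ≥ K, G.f (k + 1) = G.f k) {φ : ℕ → ℕ}
    (hφ : ∀ x y, x ∈ Icc' A a b → y ∈ Icc' A a b → (A x y ↔ X (φ x) (φ y)))
    (hc : ∀ w, w ∈ Icc' X (φ a) (φ b) → ∃ x ∈ Icc' A a b, φ x = w)
    (ha : ∀ w, X w (φ a) → ∃ w', X w w' ∧ X w' (φ a))
    (hb : ∀ w, X (φ b) w → ∃ w', X (φ b) w' ∧ X w' w) : False := by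
  sorry

end Pool.Agent.DMN.Targets
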