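import Pool.Agent.DMN.DefsD
import Pool.Agent.DMN.TargetsC
import Pool.Agent.DMN.TargetsB

/-!
# DMN: targets, part D (frames of a run, from a run to the game, the two theorems on a region)

MP_55b29c_lc, ideas row 2497.  Every target carries its complete proof in the docstring.
HOW TO HAND IN target `XYZ`: file `Pool/Agent/DMN/P_XYZ.lean`, `namespace Pool.Agent.DMN`, theorem
`XYZ` with the statement copied verbatim (helper lemmas named `XYZ_...`).  If your proof uses
another target, write it as `Targets.ABC` (always qualified) and import the file with it; helper27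
replaces these by the proved versions at the end.
-/

set_option autoImplicit false

namespace Pool.Agent.DMN.Targets

open Pool.Agent.DMN

/-! ## Frames of a run -/

/-- CAS. Every stage is an attack of frame `(Nat.unpair s).1` or has no attack: `Run.step`, FAT,
FPS. -/
theorem CAS {k : ℕ} {σ : ℕ → St} (h : Run k σ) (s : ℕ) :
    (∃ w C' l f', Req k s (σ s) w ∧ Att k s (σ s) w (σ (s + 1)) ∧
      AF k σ (Nat.unpair s).1 s w C' l f') ∨
    ((∀ c < s, ¬ Req k s (σ s) (wi c)) ∧ Psh s (σ s) (σ (s + 1)) ∧ ∃ l, PF σ s l) := by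
  sorry

/-- ONA. Frames with time stamp `T ≤ s` at stage `s + 1` were there at stage `s`: in CAS the
frames of stage `s + 1` are old frames (also the attacking frame keeps its time stamp), except the
last one, which has time stamp `s + 1`. -/
theorem ONA {k : ℕ} {σ : ℕ → St} (h : Run k σ) {i T s : ℕ} (hT : T ≤ s)
    (ho : On σ i T (s + 1)) : On σ i T s := by
  sorry

/-- ONB. (1) Only one frame has time stamp `T` (`Inv.tmono`). (2) A frame which is on the stack at
arbitrarily late stages is on the stack at all stages `≥ T` (ONA downwards from a later stage). -/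
theorem ONB {k : ℕ} {σ : ℕ → St} (h : Run k σ) {i T : ℕ} :
    (∀ j s, On σ i T s → On σ j T s → i = j) ∧
    ((∀ S, ∃ s ≥ S, On σ i T s) → ∀ s ≥ T, On σ i T s) := by
  sorry

/-- KEE. A frame which stays and does not attack is unchanged (CAS: if the attacking index is `> i`
use `old`; if it is `< i` then frame `i` of stage `s + 1` can only be the new one with time stamp
`s + 1`, but the time stamp is `T ≤ s` by `Inv.tle`). -/
theorem KEE {k : ℕ} {σ : ℕ → St} (h : Run k σ) {i T s : ℕ} (h1 : On σ i T s)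
    (h2 : On σ i T (s + 1)) (h3 : ¬ AttAt k σ i s) : fr (σ (s + 1)) i = fr (σ s) i := by
  sorry

/-- DTA. The data of an attack with respect to the total order: `TRD` with `Real`. -/
theorem DTA {k s : ℕ} {A : ℕ → ℕ → Prop} (hR : Real k A) {c : Cd} {a a' : Fr} {w : Wi}
    (ho : Ok k s (wM w)) : Dat (olt k s) k c a a' w ↔ Dat A k c a a' w := by
  sorry

/-- FIZ. The list `f0` satisfies `FI` at the attack. If `ff a = []` use FIN with
`lp = fl a'`, `rp = fR a'`, `l = fl a`, `r = fR a`: `fl a + fR a = nn (ft a - 1) = 4 * 3^(ft a - 1)`,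
so `ft a + 4 ≤ 2 (fl a + fR a)`. Otherwise FIM with `num A m1 a b ≤ 3 (fl a + fR a) =
num A (wm w) a b`. -/
theorem FIZ {k : ℕ} {A : ℕ → ℕ → Prop} (hA : SLO A) {c : Cd} {a a' : Fr} {w : Wi}
    (hf : FrInv A c a a') (hd : Dat A k c a a' w) (h1 : fl a' ≤ fl a) (h2 : fR a' ≤ fR a)
    (h3 : 1 ≤ fl a') (h4 : 1 ≤ fR a') :
    FI A (ca c) (cb c) (wm w) (ft a) (fl a') (fR a') (f0 a w) := by
  sorry

/-- FRI. All frames satisfy `FrInv`, induction on `s` with CAS. Old frames: unchanged, together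
with the frame below. The new top frame: `ff = []`, `fl + fR = nn s = nn (ft - 1)`. The attacking
frame: DTA, FIZ, then `NewF` (transfer `Good` from `olt k s` to `A`: labels `< wm w ≤ wM w`) with
FIS; `num A (wm w) a b = 3 (fl a + fR a) ≤ nn s ≤ 3 (l + (nn s - l))` by `sum'`; `f' ≠ []`;
`fl`, `fR` of the frame below: `lmono`, and `≥ 2` by `root`. -/
theorem FRI {k : ℕ} {σ : ℕ → St} (h : Run k σ) {A : ℕ → ℕ → Prop} (hA : SLO A)
    (hR : Real k A) (s i : ℕ) (h1 : 1 ≤ i) (hi : i < (σ s).2.2.length) :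
    FrInv A (cd i) (fr (σ s) i) (fr (σ s) (i - 1)) := by
  sorry

/-! ## The attack sequence of a permanent frame -/

/-- ASE. Enumerate the attack stages `≥ S0` of frame `i` increasingly (they are infinitely many:
`Nat.nth` of the predicate `S0 ≤ s ∧ AttAt k σ i s`, `Nat.nth_strictMono`, `Nat.exists_lt_card_nth_eq`
or similar); choose the witnesses, and `C`, `l`, `g` from FAT. -/
theorem ASE {k : ℕ} {σ : ℕ → St} (h : Run k σ) {i T S0 : ℕ}
    (hon : ∀ s ≥ S0, On σ i T s) (hinf : ∀ S, ∃ s ≥ S, AttAt k σ i s) :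
    ∃ D : AS k σ i T, S0 ≤ D.τ 0 := by
  sorry

/-- AS2. Between two attacks the frame is unchanged: `AF.frm`, then KEE by induction. -/
theorem AS2 {k : ℕ} {σ : ℕ → St} (h : Run k σ) {i T : ℕ} (D : AS k σ i T) (j s : ℕ)
    (h1 : D.τ j < s) (h2 : s ≤ D.τ (j + 1)) :
    fr (σ s) i = (T, D.l j, nn (D.τ j) - D.l j, D.g j) := by
  sorry

/-- AS3. Restraint: all labels inserted between two attacks are in the gap. For
`τ j ≤ s < τ (j+1)`: `below (nn s) gx = l j` and `above (nn s) gy = nn (τ j) - l j` (induction on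
`s`; ORB for `s = τ j`), and the insertion position `l` of stage `s` (SF, any `l` with `SF σ s l`)
satisfies `l j ≤ l` and `nn (τ j) - l j ≤ nn s - l` by `SF.gap` for frame `i` of stage `s + 1`
(AS2), so by ORN, ORB the new labels are between `gx` and `gy`. -/
theorem AS3 {k : ℕ} {σ : ℕ → St} (h : Run k σ) {i T : ℕ} (D : AS k σ i T) (j w : ℕ)
    (h1 : nn (D.τ j) ≤ w) (h2 : w < nn (D.τ (j + 1))) :
    xo σ (D.gx j) w ∧ xo σ w (D.gy j) := by
  sorry

/-- AS4. The gap of the `j`-th attack in terms of the order: translation of `Gap` and `Split` with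
ORB (`below x = idxOf x + 1`, `above x = nn - idxOf x`, `Adj` iff consecutive). For the last part:
`Split` (3) with `a = idxOf x` gives a cut position `l` with `idxOf x < l < idxOf x + N ≤
idxOf y + 1`; `x' =` the element before, `y' =` the element after the position. -/
theorem AS4 {k : ℕ} {σ : ℕ → St} (h : Run k σ) {i T : ℕ} (D : AS k σ i T) (j : ℕ)
    {P Q N : ℕ} (hP : P = num (olt k (D.τ j)) (wm (D.ws j)) (ca (cd i)) (wv (D.ws j)))
    (hQ : Q = num (olt k (D.τ j)) (wm (D.ws j)) (wv' (D.ws j)) (cb (cd i)))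
    (hN : N = num (olt k (D.τ j)) (wm (D.ws j)) (wv (D.ws j)) (wv' (D.ws j))) :
    (D.gx j < nn (D.τ j) ∧ D.gy j < nn (D.τ j) ∧
      Adj (xo σ) (nn (D.τ j)) (D.gx j) (D.gy j)) ∧
    P ≤ below (xo σ) (nn (D.τ j)) (D.gx j) ∧ Q ≤ above (xo σ) (nn (D.τ j)) (D.gy j) ∧
    D.gx j ∈ (σ (D.τ j + 1)).2.1 ∧
    (∀ x y, x < nn (D.τ j) → y < nn (D.τ j) → Adj (xo σ) (nn (D.τ j)) x y →
      x ∈ (σ (D.τ j + 1)).2.1 → P ≤ below (xo σ) (nn (D.τ j)) x →
      Q ≤ above (xo σ) (nn (D.τ j)) y → Nat.pair (D.gx j) (D.gy j) ≤ Nat.pair x y) ∧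
    ∀ x y, x < nn (D.τ j) → y < nn (D.τ j) → xo σ x y → N ≤ num (xo σ) (nn (D.τ j)) x y →
      ∃ x' y', x' < nn (D.τ j) ∧ y' < nn (D.τ j) ∧ Adj (xo σ) (nn (D.τ j)) x' y' ∧
        (x = x' ∨ xo σ x x') ∧ (y' = y ∨ xo σ y' y) ∧ x' ∈ (σ (D.τ j + 1)).2.1 := by
  sorry

/-- AS5. The opponent's side of the `j`-th attack in terms of `A`: DTA, FRI, FIZ; AS2 for the
frame at stage `τ (j + 1)` (its `ff` is `g j`, not `[]`, so `f0 = g j`); `NewF` transferred to `A`.
In (2) `3 (fl + fR) ≤ nn` is `Inv.sum'`. -/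
theorem AS5 {k : ℕ} {σ : ℕ → St} (h : Run k σ) {A : ℕ → ℕ → Prop} (hA : SLO A)
    (hR : Real k A) {i T : ℕ} (D : AS k σ i T) (j : ℕ) :
    Dat A k (cd i) (fr (σ (D.τ j)) i) (fr (σ (D.τ j)) (i - 1)) (D.ws j) ∧
    (num A (wm (D.ws j)) (ca (cd i)) (cb (cd i)) ≤ nn (D.τ j) ∧
      num A (wm (D.ws (j + 1))) (ca (cd i)) (cb (cd i)) = 3 * nn (D.τ j)) ∧
    (∃ lp rp, FI A (ca (cd i)) (cb (cd i)) (wm (D.ws j)) T lp rp
      (f0 (fr (σ (D.τ j)) i) (D.ws j))) ∧
    f0 (fr (σ (D.τ (j + 1))) i) (D.ws (j + 1)) = D.g j ∧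
    NewF A (wm (D.ws j)) (T + (f0 (fr (σ (D.τ j)) i) (D.ws j)).length) (wu (D.ws j))
      (wv (D.ws j)) (wv' (D.ws j)) (f0 (fr (σ (D.τ j)) i) (D.ws j)) (D.g j) ∧
    (∀ x y, num (olt k (D.τ j)) (wm (D.ws j)) x y = num A (wm (D.ws j)) x y ∨
      wM (D.ws j) ≤ x ∨ wM (D.ws j) ≤ y) := by
  sorry

/-- GAM. The game of a permanent frame: `m j = wm (ws j)`, `n j = nn (τ j)`,
`E j = num A (m j) a b`, `f j = f0 (fr (σ (τ j)) i) (ws j)`, `u j = wu (ws j)`, ..,
`Cut j x y = (x ∈ (σ (τ j + 1)).2.1)`. Fields from AS3, AS4, AS5, ORD, ORE, OCU. -/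
theorem GAM {k : ℕ} {σ : ℕ → St} (h : Run k σ) {A : ℕ → ℕ → Prop} (hA : SLO A)
    (hR : Real k A) {i T : ℕ} (D : AS k σ i T) :
    ∃ G : Game A (xo σ) (ca (cd i)) (cb (cd i)) T, ∀ j, G.n j = nn (D.τ j) ∧
      G.m j = wm (D.ws j) ∧ G.v j = wv (D.ws j) ∧ G.v' j = wv' (D.ws j) ∧
      G.f j = f0 (fr (σ (D.τ j)) i) (D.ws j) ∧ G.f (j + 1) = D.g j := by
  sorry

/-! ## Which frame attacks infinitely often -/

/-- OKI. If a permanent frame attacks infinitely often then the opponent is total: at the attack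
`j + 1` we have `Ok k s (wM w)` and `wM w ≥ wm w ≥ num .. a b = 3 (fl + fR) = 3 nn (τ j) > j`
(AS2, `Dat`). Then `Ok k s M` for smaller `M` by OPA, and OPC. -/
theorem OKI {k : ℕ} {σ : ℕ → St} (h : Run k σ) {i T : ℕ} (D : AS k σ i T) :
    ∃ A, SLO A ∧ Real k A := by
  sorry

/-- PRA. If infinitely many stages have only attacks with windows `< B` then one permanent frame
attacks at infinitely many of them. At such a stage `s` the attacking frame `i_s` has time stamp
`T_s` with `T_s + 3 ≤ N < B` (`Dat`). So one `T` occurs infinitely often; by ONA downwards all these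
frames are on the stack at stage `T` (the stages are `≥ T` by `Inv.tle`), so they have the same
index `i` (ONB). Then ONB (2). -/
theorem PRA {k : ℕ} {σ : ℕ → St} (h : Run k σ) {B : ℕ} (hB : ∀ S, ∃ s ≥ S, ¬ Long k σ B s) :
    ∃ i T S0, (∀ s ≥ S0, On σ i T s) ∧
      ∀ S, ∃ s ≥ S, AttAt k σ i s ∧ ∀ w, Req k s (σ s) w → Att k s (σ s) w (σ (s + 1)) →
        num (olt k s) (wm w) (wv w) (wv' w) < B := by
  sorry

/-- RI. THEOREM ON REGIONS (I). If `∀ B, ∃ S, ∀ s ≥ S, Long k σ B s` use LC3 for `d0`, `d1`.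
Otherwise PRA, ASE, OKI, GAM give a game with `N j < B` for infinitely many `j` (`AS.all`, AS5
(last part): `wv`, `wv'` are `< wM`), so by GD1 `f` is finally constant, GD4 gives `Stk`, and SK7 is
a contradiction. -/
theorem RI {k : ℕ} {σ : ℕ → St} (h : Run k σ) {d0 d1 d2 d3 : ℕ} (h0 : Far (xo σ) d0 d1)
    (h1 : Far (xo σ) d1 d2) (h2 : Far (xo σ) d2 d3) (B : ℕ) :
    ∃ x' y', x' ∈ Icc' (xo σ) d0 d3 ∧ y' ∈ Icc' (xo σ) d0 d3 ∧
      (Icc' (xo σ) x' y').Finite ∧ B ≤ (Icc' (xo σ) x' y').ncard := by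
  sorry

/-- PUP. If the indices `≤ i` do not attack any more then frame `i` comes to the stack and stays
unchanged. In CAS after stage `S`: if `i < length` then this remains true (an attacking index `i0`
is `> i` and the new length is `i0 + 2`); if `length ≤ i` there is no attack (the attacking index is
`< length`), so the length grows by one. Once `i < length`, the frames `≤ i` are old. -/
theorem PUP {k : ℕ} {σ : ℕ → St} (h : Run k σ) {i S : ℕ}
    (hn : ∀ s ≥ S, ∀ j ≤ i, ¬ AttAt k σ j s) :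
    ∃ S', ∀ s ≥ S', i < (σ s).2.2.length ∧ ∀ j ≤ i, fr (σ s) j = fr (σ S') j := by
  sorry

/-- TCA. A true candidate has a witness. Let `E = 3 (fl a + fR a)`. The numbers `num A m a b` start
with `0`, grow by at most `1`, and are unbounded; choose `m` with value `E`. If `ff a = []` choose
`x0, x1, b1` by NUM3 and FI by FIN, otherwise FIM. (For the proof of `FI` build `w` in two steps, or
state FIZ's argument again.) FIW gives `u, z, v, z', v'`. `M ≥ m` large: `EvLim` gives for every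
`x < E` the witnesses, `M0`, and `M` larger than the six labels. -/
theorem TCA {k : ℕ} {A : ℕ → ℕ → Prop} (hA : SLO A) {c : Cd} {a a' : Fr}
    (he : EvLim A k c) (hi : (Icc' A (ca c) (cb c)).Infinite) (hf : FrInv A c a a')
    (h1 : fl a' ≤ fl a) (h2 : fR a' ≤ fR a) (h3 : 1 ≤ fl a') (h4 : 1 ≤ fR a') :
    ∃ w, Dat A k c a a' w := by
  sorry

/-- INF. Some index attacks infinitely often. Otherwise let `i = encode c + 1` (so `cd i = c`) for
the true candidate `c`; the indices `≤ i` attack finitely often, so PUP applies. By FRI, `lmono`,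
`root` and TCA there is `w` with `Dat A ..` for the constant frames; for large `s` we have
`Ok k s (wM w)` (`Real`, OPA), so DTA gives `Req k s (σ s) w` for all large `s` with
`(Nat.unpair s).1 = i`, for example `s = Nat.pair i t` with `t` large (`s > encode w`,
`wi (encode w) = w`). By CAS frame `i` attacks at `s`. Contradiction. -/
theorem INF {k : ℕ} {σ : ℕ → St} (h : Run k σ) {A : ℕ → ℕ → Prop} (hA : SLO A)
    (hR : Real k A) (hT : ∃ c, EvLim A k c ∧ (Icc' A (ca c) (cb c)).Infinite) :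
    ∃ i, ∀ S, ∃ s ≥ S, AttAt k σ i s := by
  sorry

/-- PRB. The least index which attacks infinitely often is permanent: let no `j < i` attack after
stage `S` and let `i` attack at `s1 ≥ S`. For `s ≥ s1` in CAS the attacking index is `≥ i`, so
`i < length` remains true and the time stamp of frame `i` does not change. -/
theorem PRB {k : ℕ} {σ : ℕ → St} (h : Run k σ) {i : ℕ} (hi : ∀ S, ∃ s ≥ S, AttAt k σ i s)
    (hl : ∀ j < i, ∃ S, ∀ s ≥ S, ¬ AttAt k σ j s) : ∃ T S0, ∀ s ≥ S0, On σ i T s := by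
  sorry

/-- ELI. A frame which attacks infinitely often has true evidence in the limit: at the `j`-th attack
`Ev A k M E c` with `M ≥ m ≥ E = num A m a b`, and `E → ∞` (AS5 (2)). The numbers `num A M m1 m2`
are monotone in `M` and `= 2 k + 1` for arbitrarily large `M`, so `= 2 k + 1` for all `M ≥` the
first one. -/
theorem ELI {k : ℕ} {σ : ℕ → St} (h : Run k σ) {A : ℕ → ℕ → Prop} (hA : SLO A)
    (hR : Real k A) {i T : ℕ} (D : AS k σ i T) : EvLim A k (cd i) := by
  sorry

/-! ## The computable self-embedding -/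

/-- EMB. `P (x, y)` iff (`x < x0` or `b1 < x`) and `y = x`, or `F (x, y)`. By `htot` for every `x`
there is `y`; `Pool.Agent.CeerI.search` gives a computable `g` with `P (x, g x)`. `g` is strictly
increasing (six cases; `mono` with `(x0, x1)` and `(b1, b1)`; if `x < x0` then `g x = x` by `hin`),
`g x0 = x1 ≠ x0` (`mono`, trichotomy, irreflexivity). -/
theorem EMB {A : ℕ → ℕ → Prop} (hA : SLO A) (hd : ComputablePred fun p : ℕ × ℕ => A p.1 p.2)
    {F : ℕ × ℕ → Prop} (hF : REPred F) (mono : ∀ p q, F p → F q → (A p.1 q.1 ↔ A p.2 q.2))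
    {x0 x1 b1 : ℕ} (h0 : F (x0, x1)) (h1 : F (b1, b1)) (h01 : A x0 x1)
    (hin : ∀ p, F p → (x0 = p.1 ∨ A x0 p.1) ∧ (p.1 = b1 ∨ A p.1 b1))
    (htot : ∀ x, (x0 = x ∨ A x0 x) → (x = b1 ∨ A x b1) → ∃ y, F (x, y)) :
    ∃ g : ℕ → ℕ, Computable g ∧ (∀ x y, A x y → A (g x) (g y)) ∧ g ≠ id := by
  sorry

/-- FRE. The union of the lists of a frame is r.e. (`re_exists`, decidable membership). -/
theorem FRE {σ : ℕ → St} (hc : Computable σ) (i S : ℕ) :
    REPred fun p : ℕ × ℕ => ∃ s, S ≤ s ∧ p ∈ ff (fr (σ s) i) := by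
  sorry

/-- RT. THEOREM ON REGIONS (II). INF, then the least such index `i` (`Nat.find`), PRB, ASE, GAM, ELI.
By `hF` and GS the game is not stuck. `F p = ∃ s, τ 0 + 1 ≤ s ∧ p ∈ ff (fr (σ s) i)`; by AS2 this is
`∃ j, p ∈ D.g j = G.f (j + 1)` (for `s > τ 0` there is `j` with `τ j < s ≤ τ (j + 1)`). EMB with
`mono` from GFI (`FI.mono` for large `k`), `x0, x1, b1` from `FI.ends` of `f 1`... (they are the
same for all `k`: use `ends` of `f 1` and `mono`, or FIX1), `htot` from GD2. -/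
theorem RT {k : ℕ} {σ : ℕ → St} (h : Run k σ) (hc : Computable σ) {A : ℕ → ℕ → Prop}
    (hA : SLO A) (hd : ComputablePred fun p : ℕ × ℕ => A p.1 p.2) (hR : Real k A)
    (hT : ∃ c, EvLim A k c ∧ (Icc' A (ca c) (cb c)).Infinite)
    (hF : ∀ c, EvLim A k c → ∃ φ : ℕ → ℕ,
      (∀ x y, x ∈ Icc' A (ca c) (cb c) → y ∈ Icc' A (ca c) (cb c) →
        (A x y ↔ xo σ (φ x) (φ y))) ∧
      (∀ w, w ∈ Icc' (xo σ) (φ (ca c)) (φ (cb c)) → ∃ x ∈ Icc' A (ca c) (cb c), φ x = w) ∧
      (∀ w, xo σ w (φ (ca c)) → ∃ w', xo σ w w' ∧ xo σ w' (φ (ca c))) ∧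
      (∀ w, xo σ (φ (cb c)) w → ∃ w', xo σ (φ (cb c)) w' ∧ xo σ w' w)) :
    ∃ g : ℕ → ℕ, Computable g ∧ (∀ x y, A x y → A (g x) (g y)) ∧ g ≠ id := by
  sorry

end Pool.Agent.DMN.Targets
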